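import Pool.Agent.P.MP_f9c8fc_ag.SysTS

/-! Central elements and their relation. -/

namespace Pool.Agent.P.MP_f9c8fc_ag

variable {B E : Type} [CommRing B] [Algebra ℂ B] [Ring E] [Algebra ℂ E]

lemma exists_factor {A : Type} [Ring A] [Algebra ℂ A] (j : B →ₐ[ℂ] E) (inj : Function.Injective j)
    (g : A →ₐ[ℂ] E) (h : ∀ a, ∃ b, j b = g a) : ∃ ι : A →ₐ[ℂ] B, ∀ a, j (ι a) = g a :=
  ⟨(AlgEquiv.ofInjective j inj).symm.toAlgHom.comp (g.codRestrict j.range h), fun a =>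
    congrArg Subtype.val ((AlgEquiv.ofInjective j inj).apply_symm_apply ⟨g a, h a⟩)⟩

lemma Cj.nat {j : B →ₐ[ℂ] E} {w : E} (n : ℕ) [n.AtLeastTwo] :
    Cj j w (OfNat.ofNat n) (OfNat.ofNat n) := by
  have : Cj j w n n := by simp [Cj, Nat.cast_comm]
  exact this

omit [Algebra ℂ B] in
lemma xy_id {e : Fin 3 → B} {x y z : B} (h : ∀ T, cub e T = (T - x) * (T - y) * (T - z))
    (h' : cub' e x = (y - x) * (z - x)) : 4 * (TS.dd y x * TS.dd z x * mas x) +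
      mas x * cub e (x - 2) * cub e (x + 2) * cub' e x ^ 10 = 0 := by
  have h1 : cub e (x - 2) = -2 * (-2 - (y - x)) * (-2 - (z - x)) := by rw [h]; ring
  have h2 : cub e (x + 2) = 2 * (2 - (y - x)) * (2 - (z - x)) := by rw [h]; ring
  rw [h1, h2, h', TS.dd, TS.dd]
  generalize y - x = u, z - x = v, mas x = m
  ring

lemma map_cub' {R R' F : Type} [CommRing R] [CommRing R'] [FunLike F R R'] [RingHomClass F R R']
    (f : F) (e : Fin 3 → R) (T : R) : f (cub' e T) = cub' (f ∘ e) (f T) := by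
  simp [cub', map_ofNat]

lemma map_mas {R R' F : Type} [CommRing R] [CommRing R'] [FunLike F R R'] [RingHomClass F R R']
    (f : F) (T : R) : f (mas T) = mas (f T) := by
  simp [mas, map_ofNat]

namespace TS
variable (T : TS B E)

def zz : Fin 3 → B := ![T.z1, T.z2, T.z3]

noncomputable def ee (k : Fin 3) : E := T.j (esym T.zz k)
noncomputable def cp (k : Fin 3) : E := T.j (disc (esym T.zz)) * T.Ap k
noncomputable def cm (k : Fin 3) : E := T.j (disc (esym T.zz)) * T.Am k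

variable {T} {S : Sys E}

lemma cj_disc {w : E} (h : ∀ k, Cj T.j w (esym T.zz k) (esym T.zz k)) :
    Cj T.j w (disc (esym T.zz)) (disc (esym T.zz)) := by
  have c4 : Cj T.j w 4 4 := Cj.nat 4
  have c18 : Cj T.j w 18 18 := Cj.nat 18
  have c27 : Cj T.j w 27 27 := Cj.nat 27
  unfold disc
  apply_rules [Cj.add, Cj.sub, Cj.mul, Cj.pow]

lemma cj_esym {w : E} {x y z : B} (h1 : Cj T.j w T.z1 x) (h2 : Cj T.j w T.z2 y)
    (h3 : Cj T.j w T.z3 z) (k : Fin 3) : Cj T.j w (esym T.zz k) (esym ![x, y, z] k) := by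
  fin_cases k
  exacts [(h1.add h2).add h3, ((h1.mul h2).add (h1.mul h3)).add (h2.mul h3), (h1.mul h2).mul h3]

lemma cj_pair {s : E} {x y p : B} (h : s * T.j x = T.j y * s + T.j p)
    (h' : s * T.j y = T.j x * s - T.j p) :
    Cj T.j s (x + y) (x + y) ∧ Cj T.j s (x * y) (x * y) := by
  constructor
  · rw [Cj, map_add, mul_add, add_mul, h, h']; abel
  · rw [Cj, map_mul, ← mul_assoc, h, add_mul, mul_assoc, h', mul_sub, (Cj.self x y).left,
      Cj.self y p, mul_assoc]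
    abel

lemma s1e (L : Link S T) (k : Fin 3) : Cj T.j S.s1 (esym T.zz k) (esym T.zz k) := by
  obtain ⟨h1, h2⟩ := cj_pair (T := T) (s := S.s1) (x := T.z1) (y := T.z2) (p := pp T.t1 T.t2)
    (by rw [L.z1, L.z2, map_pp, L.t1, L.t2, S.s1z1]) (by rw [L.z1, L.z2, map_pp, L.t1, L.t2, S.s1z2])
  have h3 : Cj T.j S.s1 T.z3 T.z3 := by rw [Cj, L.z3, S.s1z3]
  fin_cases k
  · exact h1.add h3
  · convert h2.add (h1.mul h3) using 1 <;> simp [esym, zz] <;> ring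
  · exact h2.mul h3

lemma s2e (L : Link S T) (k : Fin 3) : Cj T.j S.s2 (esym T.zz k) (esym T.zz k) := by
  obtain ⟨h1, h2⟩ := cj_pair (T := T) (s := S.s2) (x := T.z2) (y := T.z3) (p := pp T.t2 T.t3)
    (by rw [L.z2, L.z3, map_pp, L.t2, L.t3, S.s2z2]) (by rw [L.z2, L.z3, map_pp, L.t2, L.t3, S.s2z3])
  have h3 : Cj T.j S.s2 T.z1 T.z1 := by rw [Cj, L.z1, S.s2z1]
  fin_cases k
  · convert h3.add h1 using 1 <;> simp [esym, zz] <;> ring
  · convert h2.add (h3.mul h1) using 1 <;> simp [esym, zz] <;> ring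
  · convert h3.mul h2 using 1 <;> simp [esym, zz] <;> ring

lemma sge (k : Fin 3) : Cj T.j T.sg (esym T.zz k) (esym T.zz k) := by
  convert cj_esym T.sz1 T.sz2 T.sz3 k using 1
  fin_cases k <;> simp [esym, zz] <;> ring

lemma tae (k : Fin 3) : Cj T.j T.ta (esym T.zz k) (esym T.zz k) := by
  convert cj_esym T.tz1 T.tz2 T.tz3 k using 1
  fin_cases k <;> simp [esym, zz] <;> ring

lemma mem_center (hS : S.Univ) {h : E} (h1 : S.s1 * h = h * S.s1) (h2 : S.s2 * h = h * S.s2)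
    (h3 : S.t1 * h = h * S.t1) (h4 : S.t2 * h = h * S.t2) (h5 : S.t3 * h = h * S.t3)
    (h6 : S.sg * h = h * S.sg) (h7 : S.ta * h = h * S.ta) : h ∈ Subalgebra.center ℂ E := by
  rw [Subalgebra.mem_center_iff]
  intro b
  refine (Algebra.commute_of_mem_adjoin_of_forall_mem_commute (R := ℂ) (hS.gen ▸ Algebra.mem_top)
    ?_).symm
  simp only [Set.mem_insert_iff, Set.mem_singleton_iff]
  rintro _ (rfl | rfl | rfl | rfl | rfl | rfl | rfl)
  exacts [h1.symm, h2.symm, h3.symm, h4.symm, h5.symm, h6.symm, h7.symm]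

lemma ee_center (hS : S.Univ) (L : Link S T) (k : Fin 3) : T.ee k ∈ Subalgebra.center ℂ E :=
  mem_center hS (s1e L k) (s2e L k) (L.t1 ▸ Cj.self _ _) (L.t2 ▸ Cj.self _ _) (L.t3 ▸ Cj.self _ _)
    (L.sg ▸ sge k) (L.ta ▸ tae k)

lemma cen_aux {s a h : E} {D D' δ p : B} (ha : a = T.j δ * s - T.j p) (hD : D = D' * δ)
    (h1 : Cj T.j s D D) (h2 : a * h = h * a) (h3 : Cj T.j h p p) (h4 : Cj T.j h δ δ) :
    s * (T.j D * h) = T.j D * h * s := by
  have e : T.j δ * s = a + T.j p := by rw [ha, sub_add_cancel]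
  rw [h1.left, hD, map_mul, mul_assoc, mul_assoc, mul_assoc, ← mul_assoc (T.j δ), e,
    ← h4.left, e, add_mul, h2, ← h3, mul_add h]

lemma cen_center (hS : S.Univ) (L : Link S T) {h : E} (H : T.Cen h) :
    T.j (disc (esym T.zz)) * h ∈ Subalgebra.center ℂ E := by
  refine mem_center hS
    (cen_aux (D' := (T.z1 - T.z2) * ((T.z1 - T.z3) * (T.z2 - T.z3)) ^ 2) L.a ?_ (cj_disc (s1e L))
      H.a (H.t1.pp H.t2) (H.z1.sub H.z2))
    (cen_aux (D' := (T.z2 - T.z3) * ((T.z1 - T.z3) * (T.z1 - T.z2)) ^ 2) L.b ?_ (cj_disc (s2e L))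
      H.b (H.t2.pp H.t3) (H.z2.sub H.z3))
    (L.t1 ▸ ((Cj.self _ _).comp H.t1).symm) (L.t2 ▸ ((Cj.self _ _).comp H.t2).symm)
    (L.t3 ▸ ((Cj.self _ _).comp H.t3).symm) ?_ ?_
  · rw [disc_esym]; simp [zz]; ring
  · rw [disc_esym]; simp [zz]; ring
  · rw [← L.sg, (cj_disc sge).left, H.sg, mul_assoc]
  · rw [← L.ta, (cj_disc tae).left, H.ta, mul_assoc]

lemma quad_cp (w : B) : T.cp 0 + T.cp 1 * T.j w + T.cp 2 * T.j w ^ 2 = T.j (disc (esym T.zz)) *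
    (T.x1 ^ 6 * T.j ((w - T.z2) * (w - T.z3)) + T.x2 ^ 6 * T.j ((w - T.z1) * (w - T.z3)) +
      T.x3 ^ 6 * T.j ((w - T.z1) * (w - T.z2))) := by
  rw [← quad_Ap]; simp only [cp, mul_add, mul_assoc]

lemma Fix.zz {h : E} (H : T.Fix h) (i : Fin 3) : Cj T.j h (T.zz i) (T.zz i) := by
  fin_cases i
  exacts [H.z1, H.z2, H.z3]

lemma quad_cm (i : Fin 3) : T.cm 0 + T.cm 1 * T.j (T.zz i) + T.cm 2 * T.j (T.zz i) ^ 2 =
    T.j (disc (esym T.zz)) * (T.j ((T.zz i - T.z2) * (T.zz i - T.z3)) * T.y1 ^ 6 +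
      T.j ((T.zz i - T.z1) * (T.zz i - T.z3)) * T.y2 ^ 6 +
      T.j ((T.zz i - T.z1) * (T.zz i - T.z2)) * T.y3 ^ 6) := by
  rw [← quad_Am, ← (T.cen_Am 1).toFix.zz i, ← map_pow, ← ((T.cen_Am 2).toFix.zz i).pow 2]
  simp only [cm, mul_add, mul_assoc]

variable (T) in
noncomputable def X6 : Fin 3 → E := ![T.x1 ^ 6, T.x2 ^ 6, T.x3 ^ 6]

variable (T) in
noncomputable def Y6 : Fin 3 → E := ![T.y1 ^ 6, T.y2 ^ 6, T.y3 ^ 6]

lemma quad_cp' (i : Fin 3) : T.cp 0 + T.cp 1 * T.j (T.zz i) + T.cp 2 * T.j (T.zz i) ^ 2 =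
    T.j (disc (esym T.zz)) * (T.X6 i * T.j (cub' (esym T.zz) (T.zz i))) := by
  rw [quad_cp]
  congr 1
  fin_cases i <;> simp only [X6, zz, cub', esym] <;>
    simp [-map_mul, -map_add, -map_sub] <;> congr 2 <;> ring

lemma quad_cm' (i : Fin 3) : T.cm 0 + T.cm 1 * T.j (T.zz i) + T.cm 2 * T.j (T.zz i) ^ 2 =
    T.j (disc (esym T.zz)) * (T.j (cub' (esym T.zz) (T.zz i)) * T.Y6 i) := by
  rw [quad_cm]
  congr 1
  fin_cases i <;> simp only [Y6, zz, cub', esym] <;>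
    simp [-map_mul, -map_add, -map_sub] <;> congr 2 <;> ring

lemma fix6 (i : Fin 3) : T.Fix (T.X6 i) := by
  fin_cases i
  exacts [T.fix1, T.fix2, T.fix3]

lemma XY6 (i : Fin 3) : ∃ u, T.X6 i * T.Y6 i = T.j u ∧ 4 * u + mas (T.zz i) *
    cub (esym T.zz) (T.zz i - 2) * cub (esym T.zz) (T.zz i + 2) *
      cub' (esym T.zz) (T.zz i) ^ 10 = 0 := by
  fin_cases i
  · exact ⟨_, T.XY1, xy_id (fun _ => by rw [cub_esym]; simp [zz]; try ring)
      (by simp [cub', esym, zz]; ring)⟩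
  · exact ⟨_, T.XY2, xy_id (fun _ => by rw [cub_esym]; simp [zz]; try ring)
      (by simp [cub', esym, zz]; ring)⟩
  · exact ⟨_, T.XY3, xy_id (fun _ => by rw [cub_esym]; simp [zz]; try ring)
      (by simp [cub', esym, zz]; ring)⟩

theorem rel (e cp cm : Fin 3 → Subalgebra.center ℂ E) (he : ∀ k, (e k).1 = T.ee k)
    (hp : ∀ k, (cp k).1 = T.cp k) (hm : ∀ k, (cm k).1 = T.cm k) : REL e cp cm := by
  obtain ⟨B', _, _, j', inj, hj⟩ := exists_comm ((Subalgebra.center ℂ E : Set E) ∪ Set.range T.j) (by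
    rintro a (ha | ⟨a, rfl⟩) b (hb | ⟨b, rfl⟩)
    exacts [Subalgebra.mem_center_iff.1 hb _, (Subalgebra.mem_center_iff.1 ha _).symm,
      Subalgebra.mem_center_iff.1 hb _, Cj.self _ _])
  obtain ⟨ι, hι⟩ := exists_factor j' inj (Subalgebra.center ℂ E).val fun a => hj _ (Or.inl a.2)
  obtain ⟨g, hg⟩ := exists_factor j' inj T.j fun a => hj _ (Or.inr ⟨a, rfl⟩)
  have h1 : ι ∘ e = g ∘ esym T.zz := funext fun k => inj (by
    simp only [Function.comp_apply, hι, hg]; exact he k)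
  refine rel_of ι (fun a b h => Subtype.ext ((hι a).symm.trans ((congrArg j' h).trans (hι b))))
    (g ∘ T.zz) (h1.trans (map_esym g _)) fun i => ?_
  obtain ⟨u, hu, hu'⟩ := T.XY6 i
  have h2 : quad (ι ∘ cp) (g (T.zz i)) * quad (ι ∘ cm) (g (T.zz i)) =
      g (disc (esym T.zz) * (cub' (esym T.zz) (T.zz i) * (disc (esym T.zz) *
        (cub' (esym T.zz) (T.zz i) * u)))) := inj (by
    have H := T.fix6 i
    have c1 : ∀ k, Cj T.j (T.X6 i) (esym T.zz k) (esym T.zz k) := cj_esym H.z1 H.z2 H.z3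
    have c2 : Cj T.j (T.X6 i) (cub' (esym T.zz) (T.zz i)) (cub' (esym T.zz) (T.zz i)) := by
      exact (((Cj.nat 3).mul ((H.zz i).pow 2)).sub (((Cj.nat 2).mul (c1 0)).mul (H.zz i))).add (c1 1)
    simp only [quad, map_mul, map_add, map_pow, Function.comp_apply, hι, hg, Subalgebra.coe_val,
      hp, hm]
    rw [quad_cp', quad_cm', mul_assoc, mul_assoc, c2.left, (cj_disc c1).left, c2.left, hu])
  have h3 := congrArg g hu'
  have h4 : ∀ n : ℕ, [n.AtLeastTwo] → g (OfNat.ofNat n) = OfNat.ofNat n := fun n _ => map_ofNat g n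
  rw [relx, mul_assoc 4, Function.comp_apply, h2, h1, ← map_disc, ← map_cub', ← map_mas, ← h4 2,
    ← map_sub, ← map_add, ← map_cub, ← map_cub]
  simp only [map_add, map_mul, map_pow, h4, map_zero] at h3 ⊢
  linear_combination (g (disc (esym T.zz)) * g (cub' (esym T.zz) (T.zz i))) ^ 2 * h3

section hom
variable {B' E' : Type} [CommRing B'] [Algebra ℂ B'] [Ring E'] [Algebra ℂ E'] {T' : TS B' E'}
  {S' : Sys E'} {f : E →ₐ[ℂ] E'}

/-- `f` maps the system `T` to the system `T'`. -/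
structure Hom (T : TS B E) (T' : TS B' E') (f : E →ₐ[ℂ] E') : Prop where
  z1 : f (T.j T.z1) = T'.j T'.z1
  z2 : f (T.j T.z2) = T'.j T'.z2
  z3 : f (T.j T.z3) = T'.j T'.z3
  a : f T.a = T'.a
  b : f T.b = T'.b
  sg : f T.sg = T'.sg
  ta : f T.ta = T'.ta

lemma hom_of (L : Link S T) (L' : Link S' T') (h : S.Hom S' f) : T.Hom T' f := by
  have h1 : f (T.j T.z1) = T'.j T'.z1 := by
    simp [L.z1, L'.z1, Sys.z1, map_Pp, h.sg, h.ta, h.t1]
  have h3 : f (T.j T.z3) = T'.j T'.z3 := by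
    simp [L.z3, L'.z3, Sys.z3, map_Pp, h.sg, h.ta, h.t3]
  have h2 : f (T.j T.z2) = T'.j T'.z2 := by
    simp [L.z2, L'.z2, Sys.z2, ← L.z3, ← L'.z3, h3, map_pp, h.s2, h.t2, h.t3]
  refine ⟨h1, h2, h3, ?_, ?_, by rw [L.sg, L'.sg, h.sg], by rw [L.ta, L'.ta, h.ta]⟩
  · simp [L.a, L'.a, h1, h2, map_pp, L.t1, L.t2, L'.t1, L'.t2, h.s1, h.t1, h.t2]
  · simp [L.b, L'.b, h3, h2, map_pp, L.t3, L.t2, L'.t3, L'.t2, h.s2, h.t3, h.t2]

lemma Hom.ee (h : T.Hom T' f) (k : Fin 3) : f (T.ee k) = T'.ee k := by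
  fin_cases k <;> simp [TS.ee, esym, zz, h.z1, h.z2, h.z3]

lemma Hom.disc (h : T.Hom T' f) : f (T.j (disc (esym T.zz))) = T'.j (disc (esym T'.zz)) := by
  simp [disc_esym, zz, h.z1, h.z2, h.z3]

lemma Hom.gg (k : Fin 3) {x y : B} {x' y' : B'} (h : f (T.j x) = T'.j x')
    (h' : f (T.j y) = T'.j y') : f (T.j (gg k x y)) = T'.j (gg k x' y') := by
  fin_cases k <;> simp [MP_f9c8fc_ag.gg, h, h']

lemma Hom.cp (h : T.Hom T' f) (k : Fin 3) : f (T.cp k) = T'.cp k := by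
  simp only [TS.cp, Ap, x1, x2, x3, map_mul f, map_add f, map_pow f, h.disc, h.a, h.b, h.sg,
    Hom.gg k h.z1 h.z2, Hom.gg k h.z1 h.z3, Hom.gg k h.z2 h.z3]

lemma Hom.cm (h : T.Hom T' f) (k : Fin 3) : f (T.cm k) = T'.cm k := by
  simp only [TS.cm, Am, y1, y2, y3, map_mul f, map_add f, map_pow f, h.disc, h.a, h.b, h.ta,
    Hom.gg k h.z1 h.z2, Hom.gg k h.z1 h.z3, Hom.gg k h.z2 h.z3]

end hom

end TS

end Pool.Agent.P.MP_f9c8fc_ag
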