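import Pool.Agent.Lib.Helper83.Coc

/-! Prisms, normalised torus sweeps, cubes. -/

open Set Finsupp Pool.Agent.Lib.Helper83

namespace Pool.Agent.P.MP_f9c8fc_ag

variable {X Y Z : Type} [TopologicalSpace X] [TopologicalSpace Y] [TopologicalSpace Z]
  [Nonempty X]

/-- The unit interval. -/
abbrev II : Set ℝ := Icc 0 1

/-- The prism over a chain. -/
noncomputable def pr : Ch ℂ X →ₗ[ℂ] Ch ℂ (X × ℝ) := Pri id

section pr
variable {S : Set X} {k : ℕ} {c : Ch ℂ X}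

lemma pr_mem (hc : c ∈ sub ℂ S k) : pr c ∈ sub ℂ (S ×ˢ II) (k + 1) :=
  Pri_mem (fun _ h => h) hc

lemma bd_pr (hc : c ∈ sub ℂ S k) :
    bd (pr c) = push (fun x => (x, (1 : ℝ))) c - push (fun x => (x, (0 : ℝ))) c - pr (bd c) :=
  eq_sub_of_add_eq (bd_Pri (H := id) continuousOn_id hc)

lemma ext_prod_cont {k : ℕ} (s : C(Dl k, X)) :
    ContinuousOn (Prod.map (ext s) (id : ℝ → ℝ)) (stdSimplex ℝ (Fin k) ×ˢ II) :=
  (ext_cont s).prodMap continuousOn_id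

lemma Pri_eq (H : X × ℝ → Y) (c : Ch ℂ X) : Pri H c = push H (pr c) := by
  refine all_eq (Pri H) (push H ∘ₗ pr) ?_ c
  rintro ⟨k, s⟩
  show nPri.op H (sx ℂ s) = push H (nPri.op id (sx ℂ s))
  rw [NatOp.op_sx, NatOp.op_sx, Function.id_comp, push_push H (ext_prod_cont s) (nPri.model_mem k)]

lemma pr_push [Nonempty Y] {g : X → Y} (hg : ContinuousOn g S) (hc : c ∈ sub ℂ S k) :
    pr (push g c) = push (Prod.map g id) (pr c) := by
  refine sub_eq (pr ∘ₗ push g) (push _ ∘ₗ pr) (fun s hs => ?_) hc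
  show pr (push g (sx ℂ s)) = push _ (nPri.op id (sx ℂ s))
  rw [push_sx g s (cont_of hg hs)]
  show nPri.op id _ = _
  rw [NatOp.op_sx, NatOp.op_sx, Function.id_comp, Function.id_comp,
    push_push _ (ext_prod_cont s) (nPri.model_mem k)]
  refine push_congr (fun p hp => ?_) (nPri.model_mem k)
  simp only [Function.comp_apply, Prod.map]
  rw [ext_val _ ⟨p.1, hp.1⟩, ext_val _ ⟨p.1, hp.1⟩]; rfl

end pr

/-- Set the first sweeping parameter to zero. -/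
def k1 (p : (X × ℝ) × ℝ) : (X × ℝ) × ℝ := ((p.1.1, 0), p.2)

/-- Set the second sweeping parameter to zero. -/
def k2 (p : (X × ℝ) × ℝ) : (X × ℝ) × ℝ := (p.1, 0)

/-- Exchange the sweeping parameters. -/
def ks (p : (X × ℝ) × ℝ) : (X × ℝ) × ℝ := ((p.1.1, p.2), p.1.2)

/-- The normalised push forward. -/
noncomputable def npush (G : (X × ℝ) × ℝ → Y) : Ch ℂ ((X × ℝ) × ℝ) →ₗ[ℂ] Ch ℂ Y :=
  push G - push (G ∘ k1) - push (G ∘ k2) + push (G ∘ k1 ∘ k2)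

/-- The normalised sweep along two circle parameters. -/
noncomputable def sw (G : (X × ℝ) × ℝ → Y) : Ch ℂ X →ₗ[ℂ] Ch ℂ Y := npush G ∘ₗ pr ∘ₗ pr

section sw
variable {S : Set X} {k : ℕ} {c : Ch ℂ X} {G G' : (X × ℝ) × ℝ → Y} {T : Set Y}

omit [TopologicalSpace X] [Nonempty X] in
lemma k1_maps : MapsTo k1 ((S ×ˢ II) ×ˢ II) ((S ×ˢ II) ×ˢ II) :=
  fun _ h => ⟨⟨h.1.1, by simp [k1]⟩, h.2⟩

omit [TopologicalSpace X] [Nonempty X] in
lemma k2_maps : MapsTo k2 ((S ×ˢ II) ×ˢ II) ((S ×ˢ II) ×ˢ II) :=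
  fun _ h => ⟨h.1, by simp [k2]⟩

omit [TopologicalSpace X] [Nonempty X] in
lemma ks_maps : MapsTo ks ((S ×ˢ II) ×ˢ II) ((S ×ˢ II) ×ˢ II) :=
  fun _ h => ⟨⟨h.1.1, h.2⟩, h.1.2⟩

omit [Nonempty X] in
lemma k1_cont : Continuous (k1 (X := X)) := by unfold k1; fun_prop

omit [Nonempty X] in
lemma k2_cont : Continuous (k2 (X := X)) := by unfold k2; fun_prop

omit [Nonempty X] in
lemma ks_cont : Continuous (ks (X := X)) := by unfold ks; fun_prop

omit [Nonempty X] in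
lemma npush_apply (G : (X × ℝ) × ℝ → Y) (e : Ch ℂ ((X × ℝ) × ℝ)) : npush G e =
    push G e - push (G ∘ k1) e - push (G ∘ k2) e + push (G ∘ k1 ∘ k2) e := rfl

lemma sw_apply (G : (X × ℝ) × ℝ → Y) (c : Ch ℂ X) : sw G c = npush G (pr (pr c)) := rfl

omit [Nonempty X] in
lemma npush_mem (hG : MapsTo G ((S ×ˢ II) ×ˢ II) T) {e : Ch ℂ ((X × ℝ) × ℝ)}
    (he : e ∈ sub ℂ ((S ×ˢ II) ×ˢ II) k) : npush G e ∈ sub ℂ T k :=
  add_mem (sub_mem (sub_mem (push_mem hG he) (push_mem (hG.comp k1_maps) he))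
    (push_mem (hG.comp k2_maps) he)) (push_mem (hG.comp (k1_maps.comp k2_maps)) he)

omit [Nonempty X] in
lemma bd_npush (hG : ContinuousOn G ((S ×ˢ II) ×ˢ II)) {e : Ch ℂ ((X × ℝ) × ℝ)}
    (he : e ∈ sub ℂ ((S ×ˢ II) ×ˢ II) k) : bd (npush G e) = npush G (bd e) := by
  simp only [npush_apply, map_add, map_sub]
  rw [bd_push hG he, bd_push (hG.comp k1_cont.continuousOn k1_maps) he,
    bd_push (hG.comp k2_cont.continuousOn k2_maps) he,
    bd_push (hG.comp (k1_cont.comp k2_cont).continuousOn (k1_maps.comp k2_maps)) he]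

omit [Nonempty X] in
lemma npush_congr (h : EqOn G G' ((S ×ˢ II) ×ˢ II)) {e : Ch ℂ ((X × ℝ) × ℝ)}
    (he : e ∈ sub ℂ ((S ×ˢ II) ×ˢ II) k) : npush G e = npush G' e := by
  rw [npush_apply, npush_apply, push_congr h he,
    push_congr (g := G ∘ k1) (g' := G' ∘ k1) (fun p hp => h (k1_maps hp)) he,
    push_congr (g := G ∘ k2) (g' := G' ∘ k2) (fun p hp => h (k2_maps hp)) he,
    push_congr (g := G ∘ k1 ∘ k2) (g' := G' ∘ k1 ∘ k2) (fun p hp => h (k1_maps (k2_maps hp))) he]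

omit [Nonempty X] in
lemma npush_zero1 (h : EqOn G (G ∘ k1) ((S ×ˢ II) ×ˢ II)) {e : Ch ℂ ((X × ℝ) × ℝ)}
    (he : e ∈ sub ℂ ((S ×ˢ II) ×ˢ II) k) : npush G e = 0 := by
  rw [npush_apply, push_congr h he,
    push_congr (g := G ∘ k2) (g' := G ∘ k1 ∘ k2) (fun p hp => h (k2_maps hp)) he]
  abel

omit [Nonempty X] in
lemma npush_zero2 (h : EqOn G (G ∘ k2) ((S ×ˢ II) ×ˢ II)) {e : Ch ℂ ((X × ℝ) × ℝ)}
    (he : e ∈ sub ℂ ((S ×ˢ II) ×ˢ II) k) : npush G e = 0 := by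
  rw [npush_apply, push_congr h he,
    push_congr (g := G ∘ k1) (g' := G ∘ k1 ∘ k2) (fun p hp => h (k1_maps hp)) he]
  abel

omit [Nonempty X] in
lemma npush_push {W : Type} [TopologicalSpace W] {g : W → (X × ℝ) × ℝ} {A : Set W}
    (hg : ContinuousOn g A) {e : Ch ℂ W} (he : e ∈ sub ℂ A k) : npush G (push g e) =
    push (G ∘ g) e - push (G ∘ k1 ∘ g) e - push (G ∘ k2 ∘ g) e + push (G ∘ k1 ∘ k2 ∘ g) e := by
  rw [npush_apply, push_push _ hg he, push_push _ hg he, push_push _ hg he, push_push _ hg he]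
  rfl

lemma sw_mem (hG : MapsTo G ((S ×ˢ II) ×ˢ II) T) (hc : c ∈ sub ℂ S k) :
    sw G c ∈ sub ℂ T (k + 2) := npush_mem hG (pr_mem (pr_mem hc))

lemma sw_congr (h : EqOn G G' ((S ×ˢ II) ×ˢ II)) (hc : c ∈ sub ℂ S k) : sw G c = sw G' c :=
  npush_congr h (pr_mem (pr_mem hc))

lemma sw_zero1 (h : EqOn G (G ∘ k1) ((S ×ˢ II) ×ˢ II)) (hc : c ∈ sub ℂ S k) : sw G c = 0 :=
  npush_zero1 h (pr_mem (pr_mem hc))

lemma sw_zero2 (h : EqOn G (G ∘ k2) ((S ×ˢ II) ×ˢ II)) (hc : c ∈ sub ℂ S k) : sw G c = 0 :=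
  npush_zero2 h (pr_mem (pr_mem hc))

lemma sw_push {W : Type} [TopologicalSpace W] [Nonempty W] {g : W → X} {A : Set W}
    (hg : ContinuousOn g A) {e : Ch ℂ W} (he : e ∈ sub ℂ A k) :
    sw G (push g e) = sw (G ∘ Prod.map (Prod.map g id) id) e := by
  have h1 : ContinuousOn (Prod.map g (id : ℝ → ℝ)) (A ×ˢ II) := hg.prodMap continuousOn_id
  rw [sw_apply, pr_push hg he, pr_push h1 (pr_mem he),
    npush_push (h1.prodMap continuousOn_id) (pr_mem (pr_mem he))]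
  rfl

lemma push_sw (F : Y → Z) (hG : ContinuousOn G ((S ×ˢ II) ×ˢ II)) (hc : c ∈ sub ℂ S k) :
    push F (sw G c) = sw (F ∘ G) c := by
  have he := pr_mem (pr_mem hc)
  simp only [sw_apply, npush_apply, map_add, map_sub]
  rw [push_push F hG he, push_push F (hG.comp k1_cont.continuousOn k1_maps) he,
    push_push F (hG.comp k2_cont.continuousOn k2_maps) he,
    push_push F (hG.comp (k1_cont.comp k2_cont).continuousOn (k1_maps.comp k2_maps)) he]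
  rfl

lemma bd_pr_pr (hc : c ∈ sub ℂ S k) : bd (pr (pr c)) = pr (pr (bd c)) +
    (push (fun q : X × ℝ => (q, (1 : ℝ))) (pr c) - push (fun q : X × ℝ => (q, (0 : ℝ))) (pr c)) -
    (push (fun q : X × ℝ => ((q.1, (1 : ℝ)), q.2)) (pr c) -
      push (fun q : X × ℝ => ((q.1, (0 : ℝ)), q.2)) (pr c)) := by
  rw [bd_pr (pr_mem hc), bd_pr hc, map_sub, map_sub, pr_push (by fun_prop) hc,
    pr_push (by fun_prop) hc]
  simp only [Prod.map_def, id]
  abel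

/-- Periodicity in both sweeping parameters. -/
def Per (G : (X × ℝ) × ℝ → Y) (S : Set X) : Prop :=
  ∀ x ∈ S, ∀ a ∈ II, G ((x, 1), a) = G ((x, 0), a) ∧ G ((x, a), 1) = G ((x, a), 0)

lemma bd_sw (hG : ContinuousOn G ((S ×ˢ II) ×ˢ II)) (hp : Per G S) (hc : c ∈ sub ℂ S k) :
    bd (sw G c) = sw G (bd c) := by
  have he := pr_mem hc
  rw [sw_apply, bd_npush hG (pr_mem he), bd_pr_pr hc, map_sub, map_add, map_sub, map_sub,
    npush_push (by fun_prop) he, npush_push (by fun_prop) he, npush_push (by fun_prop) he,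
    npush_push (by fun_prop) he, sw_apply]
  have e1 := push_congr (R := ℂ) (g := G ∘ fun q : X × ℝ => (q, (1 : ℝ)))
    (g' := G ∘ fun q : X × ℝ => (q, (0 : ℝ))) (fun q hq => (hp q.1 hq.1 q.2 hq.2).2) he
  have e2 := push_congr (R := ℂ) (g := G ∘ k1 ∘ fun q : X × ℝ => (q, (1 : ℝ)))
    (g' := G ∘ k1 ∘ fun q : X × ℝ => (q, (0 : ℝ))) (fun q hq => (hp q.1 hq.1 0 (by simp)).2) he
  have e3 := push_congr (R := ℂ) (g := G ∘ fun q : X × ℝ => ((q.1, (1 : ℝ)), q.2))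
    (g' := G ∘ fun q : X × ℝ => ((q.1, (0 : ℝ)), q.2)) (fun q hq => (hp q.1 hq.1 q.2 hq.2).1) he
  have e4 := push_congr (R := ℂ) (g := G ∘ k2 ∘ fun q : X × ℝ => ((q.1, (1 : ℝ)), q.2))
    (g' := G ∘ k2 ∘ fun q : X × ℝ => ((q.1, (0 : ℝ)), q.2))
    (fun q hq => (hp q.1 hq.1 0 (by simp)).1) he
  rw [e1, e2, e3, e4]
  simp only [Function.comp_def, k1, k2]
  abel

/-- Exchanging the two circles changes the sign, up to a boundary. -/
lemma sw_swap {S₁ S₂ : Set X} (hG : ContinuousOn G ((S ×ˢ II) ×ˢ II))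
    (hT : MapsTo G ((S ×ˢ II) ×ˢ II) T) (hc : c ∈ sub ℂ S (k + 1)) {n₁ n₂ : Ch ℂ X}
    (h₁ : n₁ ∈ sub ℂ S₁ k) (h₂ : n₂ ∈ sub ℂ S₂ k) (hb : bd c = n₁ + n₂)
    (z₁ : EqOn G (G ∘ k1) ((S₁ ×ˢ II) ×ˢ II)) (z₂ : EqOn G (G ∘ k2) ((S₂ ×ˢ II) ×ˢ II)) :
    sw G c + sw (G ∘ ks) c ∈ Bd ℂ T (k + 3) := by
  let Rr : Ch ℂ X →ₗ[ℂ] Ch ℂ ((X × ℝ) × ℝ) := pr ∘ₗ pr + push ks ∘ₗ pr ∘ₗ pr
  have Rm : ∀ {A : Set X} {m : ℕ} {e : Ch ℂ X}, e ∈ sub ℂ A m →
      Rr e ∈ sub ℂ ((A ×ˢ II) ×ˢ II) (m + 2) := fun he =>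
    add_mem (pr_mem (pr_mem he)) (push_mem ks_maps (pr_mem (pr_mem he)))
  have Rb : bd (Rr c) = Rr (bd c) := by
    have he := pr_mem hc
    simp only [Rr, LinearMap.add_apply, LinearMap.comp_apply, map_add]
    rw [bd_push ks_cont.continuousOn (pr_mem he), bd_pr_pr hc]
    simp only [map_add, map_sub]
    rw [push_push ks (by fun_prop) he, push_push ks (by fun_prop) he,
      push_push ks (by fun_prop) he, push_push ks (by fun_prop) he]
    simp only [Function.comp_def, ks]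
    abel
  let H : ((X × ℝ) × ℝ) × ℝ → (X × ℝ) × ℝ := fun q => ((q.1.1.1, q.2 * q.1.1.2), q.2 * q.1.2)
  have Hc : Continuous H := by fun_prop
  have Hm : ∀ A : Set X, MapsTo H (((A ×ˢ II) ×ˢ II) ×ˢ II) ((A ×ˢ II) ×ˢ II) := fun A q hq =>
    ⟨⟨hq.1.1.1, mul_nonneg hq.2.1 hq.1.1.2.1, mul_le_one₀ hq.2.2 hq.1.1.2.1 hq.1.1.2.2⟩,
      mul_nonneg hq.2.1 hq.1.2.1, mul_le_one₀ hq.2.2 hq.1.2.1 hq.1.2.2⟩
  have h3 := congrArg (npush G) (bd_Pri Hc.continuousOn (Rm hc))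
  rw [Rb, hb, map_add Rr, map_add (Pri H), map_add, map_add, npush_zero1 z₁ (Pri_mem (Hm _) (Rm h₁)),
    npush_zero2 z₂ (Pri_mem (Hm _) (Rm h₂)), map_sub,
    push_eq_self (g := fun x => H (x, 1)) (fun x _ => by simp [H]) (Rm hc),
    npush_push (by fun_prop) (Rm hc), ← bd_npush hG (Pri_mem (Hm _) (Rm hc))] at h3
  refine ⟨_, npush_mem hT (Pri_mem (Hm _) (Rm hc)), ?_⟩
  have h4 : npush G (Rr c) = sw G c + sw (G ∘ ks) c := by
    simp only [Rr, LinearMap.add_apply, LinearMap.comp_apply, map_add]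
    rw [npush_push ks_cont.continuousOn (pr_mem (pr_mem hc)), sw_apply, sw_apply,
      npush_apply (G ∘ ks)]
    simp only [Function.comp_def, k1, k2, ks]
    abel
  rw [← h4]
  simp only [Function.comp_def, k1, k2, H, zero_mul] at h3
  linear_combination (norm := abel) h3

end sw

/-- The induction step for the fundamental class of a cube. -/
lemma cube_step {C : Set X} (hC : IsClosed C) {k : ℕ} {c : Ch ℂ X} (hc : c ∈ sub ℂ univ (k + 1))
    (hb : bd c ∈ sub ℂ Cᶜ k) (h : bd c ∉ Bd ℂ Cᶜ k) :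
    bd (pr c) ∈ sub ℂ (C ×ˢ {(1 / 2 : ℝ)})ᶜ (k + 1) ∧
      bd (pr c) ∉ Bd ℂ (C ×ˢ {(1 / 2 : ℝ)})ᶜ (k + 1) := by
  obtain ⟨S, hS⟩ : ∃ S : Set (X × ℝ), S = (C ×ˢ {(1 / 2 : ℝ)})ᶜ := ⟨_, rfl⟩
  obtain ⟨U, hU⟩ : ∃ U : Set (X × ℝ), U = {q | q.1 ∉ C ∨ 1 / 2 < q.2} := ⟨_, rfl⟩
  obtain ⟨V, hV⟩ : ∃ V : Set (X × ℝ), V = {q | q.1 ∉ C ∨ q.2 < 1 / 2} := ⟨_, rfl⟩
  rw [← hS]
  have h1 : push (fun x => (x, (1 : ℝ))) c ∈ sub ℂ (S ∩ U) (k + 1) := by
    refine push_mem (fun x _ => ?_) hc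
    simp [hS, hU]; norm_num
  have h2 : -push (fun x => (x, (0 : ℝ))) c - pr (bd c) ∈ sub ℂ (S ∩ V) (k + 1) := by
    refine sub_mem (neg_mem (push_mem (fun x _ => ?_) hc)) (sub_mono (fun q hq => ?_) (pr_mem hb))
    · simp [hS, hV]
    · rw [hS, hV]; exact ⟨fun h => hq.1 h.1, Or.inl hq.1⟩
  have e : bd (pr c) = push (fun x => (x, (1 : ℝ))) c +
      (-push (fun x => (x, (0 : ℝ))) c - pr (bd c)) := by rw [bd_pr hc]; abel
  constructor
  · rw [e]; exact add_mem (sub_mono inter_subset_left h1) (sub_mono inter_subset_left h2)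
  rintro ⟨u, hu, hub⟩
  have oU : IsOpen U := by
    rw [hU]
    exact (hC.isOpen_compl.preimage continuous_fst).union (isOpen_Ioi.preimage continuous_snd)
  have oV : IsOpen V := by
    rw [hV]
    exact (hC.isOpen_compl.preimage continuous_fst).union (isOpen_Iio.preimage continuous_snd)
  have cov : S ⊆ U ∪ V := fun q hq => by
    rw [hS] at hq
    rw [hU, hV]
    by_cases h : q.1 ∈ C
    · rcases lt_trichotomy q.2 (1 / 2) with h' | h' | h'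
      exacts [Or.inr (Or.inr h'), (hq ⟨h, h'⟩).elim, Or.inl (Or.inr h')]
    · exact Or.inl (Or.inl h)
  obtain ⟨y₁, hy₁, y₂, hy₂, w, -, hw⟩ := split oU oV cov hu h1 h2 (hub.trans e)
  have h5 := congrArg bd hw
  rw [bd_bd, map_sub, map_sub, hub, e] at h5
  have h6 : push (fun x => (x, (1 : ℝ))) c - bd y₁ ∈ sub ℂ ((S ∩ U) ∩ (S ∩ V)) (k + 1) := by
    refine sub_inter (sub_mem h1 (bd_mem hy₁)) ?_
    have : push (fun x => (x, (1 : ℝ))) c - bd y₁ =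
        bd y₂ - (-push (fun x => (x, (0 : ℝ))) c - pr (bd c)) := by
      linear_combination (norm := abel) -h5
    rw [this]
    exact sub_mem (bd_mem hy₂) h2
  refine h ⟨_, push_mem (g := Prod.fst) (fun q hq => ?_) h6, ?_⟩
  · rw [hU, hV] at hq
    rcases hq.1.2 with h | h
    · exact h
    · rcases hq.2.2 with h' | h'
      · exact h'
      · exact absurd (lt_trans h h') (lt_irrefl _)
  · rw [bd_push continuousOn_fst h6, map_sub, bd_bd, sub_zero, bd_push (by fun_prop) hc,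
      push_push _ (S := univ) (by fun_prop) (bd_mem hc)]
    exact push_id _

lemma pr_zero {S : Set X} {c : Ch ℂ X} (hc : c ∈ sub ℂ S 0) : pr c = 0 := by
  have h : c ∈ sub ℂ (∅ : Set X) 0 :=
    sub_ind LinearMap.id (fun s _ => sx_mem fun t => by simpa using t.2.2) hc
  have := pr_mem h
  rw [empty_prod] at this
  exact sub_empty this

/-- The unit segment. -/
noncomputable def κ1 : Ch ℂ ℝ := push Prod.snd (pr (pt ℂ (0 : ℝ)))

lemma κ1_mem : κ1 ∈ sub ℂ II 2 := push_mem (fun _ h => h.2) (pr_mem (pt_mem (mem_univ _)))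

lemma bd_κ1 : bd κ1 = pt ℂ 1 - pt ℂ 0 := by
  have h : pt ℂ (0 : ℝ) ∈ sub ℂ univ 1 := pt_mem (mem_univ _)
  rw [κ1, bd_push continuousOn_snd (pr_mem h), bd_pr h, pr_zero (bd_mem h)]
  simp [push_pt]

/-- The prism over a point. -/
lemma pr_pt (x : X) : pr (pt ℂ x) = push (fun r : ℝ => (x, r)) κ1 := by
  have h : pt ℂ (0 : ℝ) ∈ sub ℂ univ 1 := pt_mem (mem_univ _)
  rw [κ1, push_push _ continuousOn_snd (pr_mem h), ← push_pt (fun _ : ℝ => x) 0,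
    pr_push continuousOn_const h]
  rfl

/-- The boundary of the square. -/
lemma bd_κ2 : bd (pr κ1) = push (fun r : ℝ => (r, (1 : ℝ))) κ1 - push (fun r : ℝ => (r, (0 : ℝ))) κ1
    - push (fun r : ℝ => ((1 : ℝ), r)) κ1 + push (fun r : ℝ => ((0 : ℝ), r)) κ1 := by
  rw [bd_pr κ1_mem, bd_κ1, map_sub, pr_pt, pr_pt]
  abel

lemma κ1_base : bd κ1 ∈ sub ℂ ({(1 / 2 : ℝ)} : Set ℝ)ᶜ 1 ∧
    bd κ1 ∉ Bd ℂ ({(1 / 2 : ℝ)} : Set ℝ)ᶜ 1 := by
  rw [bd_κ1]
  refine ⟨sub_mem (pt_mem (by norm_num)) (pt_mem (by norm_num)), ?_⟩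
  rintro ⟨u, hu, h⟩
  let φ : ℝ → ℂ := fun x => if 1 / 2 < x then 1 else 0
  have h0 : ev φ (bd u) = 0 := by
    refine sub_eq (ev φ ∘ₗ bd) 0 (fun s hs => ?_) hu
    simp only [LinearMap.comp_apply, bd_two, map_sub, ev_pt, LinearMap.zero_apply, sub_eq_zero, φ]
    have hp : IsPreconnected (range s) := isPreconnected_range s.continuous
    have key : ∀ a b, 1 / 2 < s a → 1 / 2 < s b := fun a b ha => by
      by_contra hb
      obtain ⟨t, ht⟩ := hp.Icc_subset (mem_range_self b) (mem_range_self a) ⟨not_lt.1 hb, ha.le⟩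
      exact hs t ht
    exact if_congr ⟨key _ _, key _ _⟩ rfl rfl
  rw [h] at h0
  norm_num [φ] at h0

/-- The five dimensional cube. -/
noncomputable def κ5 : Ch ℂ ((((ℝ × ℝ) × ℝ) × ℝ) × ℝ) := pr (pr (pr (pr κ1)))

/-- The boundary of the cube does not bound in the complement of its centre. -/
theorem κ5_ne : bd κ5 ∉
    Bd ℂ ({(((((1 / 2 : ℝ), (1 / 2 : ℝ)), (1 / 2 : ℝ)), (1 / 2 : ℝ)), (1 / 2 : ℝ))} : Set _)ᶜ 5 := by
  have m1 : κ1 ∈ sub ℂ univ 2 := sub_mono (subset_univ _) κ1_mem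
  have m2 := sub_mono (subset_univ _) (pr_mem m1)
  have m3 := sub_mono (subset_univ _) (pr_mem m2)
  have m4 := sub_mono (subset_univ _) (pr_mem m3)
  have h2 := cube_step isClosed_singleton m1 κ1_base.1 κ1_base.2
  rw [singleton_prod_singleton] at h2
  have h3 := cube_step isClosed_singleton m2 h2.1 h2.2
  rw [singleton_prod_singleton] at h3
  have h4 := cube_step isClosed_singleton m3 h3.1 h3.2
  rw [singleton_prod_singleton] at h4
  have h5 := cube_step isClosed_singleton m4 h4.1 h4.2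
  rw [singleton_prod_singleton] at h5
  exact h5.2

end Pool.Agent.P.MP_f9c8fc_ag
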