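import Pool.Agent.P.MP_f9c8fc_ag.CherS

/-! From the small presentation to the defining relations. -/

namespace Pool.Agent.P.MP_f9c8fc_ag.Cher

variable {E : Type} [Ring E] [Algebra ℂ E] (S : Sys E)

lemma s1t2 : S.s1 * S.t2 = S.t1 * S.s1 := by
  have h := congrArg (fun u => S.s1 * u * S.s1) S.s1t1
  simp only [mul_assoc, r1 S.s1s1, S.s1s1, mul_one] at h
  exact h.symm

lemma s2t3 : S.s2 * S.t3 = S.t2 * S.s2 := by
  have h := congrArg (fun u => S.s2 * u * S.s2) S.s2t2
  simp only [mul_assoc, r1 S.s2s2, S.s2s2, mul_one] at h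
  exact h.symm

omit [Algebra ℂ E] in
lemma pow_val_add {t : E} (h : t ^ 6 = 1) (m n : ZMod 6) :
    t ^ (m + n).val = t ^ m.val * t ^ n.val := by
  rw [ZMod.val_add, ← pow_add, ← pow_eq_pow_mod _ h]

def tau (k : Fin 3 → ZMod 6) : E := S.t1 ^ (k 0).val * S.t2 ^ (k 1).val * S.t3 ^ (k 2).val

lemma tau_add (k k' : Fin 3 → ZMod 6) : tau S (fun i => k i + k' i) = tau S k * tau S k' := by
  have h12 : Commute S.t1 S.t2 := S.t12
  have h13 : Commute S.t1 S.t3 := S.t13
  have h23 : Commute S.t2 S.t3 := S.t23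
  simp only [tau, pow_val_add S.t1_6, pow_val_add S.t2_6, pow_val_add S.t3_6, mul_assoc]
  rw [ra (h13.symm.pow_pow _ _).eq, ra (h23.symm.pow_pow _ _).eq, ra (h12.symm.pow_pow _ _).eq]

def SS (p : Equiv.Perm (Fin 3)) : E :=
  ![![1, 1, S.s2], ![S.s1, 1, S.s1 * S.s2], ![S.s2 * S.s1, S.s1 * S.s2 * S.s1, 1]] (p 0) (p 1)

def ph (g : G) : E := tau S g.k * SS S g.p

lemma tau_zero : tau S 0 = 1 := by simp [tau]

lemma perm3' (p : Equiv.Perm (Fin 3)) : p = 1 ∨ p = a.p ∨ p = b.p ∨ p = (a * b).p ∨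
    p = (b * a).p ∨ p = (a * b * a).p := by
  revert p; decide

lemma a_ph (g : G) : ph S (a * g) = S.s1 * ph S g := by
  have h1 : S.s1 * tau S g.k = tau S (a * g).k * S.s1 := by
    have h12 : Commute S.t1 S.t2 := S.t12
    have k1 : SemiconjBy S.s1 S.t1 S.t2 := S.s1t1
    have k2 : SemiconjBy S.s1 S.t2 S.t1 := s1t2 S
    have k3 : SemiconjBy S.s1 S.t3 S.t3 := S.s1t3
    have e0 : (a * g).k 0 = g.k 1 := zero_add _
    have e1 : (a * g).k 1 = g.k 0 := zero_add _
    have e2 : (a * g).k 2 = g.k 2 := zero_add _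
    rw [tau, tau, e0, e1, e2, (h12.pow_pow (g.k 1).val _).eq]
    exact ((k1.pow_right _).mul_right (k2.pow_right _)).mul_right (k3.pow_right _)
  have h2 : SS S (a.p * g.p) = S.s1 * SS S g.p := by
    rcases perm3' g.p with h | h | h | h | h | h <;> rw [h]
    · exact (mul_one _).symm
    · exact S.s1s1.symm
    · rfl
    · exact (r1 S.s1s1 _).symm
    · exact mul_assoc _ _ _
    · change S.s2 * S.s1 = S.s1 * (S.s1 * S.s2 * S.s1)
      rw [mul_assoc, r1 S.s1s1]
  rw [ph, ph, ← mul_assoc, h1, mul_assoc, ← h2, mul_p]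

lemma b_ph (g : G) : ph S (b * g) = S.s2 * ph S g := by
  have h1 : S.s2 * tau S g.k = tau S (b * g).k * S.s2 := by
    have h23 : Commute S.t2 S.t3 := S.t23
    have k1 : SemiconjBy S.s2 S.t1 S.t1 := S.s2t1
    have k2 : SemiconjBy S.s2 S.t2 S.t3 := S.s2t2
    have k3 : SemiconjBy S.s2 S.t3 S.t2 := s2t3 S
    have e0 : (b * g).k 0 = g.k 0 := zero_add _
    have e1 : (b * g).k 1 = g.k 2 := zero_add _
    have e2 : (b * g).k 2 = g.k 1 := zero_add _
    rw [tau, tau, e0, e1, e2, mul_assoc (S.t1 ^ _) (S.t2 ^ (g.k 2).val),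
      (h23.pow_pow (g.k 2).val _).eq, ← mul_assoc (S.t1 ^ _)]
    exact ((k1.pow_right _).mul_right (k2.pow_right _)).mul_right (k3.pow_right _)
  have h2 : SS S (b.p * g.p) = S.s2 * SS S g.p := by
    rcases perm3' g.p with h | h | h | h | h | h <;> rw [h]
    · exact (mul_one _).symm
    · rfl
    · exact S.s2s2.symm
    · exact S.br.trans (mul_assoc _ _ _)
    · exact (r1 S.s2s2 _).symm
    · change S.s1 * S.s2 = S.s2 * (S.s1 * S.s2 * S.s1)
      rw [S.br, mul_assoc, r1 S.s2s2]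
  rw [ph, ph, ← mul_assoc, h1, mul_assoc, ← h2, mul_p]

lemma T_ph (i : Fin 3) (g : G) : ph S (T i 1 * g) = tau S (Pi.single i 1) * ph S g := by
  rw [ph, ph, ← mul_assoc, ← tau_add]
  rfl

lemma ph_one : ph S 1 = 1 := by
  change tau S 0 * 1 = 1
  rw [tau_zero, one_mul]

lemma ph_mul (g h : G) : ph S (g * h) = ph S g * ph S h := by
  let K : Submonoid G :=
    { carrier := {g | ∀ h, ph S (g * h) = ph S g * ph S h}
      one_mem' := fun h => by rw [one_mul, ph_one, one_mul]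
      mul_mem' := fun {g g'} hg hg' h => by rw [mul_assoc, hg, hg', hg, mul_assoc] }
  refine G_ind K (fun h => ?_) (fun h => ?_) (fun h => ?_) g h
  · rw [a_ph, ← mul_one a, a_ph, ph_one, mul_one]
  · rw [b_ph, ← mul_one b, b_ph, ph_one, mul_one]
  · rw [T_ph, ← mul_one (T 0 1), T_ph, ph_one, mul_one]

def phi : G →* E where
  toFun := ph S
  map_one' := ph_one S
  map_mul' := ph_mul S

lemma phi_a : phi S a = S.s1 := by
  change ph S a = _
  rw [← mul_one a, a_ph, ph_one, mul_one]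

lemma phi_b : phi S b = S.s2 := by
  change ph S b = _
  rw [← mul_one b, b_ph, ph_one, mul_one]

lemma phi_T (i : Fin 3) : phi S (T i 1) = ![S.t1, S.t2, S.t3] i := by
  change ph S _ = _
  rw [← mul_one (T i 1), T_ph, ph_one, mul_one]
  fin_cases i <;> simp [tau, vals.2.1]

lemma phi_t1 : phi S (T 0 1) = S.t1 := phi_T S 0
lemma phi_t2 : phi S (T 1 1) = S.t2 := phi_T S 1
lemma phi_t3 : phi S (T 2 1) = S.t3 := phi_T S 2

noncomputable def XX : Module.Dual ℂ V →ₗ[ℂ] E where
  toFun x := x (ev 0) • (S.sg * S.s2 * S.s1) + x (ev 1) • (S.s1 * S.sg * S.s2) +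
    x (ev 2) • (S.s2 * S.s1 * S.sg)
  map_add' x x' := by simp only [LinearMap.add_apply]; module
  map_smul' c x := by simp only [LinearMap.smul_apply, smul_eq_mul, RingHom.id_apply]; module

noncomputable def YY : V →ₗ[ℂ] E where
  toFun y := y 0 • (S.s1 * S.s2 * S.ta) + y 1 • (S.s2 * S.ta * S.s1) + y 2 • (S.ta * S.s1 * S.s2)
  map_add' x x' := by simp only [Pi.add_apply]; module
  map_smul' c x := by simp only [Pi.smul_apply, smul_eq_mul, RingHom.id_apply]; module

lemma X0 : XX S (xv 0) = S.sg * S.s2 * S.s1 := by simp [XX, xv, ev]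
lemma X1 : XX S (xv 1) = S.s1 * S.sg * S.s2 := by simp [XX, xv, ev]
lemma X2 : XX S (xv 2) = S.s2 * S.s1 * S.sg := by simp [XX, xv, ev]
lemma Y0 : YY S (ev 0) = S.s1 * S.s2 * S.ta := by simp [YY, ev]
lemma Y1 : YY S (ev 1) = S.s2 * S.ta * S.s1 := by simp [YY, ev]
lemma Y2 : YY S (ev 2) = S.ta * S.s1 * S.s2 := by simp [YY, ev]

lemma br' (c : E) : S.s1 * (S.s2 * (S.s1 * c)) = S.s2 * (S.s1 * (S.s2 * c)) := by
  simp only [← mul_assoc, S.br]

lemma br'' : S.s1 * (S.s2 * S.s1) = S.s2 * (S.s1 * S.s2) := by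
  simp only [← mul_assoc, S.br]

lemma dA_smul (g : G) (c : ℂ) (x : Module.Dual ℂ V) : dA g (c • x) = c • dA g x := rfl

lemma dA_add (g : G) (x x' : Module.Dual ℂ V) : dA g (x + x') = dA g x + dA g x' := rfl

lemma actX (g : G) (x : Module.Dual ℂ V) : phi S g * XX S x = XX S (dA g x) * phi S g := by
  let K : Submonoid G :=
    { carrier := {g | ∀ x, phi S g * XX S x = XX S (dA g x) * phi S g}
      one_mem' := fun x => by rw [map_one, dA_one, one_mul, mul_one]
      mul_mem' := fun {g g'} hg hg' x => by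
        rw [map_mul, mul_assoc, hg', ← mul_assoc, hg, dA_mul, mul_assoc] }
  have key : ∀ g, (∀ i, phi S g * XX S (xv i) = XX S (dA g (xv i)) * phi S g) → g ∈ K := by
    intro g hg x
    rw [X_eq x]
    simp only [dA_add, dA_smul, map_add, map_smul, mul_add, add_mul, mul_smul_comm,
      smul_mul_assoc, hg]
  have pa : ∀ (g : G) (i j : Fin 3), g.p i = j → g.k j = 0 → dA g (xv i) = xv j := by
    intro g i j h h'
    rw [dA_xv, h, h', neg_zero, chi_zero, one_smul]
  refine G_ind K (key _ ?_) (key _ ?_) (key _ ?_) g x <;> rw [Fin.forall_fin_succ,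
    Fin.forall_fin_two]
  · change (phi S a * XX S (xv 0) = _) ∧ (phi S a * XX S (xv 1) = XX S (dA a (xv 1)) * _) ∧
      (phi S a * XX S (xv 2) = XX S (dA a (xv 2)) * _)
    rw [pa a 0 1 (by decide) (by decide), pa a 1 0 (by decide) (by decide),
      pa a 2 2 (by decide) (by decide), X0, X1, X2, phi_a]
    simp only [mul_assoc, r1 S.s1s1, S.s1s1, mul_one, S.sgs1, br', and_self]
  · change (phi S b * XX S (xv 0) = _) ∧ (phi S b * XX S (xv 1) = XX S (dA b (xv 1)) * _) ∧
      (phi S b * XX S (xv 2) = XX S (dA b (xv 2)) * _)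
    rw [pa b 0 0 (by decide) (by decide), pa b 1 2 (by decide) (by decide),
      pa b 2 1 (by decide) (by decide), X0, X1, X2, phi_b]
    simp only [mul_assoc, r1 S.s2s2, S.s2s2, mul_one, ← ra S.sgs1, br'', and_self]
  · change (phi S _ * XX S (xv 0) = _) ∧ (phi S _ * XX S (xv 1) = XX S (dA _ (xv 1)) * _) ∧
      (phi S _ * XX S (xv 2) = XX S (dA _ (xv 2)) * _)
    rw [pa (T 0 1) 1 1 (by decide) (by decide), pa (T 0 1) 2 2 (by decide) (by decide), dA_xv,
      show (T 0 1).p 0 = 0 by decide, show (T 0 1).k 0 = 1 by decide, map_smul, X0, X1, X2, phi_t1]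
    refine ⟨?_, ?_, ?_⟩
    · simp only [mul_assoc, smul_mul_assoc]
      rw [S.s1t1, ra S.s2t2, ra S.sgt3, smul_mul_assoc, smul_smul, ← chi_one, chi_neg_mul, one_smul]
    · simp only [mul_assoc]
      rw [S.s2t1, ra S.sgt1, ra (s1t2 S)]
    · simp only [mul_assoc]
      rw [S.sgt1, ra (s1t2 S), ra S.s2t1]

lemma actY (g : G) (y : V) : phi S g * YY S y = YY S (rho g y) * phi S g := by
  let K : Submonoid G :=
    { carrier := {g | ∀ y, phi S g * YY S y = YY S (rho g y) * phi S g}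
      one_mem' := fun y => by rw [map_one, map_one, one_mul, mul_one]; rfl
      mul_mem' := fun {g g'} hg hg' y => by
        rw [map_mul, mul_assoc, hg', ← mul_assoc, hg, map_mul, mul_assoc]; rfl }
  have key : ∀ g, (∀ i, phi S g * YY S (ev i) = YY S (rho g (ev i)) * phi S g) → g ∈ K := by
    intro g hg y
    rw [V_eq y]
    simp only [map_add, map_smul, mul_add, add_mul, mul_smul_comm, smul_mul_assoc, hg]
  have pa : ∀ (g : G) (i j : Fin 3), g.p i = j → g.k j = 0 → rho g (ev i) = ev j := by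
    intro g i j h h'
    rw [rho_ev, h, h', chi_zero, one_smul]
  refine G_ind K (key _ ?_) (key _ ?_) (key _ ?_) g y <;> rw [Fin.forall_fin_succ,
    Fin.forall_fin_two]
  · change (phi S a * YY S (ev 0) = _) ∧ (phi S a * YY S (ev 1) = YY S (rho a (ev 1)) * _) ∧
      (phi S a * YY S (ev 2) = YY S (rho a (ev 2)) * _)
    rw [pa a 0 1 (by decide) (by decide), pa a 1 0 (by decide) (by decide),
      pa a 2 2 (by decide) (by decide), Y0, Y1, Y2, phi_a]
    simp only [mul_assoc, r1 S.s1s1, S.s1s1, mul_one, ra S.s1ta, br'', and_self]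
  · change (phi S b * YY S (ev 0) = _) ∧ (phi S b * YY S (ev 1) = YY S (rho b (ev 1)) * _) ∧
      (phi S b * YY S (ev 2) = YY S (rho b (ev 2)) * _)
    rw [pa b 0 0 (by decide) (by decide), pa b 1 2 (by decide) (by decide),
      pa b 2 1 (by decide) (by decide), Y0, Y1, Y2, phi_b]
    simp only [mul_assoc, r1 S.s2s2, S.s2s2, mul_one, ← S.s1ta, br', and_self]
  · change (phi S _ * YY S (ev 0) = _) ∧ (phi S _ * YY S (ev 1) = YY S (rho _ (ev 1)) * _) ∧
      (phi S _ * YY S (ev 2) = YY S (rho _ (ev 2)) * _)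
    rw [pa (T 0 1) 1 1 (by decide) (by decide), pa (T 0 1) 2 2 (by decide) (by decide), rho_ev,
      show (T 0 1).p 0 = 0 by decide, show (T 0 1).k 0 = 1 by decide, map_smul, Y0, Y1, Y2, phi_t1]
    refine ⟨?_, ?_, ?_⟩
    · simp only [mul_assoc, smul_mul_assoc]
      rw [← ra (s1t2 S), ← ra (s2t3 S), S.t3ta, chi_one]
      simp only [mul_smul_comm]
    · simp only [mul_assoc]
      rw [← ra S.s2t1, ra S.t1ta, ← S.s1t1]
    · simp only [mul_assoc]
      rw [ra S.t1ta, ← ra S.s1t1, ← S.s2t1]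

lemma pQ (p : Equiv.Perm (Fin 3)) (i : Fin 3) :
    rho (Q p) (ev i) = ev (p i) ∧ dA (Q p) (xv i) = xv (p i) := by
  simp [rho_ev, dA_xv, Q]

lemma pairs (i j : Fin 3) (u v : Fin 3) (h : u ≠ v) :
    i = j ∨ ∃ p : Equiv.Perm (Fin 3), p u = i ∧ p v = j := by
  revert i j u v; decide

omit [Algebra ℂ E] in
lemma cancel (φ : G →* E) (g : G) {u v : E} (h : u * φ g = v * φ g) : u = v := by
  have := congrArg (· * φ g⁻¹) h
  simpa only [mul_assoc, ← map_mul, mul_inv_cancel, map_one, mul_one] using this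

lemma commX (x x' : Module.Dual ℂ V) : XX S x * XX S x' = XX S x' * XX S x := by
  have h0 : XX S (xv 0) * XX S (xv 1) = XX S (xv 1) * XX S (xv 0) := by
    have h := S.sgsg
    rw [X0, X1]
    simp only [mul_assoc] at h ⊢
    have h' : ∀ c, S.s1 * (S.sg * (S.sg * c)) = S.sg * (S.sg * (S.s2 * c)) := fun c => by
      simpa only [mul_assoc] using congrArg (· * c) h.symm
    simp only [r1 S.s1s1, ← ra S.sgs1, h', ← br', S.s1s1, mul_one]
  have h1 : ∀ i j, XX S (xv i) * XX S (xv j) = XX S (xv j) * XX S (xv i) := by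
    intro i j
    rcases pairs i j 0 1 (by decide) with rfl | ⟨p, rfl, rfl⟩
    · rfl
    · refine cancel (phi S) (Q p) ?_
      rw [← (pQ p 0).2, ← (pQ p 1).2, mul_assoc, mul_assoc, ← actX, ← actX, ← ra (actX S _ _),
        ← ra (actX S _ _), h0]
  rw [X_eq x, X_eq x']
  simp only [map_add, map_smul, mul_add, add_mul, mul_smul_comm, smul_mul_assoc, h1 1 0, h1 2 0,
    h1 2 1]
  module

lemma commY (y y' : V) : YY S y * YY S y' = YY S y' * YY S y := by
  have h0 : YY S (ev 0) * YY S (ev 1) = YY S (ev 1) * YY S (ev 0) := by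
    have h := S.tata
    rw [Y0, Y1]
    simp only [mul_assoc] at h ⊢
    simp only [r1 S.s1s1, ← ra S.s1ta, ← h, br', r1 S.s2s2]
  have h1 : ∀ i j, YY S (ev i) * YY S (ev j) = YY S (ev j) * YY S (ev i) := by
    intro i j
    rcases pairs i j 0 1 (by decide) with rfl | ⟨p, rfl, rfl⟩
    · rfl
    · refine cancel (phi S) (Q p) ?_
      rw [← (pQ p 0).1, ← (pQ p 1).1, mul_assoc, mul_assoc, ← actY, ← actY, ← ra (actY S _ _),
        ← ra (actY S _ _), h0]
  rw [V_eq y, V_eq y']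
  simp only [map_add, map_smul, mul_add, add_mul, mul_smul_comm, smul_mul_assoc, h1 1 0, h1 2 0,
    h1 2 1]
  module

lemma cher' (y : V) (x : Module.Dual ℂ V) :
    YY S y * XX S x - XX S x * YY S y = BR (phi S) y x := by
  have h00 : YY S (ev 0) * XX S (xv 0) - XX S (xv 0) * YY S (ev 0) = BR (phi S) (ev 0) (xv 0) := by
    have h := S.zz
    have k := zz_rhs (phi S) (S.ta * S.sg)
    rw [BR00]
    rw [phi_a, phi_b, phi_t1, phi_t2, phi_t3] at *
    rw [k, ← eq_sub_iff_add_eq] at h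
    rw [X0, Y0]
    simp only [mul_assoc, r1 S.s1s1, r1 S.s2s2] at h ⊢
    rw [h]
    abel
  have h20 : YY S (ev 2) * XX S (xv 0) - XX S (xv 0) * YY S (ev 2) = BR (phi S) (ev 2) (xv 0) := by
    have h := congrArg (· * (S.s1 * (S.s2 * S.s1))) S.mix
    rw [BR20, phi_a, phi_b, phi_t1, phi_t3, X0, Y2, sub_eq_iff_eq_add']
    simp only [mul_assoc, add_mul, smul_mul_assoc] at h ⊢
    rw [← ra S.sgs1, h, ra S.s1ta, br'']
  have hc : ∀ (p : Equiv.Perm (Fin 3)) i j,
      YY S (ev i) * XX S (xv j) - XX S (xv j) * YY S (ev i) = BR (phi S) (ev i) (xv j) →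
      YY S (ev (p i)) * XX S (xv (p j)) - XX S (xv (p j)) * YY S (ev (p i)) =
        BR (phi S) (ev (p i)) (xv (p j)) := by
    intro p i j h
    refine cancel (phi S) (Q p) ?_
    rw [← (pQ p i).1, ← (pQ p j).2, ← BR_conj, ← h, sub_mul, mul_sub, mul_assoc, mul_assoc,
      ← actX, ← actY, ← ra (actX S _ _), ← ra (actY S _ _)]
  have h1 : ∀ i j, YY S (ev i) * XX S (xv j) = XX S (xv j) * YY S (ev i) +
      BR (phi S) (ev i) (xv j) := by
    intro i j
    rw [← sub_eq_iff_eq_add']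
    rcases pairs i j 2 0 (by decide) with rfl | ⟨p, rfl, rfl⟩
    · simpa using hc (Equiv.swap 0 i) 0 0 h00
    · exact hc p 2 0 h20
  have b1 : ∀ y y' x, BR (phi S) (y + y') x = BR (phi S) y x + BR (phi S) y' x := by
    intro y y' x
    simp only [BR, ← Finset.sum_add_distrib, ← add_smul, map_add, map_sub]
    exact Finset.sum_congr rfl fun g _ => congrArg (· • phi S g) (by ring)
  have b2 : ∀ (c : ℂ) y x, BR (phi S) (c • y) x = c • BR (phi S) y x := by
    intro c y x
    simp only [BR, Finset.smul_sum, smul_smul, map_smul, map_sub, smul_eq_mul]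
    exact Finset.sum_congr rfl fun g _ => congrArg (· • phi S g) (by ring)
  have b3 : ∀ y x x', BR (phi S) y (x + x') = BR (phi S) y x + BR (phi S) y x' := by
    intro y x x'
    simp only [BR, ← Finset.sum_add_distrib, ← add_smul, LinearMap.add_apply, mul_add]
  have b4 : ∀ (c : ℂ) y x, BR (phi S) y (c • x) = c • BR (phi S) y x := by
    intro c y x
    simp only [BR, Finset.smul_sum, smul_smul, LinearMap.smul_apply, smul_eq_mul]
    exact Finset.sum_congr rfl fun g _ => congrArg (· • phi S g) (by ring)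
  rw [V_eq y, X_eq x]
  simp only [map_add, map_smul, mul_add, add_mul, mul_smul_comm, smul_mul_assoc, h1, b1, b2, b3, b4]
  module

noncomputable def ofSys : Model E where
  φ := phi S
  Y := YY S
  X := XX S
  actY := actY S
  actX := actX S
  commX := commX S
  commY := commY S
  cher := cher' S

end Pool.Agent.P.MP_f9c8fc_ag.Cher

namespace Pool.Agent.P.MP_f9c8fc_ag

open Cher

theorem cher : CHER := by
  refine ⟨D, valid, MH.toSys, ?_, ?_⟩
  · set K := Algebra.adjoin ℂ {MH.toSys.s1, MH.toSys.s2, MH.toSys.t1, MH.toSys.t2, MH.toSys.t3,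
      MH.toSys.sg, MH.toSys.ta}
    have ha : MH.φ a ∈ K := Algebra.subset_adjoin (by simp [Model.toSys])
    have hb : MH.φ b ∈ K := Algebra.subset_adjoin (by simp [Model.toSys])
    have ht : MH.φ (T 0 1) ∈ K := Algebra.subset_adjoin (by simp [Model.toSys])
    have hsg : MH.X (xv 0) * MH.φ a * MH.φ b ∈ K := Algebra.subset_adjoin (by simp [Model.toSys])
    have hta : MH.φ b * MH.φ a * MH.Y (ev 0) ∈ K := Algebra.subset_adjoin (by simp [Model.toSys])
    have hφ : ∀ g, MH.φ g ∈ K := G_ind (K.toSubsemiring.toSubmonoid.comap MH.φ) ha hb ht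
    have h4 : MH.φ a * MH.φ a = 1 := mp1 _ (by decide)
    have h5 : MH.φ b * MH.φ b = 1 := mp1 _ (by decide)
    have hx0 : MH.X (xv 0) ∈ K := by
      simpa only [mul_assoc, r1 h5, h4, mul_one] using K.mul_mem (K.mul_mem hsg hb) ha
    have hy0 : MH.Y (ev 0) ∈ K := by
      simpa only [mul_assoc, r1 h5, r1 h4] using K.mul_mem ha (K.mul_mem hb hta)
    have hx : ∀ i, MH.X (xv i) ∈ K := fun i => by
      have := K.mul_mem (K.mul_mem (hφ (Q (Equiv.swap 0 i))) hx0) (hφ (Q (Equiv.swap 0 i))⁻¹)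
      rwa [MH.actX, (pQ _ _).2, mul_assoc, ← map_mul, mul_inv_cancel, map_one, mul_one,
        Equiv.swap_apply_left] at this
    have hy : ∀ i, MH.Y (ev i) ∈ K := fun i => by
      have := K.mul_mem (K.mul_mem (hφ (Q (Equiv.swap 0 i))) hy0) (hφ (Q (Equiv.swap 0 i))⁻¹)
      rwa [MH.actY, (pQ _ _).1, mul_assoc, ← map_mul, mul_inv_cancel, map_one, mul_one,
        Equiv.swap_apply_left] at this
    refine MH_gen K hφ (fun y => ?_) (fun x => ?_)
    · rw [V_eq y]
      simp only [map_add, map_smul]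
      exact K.add_mem (K.add_mem (K.smul_mem (hy 0) _) (K.smul_mem (hy 1) _)) (K.smul_mem (hy 2) _)
    · rw [X_eq x]
      simp only [map_add, map_smul]
      exact K.add_mem (K.add_mem (K.smul_mem (hx 0) _) (K.smul_mem (hx 1) _)) (K.smul_mem (hx 2) _)
  · intro E' _ _ S'
    obtain ⟨f, h1, h2, h3⟩ := MH_lift (ofSys S')
    refine ⟨f, (h1 _).trans (phi_a S'), (h1 _).trans (phi_b S'), (h1 _).trans (phi_t1 S'),
      (h1 _).trans (phi_t2 S'), (h1 _).trans (phi_t3 S'), ?_, ?_⟩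
    · change f (MH.X (xv 0) * MH.φ a * MH.φ b) = _
      rw [map_mul, map_mul, h1, h1, h3]
      change Cher.XX S' (xv 0) * phi S' a * phi S' b = _
      rw [X0, phi_a, phi_b]
      simp only [mul_assoc, r1 S'.s1s1, S'.s2s2, mul_one]
    · change f (MH.φ b * MH.φ a * MH.Y (ev 0)) = _
      rw [map_mul, map_mul, h1, h1, h2]
      change phi S' b * phi S' a * YY S' (ev 0) = _
      rw [Y0, phi_a, phi_b]
      simp only [mul_assoc, r1 S'.s1s1, r1 S'.s2s2]

end Pool.Agent.P.MP_f9c8fc_ag
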