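import Pool.Agent.P.MP_f9c8fc_ag.Iface

/-! The group `G(6,1,3)`, its reflection representation and the parameter. -/

namespace Pool.Agent.P.MP_f9c8fc_ag.Cher

section Lin
variable {V : Type} [AddCommGroup V] [Module ℂ V] [Module.Finite ℂ V]

lemma isRefl_of {s : V ≃ₗ[ℂ] V} {α : Module.Dual ℂ V} {β : V} (hα : α ≠ 0) (hβ : β ≠ 0)
    (h : ∀ y, s y - y = α y • β) : IsRefl s := by
  have : LinearMap.eqLocus (s : V →ₗ[ℂ] V) LinearMap.id = LinearMap.ker α := by
    ext y
    simp only [LinearMap.mem_eqLocus, LinearMap.mem_ker, LinearEquiv.coe_coe, LinearMap.id_apply]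
    rw [← sub_eq_zero, h, smul_eq_zero]
    simp [hβ]
  unfold IsRefl
  rw [this]
  exact Module.Dual.finrank_ker_add_one_of_ne_zero hα

lemma exists_of_isRefl {s : V ≃ₗ[ℂ] V} (h : IsRefl s) :
    ∃ p : Module.Dual ℂ V × V, p.1 ≠ 0 ∧ p.2 ≠ 0 ∧ ∀ y, s y - y = p.1 y • p.2 := by
  set N : V →ₗ[ℂ] V := (s : V →ₗ[ℂ] V) - LinearMap.id with hN
  have hk : LinearMap.eqLocus (s : V →ₗ[ℂ] V) LinearMap.id = LinearMap.ker N := by
    ext y
    simp [hN, LinearMap.mem_eqLocus, sub_eq_zero]
  unfold IsRefl at h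
  rw [hk] at h
  have h1 : Module.finrank ℂ (LinearMap.range N) = 1 := by
    have := N.finrank_range_add_finrank_ker
    omega
  obtain ⟨β, hβ, hall⟩ := finrank_eq_one_iff'.1 h1
  have hβ' : (β : V) ≠ 0 := fun h0 => hβ (Subtype.ext h0)
  obtain ⟨φ, hφ⟩ := Module.Projective.exists_dual_eq_one ℂ hβ'
  refine ⟨(φ ∘ₗ N, β), ?_, hβ', fun y => ?_⟩
  · obtain ⟨y, hy⟩ := β.2
    intro h0
    have := congrArg (fun f : Module.Dual ℂ V => f y) h0
    simp [hy, hφ] at this
  · obtain ⟨c, hc⟩ := hall ⟨N y, LinearMap.mem_range_self _ _⟩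
    have hc' : c • (β : V) = N y := congrArg Subtype.val hc
    have : s y - y = N y := by simp [hN]
    rw [this]
    simp [← hc', hφ]

lemma det_of {s : V ≃ₗ[ℂ] V} {α : Module.Dual ℂ V} {β : V} (h : ∀ y, s y - y = α y • β) :
    LinearMap.det (s : V →ₗ[ℂ] V) - 1 = α β := by
  have : (s : V →ₗ[ℂ] V) = LinearMap.transvection α β := by
    ext y
    rw [LinearMap.transvection.apply, ← h]
    simp
  rw [this, LinearMap.transvection.det]
  ring

omit [Module.Finite ℂ V] in
lemma ne_zero_of {s : V ≃ₗ[ℂ] V} {α : Module.Dual ℂ V} {β : V} (hα : α ≠ 0) (hβ : β ≠ 0)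
    (h : ∀ y, s y - y = α y • β) {n : ℕ} (hn : 0 < n) (hs : s ^ n = 1) : α β ≠ 0 := by
  intro h0
  have h1 : ∀ y, s y = y + α y • β := fun y => by rw [← h]; simp
  have h2 : ∀ (m : ℕ) y, (s ^ m) y = y + ((m : ℂ) * α y) • β := by
    intro m
    induction m with
    | zero => simp
    | succ m ih =>
      intro y
      rw [pow_succ', LinearEquiv.mul_apply, ih, h1]
      simp only [map_add, map_smul, h0, smul_eq_mul, mul_zero, add_zero, Nat.cast_succ, add_mul,
        one_mul, add_smul, add_assoc]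
  apply hα
  ext y
  have := h2 n y
  rw [hs] at this
  have h3 : ((n : ℂ) * α y) • β = 0 := by simpa using this
  have h4 : (n : ℂ) ≠ 0 := Nat.cast_ne_zero.2 hn.ne'
  simpa [hβ, h4] using h3

end Lin

/-- The group of monomial matrices with entries sixth roots of unity. -/
@[ext] structure G where
  k : Fin 3 → ZMod 6
  p : Equiv.Perm (Fin 3)
deriving Fintype

instance : DecidableEq G := fun a b =>
  decidable_of_iff ((∀ i, a.k i = b.k i) ∧ ∀ i, a.p i = b.p i)
    ⟨fun h => G.ext (funext h.1) (Equiv.ext h.2), fun h => h ▸ ⟨fun _ => rfl, fun _ => rfl⟩⟩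

instance : Mul G := ⟨fun a b => ⟨fun i => a.k i + b.k (a.p.symm i), a.p * b.p⟩⟩
instance : One G := ⟨⟨0, 1⟩⟩
instance : Inv G := ⟨fun a => ⟨fun i => -a.k (a.p i), a.p⁻¹⟩⟩

@[simp] lemma mul_k (a b : G) (i : Fin 3) : (a * b).k i = a.k i + b.k (a.p.symm i) := rfl
@[simp] lemma mul_p (a b : G) : (a * b).p = a.p * b.p := rfl
@[simp] lemma one_k (i : Fin 3) : (1 : G).k i = 0 := rfl
@[simp] lemma one_p : (1 : G).p = 1 := rfl
@[simp] lemma inv_k (a : G) (i : Fin 3) : (a⁻¹).k i = -a.k (a.p i) := rfl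
@[simp] lemma inv_p (a : G) : (a⁻¹).p = a.p⁻¹ := rfl

instance : Group G := Group.ofLeftAxioms
  (fun a b c => by
    ext i
    · simp [add_assoc, Equiv.Perm.mul_def]
    · simp)
  (fun a => by
    ext i
    · simp [Equiv.Perm.one_def]
    · simp)
  (fun a => by
    ext i
    · simp [Equiv.Perm.inv_def]
    · simp)

noncomputable def chi (k : ZMod 6) : ℂ := ze ^ k.val

lemma chi_add (a b : ZMod 6) : chi (a + b) = chi a * chi b := by
  unfold chi
  rw [ZMod.val_add, ← pow_add, ← pow_eq_pow_mod _ ze_six]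

@[simp] lemma chi_zero : chi 0 = 1 := by simp [chi]

lemma chi_one : chi 1 = ze := by
  unfold chi
  rw [show (1 : ZMod 6).val = 1 from rfl, pow_one]

lemma chi_neg_mul (a : ZMod 6) : chi (-a) * chi a = 1 := by rw [← chi_add]; simp

lemma chi_mul_neg (a : ZMod 6) : chi a * chi (-a) = 1 := by rw [← chi_add]; simp

lemma chi_eq_one {a : ZMod 6} (h : chi a = 1) : a = 0 := by
  by_contra h0
  exact ze_prim.pow_ne_one_of_pos_of_lt (by simpa using h0) (ZMod.val_lt a) h

abbrev V := Fin 3 → ℂ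

noncomputable def rl (g : G) : V →ₗ[ℂ] V where
  toFun v i := chi (g.k i) * v (g.p.symm i)
  map_add' v w := by ext i; simp [mul_add]
  map_smul' c v := by ext i; simp; ring

noncomputable def rhoL : G →* (V →ₗ[ℂ] V) where
  toFun := rl
  map_one' := by ext v i; simp [rl, Equiv.Perm.one_def]
  map_mul' a b := by
    refine LinearMap.ext fun v => funext fun i => ?_
    simp [rl, chi_add, mul_assoc, Equiv.Perm.mul_def]

noncomputable def rho : G →* (V ≃ₗ[ℂ] V) :=
  (LinearMap.GeneralLinearGroup.generalLinearEquiv ℂ V).toMonoidHom.comp rhoL.toHomUnits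

lemma rho_apply (g : G) (v : V) (i : Fin 3) : rho g v i = chi (g.k i) * v (g.p.symm i) := rfl

lemma rho_symm (g : G) : (rho g).symm = rho g⁻¹ := by rw [map_inv]; rfl

lemma rho_inj : Function.Injective rho := by
  rw [injective_iff_map_eq_one]
  intro g hg
  have h : ∀ (v : V) i, chi (g.k i) * v (g.p.symm i) = v i := fun v i => by
    rw [← rho_apply, hg]; rfl
  have hk : ∀ i, g.k i = 0 := fun i => chi_eq_one (by simpa using h 1 i)
  ext i
  · simp [hk]
  · have := h (Pi.single i 1) (g.p i)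
    simp only [hk, chi_zero, one_mul, Equiv.symm_apply_apply, Pi.single_eq_same] at this
    by_contra hne
    rw [Pi.single_eq_of_ne (fun h' => hne (by simp [h']))] at this
    exact one_ne_zero this

def T (i : Fin 3) (m : ZMod 6) : G := ⟨Pi.single i m, 1⟩

def Q (p : Equiv.Perm (Fin 3)) : G := ⟨0, p⟩

def R (i j : Fin 3) (m : ZMod 6) : G := ⟨Pi.single j m - Pi.single i m, Equiv.swap i j⟩

def a : G := Q (Equiv.swap 0 1)

def b : G := Q (Equiv.swap 1 2)

lemma conj_T (h : G) (l : Fin 3) (m : ZMod 6) : h * T l m * h⁻¹ = T (h.p l) m := by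
  ext i
  · simp [T, Pi.single_apply, Equiv.symm_apply_eq, Equiv.Perm.mul_def, Equiv.Perm.one_def]
  · simp [T]

lemma conj_R (h : G) (i j : Fin 3) (m : ZMod 6) :
    h * R i j m * h⁻¹ = R (h.p i) (h.p j) (m + (h.k (h.p j) - h.k (h.p i))) := by
  ext l
  · obtain ⟨l, rfl⟩ := h.p.surjective l
    simp only [R, mul_k, mul_p, inv_k, Equiv.symm_apply_apply, Pi.sub_apply, Pi.single_apply,
      Equiv.Perm.mul_def, Equiv.symm_trans_apply, Equiv.symm_swap, EmbeddingLike.apply_eq_iff_eq]
    by_cases h1 : l = i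
    · subst h1
      by_cases h2 : l = j
      · subst h2; simp
      · simp [h2]; ring
    · by_cases h2 : l = j
      · subst h2; simp [h1]; ring
      · simp [h1, h2, Equiv.swap_apply_of_ne_of_ne h1 h2]
  · simp [R, Equiv.swap_apply_apply]

lemma R_symm (i j : Fin 3) (m : ZMod 6) : R j i (-m) = R i j m := by
  ext l
  · simp [R, Pi.single_neg]; ring
  · simp [R, Equiv.swap_comm]

lemma R_eq (i j : Fin 3) (m : ZMod 6) : R i j m = Q (Equiv.swap i j) * T i m * T j (-m) := by
  revert i j m; decide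

lemma T_pow (i : Fin 3) (m : ZMod 6) : T i m = T i 1 ^ m.val := by
  revert i m; decide

lemma perm3 (p : Equiv.Perm (Fin 3)) : Q p = 1 ∨ Q p = a ∨ Q p = b ∨ Q p = a * b ∨ Q p = b * a ∨
    Q p = a * b * a := by
  revert p; decide

lemma G_eq (g : G) : g = T 0 (g.k 0) * T 1 (g.k 1) * T 2 (g.k 2) * Q g.p := by
  ext i
  · fin_cases i <;> simp [T, Q, Equiv.Perm.one_def, Equiv.Perm.mul_def]
  · simp [T, Q]

lemma G_ind (S : Submonoid G) (ha : a ∈ S) (hb : b ∈ S) (ht : T 0 1 ∈ S) (g : G) : g ∈ S := by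
  have h1 : T 1 1 ∈ S := by
    rw [show T 1 1 = a * T 0 1 * a by decide]
    exact S.mul_mem (S.mul_mem ha ht) ha
  have h2 : T 2 1 ∈ S := by
    rw [show T 2 1 = b * T 1 1 * b by decide]
    exact S.mul_mem (S.mul_mem hb h1) hb
  rw [G_eq g, T_pow 0, T_pow 1, T_pow 2]
  refine S.mul_mem (S.mul_mem (S.mul_mem (S.pow_mem ht _) (S.pow_mem h1 _)) (S.pow_mem h2 _)) ?_
  rcases perm3 g.p with h | h | h | h | h | h <;> rw [h]
  · exact S.one_mem
  · exact ha
  · exact hb
  · exact S.mul_mem ha hb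
  · exact S.mul_mem hb ha
  · exact S.mul_mem (S.mul_mem ha hb) ha

noncomputable def cc (m : ZMod 6) : ℂ :=
  (![0, 0, 6 * ze - 3, 1, -(6 * ze - 3), 0] : Fin 6 → ℂ) m

noncomputable def cG (g : G) : ℂ :=
  (∑ l, ∑ m, if g = T l m then cc m else 0) +
    ∑ i, ∑ j, ∑ m, if g = R i j m then (if i = j then 0 else kap / 2) else 0

lemma cG_conj (g h : G) : cG (h * g * h⁻¹) = cG g := by
  unfold cG
  congr 1
  · rw [← Equiv.sum_comp h.p]
    refine Finset.sum_congr rfl fun l _ => Finset.sum_congr rfl fun m _ => ?_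
    simp [← conj_T]
  · rw [← Equiv.sum_comp h.p]
    refine Finset.sum_congr rfl fun i _ => ?_
    rw [← Equiv.sum_comp h.p]
    refine Finset.sum_congr rfl fun j _ => ?_
    rw [← Equiv.sum_comp (Equiv.addRight (h.k (h.p j) - h.k (h.p i)))]
    refine Finset.sum_congr rfl fun m _ => ?_
    simp [← conj_R]

lemma refl_T (l : Fin 3) {m : ZMod 6} (hm : m ≠ 0) : IsRefl (rho (T l m)) := by
  refine isRefl_of (α := (chi m - 1) • LinearMap.proj l) (β := Pi.single l 1) ?_ ?_ fun y => ?_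
  · intro h
    have := congrArg (fun f : Module.Dual ℂ V => f 1) h
    exact hm (chi_eq_one (by simpa [sub_eq_zero] using this))
  · intro h
    simpa using congrFun h l
  · ext i
    by_cases h : i = l
    · subst h; simp [rho_apply, T, Equiv.Perm.one_def]; ring
    · simp [rho_apply, T, Equiv.Perm.one_def, h]

lemma refl_R {i j : Fin 3} (hij : i ≠ j) (m : ZMod 6) : IsRefl (rho (R i j m)) := by
  refine isRefl_of (α := chi m • LinearMap.proj i - LinearMap.proj j)
    (β := Pi.single j 1 - chi (-m) • Pi.single i 1) ?_ ?_ fun y => ?_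
  · intro h
    have := congrArg (fun f : Module.Dual ℂ V => f (Pi.single j 1)) h
    simp [hij] at this
  · intro h
    simpa [hij.symm] using congrFun h j
  · ext l
    by_cases h1 : l = i
    · subst h1
      simp [rho_apply, R, hij]
      linear_combination (y l) * chi_mul_neg m
    · by_cases h2 : l = j
      · subst h2; simp [rho_apply, R, h1]
      · simp [rho_apply, R, h1, h2, Equiv.swap_apply_of_ne_of_ne h1 h2]

lemma refl_of_cG {g : G} (h : cG g ≠ 0) : IsRefl (rho g) := by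
  by_contra hn
  apply h
  unfold cG
  rw [Finset.sum_eq_zero, Finset.sum_eq_zero, add_zero]
  · intro i _
    refine Finset.sum_eq_zero fun j _ => Finset.sum_eq_zero fun m _ => ?_
    split_ifs with h1 h2
    · rfl
    · exact absurd (h1 ▸ refl_R h2 m) hn
    · rfl
  · intro l _
    refine Finset.sum_eq_zero fun m _ => ?_
    split_ifs with h1
    · by_cases hm : m = 0
      · subst hm; rfl
      · exact absurd (h1 ▸ refl_T l hm) hn
    · rfl

lemma sum_cG {M : Type} [AddCommGroup M] [Module ℂ M] (F : G → M) :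
    ∑ g, cG g • F g = (∑ l, ∑ m, cc m • F (T l m)) +
      kap • ∑ m, (F (R 0 1 m) + F (R 0 2 m) + F (R 1 2 m)) := by
  have h1 : ∀ i j, ∑ m, F (R j i m) = ∑ m, F (R i j m) := fun i j => by
    rw [← Equiv.sum_comp (Equiv.neg (ZMod 6))]
    simp [R_symm]
  simp only [cG, add_smul, Finset.sum_smul, Finset.sum_add_distrib]
  refine congrArg₂ (· + ·) ?_ ?_
  · rw [Finset.sum_comm]
    refine Finset.sum_congr rfl fun l _ => ?_
    rw [Finset.sum_comm]
    simp
  · have : ∀ i j, ∑ g, ∑ m, (if g = R i j m then (if i = j then 0 else kap / 2) else 0) • F g =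
        (if i = j then 0 else kap / 2) • ∑ m, F (R i j m) := fun i j => by
      rw [Finset.sum_comm, Finset.smul_sum]
      simp only [ite_smul (_ = R i j _), zero_smul, Finset.sum_ite_eq', Finset.mem_univ, if_true]
    simp only [Fin.sum_univ_three, Finset.sum_add_distrib, this]
    rw [h1 0 1, h1 0 2, h1 1 2]
    simp
    module

end Pool.Agent.P.MP_f9c8fc_ag.Cher
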