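import Pool.Agent.P.MP_f9c8fc_ag.CherG

/-! The Cherednik data of `G(6,1,3)` and the universal property of the algebra. -/

namespace Pool.Agent.P.MP_f9c8fc_ag.Cher

open Classical in
noncomputable def pr (s : V ≃ₗ[ℂ] V) : Module.Dual ℂ V × V :=
  if h : IsRefl s then (exists_of_isRefl h).choose else 0

lemma pr_spec {s : V ≃ₗ[ℂ] V} (h : IsRefl s) :
    (pr s).1 ≠ 0 ∧ (pr s).2 ≠ 0 ∧ ∀ y, s y - y = (pr s).1 y • (pr s).2 := by
  rw [pr, dif_pos h]
  exact (exists_of_isRefl h).choose_spec

noncomputable def D : Data V where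
  W := rho.range
  c s := cG ((MonoidHom.ofInjective rho_inj).symm s)
  α s := (pr s.1).1
  αv s := (pr s.1).2

noncomputable def e : G ≃* D.W := MonoidHom.ofInjective rho_inj

lemma valid : D.Valid where
  finite := Finite.of_equiv G e.toEquiv
  gen := by
    rw [eq_top_iff]
    intro w _
    obtain ⟨g, rfl⟩ := e.surjective w
    refine G_ind ((Subgroup.closure {s : D.W | IsRefl s.1}).toSubmonoid.comap e.toMonoidHom)
      ?_ ?_ ?_ g
    · refine Subgroup.subset_closure ?_
      rw [show a = R 0 1 0 by decide]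
      exact refl_R (by decide) 0
    · refine Subgroup.subset_closure ?_
      rw [show b = R 1 2 0 by decide]
      exact refl_R (by decide) 0
    · exact Subgroup.subset_closure (refl_T 0 (by decide))
  ker s hs y := by
    obtain ⟨-, h2, h3⟩ := pr_spec hs
    rw [← sub_eq_zero, h3, smul_eq_zero]
    exact ⟨fun h => h.resolve_right h2, Or.inl⟩
  coker s hs x := by
    obtain ⟨h1, -, h3⟩ := pr_spec hs
    have h4 : ∀ y, x (s.1 y) = x y + (pr s.1).1 y * x (pr s.1).2 := fun y => by
      rw [← smul_eq_mul, ← map_smul, ← h3, map_sub]; ring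
    constructor
    · intro h
      by_contra h0
      apply h1
      refine LinearMap.ext fun y => ?_
      have h5 := congrArg (fun f : Module.Dual ℂ V => f (s.1 y)) h
      simp only [Data.dualAct, LinearMap.comp_apply, LinearEquiv.coe_coe,
        LinearEquiv.symm_apply_apply] at h5
      have h6 : (pr s.1).1 y * x (pr s.1).2 = 0 := by linear_combination -h5 - h4 y
      exact (mul_eq_zero.1 h6).resolve_right h0
    · intro h
      refine LinearMap.ext fun y => ?_
      have h5 := h4 (s.1.symm y)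
      rw [LinearEquiv.apply_symm_apply, show x (pr s.1).2 = 0 from h, mul_zero, add_zero] at h5
      exact h5.symm
  conj s w _ := by
    change cG (e.symm (w * s * w⁻¹)) = cG (e.symm s)
    rw [map_mul, map_mul, map_inv, cG_conj]

lemma finsum_eq {M : Type} [AddCommGroup M] [Module ℂ M] (F : D.W → M) (y : V)
    (x : Module.Dual ℂ V) :
    (∑ᶠ (s : D.W) (_ : IsRefl s.1), ((LinearMap.det (s.1 : V →ₗ[ℂ] V) - 1) * D.c s *
        (D.α s y * x (D.αv s) / D.α s (D.αv s))) • F s) =
      ∑ g, (cG g * x (rho g y - y)) • F (e g) := by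
  classical
  rw [← finsum_comp_equiv (e.toEquiv : G ≃ D.W), finsum_eq_sum_of_fintype]
  refine Finset.sum_congr rfl fun g _ => ?_
  rw [finsum_eq_if]
  change (if IsRefl (rho g) then ((LinearMap.det (rho g : V →ₗ[ℂ] V) - 1) * cG (e.symm (e g)) *
    ((pr (rho g)).1 y * x (pr (rho g)).2 / (pr (rho g)).1 (pr (rho g)).2)) • F (e g) else 0) = _
  rw [MulEquiv.symm_apply_apply]
  split_ifs with h
  · obtain ⟨h1, h2, h3⟩ := pr_spec h
    have h4 := ne_zero_of h1 h2 h3 (orderOf_pos g) (by rw [← map_pow, pow_orderOf_eq_one, map_one])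
    rw [det_of h3, h3, map_smul, smul_eq_mul]
    refine congrArg (· • F (e g)) ?_
    field_simp
  · have : cG g = 0 := by
      by_contra h0
      exact h (refl_of_cG h0)
    simp [this]

variable {E : Type} [Ring E] [Algebra ℂ E]

noncomputable def BR (φ : G →* E) (y : V) (x : Module.Dual ℂ V) : E :=
  ∑ g, (cG g * x (rho g y - y)) • φ g

noncomputable def dA (g : G) (x : Module.Dual ℂ V) : Module.Dual ℂ V :=
  x ∘ₗ ((rho g).symm : V →ₗ[ℂ] V)

lemma BR_conj (φ : G →* E) (h : G) (y : V) (x : Module.Dual ℂ V) :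
    φ h * BR φ y x = BR φ (rho h y) (dA h x) * φ h := by
  unfold BR
  rw [Finset.mul_sum, Finset.sum_mul, ← Equiv.sum_comp (MulAut.conj h).toEquiv
    (fun g => ((cG g * dA h x (rho g (rho h y) - rho h y)) • φ g) * φ h)]
  refine Finset.sum_congr rfl fun g _ => ?_
  have h1 : rho (h * g * h⁻¹) (rho h y) = rho h (rho g y) := by
    rw [← LinearEquiv.mul_apply, ← map_mul, inv_mul_cancel_right, map_mul, LinearEquiv.mul_apply]
  change _ = ((cG (h * g * h⁻¹) * dA h x (rho (h * g * h⁻¹) (rho h y) - rho h y)) •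
    φ (h * g * h⁻¹)) * φ h
  rw [cG_conj, h1, ← map_sub (rho h), mul_smul_comm, smul_mul_assoc, ← map_mul, ← map_mul,
    inv_mul_cancel_right]
  simp [dA]

/-- The relations of the Cherednik algebra in an algebra `E`. -/
structure Model (E : Type) [Ring E] [Algebra ℂ E] where
  φ : G →* E
  Y : V →ₗ[ℂ] E
  X : Module.Dual ℂ V →ₗ[ℂ] E
  actY : ∀ g y, φ g * Y y = Y (rho g y) * φ g
  actX : ∀ g x, φ g * X x = X (dA g x) * φ g
  commX : ∀ x x', X x * X x' = X x' * X x
  commY : ∀ y y', Y y * Y y' = Y y' * Y y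
  cher : ∀ y x, Y y * X x - X x * Y y = BR φ y x

noncomputable abbrev mk : Free V D.W →ₐ[ℂ] D.H := RingQuot.mkAlgHom ℂ _

lemma mk_rel {u v : Free V D.W} (h : D.Rel (gY D.W) (gX D.W) (gW V) u v) : mk u = mk v := RingQuot.mkAlgHom_rel ℂ h

noncomputable def φH : G →* D.H where
  toFun g := mk (gW V (e g))
  map_one' := by
    have := mk_rel Data.Rel.one
    rw [map_one] at this
    rw [map_one]
    exact this
  map_mul' g h := by
    have := mk_rel (Data.Rel.mul (e g) (e h))
    rw [map_mul] at this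
    rw [map_mul]
    exact this.symm

noncomputable def MH : Model D.H where
  φ := φH
  Y := mk.toLinearMap ∘ₗ TensorAlgebra.ι ℂ ∘ₗ LinearMap.inl ℂ _ _
  X := mk.toLinearMap ∘ₗ TensorAlgebra.ι ℂ ∘ₗ LinearMap.inr ℂ _ _ ∘ₗ LinearMap.inl ℂ _ _
  actY g y := by
    have := mk_rel (Data.Rel.actY (e g) y)
    rw [map_mul, map_mul] at this
    exact this
  actX g x := by
    have := mk_rel (Data.Rel.actX (e g) x)
    rw [map_mul, map_mul] at this
    exact this
  commX x x' := by
    have := mk_rel (Data.Rel.commX (D := D) x x')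
    rw [map_mul, map_mul] at this
    exact this
  commY y y' := by
    have := mk_rel (Data.Rel.commY (D := D) y y')
    rw [map_mul, map_mul] at this
    exact this
  cher y x := by
    have := mk_rel (Data.Rel.cher (D := D) y x)
    rw [map_sub, map_mul, map_mul, finsum_eq, map_sum] at this
    simp only [map_smul] at this
    exact this

lemma MH_lift (M : Model E) : ∃ f : D.H →ₐ[ℂ] E, (∀ g, f (MH.φ g) = M.φ g) ∧
    (∀ y, f (MH.Y y) = M.Y y) ∧ ∀ x, f (MH.X x) = M.X x := by
  let L : (V × Module.Dual ℂ V × (D.W →₀ ℂ)) →ₗ[ℂ] E :=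
    M.Y.coprod (M.X.coprod (Finsupp.linearCombination ℂ fun w : D.W => M.φ (e.symm w)))
  let F : Free V D.W →ₐ[ℂ] E := TensorAlgebra.lift ℂ L
  have hY : ∀ y, F (gY D.W y) = M.Y y := fun y => by simp [F, L, gY, tens]
  have hX : ∀ x, F (gX D.W x) = M.X x := fun x => by simp [F, L, gX, tens]
  have hW : ∀ g, F (gW V (e g)) = M.φ g := fun g => by simp [F, L, gW, tens]
  have hrel : ∀ ⦃u v : Free V D.W⦄, D.Rel (gY D.W) (gX D.W) (gW V) u v → F u = F v := by
    intro u v h
    cases h with
    | one => rw [map_one, ← M.φ.map_one, ← hW, map_one]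
    | mul v w =>
      obtain ⟨v, rfl⟩ := e.surjective v
      obtain ⟨w, rfl⟩ := e.surjective w
      rw [map_mul, hW, hW, ← map_mul, ← hW, map_mul]
    | actY w y =>
      obtain ⟨w, rfl⟩ := e.surjective w
      rw [map_mul, map_mul, hW, hY, hY]
      exact M.actY w y
    | actX w x =>
      obtain ⟨w, rfl⟩ := e.surjective w
      rw [map_mul, map_mul, hW, hX, hX]
      exact M.actX w x
    | commX x x' => rw [map_mul, map_mul, hX, hX, M.commX]
    | commY y y' => rw [map_mul, map_mul, hY, hY, M.commY]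
    | cher y x =>
      rw [map_sub, map_mul, map_mul, finsum_eq, map_sum, hX, hY, M.cher]
      simp only [map_smul, hW]
      rfl
  refine ⟨RingQuot.liftAlgHom ℂ ⟨F, hrel⟩, fun g => ?_, fun y => ?_, fun x => ?_⟩
  · exact (RingQuot.liftAlgHom_mkAlgHom_apply ℂ F hrel _).trans (hW g)
  · exact (RingQuot.liftAlgHom_mkAlgHom_apply ℂ F hrel _).trans (hY y)
  · exact (RingQuot.liftAlgHom_mkAlgHom_apply ℂ F hrel _).trans (hX x)

lemma MH_gen (S : Subalgebra ℂ D.H) (hφ : ∀ g, MH.φ g ∈ S) (hY : ∀ y, MH.Y y ∈ S)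
    (hX : ∀ x, MH.X x ∈ S) : S = ⊤ := by
  rw [eq_top_iff]
  rintro z -
  obtain ⟨t, rfl⟩ := RingQuot.mkAlgHom_surjective ℂ _ z
  induction t using TensorAlgebra.induction with
  | algebraMap r => rw [AlgHom.commutes]; exact S.algebraMap_mem r
  | ι v =>
    obtain ⟨y, x, w⟩ := v
    have h1 : ((y, x, w) : V × Module.Dual ℂ V × (D.W →₀ ℂ)) = (y, 0, 0) + (0, x, 0) + (0, 0, w) := by
      simp
    rw [h1, map_add, map_add, map_add, map_add]
    refine S.add_mem (S.add_mem (hY y) (hX x)) ?_
    clear h1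
    induction w using Finsupp.induction_linear with
    | zero =>
      rw [show ((0, 0, 0) : V × Module.Dual ℂ V × (D.W →₀ ℂ)) = 0 from rfl, map_zero, map_zero]
      exact S.zero_mem
    | add f g hf hg =>
      have h2 : ((0, 0, f + g) : V × Module.Dual ℂ V × (D.W →₀ ℂ)) = (0, 0, f) + (0, 0, g) := by
        simp
      rw [h2, map_add, map_add]
      exact S.add_mem hf hg
    | single w c =>
      obtain ⟨w, rfl⟩ := e.surjective w
      have h2 : ((0, 0, Finsupp.single (e w) c) : V × Module.Dual ℂ V × (D.W →₀ ℂ)) =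
          c • (0, 0, Finsupp.single (e w) 1) := by
        simp
      rw [h2, map_smul, map_smul]
      exact S.smul_mem (hφ w) c
  | mul u v hu hv => rw [map_mul]; exact S.mul_mem hu hv
  | add u v hu hv => rw [map_add]; exact S.add_mem hu hv

end Pool.Agent.P.MP_f9c8fc_ag.Cher
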