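import Pool.Agent.P.MP_f9c8fc_ag.CherM

/-! From the defining relations to the small presentation. -/

namespace Pool.Agent.P.MP_f9c8fc_ag.Cher

def ev (i : Fin 3) : V := Pi.single i 1

def xv (i : Fin 3) : Module.Dual ℂ V := LinearMap.proj i

lemma rho_ev (g : G) (i : Fin 3) : rho g (ev i) = chi (g.k (g.p i)) • ev (g.p i) := by
  ext j
  obtain ⟨j, rfl⟩ := g.p.surjective j
  by_cases h : j = i
  · subst h; simp [rho_apply, ev]
  · simp [rho_apply, ev, h]

lemma dA_xv (g : G) (i : Fin 3) : dA g (xv i) = chi (-g.k (g.p i)) • xv (g.p i) := by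
  refine LinearMap.ext fun v => ?_
  rw [dA, rho_symm]
  rfl

lemma dA_mul (g h : G) (x : Module.Dual ℂ V) : dA (g * h) x = dA g (dA h x) := by
  simp only [dA, map_mul]
  rfl

lemma dA_one (x : Module.Dual ℂ V) : dA 1 x = x := by
  simp only [dA, map_one]
  rfl

lemma V_eq (y : V) : y = y 0 • ev 0 + y 1 • ev 1 + y 2 • ev 2 := by
  ext i; fin_cases i <;> simp [ev]

lemma X_eq (x : Module.Dual ℂ V) : x = x (ev 0) • xv 0 + x (ev 1) • xv 1 + x (ev 2) • xv 2 := by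
  refine LinearMap.ext fun y => ?_
  conv_lhs => rw [V_eq y]
  simp [xv, mul_comm]

lemma sum6 {M : Type} [AddCommMonoid M] (f : ZMod 6 → M) :
    ∑ m, f m = f 0 + f 1 + f 2 + f 3 + f 4 + f 5 := Fin.sum_univ_six f

variable {E : Type} [Ring E] [Algebra ℂ E]

lemma BR_eq (φ : G →* E) (y : V) (x : Module.Dual ℂ V) : BR φ y x =
    (∑ l, ∑ m, cc m • x (rho (T l m) y - y) • φ (T l m)) +
      kap • ∑ m, (x (rho (R 0 1 m) y - y) • φ (R 0 1 m) + x (rho (R 0 2 m) y - y) • φ (R 0 2 m) +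
        x (rho (R 1 2 m) y - y) • φ (R 1 2 m)) := by
  rw [← sum_cG fun g => x (rho g y - y) • φ g]
  simp only [BR, mul_smul]

lemma vals : (0 : ZMod 6).val = 0 ∧ (1 : ZMod 6).val = 1 ∧ (2 : ZMod 6).val = 2 ∧
    (3 : ZMod 6).val = 3 ∧ (4 : ZMod 6).val = 4 ∧ (5 : ZMod 6).val = 5 ∧
    (-0 : ZMod 6).val = 0 ∧ (-1 : ZMod 6).val = 5 ∧ (-2 : ZMod 6).val = 4 ∧
    (-3 : ZMod 6).val = 3 ∧ (-4 : ZMod 6).val = 2 ∧ (-5 : ZMod 6).val = 1 := by decide

lemma ccs : cc 0 = 0 ∧ cc 1 = 0 ∧ cc 2 = 6 * ze - 3 ∧ cc 3 = 1 ∧ cc 4 = -(6 * ze - 3) ∧ cc 5 = 0 :=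
  ⟨rfl, rfl, rfl, rfl, rfl, rfl⟩

lemma BR00 (φ : G →* E) : BR φ (ev 0) (xv 0) = Pp (ze • φ (T 0 1)) - Pp (φ (T 0 1)) -
    kap • (φ a * pi6 (φ (T 0 1)) (φ (T 1 1))) -
    kap • (φ a * φ b * φ a * pi6 (φ (T 0 1)) (φ (T 2 1))) := by
  have h0 : ∀ m, xv 0 (rho (T 0 m) (ev 0) - ev 0) = chi m - 1 := fun m => by
    simp [xv, ev, rho_apply, T, Equiv.Perm.one_def]
  have h1 : ∀ m, xv 0 (rho (T 1 m) (ev 0) - ev 0) = 0 := fun m => by
    simp [xv, ev, rho_apply, T, Equiv.Perm.one_def]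
  have h2 : ∀ m, xv 0 (rho (T 2 m) (ev 0) - ev 0) = 0 := fun m => by
    simp [xv, ev, rho_apply, T, Equiv.Perm.one_def]
  have h3 : ∀ m, xv 0 (rho (R 0 1 m) (ev 0) - ev 0) = -1 := fun m => by
    simp [xv, ev, rho_apply, R]
  have h4 : ∀ m, xv 0 (rho (R 0 2 m) (ev 0) - ev 0) = -1 := fun m => by
    simp [xv, ev, rho_apply, R]
  have h5 : ∀ m, xv 0 (rho (R 1 2 m) (ev 0) - ev 0) = 0 := fun m => by
    simp [xv, ev, rho_apply, R, Equiv.swap_apply_of_ne_of_ne]
  have e0 : ∀ m, φ (T 0 m) = φ (T 0 1) ^ m.val := fun m => by rw [← map_pow, ← T_pow]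
  have e1 : ∀ m, φ (R 0 1 m) = φ a * (φ (T 0 1) ^ m.val * φ (T 1 1) ^ (-m).val) := fun m => by
    rw [← map_pow, ← map_pow, ← T_pow, ← T_pow, ← map_mul, ← map_mul, ← mul_assoc, R_eq]; rfl
  have e2 : ∀ m, φ (R 0 2 m) =
      φ a * φ b * φ a * (φ (T 0 1) ^ m.val * φ (T 2 1) ^ (-m).val) := fun m => by
    rw [← map_pow, ← map_pow, ← T_pow, ← T_pow, ← map_mul, ← map_mul, ← map_mul, ← map_mul,
      ← mul_assoc, R_eq, show Q (Equiv.swap 0 2) = a * b * a by decide]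
  obtain ⟨v0, v1, v2, v3, v4, v5, n0, n1, n2, n3, n4, n5⟩ := vals
  obtain ⟨c0, c1, c2, c3, c4, c5⟩ := ccs
  rw [BR_eq]
  simp only [Fin.sum_univ_three, h0, h1, h2, h3, h4, h5, zero_smul, smul_zero, add_zero,
    Finset.sum_const_zero, e1, e2]
  rw [sum6, sum6, e0 2, e0 3, e0 4]
  generalize φ (T 0 1) = t0
  generalize φ (T 1 1) = t1
  generalize φ (T 2 1) = t2
  generalize φ a * φ b * φ a = s
  simp only [v0, v1, v2, v3, v4, v5, n0, n1, n2, n3, n4, n5, c0, c1, c2, c3, c4, c5, chi, Pp, pi6,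
    smul_pow, mul_add, pow_zero, pow_one, mul_one]
  module

lemma BR20 (φ : G →* E) : BR φ (ev 2) (xv 0) =
    kap • (pi6 (ze • φ (T 0 1)) (φ (T 2 1)) * (φ a * φ b * φ a)) := by
  have h0 : ∀ l m, xv 0 (rho (T l m) (ev 2) - ev 2) = 0 := fun l m => by
    simp [xv, ev, rho_apply, T, Equiv.Perm.one_def]
  have h3 : ∀ m, xv 0 (rho (R 0 1 m) (ev 2) - ev 2) = 0 := fun m => by
    simp [xv, ev, rho_apply, R]
  have h4 : ∀ m, xv 0 (rho (R 0 2 m) (ev 2) - ev 2) = chi (-m) := fun m => by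
    simp [xv, ev, rho_apply, R]
  have h5 : ∀ m, xv 0 (rho (R 1 2 m) (ev 2) - ev 2) = 0 := fun m => by
    simp [xv, ev, rho_apply, R, Equiv.swap_apply_of_ne_of_ne]
  have e2 : ∀ m, φ (R 0 2 m) =
      φ (T 0 1) ^ (-m).val * φ (T 2 1) ^ m.val * (φ a * φ b * φ a) := fun m => by
    rw [← map_pow, ← map_pow, ← T_pow, ← T_pow, ← map_mul, ← map_mul, ← map_mul, ← map_mul]
    refine congrArg φ ?_
    revert m; decide
  obtain ⟨v0, v1, v2, v3, v4, v5, n0, n1, n2, n3, n4, n5⟩ := vals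
  rw [BR_eq]
  simp only [h0, h3, h4, h5, zero_smul, smul_zero, add_zero, zero_add,
    Finset.sum_const_zero, e2]
  rw [sum6]
  generalize φ (T 0 1) = t0
  generalize φ (T 2 1) = t2
  generalize φ a * φ b * φ a = s
  simp only [v0, v1, v2, v3, v4, v5, n0, n1, n2, n3, n4, n5, chi, pi6,
    smul_pow, add_mul, pow_zero, pow_one, mul_one, smul_mul_assoc]
  module

lemma sc_Pp {u x y : E} (h : u * x = y * u) : u * Pp x = Pp y * u := by
  have h' : SemiconjBy u x y := h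
  simp only [Pp, mul_add, add_mul, mul_smul_comm, smul_mul_assoc, mul_sub, sub_mul,
    (h'.pow_right _).eq]

omit [Algebra ℂ E] in
lemma sc_pi6 {u x y x' y' : E} (h : u * x = x' * u) (k : u * y = y' * u) :
    u * pi6 x y = pi6 x' y' * u := by
  have h' : SemiconjBy u x x' := h
  have k' : SemiconjBy u y y' := k
  exact (((((SemiconjBy.one_right u).add_right (h'.mul_right (k'.pow_right 5))).add_right
    ((h'.pow_right 2).mul_right (k'.pow_right 4))).add_right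
    ((h'.pow_right 3).mul_right (k'.pow_right 3))).add_right
    ((h'.pow_right 4).mul_right (k'.pow_right 2))).add_right ((h'.pow_right 5).mul_right k')

omit [Algebra ℂ E] in
lemma ra {u v w z : E} (h : u * v = w * z) (c : E) : u * (v * c) = w * (z * c) := by
  rw [← mul_assoc, h, mul_assoc]

omit [Algebra ℂ E] in
lemma r1 {u v : E} (h : u * v = 1) (c : E) : u * (v * c) = c := by
  rw [← mul_assoc, h, one_mul]

omit [Algebra ℂ E] in
lemma mp (φ : G →* E) {g h g' h' : G} (k : g * h = g' * h') : φ g * φ h = φ g' * φ h' := by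
  rw [← map_mul, ← map_mul, k]

omit [Algebra ℂ E] in
lemma mp1 (φ : G →* E) {g h : G} (k : g * h = 1) : φ g * φ h = 1 := by
  rw [← map_mul, k, map_one]

omit [Algebra ℂ E] in
lemma mpbr (φ : G →* E) : φ a * φ b * φ a = φ b * φ a * φ b := by
  rw [← map_mul, ← map_mul, ← map_mul, ← map_mul, show a * b * a = b * a * b by decide]

/-- The right hand side of the relation `zz`. -/
lemma zz_rhs (φ : G →* E) (u : E) :
    φ a * (φ b * (u + Pp (φ (T 2 1))) * φ b + kap • (φ b * pi6 (φ (T 1 1)) (φ (T 2 1)))) * φ a =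
      φ a * φ b * u * φ b * φ a + Pp (φ (T 0 1)) +
        kap • (φ a * φ b * φ a * pi6 (φ (T 0 1)) (φ (T 2 1))) := by
  have h1 : φ b * Pp (φ (T 2 1)) = Pp (φ (T 1 1)) * φ b := sc_Pp (mp φ (by decide))
  have h2 : φ a * Pp (φ (T 1 1)) = Pp (φ (T 0 1)) * φ a := sc_Pp (mp φ (by decide))
  have h3 : φ a * pi6 (φ (T 0 1)) (φ (T 2 1)) = pi6 (φ (T 1 1)) (φ (T 2 1)) * φ a :=
    sc_pi6 (mp φ (by decide)) (mp φ (by decide))
  have h4 : φ a * φ a = 1 := mp1 φ (by decide)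
  have h5 : φ b * φ b = 1 := mp1 φ (by decide)
  simp only [mul_add, add_mul, mul_assoc, mul_smul_comm, smul_mul_assoc, ra h1, ra h2, r1 h5, h4,
    h3, mul_one]

namespace Model

variable (M : Model E)

lemma aX (g : G) (i j : Fin 3) (h : g.p i = j) (h' : g.k j = 0) :
    M.φ g * M.X (xv i) = M.X (xv j) * M.φ g := by
  rw [M.actX, dA_xv, h, h', neg_zero, chi_zero, one_smul]

lemma aY (g : G) (i j : Fin 3) (h : g.p i = j) (h' : g.k j = 0) :
    M.φ g * M.Y (ev i) = M.Y (ev j) * M.φ g := by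
  rw [M.actY, rho_ev, h, h', chi_zero, one_smul]

lemma tX : M.X (xv 0) * M.φ (T 0 1) = ze • (M.φ (T 0 1) * M.X (xv 0)) := by
  rw [M.actX, dA_xv, map_smul, smul_mul_assoc, smul_smul,
    show (T 0 1).k ((T 0 1).p 0) = 1 by decide, ← chi_one, chi_mul_neg, one_smul]
  rfl

lemma tY : M.φ (T 0 1) * M.Y (ev 0) = ze • (M.Y (ev 0) * M.φ (T 0 1)) := by
  rw [M.actY, rho_ev, map_smul, smul_mul_assoc,
    show (T 0 1).k ((T 0 1).p 0) = 1 by decide, chi_one]
  rfl

noncomputable def toSys : Sys E where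
  s1 := M.φ a
  s2 := M.φ b
  t1 := M.φ (T 0 1)
  t2 := M.φ (T 1 1)
  t3 := M.φ (T 2 1)
  sg := M.X (xv 0) * M.φ a * M.φ b
  ta := M.φ b * M.φ a * M.Y (ev 0)
  s1s1 := mp1 _ (by decide)
  s2s2 := mp1 _ (by decide)
  br := mpbr _
  t1_6 := by rw [← map_pow, show T 0 1 ^ 6 = 1 by decide, map_one]
  t2_6 := by rw [← map_pow, show T 1 1 ^ 6 = 1 by decide, map_one]
  t3_6 := by rw [← map_pow, show T 2 1 ^ 6 = 1 by decide, map_one]
  t12 := mp _ (by decide)
  t13 := mp _ (by decide)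
  t23 := mp _ (by decide)
  s1t1 := mp _ (by decide)
  s1t3 := mp _ (by decide)
  s2t1 := mp _ (by decide)
  s2t2 := mp _ (by decide)
  sgs1 := by
    have h := mpbr M.φ
    simp only [mul_assoc] at h ⊢
    rw [ra (M.aX b 0 0 (by decide) (by decide)), h]
  sgsg := by
    have h := mpbr M.φ
    have h4 : M.φ a * M.φ a = 1 := mp1 _ (by decide)
    have h5 : M.φ b * M.φ b = 1 := mp1 _ (by decide)
    simp only [mul_assoc] at h ⊢
    simp only [ra (M.aX b 0 0 (by decide) (by decide)), ra (M.aX a 0 1 (by decide) (by decide)),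
      ra (M.aX a 1 0 (by decide) (by decide)), r1 h4, h5, mul_one, h, ra (M.commX (xv 1) (xv 0))]
  sgt1 := by
    simp only [mul_assoc]
    rw [mp M.φ (show b * T 0 1 = T 0 1 * b by decide),
      ra (mp M.φ (show a * T 0 1 = T 1 1 * a by decide)),
      ra (M.aX (T 1 1) 0 0 (by decide) (by decide))]
  sgt2 := by
    simp only [mul_assoc]
    rw [mp M.φ (show b * T 1 1 = T 2 1 * b by decide),
      ra (mp M.φ (show a * T 2 1 = T 2 1 * a by decide)),
      ra (M.aX (T 2 1) 0 0 (by decide) (by decide))]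
  sgt3 := by
    simp only [mul_assoc]
    rw [mp M.φ (show b * T 2 1 = T 1 1 * b by decide),
      ra (mp M.φ (show a * T 1 1 = T 0 1 * a by decide)), ← mul_assoc, M.tX]
    simp only [smul_mul_assoc, mul_assoc]
  s1ta := by
    have h := mpbr M.φ
    rw [← mul_assoc, ← mul_assoc, h]
    simp only [mul_assoc]
    rw [M.aY b 0 0 (by decide) (by decide)]
  tata := by
    have h := mpbr M.φ
    have h4 : M.φ a * M.φ a = 1 := mp1 _ (by decide)
    have h5 : M.φ b * M.φ b = 1 := mp1 _ (by decide)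
    simp only [mul_assoc] at h ⊢
    simp only [ra (M.aY a 0 1 (by decide) (by decide)), M.aY a 0 1 (by decide) (by decide),
      ra (M.aY b 1 2 (by decide) (by decide)), ra (M.aY b 2 1 (by decide) (by decide)),
      ra (M.aY a 2 2 (by decide) (by decide)), r1 h5, h4, mul_one, h,
      M.aY b 1 2 (by decide) (by decide),
      ra (M.commY (ev 2) (ev 1))]
  t1ta := by
    simp only [mul_assoc]
    rw [← M.aY (T 1 1) 0 0 (by decide) (by decide),
      ra (mp M.φ (show T 0 1 * b = b * T 0 1 by decide)),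
      ra (mp M.φ (show T 0 1 * a = a * T 1 1 by decide))]
  t2ta := by
    simp only [mul_assoc]
    rw [← M.aY (T 2 1) 0 0 (by decide) (by decide),
      ra (mp M.φ (show T 1 1 * b = b * T 2 1 by decide)),
      ra (mp M.φ (show T 2 1 * a = a * T 2 1 by decide))]
  t3ta := by
    simp only [mul_assoc]
    rw [ra (mp M.φ (show T 2 1 * b = b * T 1 1 by decide)),
      ra (mp M.φ (show T 1 1 * a = a * T 0 1 by decide)), M.tY]
    simp only [mul_smul_comm]
  mix := by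
    have h := M.cher (ev 2) (xv 0)
    rw [BR20, sub_eq_iff_eq_add'] at h
    have hb : ∀ c, M.φ a * (M.φ b * (M.φ a * c)) = M.φ b * (M.φ a * (M.φ b * c)) := fun c => by
      simp only [← mul_assoc, mpbr]
    have h4 : M.φ a * M.φ a = 1 := mp1 _ (by decide)
    have h5 : M.φ b * M.φ b = 1 := mp1 _ (by decide)
    have h6 := congrArg (· * (M.φ b * (M.φ a * M.φ b))) h
    have hc := mpbr M.φ
    simp only [add_mul, smul_mul_assoc, mul_assoc, hb, r1 h5, h4, h5, mul_one] at h6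
    simp only [mul_assoc] at hc ⊢
    simp only [r1 h5, ra (M.aY a 0 1 (by decide) (by decide)), M.aY a 0 1 (by decide) (by decide),
      ra (M.aY b 1 2 (by decide) (by decide)), r1 h4, ra (M.aX b 0 0 (by decide) (by decide)), h6,
      ra (M.aY a 2 2 (by decide) (by decide)), hc]
  zz := by
    have h := M.cher (ev 0) (xv 0)
    rw [BR00, sub_eq_iff_eq_add'] at h
    have h4 : M.φ a * M.φ a = 1 := mp1 _ (by decide)
    have h5 : M.φ b * M.φ b = 1 := mp1 _ (by decide)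
    rw [zz_rhs]
    simp only [mul_assoc, r1 h4, r1 h5, h4, mul_one] at h ⊢
    rw [h]
    abel

end Model

end Pool.Agent.P.MP_f9c8fc_ag.Cher
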