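import Pool.Agent.P.MP_f9c8fc_ag.Iface

/-! Commutative algebra. -/

open Polynomial

namespace Pool.Agent.P.MP_f9c8fc_ag

section map
variable {A A' : Type} [Ring A] [Algebra ℂ A] [Ring A'] [Algebra ℂ A']

lemma map_pi6 (f : A →ₐ[ℂ] A') (x y : A) : f (pi6 x y) = pi6 (f x) (f y) := by simp [pi6]

lemma map_Pp (f : A →ₐ[ℂ] A') (x : A) : f (Pp x) = Pp (f x) := by simp [Pp]

open scoped IsMulCommutative in
lemma exists_comm (s : Set A) (h : ∀ a ∈ s, ∀ b ∈ s, a * b = b * a) :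
    ∃ (B : Type) (_ : CommRing B) (_ : Algebra ℂ B) (j : B →ₐ[ℂ] A), Function.Injective j ∧
      ∀ a ∈ s, ∃ b, j b = a := by
  have := Algebra.isMulCommutative_adjoin ℂ h
  exact ⟨Algebra.adjoin ℂ s, inferInstance, inferInstance, Subalgebra.val _,
    Subtype.val_injective, fun a ha => ⟨⟨a, Algebra.subset_adjoin ha⟩, rfl⟩⟩

end map

lemma ze_ne : ze ≠ 0 := ze_prim.ne_zero (by norm_num)

lemma ze_cube : ze ^ 3 = -1 := by linear_combination (ze + 1) * ze_sq

lemma ze_pow_mod (n : ℕ) : ze ^ n = ze ^ (n % 6) := by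
  conv_lhs => rw [← Nat.div_add_mod n 6, pow_add, pow_mul, ze_six, one_pow, one_mul]

/-- The masses. -/
noncomputable def ms : ℕ → ℂ
  | 0 => 1
  | 1 => -10
  | 2 => 10
  | 3 => -1
  | 4 => -8
  | _ => 8

lemma Pp_ze (n : ℕ) : Pp (ze ^ n) = ms (n % 6) := by
  rw [ze_pow_mod]
  have h : n % 6 < 6 := Nat.mod_lt _ (by norm_num)
  have h2 := ze_sq
  have h3 := ze_cube
  interval_cases n % 6 <;> simp only [Pp, ms, smul_eq_mul] <;> grind

lemma pi6_ze (a b : ℕ) : pi6 (ze ^ a) (ze ^ b) = if a % 6 = b % 6 then 6 else 0 := by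
  rw [ze_pow_mod a, ze_pow_mod b]
  have ha : a % 6 < 6 := Nat.mod_lt _ (by norm_num)
  have hb : b % 6 < 6 := Nat.mod_lt _ (by norm_num)
  have h2 := ze_sq
  interval_cases a % 6 <;> interval_cases b % 6 <;> simp only [pi6] <;> norm_num <;> grind

section comm
variable {B : Type} [CommRing B] [Algebra ℂ B]

omit [Algebra ℂ B] in
lemma pi6_comm (x y : B) : pi6 x y = pi6 y x := by unfold pi6; ring

omit [Algebra ℂ B] in
lemma pi6_mul {x y : B} (hx : x ^ 6 = 1) (hy : y ^ 6 = 1) : pi6 x y * x = pi6 x y * y := by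
  unfold pi6; linear_combination y * hx - x * hy

omit [Algebra ℂ B] in
lemma pi6_pow {x y : B} (hx : x ^ 6 = 1) (hy : y ^ 6 = 1) (n : ℕ) :
    pi6 x y * x ^ n = pi6 x y * y ^ n := by
  induction n with
  | zero => simp
  | succ n ih => rw [pow_succ, ← mul_assoc, ih, mul_right_comm, pi6_mul hx hy]; ring

omit [Algebra ℂ B] in
lemma pi6_pi6 {x y : B} (hx : x ^ 6 = 1) (hy : y ^ 6 = 1) (w : B) :
    pi6 x y * pi6 x w = pi6 x y * pi6 y w := by
  have h := pi6_pow hx hy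
  have e : ∀ u, pi6 u w = 1 + u ^ 1 * w ^ 5 + u ^ 2 * w ^ 4 + u ^ 3 * w ^ 3 + u ^ 4 * w ^ 2 +
    u ^ 5 * w := fun u => by simp [pi6]
  rw [e x, e y]
  simp only [mul_add, ← mul_assoc, h]

lemma pi6_Pp {x y : B} (hx : x ^ 6 = 1) (hy : y ^ 6 = 1) : pi6 x y * Pp x = pi6 x y * Pp y := by
  simp only [Pp, mul_add, mul_smul_comm, mul_sub, pi6_pow hx hy]

lemma pi6_smul (x y : B) : pi6 (ze • x) (ze • y) = pi6 x y := by
  simp only [pi6, _root_.smul_pow, smul_mul_smul_comm, ← pow_add, ← pow_succ, ← pow_succ',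
    Nat.reduceAdd, ze_six, one_smul]

lemma smul_six {x : B} (hx : x ^ 6 = 1) (n : ℕ) : (ze ^ n • x) ^ 6 = 1 := by
  rw [_root_.smul_pow, hx, ← pow_mul, mul_comm, pow_mul, ze_six, one_pow, one_smul]

lemma col_ext {x : B} (hx : x ^ 6 = 1) {a b : B}
    (h : ∀ (c : ℕ) (B' : Type) [CommRing B'] [Algebra ℂ B'] (f : B →ₐ[ℂ] B'),
      f x = algebraMap ℂ B' (ze ^ c) → f a = f b) : a = b := by
  have h1 : ∀ c : ℕ, pi6 x (algebraMap ℂ B (ze ^ c)) * (a - b) = 0 := fun c => by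
    have := h c _ (Ideal.Quotient.mkₐ ℂ (Ideal.span {x - algebraMap ℂ B (ze ^ c)})) (by
      rw [← AlgHom.commutes (Ideal.Quotient.mkₐ ℂ _)]
      exact Ideal.Quotient.eq.2 (Ideal.mem_span_singleton_self _))
    obtain ⟨r, hr⟩ := Ideal.mem_span_singleton'.1 (Ideal.Quotient.eq.1 this)
    have h6 : algebraMap ℂ B (ze ^ c) ^ 6 = 1 := by
      rw [← map_pow, ← pow_mul, mul_comm, pow_mul, ze_six, one_pow, map_one]
    rw [← hr]
    linear_combination r * pi6_mul hx h6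
  have h2 : (algebraMap ℂ B ze) ^ 2 = algebraMap ℂ B ze - 1 := by
    rw [← map_pow, ze_sq, map_sub, map_one]
  have h3 : (6 : B) * (a - b) = 0 := by
    have e : (6 : B) = ∑ c ∈ Finset.range 6, pi6 x (algebraMap ℂ B (ze ^ c)) := by
      simp only [Finset.sum_range_succ, Finset.sum_range_zero, map_pow, pi6]
      generalize algebraMap ℂ B ze = w at h2
      grind
    rw [e, Finset.sum_mul]
    exact Finset.sum_eq_zero fun c _ => h1 c
  have h4 : algebraMap ℂ B (1 / 6) * 6 = 1 := by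
    rw [← map_ofNat (algebraMap ℂ B) 6, ← map_mul]; norm_num
  linear_combination algebraMap ℂ B (1 / 6) * h3 - (a - b) * h4

/-- The square of an intertwiner. -/
noncomputable def qq (x y z w : B) : B := (kap • pi6 x y) ^ 2 - (z - w) ^ 2

lemma map_qq {B' : Type} [CommRing B'] [Algebra ℂ B'] (f : B →ₐ[ℂ] B') (x y z w : B) :
    f (qq x y z w) = qq (f x) (f y) (f z) (f w) := by simp [qq, map_pi6]

lemma qq_comm (x y z w : B) : qq x y z w = qq y x w z := by
  rw [qq, qq, pi6_comm]; ring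

lemma prod_Pp {x : B} (hx : x ^ 6 = 1) (z : B) :
    ∏ k ∈ Finset.range 6, (z - Pp (ze ^ (k + 1) • x)) = mas z := by
  refine col_ext hx fun c B' _ _ f hf => ?_
  have e : ∀ k, f (Pp (ze ^ (k + 1) • x)) = algebraMap ℂ B' (ms ((k + 1 + c) % 6)) := fun k => by
    rw [map_Pp, map_smul, hf, Algebra.smul_def, ← map_mul, ← pow_add, ← Pp_ze]
    exact (map_Pp (Algebra.ofId ℂ B') _).symm
  simp only [map_prod, map_sub, e, mas, map_mul, map_add, map_ofNat, map_one]
  have h : c % 6 < 6 := Nat.mod_lt _ (by norm_num)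
  simp only [← Nat.add_mod_mod _ c 6]
  generalize c % 6 = r at h
  interval_cases r <;> simp [Finset.prod_range_succ, ms, map_ofNat] <;> ring

lemma prod_qq {x y : B} (hx : x ^ 6 = 1) (hy : y ^ 6 = 1) (z w : B) (m : ℕ) :
    ∏ k ∈ Finset.range 6, qq y (ze ^ (k + m) • x) z w = ((z - w) ^ 2 - 4) * (z - w) ^ 10 := by
  refine col_ext hx fun c B' _ _ f hf => ?_
  have hy' : f y ^ 6 = 1 := by rw [← map_pow, hy, map_one]
  refine col_ext hy' fun d B'' _ _ g hg => ?_
  have e : ∀ k, g (f (qq y (ze ^ (k + m) • x) z w)) =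
      (if d % 6 = (k + m + c) % 6 then 4 else 0) - (g (f z) - g (f w)) ^ 2 := fun k => by
    rw [map_qq, map_qq, map_smul, hf, hg, Algebra.smul_def, ← map_mul, ← pow_add, AlgHom.commutes,
      qq, show pi6 (algebraMap ℂ B'' (ze ^ d)) (algebraMap ℂ B'' (ze ^ (k + m + c))) = _ from
        (map_pi6 (Algebra.ofId ℂ B'') _ _).symm, pi6_ze]
    congr 1
    split_ifs
    · rw [← map_smul, ← map_pow, ← map_ofNat (Algebra.ofId ℂ B'') 4]
      congr 1; simp [kap]; norm_num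
    · simp
  simp only [map_prod, map_sub, e, map_mul, map_pow, map_ofNat]
  obtain ⟨k, hk, hk'⟩ : ∃ k < 6, ∀ l < 6, d % 6 = (l + m + c) % 6 ↔ l = k :=
    ⟨(d + 5 * (m + c)) % 6, by omega, fun l hl => by omega⟩
  rw [Finset.prod_congr rfl fun l hl => by rw [if_congr (hk' l (Finset.mem_range.1 hl)) rfl rfl]]
  interval_cases k <;> simp [Finset.prod_range_succ] <;> ring

/-- The expression in the relation. -/
def relx {R : Type} [CommRing R] (e cp cm : Fin 3 → R) (T : R) : R :=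
  4 * quad cp T * quad cm T + disc e ^ 2 * mas T * cub e (T - 2) * cub e (T + 2) * cub' e T ^ 12

lemma map_relx {R R' F : Type} [CommRing R] [CommRing R'] [FunLike F R R'] [RingHomClass F R R']
    (f : F) (e cp cm : Fin 3 → R) (T : R) :
    f (relx e cp cm T) = relx (f ∘ e) (f ∘ cp) (f ∘ cm) (f T) := by
  simp [relx, quad, disc, mas, cub, cub', map_ofNat]

lemma map_cub {R R' F : Type} [CommRing R] [CommRing R'] [FunLike F R R'] [RingHomClass F R R']
    (f : F) (e : Fin 3 → R) (T : R) : f (cub e T) = cub (f ∘ e) (f T) := by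
  simp [cub]

lemma map_disc {R R' F : Type} [CommRing R] [CommRing R'] [FunLike F R R'] [RingHomClass F R R']
    (f : F) (e : Fin 3 → R) : f (disc e) = disc (f ∘ e) := by
  simp [disc, map_ofNat]

lemma map_esym {R R' F : Type} [CommRing R] [CommRing R'] [FunLike F R R'] [RingHomClass F R R']
    (f : F) (z : Fin 3 → R) : f ∘ esym z = esym (f ∘ z) := by
  ext k; fin_cases k <;> simp [esym]

omit [Algebra ℂ B] in
lemma cub_esym (z : Fin 3 → B) (T : B) : cub (esym z) T = (T - z 0) * (T - z 1) * (T - z 2) := by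
  simp [cub, esym]; ring

omit [Algebra ℂ B] in
lemma disc_esym (z : Fin 3 → B) :
    disc (esym z) = ((z 0 - z 1) * (z 0 - z 2) * (z 1 - z 2)) ^ 2 := by
  simp [disc, esym]; ring

lemma rel_of {Z : Type} [CommRing Z] [Algebra ℂ Z] (ι : Z →ₐ[ℂ] B) (hι : Function.Injective ι)
    {e cp cm : Fin 3 → Z} (w : Fin 3 → B) (he : ι ∘ e = esym w)
    (h : ∀ i, relx (ι ∘ e) (ι ∘ cp) (ι ∘ cm) (w i) = 0) : REL e cp cm := by
  intro R _ _ φ T hu hT
  rcases subsingleton_or_nontrivial R with hR | hR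
  · exact Subsingleton.elim _ _
  have : Nontrivial Z := φ.toRingHom.domain_nontrivial
  let P : Z[X] := cub (C ∘ e) X
  let Q : Z[X] := relx (C ∘ e) (C ∘ cp) (C ∘ cm) X
  have hP : P.Monic := by simp only [P, cub, Function.comp]; monicity!
  have hd : P.natDegree = 3 := by simp only [P, cub, Function.comp]; compute_degree!
  have hr : (Q %ₘ P).natDegree < 3 := hd ▸ natDegree_modByMonic_lt Q hP (by
    rintro h; rw [h] at hd; simp at hd)
  have hs : Q %ₘ P = C ((Q %ₘ P).coeff 0) + C ((Q %ₘ P).coeff 1) * X + C ((Q %ₘ P).coeff 2) * X ^ 2 := by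
    conv_lhs => rw [as_sum_range_C_mul_X_pow' _ hr]
    simp [Finset.sum_range_succ]
  have key : ∀ (R : Type) [CommRing R] (φ : Z →+* R) (T : R), cub (φ ∘ e) T = 0 →
      relx (φ ∘ e) (φ ∘ cp) (φ ∘ cm) T =
        φ ((Q %ₘ P).coeff 0) + φ ((Q %ₘ P).coeff 1) * T + φ ((Q %ₘ P).coeff 2) * T ^ 2 := by
    intro R _ φ T hT
    have e1 : ∀ v : Fin 3 → Z, eval₂RingHom φ T ∘ C ∘ v = φ ∘ v := fun v => by ext; simp
    have h1 := congrArg (eval₂RingHom φ T) (modByMonic_add_div Q P)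
    rw [map_add, map_mul, map_cub, map_relx, e1, e1, e1, hs] at h1
    simpa [hT] using h1.symm
  generalize (Q %ₘ P).coeff 0 = r0, (Q %ₘ P).coeff 1 = r1, (Q %ₘ P).coeff 2 = r2 at key
  have k : ∀ i, ι r0 + ι r1 * w i + ι r2 * w i ^ 2 = 0 := fun i => by
    refine (key B ι (w i) ?_).symm.trans (h i)
    show cub (ι ∘ e) _ = 0
    rw [he, cub_esym]; fin_cases i <;> simp
  have hz : ∀ r, (w 0 - w 1) * (w 0 - w 2) * (w 1 - w 2) * ι r = 0 → φ r = 0 := fun r hr => by
    have : disc e * r = 0 := hι (by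
      rw [map_mul, map_disc, he, disc_esym, map_zero, sq, mul_assoc, hr, mul_zero])
    have := congrArg φ this
    rw [map_mul, map_disc, map_zero] at this
    exact hu.mul_right_eq_zero.1 this
  have h0 := hz r0 (by
    linear_combination w 1 * w 2 * (w 1 - w 2) * k 0 - w 0 * w 2 * (w 0 - w 2) * k 1 +
      w 0 * w 1 * (w 0 - w 1) * k 2)
  have h1 := hz r1 (by
    linear_combination (w 2 ^ 2 - w 1 ^ 2) * k 0 + (w 0 ^ 2 - w 2 ^ 2) * k 1 +
      (w 1 ^ 2 - w 0 ^ 2) * k 2)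
  have h2 := hz r2 (by
    linear_combination (w 1 - w 2) * k 0 - (w 0 - w 2) * k 1 + (w 0 - w 1) * k 2)
  have := key R φ T hT
  simp only [RingHom.coe_coe, h0, h1, h2] at this
  simpa [relx] using this

end comm

end Pool.Agent.P.MP_f9c8fc_ag
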