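import Pool.Agent.P.MP_f9c8fc_ag.Iface

/-! The five-cycle. -/

open Set Pool.Agent.Lib.Helper83

namespace Pool.Agent.P.MP_f9c8fc_ag

namespace Cy

def Conf : Set C3 := {z | Function.Injective z}

def Gd : Set C3 := {z | Function.Injective z ∧ ¬ ∀ i, z i ∈ ({-1, 1, 8} : Set ℂ)}

def seg (m : ℝ) : Set ℂ := {z | z.im = 0 ∧ m - 1 ≤ z.re ∧ z.re ≤ m + 1}

def YY (m : ℝ) : Set (ℂ × ℂ) := {p | p.1 ≠ p.2 ∧ p.1 ∉ seg m ∧ p.2 ∉ seg m}

def UU (m : ℝ) : Set (ℂ × ℂ) := {p | p.1.im ≤ 0 ∧ p.1 ∉ seg m ∧ p.2.im < 0 ∧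
  (p.1.re ≠ p.2.re ∨ p.2.im < p.1.im)}

def WW (m : ℝ) : Set (ℂ × ℂ) := {p | p.1 ≠ p.2 ∧ (p.1.im < 0 ∨ p.1 = m - 1 ∨ p.1 = m + 1) ∧
  (p.2.im < 0 ∨ p.2 = m - 1 ∨ p.2 = m + 1)}

def Cen (m : ℝ) : Prop := m = 0 ∨ m = 9 ∨ m = -9

def Sg (e : ℝ) : Prop := e = 1 ∨ e = -1

lemma sg1 : Sg 1 := Or.inl rfl

lemma sg2 : Sg (-1) := Or.inr rfl

lemma ex_norm (a : ℝ) : ‖ex a‖ = 1 := by
  have : ex a = Complex.exp ((2 * Real.pi * a : ℝ) * Complex.I) := by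
    unfold ex
    congr 1
    push_cast
    ring
  rw [this, Complex.norm_exp_ofReal_mul_I]

lemma ex_zero : ex 0 = 1 := by simp [ex]

lemma ex_one : ex 1 = 1 := by simp [ex]

lemma ex_cont : Continuous ex := by
  unfold ex
  fun_prop

lemma par3 {z : C3} (hz : z ∈ Conf) {x y w : ℂ} (hx : ‖x‖ = 1) (hy : ‖y‖ = 1) (hw : ‖w‖ = 1) :
    ((![x, y, w], z) : C3 × C3) ∈ Par := by
  refine ⟨fun i => ?_, hz⟩
  fin_cases i
  exacts [hx, hy, hw]

lemma par {z : C3} (hz : z ∈ Conf) (a b : ℝ) : ((![ex a, 1, ex b], z) : C3 × C3) ∈ Par :=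
  par3 hz (ex_norm a) norm_one (ex_norm b)

lemma inj3 {x y w : ℂ} (h1 : x ≠ y) (h2 : x ≠ w) (h3 : y ≠ w) : (![x, y, w] : C3) ∈ Conf := by
  intro i j h
  fin_cases i <;> fin_cases j <;>
    first | rfl | exact absurd h h1 | exact absurd h h2 | exact absurd h h3 |
      exact absurd h.symm h1 | exact absurd h.symm h2 | exact absurd h.symm h3

lemma mass1 {m : ℝ} (hm : Cen m) : (m : ℂ) - 1 ∈ masses := by
  rcases hm with rfl | rfl | rfl <;> norm_num [masses]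

lemma mass2 {m : ℝ} (hm : Cen m) : (m : ℂ) + 1 ∈ masses := by
  rcases hm with rfl | rfl | rfl <;> norm_num [masses]

lemma seg_disj {A B : ℝ} (hA : Cen A) (hB : Cen B) (h : A ≠ B) {z : ℂ} (hz : z ∈ seg A) :
    z ∉ seg B := by
  rintro ⟨-, h1, h2⟩
  obtain ⟨-, h3, h4⟩ := hz
  rcases hA with rfl | rfl | rfl <;> rcases hB with rfl | rfl | rfl <;>
    first | exact h rfl | linarith

lemma seg_mem (m : ℝ) {e b : ℝ} (he : Sg e) (hb : b ∈ II) : ((m + e * b : ℝ) : ℂ) ∈ seg m := by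
  refine ⟨Complex.ofReal_im _, ?_, ?_⟩ <;> rw [Complex.ofReal_re] <;>
    rcases he with rfl | rfl <;> linarith [hb.1, hb.2]

lemma seg_l (m : ℝ) : (m : ℂ) - 1 ∈ seg m := by
  refine ⟨by simp, by simp, ?_⟩
  simp only [Complex.sub_re, Complex.ofReal_re, Complex.one_re]
  linarith

lemma seg_r (m : ℝ) : (m : ℂ) + 1 ∈ seg m := by
  refine ⟨by simp, ?_, by simp⟩
  simp only [Complex.add_re, Complex.ofReal_re, Complex.one_re]
  linarith

lemma not_seg {m : ℝ} {z : ℂ} (h : z.im < 0) : z ∉ seg m := fun h' => h.ne h'.1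

lemma WW_YY {A B : ℝ} (hA : Cen A) (hB : Cen B) (h : A ≠ B) : WW A ⊆ YY B := by
  have key : ∀ z : ℂ, (z.im < 0 ∨ z = A - 1 ∨ z = A + 1) → z ∉ seg B := by
    rintro z (h1 | rfl | rfl)
    exacts [not_seg h1, seg_disj hA hB h (seg_l A), seg_disj hA hB h (seg_r A)]
  exact fun p hp => ⟨hp.1, key _ hp.2.1, key _ hp.2.2⟩

lemma UU_YY (m : ℝ) : UU m ⊆ YY m := by
  refine fun p hp => ⟨fun h => ?_, hp.2.1, not_seg hp.2.2.1⟩
  rcases hp.2.2.2 with h' | h'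
  · exact h' (by rw [h])
  · rw [h] at h'
    exact lt_irrefl _ h'

lemma UU_star (m : ℝ) : StarConvex ℝ ((-Complex.I, -2 * Complex.I) : ℂ × ℂ) (UU m) := by
  intro p hp a b ha hb hab
  rcases eq_or_lt_of_le ha with rfl | ha
  · have : b = 1 := by linarith
    subst this
    simpa using hp
  obtain ⟨h1, -, h3, h4⟩ := hp
  have e1 : (a • ((-Complex.I, -2 * Complex.I) : ℂ × ℂ) + b • p).1.im = -a + b * p.1.im := by simp
  have e2 : (a • ((-Complex.I, -2 * Complex.I) : ℂ × ℂ) + b • p).2.im = -2 * a + b * p.2.im := by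
    simp
    ring
  have e3 : (a • ((-Complex.I, -2 * Complex.I) : ℂ × ℂ) + b • p).1.re = b * p.1.re := by simp
  have e4 : (a • ((-Complex.I, -2 * Complex.I) : ℂ × ℂ) + b • p).2.re = b * p.2.re := by simp
  have n1 := mul_nonpos_of_nonneg_of_nonpos hb h1
  have n2 := mul_nonpos_of_nonneg_of_nonpos hb h3.le
  refine ⟨by rw [e1]; linarith, not_seg (by rw [e1]; linarith), by rw [e2]; linarith, ?_⟩
  rw [e1, e2, e3, e4]
  rcases eq_or_lt_of_le hb with rfl | hb'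
  · right
    linarith
  · rcases h4 with h | h
    · exact Or.inl fun h' => h (mul_left_cancel₀ hb'.ne' h')
    · right
      have := mul_lt_mul_of_pos_left h hb'
      linarith

lemma UU_base (m : ℝ) : ((-Complex.I, -2 * Complex.I) : ℂ × ℂ) ∈ UU m :=
  ⟨by simp, not_seg (by simp), by simp, Or.inr (by simp)⟩

noncomputable def phi (m e : ℝ) (q : (ℂ × ℂ) × ℝ) : C3 := ![q.1.1, q.1.2, (m + e * q.2 : ℝ)]

noncomputable def psi (w : ℂ) (p : ℂ × ℂ) : C3 := ![p.1, p.2, w]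

lemma XX_apply (m e : ℝ) (c : Ch ℂ (ℂ × ℂ)) : XX m e c = push (phi m e) (pr c) := rfl

lemma phi_cont (m e : ℝ) : Continuous (phi m e) := by
  unfold phi
  fun_prop

lemma psi_maps {m : ℝ} {w : ℂ} (hw : w ∈ seg m) : MapsTo (psi w) (YY m) Conf := fun _ hp =>
  inj3 hp.1 (fun h => hp.2.1 (h ▸ hw)) fun h => hp.2.2 (h ▸ hw)

lemma phi_maps (m : ℝ) {e : ℝ} (he : Sg e) : MapsTo (phi m e) (YY m ×ˢ II) Conf := fun _ hq =>
  psi_maps (seg_mem m he hq.2) hq.1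

section XX
variable {m e : ℝ} {k : ℕ} {c : Ch ℂ (ℂ × ℂ)} {A : Set (ℂ × ℂ)} {T : Set C3}

lemma XX_mem (h : MapsTo (phi m e) (A ×ˢ II) T) (hc : c ∈ sub ℂ A k) :
    XX m e c ∈ sub ℂ T (k + 1) := push_mem h (pr_mem hc)

lemma bd_XX (hc : c ∈ sub ℂ A k) :
    bd (XX m e c) = push (psi (m + e)) c - push (psi m) c - XX m e (bd c) := by
  rw [XX_apply, XX_apply, bd_push (phi_cont m e).continuousOn (pr_mem hc), bd_pr hc, map_sub,
    map_sub, push_push _ (by fun_prop) hc, push_push _ (by fun_prop) hc]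
  have e1 : (phi m e ∘ fun x => (x, (1 : ℝ))) = psi (m + e) := by
    funext p
    simp [phi, psi]
  have e0 : (phi m e ∘ fun x => (x, (0 : ℝ))) = psi m := by
    funext p
    simp [phi, psi]
  rw [e1, e0]

lemma XX_push {W : Type} [TopologicalSpace W] [Nonempty W] {f : W → ℂ × ℂ} (hf : Continuous f)
    {B : Set W} {c : Ch ℂ W} (hc : c ∈ sub ℂ B k) :
    XX m e (push f c) = push (phi m e ∘ Prod.map f id) (pr c) := by
  rw [XX_apply, pr_push hf.continuousOn hc,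
    push_push _ (hf.prodMap continuous_id).continuousOn (pr_mem hc)]

end XX

noncomputable def XB (m : ℝ) : Ch ℂ (ℂ × ℂ) →ₗ[ℂ] Ch ℂ C3 := XX m 1 - XX m (-1)

lemma XB_mem {m : ℝ} {k : ℕ} {c : Ch ℂ (ℂ × ℂ)} {A : Set (ℂ × ℂ)} {T : Set C3}
    (h : ∀ e, Sg e → MapsTo (phi m e) (A ×ˢ II) T) (hc : c ∈ sub ℂ A k) :
    XB m c ∈ sub ℂ T (k + 1) := sub_mem (XX_mem (h 1 sg1) hc) (XX_mem (h (-1) sg2) hc)

lemma bd_XB {m : ℝ} {k : ℕ} {c : Ch ℂ (ℂ × ℂ)} {A : Set (ℂ × ℂ)} (hc : c ∈ sub ℂ A k) :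
    bd (XB m c) = -XB m (bd c) + (push (psi (m + 1)) c - push (psi (m - 1)) c) := by
  simp only [XB, LinearMap.sub_apply, map_sub]
  rw [bd_XX hc, bd_XX hc]
  simp only [Complex.ofReal_one, Complex.ofReal_neg, ← sub_eq_add_neg]
  abel

lemma ends_mem {m : ℝ} (hm : Cen m) {k : ℕ} {c : Ch ℂ (ℂ × ℂ)} (hc : c ∈ sub ℂ (YY m) k) :
    push (psi (m + 1)) c - push (psi (m - 1)) c ∈ sub ℂ (Conf ∩ {z | z 2 ∈ masses}) k := by
  have h1 : MapsTo (psi (m + 1)) (YY m) (Conf ∩ {z | z 2 ∈ masses}) := fun _ hp =>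
    ⟨psi_maps (seg_r m) hp, mass2 hm⟩
  have h2 : MapsTo (psi (m - 1)) (YY m) (Conf ∩ {z | z 2 ∈ masses}) := fun _ hp =>
    ⟨psi_maps (seg_l m) hp, mass1 hm⟩
  exact sub_mem (push_mem h1 hc) (push_mem h2 hc)

lemma XB_null {m : ℝ} {k : ℕ} {c : Ch ℂ (ℂ × ℂ)}
    (hc : c ∈ sub ℂ (YY m ∩ {p | p.1 ∈ masses}) k) :
    XB m c ∈ sub ℂ (Conf ∩ {z | z 0 ∈ masses}) (k + 1) :=
  XB_mem (fun _ he _ hq => ⟨phi_maps m he ⟨hq.1.1, hq.2⟩, hq.1.2⟩) hc

lemma gd_of_im {z : C3} (hz : z ∈ Conf) (h : (z 1).im < 0) : z ∈ Gd := by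
  refine ⟨hz, fun h' => ?_⟩
  rcases h' 1 with h1 | h1 | h1 <;> rw [h1] at h <;> simp at h

section G
variable {X : Type} [TopologicalSpace X] (D : TopData X)

lemma G_cont : ContinuousOn D.G ((Conf ×ˢ II) ×ˢ II) := by
  have h : Continuous fun q : (C3 × ℝ) × ℝ => ((![ex q.1.2, 1, ex q.2], q.1.1) : C3 × C3) := by
    have := ex_cont
    fun_prop
  exact D.cont.comp h.continuousOn fun q hq => par hq.1.1 _ _

lemma G_per : Per D.G Conf := fun x _ a _ => by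
  simp only [Fam.G, ex_one, ex_zero, and_self]

lemma Gk_cont : ContinuousOn (D.G ∘ ks) ((Conf ×ˢ II) ×ˢ II) :=
  (G_cont D).comp ks_cont.continuousOn ks_maps

lemma Gk_per : Per (D.G ∘ ks) Conf := fun x hx a ha =>
  ⟨(G_per D x hx a ha).2, (G_per D x hx a ha).1⟩

lemma G_k1 : EqOn D.G (D.G ∘ k1) (((Conf ∩ {z | z 0 ∈ masses}) ×ˢ II) ×ˢ II) := by
  intro q hq
  refine D.P1 _ _ _ (par hq.1.1.1 _ _) (par hq.1.1.1 _ _) 0 hq.1.1.2 fun j hj => ?_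
  fin_cases j
  exacts [absurd rfl hj, rfl, rfl]

lemma G_k2 : EqOn D.G (D.G ∘ k2) (((Conf ∩ {z | z 2 ∈ masses}) ×ˢ II) ×ˢ II) := by
  intro q hq
  refine D.P1 _ _ _ (par hq.1.1.1 _ _) (par hq.1.1.1 _ _) 2 hq.1.1.2 fun j hj => ?_
  fin_cases j
  exacts [rfl, rfl, absurd rfl hj]

lemma G_gd : MapsTo D.G ((Gd ×ˢ II) ×ˢ II) D.Kᶜ := fun _ hq h =>
  hq.1.1.2 (D.hK _ (par hq.1.1.1 _ _) h)

lemma Gd_Conf : Gd ⊆ Conf := fun _ h => h.1

noncomputable def SB (m : ℝ) : Ch ℂ (ℂ × ℂ) →ₗ[ℂ] Ch ℂ X := sw D.G ∘ₗ XB m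

lemma SB_apply (m : ℝ) (c : Ch ℂ (ℂ × ℂ)) : SB D m c = sw D.G (XB m c) := rfl

variable {m : ℝ} {k : ℕ} {c : Ch ℂ (ℂ × ℂ)}

lemma bd_SB (hm : Cen m) (hc : c ∈ sub ℂ (YY m) k) : bd (SB D m c) = -SB D m (bd c) := by
  rw [SB_apply, bd_sw (G_cont D) (G_per D) (XB_mem (fun e he => phi_maps m he) hc), bd_XB hc,
    map_add, sw_zero2 (G_k2 D) (ends_mem hm hc), add_zero, map_neg, SB_apply]

lemma SB_null (hc : c ∈ sub ℂ (YY m ∩ {p | p.1 ∈ masses}) k) : SB D m c = 0 := by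
  rw [SB_apply]
  exact sw_zero1 (G_k1 D) (XB_null hc)

lemma SB_Bd (hm : Cen m) (hc : c ∈ Bd ℂ (UU m) 2) : SB D m c ∈ Bd ℂ D.Kᶜ 5 := by
  obtain ⟨e, he, rfl⟩ := hc
  have h := bd_SB D hm (sub_mono (UU_YY m) he)
  rw [← neg_eq_iff_eq_neg] at h
  have h0 : ∀ e, Sg e → MapsTo (phi m e) (UU m ×ˢ II) Gd := fun e he q hq =>
    gd_of_im (phi_maps m he ⟨UU_YY m hq.1, hq.2⟩) hq.1.2.2.1
  have h1 : XB m e ∈ sub ℂ Gd 4 := XB_mem h0 he
  have h2 : sw D.G (XB m e) ∈ sub ℂ D.Kᶜ (5 + 1) := sw_mem (G_gd D) h1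
  rw [← h, SB_apply]
  exact neg_mem (bd_mem_Bd h2)

lemma SX_swap {e : ℝ} (he : Sg e) (hc : c ∈ sub ℂ (YY m ∩ {p | p.2 - p.1 = 2}) k) :
    sw D.G (XX m e (push Prod.swap c)) = sw D.G (XX m e c) := by
  have h1 := pr_mem hc
  rw [XX_push continuous_swap hc, XX_apply, sw_push (phi_cont m e).continuousOn h1,
    sw_push ((phi_cont m e).comp (continuous_swap.prodMap continuous_id)).continuousOn h1]
  refine sw_congr (fun q hq => ?_) h1
  have hz : phi m e q.1.1 ∈ Conf := phi_maps m he ⟨hq.1.1.1.1, hq.1.1.2⟩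
  have hp := par3 hz norm_one (ex_norm q.1.2) (ex_norm q.2)
  have h3 := D.P3 (Equiv.swap 0 1) _ _ hp
  have h2 := D.P2 _ _ _ hp (par hz q.1.2 q.2) hq.1.1.1.2 rfl (mul_comm _ _)
  refine Eq.trans ?_ (h3.trans h2)
  show D.Ψ _ = D.Ψ _
  congr 2 <;> funext i <;> fin_cases i <;> rfl

lemma SB_swap (hc : c ∈ sub ℂ (YY m ∩ {p | p.2 - p.1 = 2}) k) :
    SB D m (push Prod.swap c) = SB D m c := by
  simp only [SB_apply, XB, LinearMap.sub_apply, map_sub, SX_swap D sg1 hc, SX_swap D sg2 hc]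

end G

lemma T1_cont (m : ℝ) : Continuous (T1 m) := by
  unfold T1
  fun_prop

lemma T2_cont (m : ℝ) : Continuous (T2 m) := by
  unfold T2
  fun_prop

lemma pt_side (m : ℝ) {x u : ℝ} (hu : u ≤ 1) :
    ((x : ℂ) - Complex.I + (u : ℝ) * (m + Complex.I)).im < 0 ∨
      (x : ℂ) - Complex.I + (u : ℝ) * (m + Complex.I) = m + x := by
  rcases eq_or_lt_of_le hu with rfl | h
  · right
    push_cast
    ring
  · left
    simp
    linarith

lemma side_l (m : ℝ) {u : ℝ} (hu : u ≤ 1) :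
    (-1 - Complex.I + (u : ℝ) * (m + Complex.I)).im < 0 ∨
      -1 - Complex.I + (u : ℝ) * (m + Complex.I) = m - 1 ∨
      -1 - Complex.I + (u : ℝ) * (m + Complex.I) = m + 1 := by
  have := pt_side m (x := -1) hu
  push_cast at this
  exact this.imp_right fun h => Or.inl (by rw [h]; ring)

lemma side_r (m : ℝ) {u : ℝ} (hu : u ≤ 1) :
    (1 - Complex.I + (u : ℝ) * (m + Complex.I)).im < 0 ∨
      1 - Complex.I + (u : ℝ) * (m + Complex.I) = m - 1 ∨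
      1 - Complex.I + (u : ℝ) * (m + Complex.I) = m + 1 := by
  have := pt_side m (x := 1) hu
  push_cast at this
  exact this.imp_right Or.inr

lemma side_ne (m u v : ℝ) :
    -1 - Complex.I + (u : ℝ) * (m + Complex.I) ≠ 1 - Complex.I + (v : ℝ) * (m + Complex.I) := by
  intro h
  have h1 := congrArg Complex.im h
  have h2 := congrArg Complex.re h
  simp at h1 h2
  rw [h1] at h2
  linarith

lemma tri_le {q : ℝ × ℝ} (hq : q ∈ II ×ˢ II) : q.1 + q.2 * (1 - q.1) ≤ 1 := by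
  nlinarith [hq.1.2, hq.2.2]

lemma T1_maps (m : ℝ) : MapsTo (T1 m) (II ×ˢ II) (WW m) := fun _ hq =>
  ⟨side_ne m _ _, side_l m (tri_le hq), side_r m hq.1.2⟩

lemma T2_maps (m : ℝ) : MapsTo (T2 m) (II ×ˢ II) (WW m) := fun _ hq =>
  ⟨(side_ne m _ _).symm, side_r m (tri_le hq), side_l m hq.1.2⟩

lemma DD_mem (m : ℝ) : DD m ∈ sub ℂ (WW m) 3 :=
  sub_mem (push_mem (T1_maps m) (pr_mem κ1_mem)) (push_mem (T2_maps m) (pr_mem κ1_mem))

lemma bd_sq {W : Type} [TopologicalSpace W] {T : ℝ × ℝ → W} (hT : Continuous T) :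
    bd (push T (pr κ1)) = push (fun r => T (r, 1)) κ1 - push (fun r => T (r, 0)) κ1 -
      push (fun r => T (1, r)) κ1 + push (fun r => T (0, r)) κ1 := by
  rw [bd_push hT.continuousOn (pr_mem κ1_mem), bd_κ2, map_add, map_sub, map_sub,
    push_push _ (by fun_prop) κ1_mem, push_push _ (by fun_prop) κ1_mem,
    push_push _ (by fun_prop) κ1_mem, push_push _ (by fun_prop) κ1_mem]
  rfl

lemma ln_mem {W : Type} [TopologicalSpace W] {f : ℝ → W} {S : Set W} (hf : ∀ r ∈ II, f r ∈ S) :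
    push f κ1 ∈ sub ℂ S 2 := push_mem hf κ1_mem

lemma bd_ln {W : Type} [TopologicalSpace W] {f : ℝ → W} (hf : Continuous f) :
    bd (push f κ1) = pt ℂ (f 1) - pt ℂ (f 0) := by
  rw [bd_push hf.continuousOn κ1_mem, bd_κ1, map_sub, push_pt, push_pt]

noncomputable def l1 (m : ℝ) : Ch ℂ (ℂ × ℂ) := push (fun r => T1 m (0, r)) κ1

noncomputable def l2 (m : ℝ) : Ch ℂ (ℂ × ℂ) := push (fun r => T2 m (0, r)) κ1

noncomputable def cf (m e r : ℝ) : ℂ × ℂ := (((m + e * r : ℝ) : ℂ), 1 - Complex.I)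

noncomputable def CC (m : ℝ) : Ch ℂ (ℂ × ℂ) := push (cf m 1) κ1 - push (cf m (-1)) κ1

noncomputable def nf (m r : ℝ) : ℂ × ℂ := ((m : ℂ) + 1, 1 - Complex.I - 2 * (r : ℂ))

noncomputable def nn (m : ℝ) : Ch ℂ (ℂ × ℂ) := push (nf m) κ1

noncomputable def lam (m : ℝ) : Ch ℂ (ℂ × ℂ) := l1 m + CC m + nn m - l2 m

lemma cf_cont (m e : ℝ) : Continuous (cf m e) := by
  unfold cf
  fun_prop

lemma nf_cont (m : ℝ) : Continuous (nf m) := by
  unfold nf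
  fun_prop

lemma bd_CC (m : ℝ) : bd (CC m) =
    pt ℂ (((m : ℂ) + 1, 1 - Complex.I) : ℂ × ℂ) - pt ℂ (((m : ℂ) - 1, 1 - Complex.I) : ℂ × ℂ) := by
  rw [CC, map_sub, bd_ln (cf_cont m 1), bd_ln (cf_cont m (-1))]
  simp [cf, sub_eq_add_neg]

lemma bd_lam (m : ℝ) : bd (lam m) = pt ℂ ((1 - Complex.I, -1 - Complex.I) : ℂ × ℂ) -
    pt ℂ ((-1 - Complex.I, 1 - Complex.I) : ℂ × ℂ) := by
  have e1 : T1 m (0, 1) = ((m : ℂ) - 1, 1 - Complex.I) := by
    simp [T1]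
    ring
  have e2 : T1 m (0, 0) = (-1 - Complex.I, 1 - Complex.I) := by simp [T1]
  have e3 : T2 m (0, 1) = ((m : ℂ) + 1, -1 - Complex.I) := by
    simp [T2]
    ring
  have e4 : T2 m (0, 0) = (1 - Complex.I, -1 - Complex.I) := by simp [T2]
  have e5 : nf m 1 = ((m : ℂ) + 1, -1 - Complex.I) := by
    simp [nf]
    ring
  have e6 : nf m 0 = ((m : ℂ) + 1, 1 - Complex.I) := by simp [nf]
  rw [lam, map_sub, map_add, map_add, bd_CC, l1, l2, nn, bd_ln (nf_cont m),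
    bd_ln ((T1_cont m).comp' (by fun_prop)), bd_ln ((T2_cont m).comp' (by fun_prop)),
    e1, e2, e3, e4, e5, e6]
  abel

section AB
variable {A B : ℝ} (hA : Cen A) (hB : Cen B) (h : A ≠ B)
include hA hB h

lemma cf_maps {e : ℝ} (he : Sg e) : MapsTo (cf A e) II (UU B) := fun _ hr =>
  ⟨by simp [cf], seg_disj hA hB h (seg_mem A he hr), by simp [cf], Or.inr (by simp [cf])⟩

lemma CC_mem : CC A ∈ sub ℂ (UU B) 2 :=
  sub_mem (push_mem (cf_maps hA hB h sg1) κ1_mem) (push_mem (cf_maps hA hB h sg2) κ1_mem)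

lemma nf_maps : MapsTo (nf A) II (UU B) := fun _ _ =>
  ⟨by simp [nf], seg_disj hA hB h (seg_r A), by simp [nf], Or.inr (by simp [nf])⟩

lemma lam_mem : lam A ∈ sub ℂ (UU B) 2 := by
  refine sub_mem (add_mem (add_mem (push_mem (fun r hr => ?_) κ1_mem) (CC_mem hA hB h))
    (push_mem (nf_maps hA hB h) κ1_mem)) (push_mem (fun r hr => ?_) κ1_mem)
  · refine ⟨by simpa [T1] using hr.2,
      (WW_YY hA hB h (T1_maps A (⟨by simp, hr⟩ : ((0 : ℝ), r) ∈ II ×ˢ II))).2.1, by simp [T1], ?_⟩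
    rcases eq_or_lt_of_le hr.1 with rfl | h0
    · left
      norm_num [T1]
    · right
      simpa [T1] using h0
  · refine ⟨by simpa [T2] using hr.2,
      (WW_YY hA hB h (T2_maps A (⟨by simp, hr⟩ : ((0 : ℝ), r) ∈ II ×ˢ II))).2.1, by simp [T2], ?_⟩
    rcases eq_or_lt_of_le hr.1 with rfl | h0
    · left
      norm_num [T2]
    · right
      simpa [T2] using h0

variable {X : Type} [TopologicalSpace X] (D : TopData X)

lemma SB_bd_DD : SB D B (bd (DD A)) = SB D B (lam A) - SB D B (CC A) := by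
  have o : (1 : ℝ) ∈ II := by simp
  have z : (0 : ℝ) ∈ II := by simp
  have y1 : ∀ q ∈ II ×ˢ II, T1 A q ∈ YY B := fun q hq => WW_YY hA hB h (T1_maps A hq)
  have y2 : ∀ q ∈ II ×ˢ II, T2 A q ∈ YY B := fun q hq => WW_YY hA hB h (T2_maps A hq)
  have m1 : -1 - Complex.I + (A + Complex.I) ∈ masses := by
    convert mass1 hA using 1
    ring
  have m2 : 1 - Complex.I + (A + Complex.I) ∈ masses := by
    convert mass2 hA using 1
    ring
  have n1 : SB D B (push (fun r => T1 A (r, 1)) κ1) = 0 :=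
    SB_null D (ln_mem fun r hr => ⟨y1 _ ⟨hr, o⟩, by simpa [T1] using m1⟩)
  have n2 : SB D B (push (fun r => T1 A (1, r)) κ1) = 0 :=
    SB_null D (ln_mem fun r hr => ⟨y1 _ ⟨o, hr⟩, by simpa [T1] using m1⟩)
  have n3 : SB D B (push (fun r => T2 A (r, 1)) κ1) = 0 :=
    SB_null D (ln_mem fun r hr => ⟨y2 _ ⟨hr, o⟩, by simpa [T2] using m2⟩)
  have n4 : SB D B (push (fun r => T2 A (1, r)) κ1) = 0 :=
    SB_null D (ln_mem fun r hr => ⟨y2 _ ⟨o, hr⟩, by simpa [T2] using m2⟩)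
  have n5 : SB D B (nn A) = 0 :=
    SB_null D (ln_mem fun r hr => ⟨UU_YY B (nf_maps hA hB h hr), mass2 hA⟩)
  have n6 : SB D B (push (fun r => T2 A (r, 0)) κ1) = SB D B (push (fun r => T1 A (r, 0)) κ1) := by
    rw [← SB_swap D (m := B) (c := push (fun r => T1 A (r, 0)) κ1) (k := 2)
      (ln_mem fun r hr => ⟨y1 _ ⟨hr, z⟩, by simp [T1]; ring⟩),
      push_push _ ((T1_cont A).comp' (by fun_prop)).continuousOn κ1_mem]
    congr 3
    funext r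
    simp [T1, T2]
  rw [DD, map_sub, bd_sq (T1_cont A), bd_sq (T2_cont A), lam, l1, l2]
  simp only [map_sub, map_add, n1, n2, n3, n4, n5, n6]
  abel

lemma bd_SB_DD {A' : ℝ} (hA' : Cen A') (h' : A' ≠ B) :
    bd (SB D B (DD A - DD A')) - (SB D B (CC A) - SB D B (CC A')) ∈ Bd ℂ D.Kᶜ 5 := by
  have h1 : lam A - lam A' ∈ Bd ℂ (UU B) 2 :=
    acyclic_star (UU_base B) (UU_star B) (sub_mem (lam_mem hA hB h) (lam_mem hA' hB h'))
      (by rw [map_sub, bd_lam, bd_lam, sub_self])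
  have h2 := neg_mem (SB_Bd D hB h1)
  rw [bd_SB D hB (sub_mem (sub_mono (WW_YY hA hB h) (DD_mem A))
    (sub_mono (WW_YY hA' hB h') (DD_mem A'))), map_sub, map_sub, SB_bd_DD hA hB h,
    SB_bd_DD hA' hB h']
  convert h2 using 1
  rw [map_sub]
  abel

end AB

noncomputable def sq (A B e e' : ℝ) : ℝ × ℝ → C3 := phi B e' ∘ Prod.map (cf A e) id

lemma sq_cont (A B e e' : ℝ) : Continuous (sq A B e e') :=
  (phi_cont B e').comp ((cf_cont A e).prodMap continuous_id)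

noncomputable def Sq (A B : ℝ) : Ch ℂ (ℝ × ℝ) →ₗ[ℂ] Ch ℂ C3 :=
  push (sq A B 1 1) - push (sq A B (-1) 1) - (push (sq A B 1 (-1)) - push (sq A B (-1) (-1)))

lemma XB_CC (A B : ℝ) : XB B (CC A) = Sq A B (pr κ1) := by
  simp only [XB, CC, LinearMap.sub_apply, map_sub, XX_push (cf_cont _ _) κ1_mem, Sq, sq]
  abel

def sw02 (z : C3) : C3 := z ∘ Equiv.swap 0 2

lemma sw02_cont : Continuous sw02 := by
  unfold sw02
  fun_prop

lemma sw02_Sq (A B : ℝ) : push sw02 (Sq B A (pr κ1)) = Sq A B (push Prod.swap (pr κ1)) := by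
  have key : ∀ e e', push sw02 (push (sq B A e e') (pr κ1)) =
      push (sq A B e' e) (push Prod.swap (pr κ1)) := by
    intro e e'
    rw [push_push _ (sq_cont _ _ _ _).continuousOn (pr_mem κ1_mem),
      push_push _ continuous_swap.continuousOn (pr_mem κ1_mem)]
    congr 2
    funext q i
    fin_cases i <;> rfl
  simp only [Sq, LinearMap.sub_apply, map_sub, key]
  abel

lemma sq_cycle : pr κ1 + push Prod.swap (pr κ1) ∈ Bd ℂ (II ×ˢ II) 3 := by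
  have z : ((0 : ℝ), (0 : ℝ)) ∈ II ×ˢ II := by simp
  have hs : MapsTo Prod.swap (II ×ˢ II) (II ×ˢ II) := fun q hq => ⟨hq.2, hq.1⟩
  refine acyclic_star z (((convex_Icc _ _).prod (convex_Icc _ _)).starConvex z)
    (add_mem (pr_mem κ1_mem) (push_mem hs (pr_mem κ1_mem))) ?_
  rw [map_add, bd_sq continuous_swap, bd_κ2]
  simp only [Prod.swap]
  abel

section AB2
variable {A B : ℝ} (hA : Cen A) (hB : Cen B) (h : A ≠ B)
include hA hB h

lemma sq_maps {e e' : ℝ} (he : Sg e) (he' : Sg e') : MapsTo (sq A B e e') (II ×ˢ II) Gd :=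
  fun _ hq => gd_of_im (phi_maps B he' ⟨UU_YY B (cf_maps hA hB h he hq.1), hq.2⟩)
    (cf_maps hA hB h he hq.1).2.2.1

lemma Sq_mem {k : ℕ} {c : Ch ℂ (ℝ × ℝ)} (hc : c ∈ sub ℂ (II ×ˢ II) k) : Sq A B c ∈ sub ℂ Gd k :=
  sub_mem (sub_mem (push_mem (sq_maps hA hB h sg1 sg1) hc) (push_mem (sq_maps hA hB h sg2 sg1) hc))
    (sub_mem (push_mem (sq_maps hA hB h sg1 sg2) hc) (push_mem (sq_maps hA hB h sg2 sg2) hc))

lemma Sq_Bd {k : ℕ} {c : Ch ℂ (ℝ × ℝ)} (hc : c ∈ Bd ℂ (II ×ˢ II) k) : Sq A B c ∈ Bd ℂ Gd k :=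
  have f := fun e e' => (sq_cont A B e e').continuousOn (s := II ×ˢ II)
  sub_mem (sub_mem (push_Bd (f _ _) (sq_maps hA hB h sg1 sg1) hc)
    (push_Bd (f _ _) (sq_maps hA hB h sg2 sg1) hc))
    (sub_mem (push_Bd (f _ _) (sq_maps hA hB h sg1 sg2) hc)
      (push_Bd (f _ _) (sq_maps hA hB h sg2 sg2) hc))

variable {X : Type} [TopologicalSpace X] (D : TopData X)

lemma Q_symm : SB D B (CC A) - SB D A (CC B) ∈ Bd ℂ D.Kᶜ 5 := by
  have c1 := Sq_mem hA hB h (pr_mem κ1_mem)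
  have c2 := sub_mono Gd_Conf (Sq_mem hB hA h.symm (pr_mem κ1_mem))
  have e1 : SB D A (CC B) = sw (D.G ∘ ks) (Sq A B (push Prod.swap (pr κ1))) := by
    rw [SB_apply, XB_CC, ← sw02_Sq, sw_push sw02_cont.continuousOn c2]
    refine sw_congr (fun q hq => ?_) c2
    refine (D.P3 (Equiv.swap 0 2) _ _ (par hq.1.1 q.1.2 q.2)).symm.trans ?_
    show D.Ψ _ = D.Ψ _
    congr 2
    funext i
    fin_cases i <;> rfl
  have b1 : sw (D.G ∘ ks) (Sq A B (pr κ1 + push Prod.swap (pr κ1))) ∈ Bd ℂ D.Kᶜ 5 := by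
    obtain ⟨u, hu, hb⟩ := Sq_Bd hA hB h sq_cycle
    rw [← hb, ← bd_sw (Gk_cont D) (Gk_per D) (sub_mono Gd_Conf hu)]
    exact bd_mem_Bd (sw_mem (k := 4) ((G_gd D).comp ks_maps) hu)
  have hC := sub_mono (UU_YY B) (CC_mem hA hB h)
  have hb : bd (CC A) ∈ sub ℂ (YY B ∩ {p | p.1 ∈ masses}) 1 := by
    refine sub_inter (bd_mem hC) ?_
    rw [bd_CC]
    exact sub_mem (pt_mem (mass2 hA)) (pt_mem (mass1 hA))
  have b2 := sw_swap (k := 2)
    ((G_cont D).mono (prod_mono (prod_mono Gd_Conf subset_rfl) subset_rfl)) (G_gd D) c1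
    (neg_mem (XB_null hb)) (ends_mem hB hC) (by rw [← XB_CC, bd_XB hC]) (G_k1 D) (G_k2 D)
  have := sub_mem b2 b1
  rw [e1, SB_apply, XB_CC]
  convert this using 1
  rw [map_add, map_add]
  abel

lemma SX_mem {e : ℝ} (he : Sg e) (hne : ¬ (A = 0 ∧ B = 9 ∧ e = -1)) :
    sw D.G (XX B e (DD A)) ∈ sub ℂ D.Kᶜ 6 := by
  refine sw_mem (k := 4) (G_gd D) (XX_mem (fun q hq => ?_) (DD_mem A))
  refine ⟨phi_maps B he ⟨WW_YY hA hB h hq.1, hq.2⟩, fun hz => hne ?_⟩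
  have re : ∀ z : ℂ, z ∈ ({-1, 1, 8} : Set ℂ) → z.im = 0 ∧ (z.re = -1 ∨ z.re = 1 ∨ z.re = 8) := by
    rintro z (rfl | rfl | rfl) <;> simp
  have key : ∀ z : ℂ, z ∈ ({-1, 1, 8} : Set ℂ) → (z.im < 0 ∨ z = A - 1 ∨ z = A + 1) →
      z = A - 1 ∨ z = A + 1 := fun z h1 h2 => h2.resolve_left (re z h1).1.not_lt
  have h0 : q.1.1 ∈ ({-1, 1, 8} : Set ℂ) := hz 0
  have h1 : q.1.2 ∈ ({-1, 1, 8} : Set ℂ) := hz 1
  have h2 : ((B + e * q.2 : ℝ) : ℂ) ∈ ({-1, 1, 8} : Set ℂ) := hz 2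
  have both : (A : ℂ) - 1 ∈ ({-1, 1, 8} : Set ℂ) ∧ (A : ℂ) + 1 ∈ ({-1, 1, 8} : Set ℂ) := by
    rcases key _ h0 hq.1.2.1 with a | a <;> rcases key _ h1 hq.1.2.2 with b | b
    · exact absurd (a.trans b.symm) hq.1.1
    · exact ⟨a ▸ h0, b ▸ h1⟩
    · exact ⟨b ▸ h1, a ▸ h0⟩
    · exact absurd (a.trans b.symm) hq.1.1
  have r1 := (re _ both.1).2
  have r2 := (re _ both.2).2
  have r3 := (re _ h2).2
  simp only [Complex.sub_re, Complex.add_re, Complex.ofReal_re, Complex.one_re] at r1 r2 r3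
  have A0 : A = 0 := by
    rcases hA with a | a | a
    · exact a
    · rcases r2 with r | r | r <;> linarith
    · rcases r1 with r | r | r <;> linarith
  have q0 := hq.2.1
  have q1 := hq.2.2
  rcases hB with b | b | b
  · exact absurd (A0.trans b.symm) h
  · rcases he with rfl | rfl
    · rcases r3 with r | r | r <;> linarith
    · exact ⟨A0, b, rfl⟩
  · rcases he with rfl | rfl <;> rcases r3 with r | r | r <;> linarith

lemma SB_mem (hne : ¬ (A = 0 ∧ B = 9)) : SB D B (DD A) ∈ sub ℂ D.Kᶜ 6 := by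
  rw [SB_apply, XB, LinearMap.sub_apply, map_sub]
  exact sub_mem (SX_mem hA hB h D sg1 fun h' => hne ⟨h'.1, h'.2.1⟩)
    (SX_mem hA hB h D sg2 fun h' => hne ⟨h'.1, h'.2.1⟩)

end AB2

end Cy

open Cy in
theorem cyc : CYC := by
  intro X _ D
  have a : Cen 0 := Or.inl rfl
  have b : Cen 9 := Or.inr (Or.inl rfl)
  have c : Cen (-9) := Or.inr (Or.inr rfl)
  have ab : (0 : ℝ) ≠ 9 := by norm_num
  have ac : (0 : ℝ) ≠ -9 := by norm_num
  have bc : (9 : ℝ) ≠ -9 := by norm_num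
  have g1 := bd_SB_DD a b ab D c bc.symm
  have g2 := bd_SB_DD b c bc D a ac
  have g3 := bd_SB_DD c a ac.symm D b ab.symm
  have q1 := Q_symm a b ab D
  have q2 := Q_symm b c bc D
  have q3 := Q_symm c a ac.symm D
  have s1 := SX_mem a b ab D sg1 (by norm_num)
  have s2 := SB_mem c b bc.symm D (by norm_num)
  have s3 := SB_mem b c bc D (by norm_num)
  have s4 := SB_mem a c ac D (by norm_num)
  have s5 := SB_mem c a ac.symm D (by norm_num)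
  have s6 := SB_mem b a ab.symm D (by norm_num)
  have t := bd_mem_Bd (add_mem (add_mem (sub_mem s1 s2) (sub_mem s3 s4)) (sub_mem s5 s6))
  have e : SB D 9 (DD 0) = sw D.G (XX 9 1 (DD 0)) - D.c0 := by
    rw [SB_apply, XB, LinearMap.sub_apply, map_sub, Fam.c0]
  have := sub_mem t (add_mem (add_mem (add_mem g1 g2) g3) (add_mem (add_mem q1 q2) q3))
  convert this using 1
  simp only [map_sub, map_add, e]
  abel

end Pool.Agent.P.MP_f9c8fc_ag
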