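import Mathlib

/-! Rational Cherednik algebras at `t = 0`, Calogero-Moser spaces, singular cohomology. -/

open CategoryTheory

namespace Pool.Agent.P.MP_f9c8fc_ag

variable {V : Type} [AddCommGroup V] [Module ℂ V]

/-- `s` is a reflection: its fixed space has dimension `dim V - 1`. -/
def IsRefl (s : V ≃ₗ[ℂ] V) : Prop :=
  Module.finrank ℂ (LinearMap.eqLocus (s : V →ₗ[ℂ] V) LinearMap.id) + 1 = Module.finrank ℂ V

/-- A subgroup `W` of `GL(V)`, a parameter `c`, and the forms and vectors `α_s`, `α_s^∨`
(only their values at reflections matter). -/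
structure Data (V : Type) [AddCommGroup V] [Module ℂ V] where
  W : Subgroup (V ≃ₗ[ℂ] V)
  c : W → ℂ
  α : W → Module.Dual ℂ V
  αv : W → V

namespace Data

variable (D : Data V)

/-- The action of `W` on the dual space. -/
def dualAct (w : D.W) (x : Module.Dual ℂ V) : Module.Dual ℂ V := x ∘ₗ (w.1.symm : V →ₗ[ℂ] V)

/-- The hypotheses of the problem. -/
structure Valid : Prop where
  finite : Finite D.W
  gen : Subgroup.closure {s : D.W | IsRefl s.1} = ⊤
  ker : ∀ s : D.W, IsRefl s.1 → ∀ y : V, s.1 y = y ↔ D.α s y = 0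
  coker : ∀ s : D.W, IsRefl s.1 → ∀ x : Module.Dual ℂ V, D.dualAct s x = x ↔ x (D.αv s) = 0
  conj : ∀ s w : D.W, IsRefl s.1 → D.c (w * s * w⁻¹) = D.c s

/-- The relations of `T(V ⊕ V^*) ⋊ W` followed by those of the Cherednik algebra, between
elements `Y y`, `X x`, `g w` of an algebra. -/
inductive Rel {A : Type} [Ring A] [Algebra ℂ A] (Y : V → A) (X : Module.Dual ℂ V → A)
    (g : D.W → A) : A → A → Prop
  | one : Rel Y X g (g 1) 1
  | mul (v w : D.W) : Rel Y X g (g v * g w) (g (v * w))
  | actY (w : D.W) (y : V) : Rel Y X g (g w * Y y) (Y (w.1 y) * g w)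
  | actX (w : D.W) (x : Module.Dual ℂ V) : Rel Y X g (g w * X x) (X (D.dualAct w x) * g w)
  | commX (x x' : Module.Dual ℂ V) : Rel Y X g (X x * X x') (X x' * X x)
  | commY (y y' : V) : Rel Y X g (Y y * Y y') (Y y' * Y y)
  | cher (y : V) (x : Module.Dual ℂ V) : Rel Y X g (Y y * X x - X x * Y y)
      (∑ᶠ (s : D.W) (_ : IsRefl s.1), ((LinearMap.det (s.1 : V →ₗ[ℂ] V) - 1) * D.c s *
        (D.α s y * x (D.αv s) / D.α s (D.αv s))) • g s)

end Data

/-- A vector as an element of the tensor algebra. -/
noncomputable def tens {M : Type} [AddCommGroup M] [Module ℂ M] (m : M) : TensorAlgebra ℂ M :=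
  TensorAlgebra.ι ℂ m

/-- The tensor algebra of the vector space `V ⊕ V^* ⊕ ℂ W`. -/
abbrev Free (V W : Type) [AddCommGroup V] [Module ℂ V] :=
  TensorAlgebra ℂ (V × Module.Dual ℂ V × (W →₀ ℂ))

noncomputable def gY (W : Type) (y : V) : Free V W := tens (y, 0, 0)

noncomputable def gX (W : Type) (x : Module.Dual ℂ V) : Free V W := tens (0, x, 0)

noncomputable def gW (V : Type) [AddCommGroup V] [Module ℂ V] {W : Type} (w : W) : Free V W :=
  tens (0, 0, Finsupp.single w 1)

/-- The rational Cherednik algebra `H_c` at `t = 0`. -/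
abbrev Data.H (D : Data V) := RingQuot (D.Rel (gY D.W) (gX D.W) (gW V))

/-- The complex points of the affine variety with coordinate ring `A`. -/
def Pts (A : Type) [CommRing A] [Algebra ℂ A] : Type := A →ₐ[ℂ] ℂ

/-- The classical topology: the coarsest one making all regular functions continuous. -/
noncomputable instance (A : Type) [CommRing A] [Algebra ℂ A] : TopologicalSpace (Pts A) :=
  TopologicalSpace.induced (fun (φ : A →ₐ[ℂ] ℂ) (a : A) => φ a) Pi.topologicalSpace

/-- Singular cohomology with complex coefficients: the cohomology of the complex dual to the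
singular chain complex. -/
noncomputable def singCoh (X : TopCat.{0}) (n : ℕ) : ModuleCat.{0} ℂ :=
  ((((AlgebraicTopology.singularChainComplexFunctor (ModuleCat.{0} ℂ)).obj
    (ModuleCat.of ℂ ℂ)).obj X).linearYonedaObj ℂ (ModuleCat.of ℂ ℂ)).homology n

/-- The variety whose coordinate ring is the centre of `A` is singular and its cohomology in
degree `n` is not zero. -/
structure SingularWithCoh (A : Type) [Ring A] [Algebra ℂ A] (n : ℕ) : Prop where
  singular : ¬ Algebra.FormallySmooth ℂ (Subalgebra.center ℂ A)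
  coh : ¬ Limits.IsZero (singCoh (TopCat.of (Pts (Subalgebra.center ℂ A))) n)

/-- The Calogero-Moser space is singular and `H^n` is not zero. -/
def Data.Bad (D : Data V) (n : ℕ) : Prop := SingularWithCoh D.H n

end Pool.Agent.P.MP_f9c8fc_ag
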