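import Pool.Agent.P.MP_f9c8fc_ag.Iface

/-! Detection of the five-cycle by a map to a five dimensional vector space. -/

open Set Pool.Agent.Lib.Helper83

namespace Pool.Agent.P.MP_f9c8fc_ag

namespace Det

abbrev Q3 := (ℝ × ℝ) × ℝ

abbrev Q5 := (Q3 × ℝ) × ℝ

abbrev V5 := ℂ × ℝ × ℂ

/-- The three dimensional unit cube. -/
abbrev cu3 : Set Q3 := (II ×ˢ II) ×ˢ II

/-- The five dimensional unit cube. -/
abbrev cu5 : Set Q5 := (cu3 ×ˢ II) ×ˢ II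

section general
variable {X Y : Type} [TopologicalSpace X] [TopologicalSpace Y] [Nonempty X]

lemma htpy {S : Set X} {T : Set Y} {H : X × ℝ → Y} (hH : ContinuousOn H (S ×ˢ II))
    (hm : MapsTo H (S ×ˢ II) T) {k : ℕ} {c : Ch ℂ X} (hc : c ∈ sub ℂ S k) (hb : bd c = 0)
    (h0 : push (fun x => H (x, 0)) c ∈ Bd ℂ T k) : push (fun x => H (x, 1)) c ∈ Bd ℂ T k := by
  have h := bd_Pri hH hc
  rw [hb, map_zero, add_zero] at h
  have h2 := add_mem (bd_mem_Bd (Pri_mem hm hc)) h0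
  rwa [h, sub_add_cancel] at h2

lemma bd_pr_mem {S B : Set X} {j : ℕ} {c : Ch ℂ X} (hc : c ∈ sub ℂ S (j + 1))
    (hb : bd c ∈ sub ℂ B j) :
    bd (pr c) ∈ sub ℂ {p : X × ℝ | p.1 ∈ B ∨ p.2 = 0 ∨ p.2 = 1} (j + 1) := by
  rw [bd_pr hc]
  refine sub_mem (sub_mem (push_mem (fun x _ => ?_) hc) (push_mem (fun x _ => ?_) hc))
    (sub_mono (fun q hq => Or.inl hq.1) (pr_mem hb)) <;> simp

end general

/-- The three dimensional cube as a chain. -/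
noncomputable def κ3 : Ch ℂ Q3 := pr (pr κ1)

lemma κ3_mem : κ3 ∈ sub ℂ cu3 4 := pr_mem (pr_mem κ1_mem)

lemma κ5_mem : κ5 ∈ sub ℂ cu5 6 := pr_mem (pr_mem κ3_mem)

/-- Points with a coordinate equal to zero or one. -/
def fr : Set Q5 := {p | ((((p.1.1.1.1 = 0 ∨ p.1.1.1.1 = 1) ∨ p.1.1.1.2 = 0 ∨ p.1.1.1.2 = 1) ∨
  p.1.1.2 = 0 ∨ p.1.1.2 = 1) ∨ p.1.2 = 0 ∨ p.1.2 = 1) ∨ p.2 = 0 ∨ p.2 = 1}

lemma bd_κ5_mem : bd κ5 ∈ sub ℂ (cu5 ∩ fr) 5 := by
  have h1 : bd κ1 ∈ sub ℂ {x : ℝ | x = 0 ∨ x = 1} 1 := by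
    rw [bd_κ1]
    exact sub_mem (pt_mem (Or.inr rfl)) (pt_mem (Or.inl rfl))
  exact sub_inter (bd_mem κ5_mem) (bd_pr_mem (pr_mem κ3_mem) (bd_pr_mem κ3_mem
    (bd_pr_mem (pr_mem κ1_mem) (bd_pr_mem κ1_mem h1))))

lemma ex_cont : Continuous ex := by unfold ex; fun_prop

lemma ex_norm (a : ℝ) : ‖ex a‖ = 1 := by
  rw [ex, show 2 * (Real.pi : ℂ) * Complex.I * a = (2 * Real.pi * a : ℝ) * Complex.I by
    push_cast; ring, Complex.norm_exp_ofReal_mul_I]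

lemma ex_re (a : ℝ) : (ex a).re = Real.cos (2 * Real.pi * a) := by
  rw [ex, show 2 * (Real.pi : ℂ) * Complex.I * a = (2 * Real.pi * a : ℝ) * Complex.I by
    push_cast; ring, Complex.exp_ofReal_mul_I_re]

lemma ex_im (a : ℝ) : (ex a).im = Real.sin (2 * Real.pi * a) := by
  rw [ex, show 2 * (Real.pi : ℂ) * Complex.I * a = (2 * Real.pi * a : ℝ) * Complex.I by
    push_cast; ring, Complex.exp_ofReal_mul_I_im]

lemma ex_zero : ex 0 = 1 := by simp [ex]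

lemma ex_one : ex 1 = 1 := by simp [ex]

lemma ex_sign {a : ℝ} (ha : a ∈ II) : 0 ≤ (ex a).im * (1 / 2 - a) := by
  rw [ex_im]
  have hp := Real.pi_pos
  rcases le_total a (1 / 2) with h | h
  · exact mul_nonneg (Real.sin_nonneg_of_nonneg_of_le_pi (by nlinarith [ha.1]) (by nlinarith))
      (by linarith)
  · refine mul_nonneg_of_nonpos_of_nonpos ?_ (by linarith)
    rw [← Real.sin_sub_two_pi]
    exact Real.sin_nonpos_of_nonpos_of_neg_pi_le (by nlinarith [ha.2]) (by nlinarith)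

/-- One complex coordinate of the straight line homotopy. -/
noncomputable def gg (ρ c x a s : ℝ) : ℂ :=
  (1 - s : ℝ) * (ex a * ρ + c) + s * ((x - 1 / 2 : ℝ) + (1 / 2 - a : ℝ) * Complex.I)

lemma gg_re (ρ c x a s : ℝ) :
    (gg ρ c x a s).re = (1 - s) * ((ex a).re * ρ + c) + s * (x - 1 / 2) := by simp [gg]

lemma gg_im (ρ c x a s : ℝ) : (gg ρ c x a s).im = (1 - s) * ((ex a).im * ρ) + s * (1 / 2 - a) := by
  simp [gg]

lemma gg_A {ρ c x a s : ℝ} (hρ : 0 ≤ ρ) (hc : 0 < c) (ha : a = 0 ∨ a = 1) :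
    gg ρ c x a s ≠ 0 := fun h => by
  have h1 := gg_re ρ c x a s
  have h2 := gg_im ρ c x a s
  have h3 : ex a = 1 := by rcases ha with rfl | rfl; exacts [ex_zero, ex_one]
  rw [h, h3] at h1 h2
  simp only [Complex.zero_re, Complex.zero_im, Complex.one_re, Complex.one_im] at h1 h2
  have h4 : s = 0 := by rcases ha with rfl | rfl <;> linarith
  subst h4
  linarith

lemma gg_B {c x a s : ℝ} (hc : 0 < c) (hs : s ∈ II) (hx : x = 1 ∨ s = 0) :
    gg 0 c x a s ≠ 0 := fun h => by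
  have h1 := gg_re 0 c x a s
  rw [h, Complex.zero_re] at h1
  rcases hx with rfl | rfl
  · rcases hs.1.eq_or_lt with rfl | h0
    · linarith
    · nlinarith [mul_nonneg (sub_nonneg.2 hs.2) hc.le]
  · linarith

lemma gg_C {ρ c a s : ℝ} (hc : 0 < c) (hρ : c < ρ) (ha : a ∈ II) (hs : s ∈ II) :
    gg ρ c 0 a s ≠ 0 := fun h => by
  have h1 := gg_re ρ c 0 a s
  have h2 := gg_im ρ c 0 a s
  rw [h] at h1 h2
  simp only [Complex.zero_re, Complex.zero_im] at h1 h2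
  rcases hs.1.eq_or_lt with rfl | h0
  · have h3 : (ex a).im = 0 := by
      have : (ex a).im * ρ = 0 := by linarith
      exact (mul_eq_zero.1 this).resolve_right (by linarith)
    have h4 : (ex a).re ^ 2 = 1 := by
      have := Complex.sq_norm (ex a)
      rw [ex_norm, Complex.normSq_apply, h3] at this
      linarith
    have h5 : (ex a).re * ρ = -c := by linarith
    have h6 : ρ ^ 2 = c ^ 2 := by
      have : ((ex a).re * ρ) ^ 2 = c ^ 2 := by rw [h5]; ring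
      rwa [mul_pow, h4, one_mul] at this
    nlinarith
  · have h3 : a = 1 / 2 := by
      have h4 := mul_nonneg (mul_nonneg (sub_nonneg.2 hs.2) (ex_sign ha)) (hc.trans hρ).le
      have h5 : s * (1 / 2 - a) ^ 2 ≤ 0 := by
        have : s * (1 / 2 - a) ^ 2 = -((1 - s) * ((ex a).im * (1 / 2 - a)) * ρ) := by
          linear_combination (-(1 / 2 - a)) * h2
        linarith
      have h6 : (1 / 2 - a) ^ 2 ≤ 0 := le_of_mul_le_mul_left (by simpa using h5) h0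
      nlinarith [sq_nonneg (1 / 2 - a)]
    have h4 : (ex a).re = -1 := by
      rw [ex_re, h3, show 2 * Real.pi * (1 / 2) = Real.pi by ring, Real.cos_pi]
    rw [h4] at h1
    nlinarith [hs.2]

/-- The modulus of the first coordinate. -/
noncomputable def r1 (x : ℝ × ℝ) : ℝ := √((1 - x.1) * (1 - x.2)) * √(x.2 * (1 - x.1)) * (1 - x.1)

lemma r1_nonneg {x : ℝ × ℝ} (h : x.1 ∈ II) : 0 ≤ r1 x :=
  mul_nonneg (by positivity) (sub_nonneg.2 h.2)

lemma r1_zero {x : ℝ × ℝ} (h : x.1 = 1 ∨ x.2 = 0 ∨ x.2 = 1) : r1 x = 0 := by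
  rcases h with h | h | h <;> simp [r1, h]

lemma r1_half {x : ℝ × ℝ} (h : x.1 = 0) (h' : x.2 = 1 / 2) : r1 x = 1 / 2 := by
  rw [r1, h, h', show ((1 : ℝ) - 0) * (1 - 1 / 2) = 1 / 2 by norm_num,
    show (1 / 2 : ℝ) * (1 - 0) = 1 / 2 by norm_num, Real.mul_self_sqrt (by norm_num)]
  norm_num

/-- The detecting map on the cube. -/
noncomputable def Φ (p : Q5) : V5 :=
  (ex p.1.2 * r1 p.1.1.1, (1 - p.1.1.1.1) ^ 2 * (1 - 2 * p.1.1.1.2), ex p.2 * √(1 - p.1.1.2))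

lemma Φ_cont : Continuous Φ := by
  have := ex_cont
  unfold Φ r1
  fun_prop

/-- The regular value. -/
noncomputable def y0 : V5 := ((1 / 8 : ℝ), 0, (1 / 2 : ℝ))

/-- The affine model. -/
noncomputable def LL (p : Q5) : V5 :=
  ((p.1.1.1.1 - 1 / 2 : ℝ) + (1 / 2 - p.1.2 : ℝ) * Complex.I, 1 / 2 - p.1.1.1.2,
    (p.1.1.2 - 1 / 2 : ℝ) + (1 / 2 - p.2 : ℝ) * Complex.I)

lemma line_ne {p : Q5} (hp : p ∈ cu5 ∩ fr) {s : ℝ} (hs : s ∈ II) :
    (1 - s) • (Φ p + y0) + s • LL p ≠ 0 := fun h => by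
  obtain ⟨⟨⟨⟨u, v⟩, b⟩, a⟩, a'⟩ := p
  obtain ⟨⟨⟨⟨⟨hu, hv⟩, hb⟩, ha⟩, ha'⟩, hf⟩ := hp
  have h1 : gg (r1 (u, v)) (1 / 8) u a s = 0 := congrArg Prod.fst h
  have h2 : (1 - s) * ((1 - u) ^ 2 * (1 - 2 * v) + 0) + s * (1 / 2 - v) = 0 :=
    congrArg (fun y : V5 => y.2.1) h
  have h3 : gg (√(1 - b)) (1 / 2) b a' s = 0 := congrArg (fun y : V5 => y.2.2) h
  have h4 : (1 / 2 - v) * (2 * (1 - s) * (1 - u) ^ 2 + s) = 0 := by linear_combination h2
  have h5 : 0 ≤ 2 * (1 - s) * (1 - u) ^ 2 := mul_nonneg (by linarith [hs.2]) (sq_nonneg _)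
  simp only [fr, mem_ofPred_eq] at hf hu hv hb ha ha'
  rcases hf with (((((h | h) | h) | h | h) | h) | h)
  · have h6 : v = 1 / 2 := by
      rw [h] at h4
      rcases mul_eq_zero.1 h4 with h4 | h4 <;> linarith [hs.2]
    rw [r1_half h h6, h] at h1
    exact gg_C (by norm_num) (by norm_num) ha hs h1
  · rw [r1_zero (Or.inl h)] at h1
    exact gg_B (by norm_num) hs (Or.inl h) h1
  · rw [r1_zero (Or.inr h)] at h1
    refine gg_B (by norm_num) hs (Or.inr ?_) h1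
    rcases mul_eq_zero.1 h4 with h4 | h4
    · rcases h with h | h <;> linarith
    · linarith [hs.1]
  · rw [h, sub_zero, Real.sqrt_one] at h3
    exact gg_C (by norm_num) (by norm_num) ha' hs h3
  · rw [h, sub_self, Real.sqrt_zero] at h3
    exact gg_B (by norm_num) hs (Or.inl rfl) h3
  · exact gg_A (r1_nonneg hu) (by norm_num) h h1
  · exact gg_A (Real.sqrt_nonneg _) (by norm_num) h h3

lemma step4 : push (fun p => Φ p + y0) (bd κ5) ∉ Bd ℂ {0}ᶜ 5 := fun h => by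
  have := Φ_cont
  have hL : Continuous LL := by unfold LL; fun_prop
  have h1 := htpy (H := fun q : Q5 × ℝ => (1 - q.2) • (Φ q.1 + y0) + q.2 • LL q.1) (T := {0}ᶜ)
    (by fun_prop) (fun q hq => line_ne hq.1 hq.2) bd_κ5_mem (bd_bd _) (by simpa using h)
  simp only [sub_self, zero_smul, one_smul, zero_add] at h1
  have h2 := push_Bd (g := fun y : V5 => ((((y.1.re + 1 / 2, 1 / 2 - y.2.1), y.2.2.re + 1 / 2),
    1 / 2 - y.1.im), 1 / 2 - y.2.2.im)) (S := {0}ᶜ) (S' := ({(((((1 / 2 : ℝ), (1 / 2 : ℝ)), (1 / 2 : ℝ)),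
      (1 / 2 : ℝ)), (1 / 2 : ℝ))} : Set _)ᶜ) (by fun_prop) (fun y hy hc => hy (by
        simp only [mem_singleton_iff, Prod.mk.injEq] at hc
        obtain ⟨⟨⟨⟨h1, h2⟩, h3⟩, h4⟩, h5⟩ := hc
        refine Prod.ext (Complex.ext ?_ ?_) (Prod.ext ?_ (Complex.ext ?_ ?_)) <;> simp <;>
          linarith)) h1
  rw [push_push _ hL.continuousOn bd_κ5_mem, push_eq_self (fun x _ => by simp [LL])
    bd_κ5_mem] at h2
  exact κ5_ne h2

lemma ne_of_re {p : Q5} (hp : p ∈ cu5) (h : p.1.2 = 0 ∨ p.2 = 0) : Φ p + y0 ≠ 0 := fun h0 => by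
  rcases h with h | h
  · have h1 := congrArg (fun y : V5 => y.1.re) h0
    have h2 := r1_nonneg (x := p.1.1.1) hp.1.1.1.1
    simp [Φ, y0, h, ex_zero] at h1
    linarith
  · have h1 := congrArg (fun y : V5 => y.2.2.re) h0
    have h2 := Real.sqrt_nonneg (1 - p.1.1.2)
    simp [Φ, y0, h, ex_zero] at h1
    linarith

lemma step3 : push (fun y => y + y0) (bd (sw Φ κ3)) ∉ Bd ℂ {0}ᶜ 5 := fun h => by
  have := Φ_cont
  have hm : sw Φ κ3 ∈ sub ℂ univ 6 := sw_mem (mapsTo_univ _ _) κ3_mem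
  rw [← bd_push (by fun_prop) hm, push_sw _ this.continuousOn κ3_mem, sw_apply, npush_apply,
    map_add, map_sub, map_sub] at h
  have h1 := bd_mem_Bd (push_mem (g := ((fun y => y + y0) ∘ Φ) ∘ k1) (S' := {0}ᶜ)
    (fun p hp => ne_of_re (k1_maps hp) (Or.inl rfl)) κ5_mem)
  have h2 := bd_mem_Bd (push_mem (g := ((fun y => y + y0) ∘ Φ) ∘ k2) (S' := {0}ᶜ)
    (fun p hp => ne_of_re (k2_maps hp) (Or.inr rfl)) κ5_mem)
  have h3 := bd_mem_Bd (push_mem (g := ((fun y => y + y0) ∘ Φ) ∘ k1 ∘ k2) (S' := {0}ᶜ)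
    (fun p hp => ne_of_re (k1_maps (k2_maps hp)) (Or.inl rfl)) κ5_mem)
  have h4 := add_mem (add_mem (sub_mem h h3) h2) h1
  apply step4
  rw [← bd_push (by fun_prop) κ5_mem]
  convert h4 using 1
  simp only [κ5, κ3, Function.comp_def]
  abel

/-- The complement of a segment. -/
def TT : Set V5 := {y | ∀ s ∈ II, y + s • y0 ≠ 0}

lemma z1 {S : Set Q3} (hS : ∀ x ∈ S, x.1.1 = 1 ∨ x.1.2 = 0 ∨ x.1.2 = 1) {c : Ch ℂ Q3}
    (hc : c ∈ sub ℂ S 3) : sw Φ c ∈ sub ℂ TT 5 := by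
  rw [sw_zero1 (fun p hp => by simp [Φ, k1, r1_zero (hS _ hp.1.1)]) hc]
  exact zero_mem _

lemma z2 {S : Set Q3} (hS : ∀ x ∈ S, x.2 = 1) {c : Ch ℂ Q3} (hc : c ∈ sub ℂ S 3) :
    sw Φ c ∈ sub ℂ TT 5 := by
  rw [sw_zero2 (fun p hp => by simp [Φ, k2, hS _ hp.1.1]) hc]
  exact zero_mem _

lemma ex_add_ne {a ρ c : ℝ} (hc : 0 ≤ c) (hρ : c < ρ) : ex a * ρ + c ≠ 0 := fun h => by
  have h1 := congrArg norm (eq_neg_of_add_eq_zero_left h)
  rw [norm_mul, ex_norm, norm_neg, Complex.norm_real, Complex.norm_real, Real.norm_of_nonneg hc,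
    Real.norm_of_nonneg (hc.trans hρ.le)] at h1
  linarith

lemma z3 {S : Set Q3} (hS : ∀ x ∈ S, x.1.1 = 0 ∨ x.2 = 0) {c : Ch ℂ Q3} (hc : c ∈ sub ℂ S 3) :
    sw Φ c ∈ sub ℂ TT 5 := by
  refine sw_mem (fun p hp s hs h => ?_) hc
  rcases hS _ hp.1.1 with h0 | h0
  · have h1 := congrArg (fun y : V5 => y.2.1) h
    have h2 := congrArg Prod.fst h
    simp [Φ, y0, h0] at h1
    refine ex_add_ne (a := p.1.2) (ρ := 1 / 2) (c := s * (1 / 8)) (by linarith [hs.1])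
      (by linarith [hs.2]) ?_
    rw [← r1_half h0 (by linarith), Complex.ofReal_mul]
    exact h2
  · have h2 := congrArg (fun y : V5 => y.2.2) h
    refine ex_add_ne (a := p.2) (ρ := √(1 - p.1.1.2)) (c := s * (1 / 2)) (by linarith [hs.1])
      (by rw [h0, sub_zero, Real.sqrt_one]; linarith [hs.2]) ?_
    rw [Complex.ofReal_mul]
    exact h2

lemma step2 : bd (sw Φ κ3) ∉ Bd ℂ {0}ᶜ 5 := fun h => by
  have hz : bd (sw Φ κ3) ∈ sub ℂ TT 5 := by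
    have m2 := pr_mem κ1_mem
    rw [bd_sw Φ_cont.continuousOn (fun x _ a _ => by simp [Φ, ex_zero, ex_one]) κ3_mem, κ3,
      bd_pr m2, bd_κ2]
    simp only [map_add, map_sub]
    have a1 := z2 (S := {x | x.2 = 1}) (fun _ h => h)
      (push_mem (g := fun x : ℝ × ℝ => (x, (1 : ℝ))) (fun _ _ => rfl) m2)
    have a2 := z3 (S := {x | x.2 = 0}) (fun _ h => Or.inr h)
      (push_mem (g := fun x : ℝ × ℝ => (x, (0 : ℝ))) (fun _ _ => rfl) m2)
    have a3 := z1 (fun _ h => Or.inr (Or.inr h.1)) (pr_mem (S := {x : ℝ × ℝ | x.2 = 1})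
      (push_mem (g := fun r : ℝ => (r, (1 : ℝ))) (fun _ _ => rfl) κ1_mem))
    have a4 := z1 (fun _ h => Or.inr (Or.inl h.1)) (pr_mem (S := {x : ℝ × ℝ | x.2 = 0})
      (push_mem (g := fun r : ℝ => (r, (0 : ℝ))) (fun _ _ => rfl) κ1_mem))
    have a5 := z1 (fun _ h => Or.inl h.1) (pr_mem (S := {x : ℝ × ℝ | x.1 = 1})
      (push_mem (g := fun r : ℝ => ((1 : ℝ), r)) (fun _ _ => rfl) κ1_mem))
    have a6 := z3 (fun _ h => Or.inl h.1) (pr_mem (S := {x : ℝ × ℝ | x.1 = 0})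
      (push_mem (g := fun r : ℝ => ((0 : ℝ), r)) (fun _ _ => rfl) κ1_mem))
    exact sub_mem (sub_mem a1 a2) (add_mem (sub_mem (sub_mem a3 a4) a5) a6)
  refine step3 ?_
  have h1 := htpy (H := fun q : V5 × ℝ => q.1 + q.2 • y0) (S := TT) (T := {0}ᶜ) (by fun_prop)
    (fun q hq => hq.1 q.2 hq.2) hz (bd_bd _) (by rwa [push_eq_self (fun x _ => by simp) hz])
  simpa using h1

lemma Reg_inj {z : C3} (h : z ∈ Reg) : Function.Injective z := by
  obtain ⟨⟨-, h0⟩, ⟨h1, h1'⟩, h2, -⟩ := h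
  intro i j hij
  have := congrArg Complex.re hij
  fin_cases i <;> fin_cases j <;> simp at this ⊢ <;> linarith

/-- The first family of cells. -/
noncomputable def θ1 (p : Q5) : C3 × C3 := (![ex p.1.2, 1, ex p.2],
  ![(T1 0 p.1.1.1).1, (T1 0 p.1.1.1).2, (9 + -1 * p.1.1.2 : ℝ)])

/-- The second family of cells, with the first two particles exchanged. -/
noncomputable def θ2 (p : Q5) : C3 × C3 := (![1, ex p.1.2, ex p.2],
  ![(T2 0 p.1.1.1).2, (T2 0 p.1.1.1).1, (9 + -1 * p.1.1.2 : ℝ)])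

lemma θ1_cont : Continuous θ1 := by
  have := ex_cont
  unfold θ1 T1
  fun_prop

lemma θ2_cont : Continuous θ2 := by
  have := ex_cont
  unfold θ2 T2
  fun_prop

lemma θ1_mem {p : Q5} (hp : p ∈ cu5) : θ1 p ∈ Par ∧ (θ1 p).2 ∈ Reg := by
  have h : (θ1 p).2 ∈ Reg := by
    have := hp.1.1.2.1
    have := hp.1.1.2.2
    simp [Reg, θ1, T1]
    constructor <;> linarith
  exact ⟨⟨fun i => by fin_cases i <;> simp [θ1, ex_norm], Reg_inj h⟩, h⟩

lemma θ2_mem {p : Q5} (hp : p ∈ cu5) : θ2 p ∈ Par ∧ (θ2 p).2 ∈ Reg := by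
  have h : (θ2 p).2 ∈ Reg := by
    have := hp.1.1.2.1
    have := hp.1.1.2.2
    simp [Reg, θ2, T2]
    constructor <;> linarith
  exact ⟨⟨fun i => by fin_cases i <;> simp [θ2, ex_norm], Reg_inj h⟩, h⟩

lemma Fval_θ1 {p : Q5} (hp : p ∈ cu5) : Fval (θ1 p) = Φ p := by
  obtain ⟨⟨⟨⟨u, v⟩, b⟩, a⟩, a'⟩ := p
  obtain ⟨⟨⟨⟨hu, hv⟩, hb⟩, -⟩, -⟩ := hp
  have h1 : ‖(θ1 ((((u, v), b), a), a')).2 0 + 1‖ = (1 - u) * (1 - v) := by
    rw [show (θ1 ((((u, v), b), a), a')).2 0 + 1 = ((1 - u) * (1 - v) : ℝ) * -Complex.I by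
      simp [θ1, T1]; ring, norm_mul, norm_neg, Complex.norm_I, mul_one, Complex.norm_real,
      Real.norm_of_nonneg (mul_nonneg (sub_nonneg.2 hu.2) (sub_nonneg.2 hv.2))]
  have h2 : ‖(θ1 ((((u, v), b), a), a')).2 1 - (θ1 ((((u, v), b), a), a')).2 0 - 2‖ =
      v * (1 - u) := by
    rw [show (θ1 ((((u, v), b), a), a')).2 1 - (θ1 ((((u, v), b), a), a')).2 0 - 2 =
      (v * (1 - u) : ℝ) * -Complex.I by simp [θ1, T1]; ring, norm_mul, norm_neg, Complex.norm_I,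
      mul_one, Complex.norm_real, Real.norm_of_nonneg (mul_nonneg hv.1 (sub_nonneg.2 hu.2))]
  have h3 : ‖(θ1 ((((u, v), b), a), a')).2 2 - 8‖ = 1 - b := by
    rw [show (θ1 ((((u, v), b), a), a')).2 2 - 8 = (1 - b : ℝ) by simp [θ1]; ring,
      Complex.norm_real, Real.norm_of_nonneg (sub_nonneg.2 hb.2)]
  rw [Fval, h1, h2, h3, show (1 - u) * (1 - v) + v * (1 - u) = 1 - u by ring,
    show ((1 - u) * (1 - v)) ^ 2 - (v * (1 - u)) ^ 2 = (1 - u) ^ 2 * (1 - 2 * v) by ring]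
  rfl

variable {X : Type} [TopologicalSpace X]

lemma c0_eq (D : Fam X) : D.c0 = sw (D.Ψ ∘ θ1) κ3 - sw (D.Ψ ∘ θ2) κ3 := by
  have m2 := pr_mem κ1_mem
  have c1 : Continuous (T1 0) := by unfold T1; fun_prop
  have c2 : Continuous (T2 0) := by unfold T2; fun_prop
  simp only [Fam.c0, XX, DD, LinearMap.comp_apply, map_sub]
  rw [pr_push c1.continuousOn m2, pr_push c2.continuousOn m2,
    push_push _ (by fun_prop) (pr_mem m2), push_push _ (by fun_prop) (pr_mem m2),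
    sw_push (by fun_prop) (pr_mem m2), sw_push (by fun_prop) (pr_mem m2)]
  congr 1
  refine sw_congr (fun p hp => ?_) κ3_mem
  refine Eq.trans ?_ (D.P3 (Equiv.swap 0 1) _ _ (θ2_mem hp).1)
  show D.Ψ _ = D.Ψ _
  congr 2 <;> ext i <;> fin_cases i <;> rfl

lemma cell (D : TopData X) {θ : Q5 → C3 × C3} (hc : Continuous θ)
    (hm : ∀ p ∈ cu5, θ p ∈ Par ∧ (θ p).2 ∈ Reg) : sw (D.Ψ ∘ θ) κ3 ∈ sub ℂ D.N 6 ∧
      push D.F (sw (D.Ψ ∘ θ) κ3) = sw (Fval ∘ θ) κ3 := by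
  refine ⟨sw_mem (fun p hp => D.hN _ (hm p hp).1 (hm p hp).2) κ3_mem, ?_⟩
  rw [push_sw _ (D.cont.comp hc.continuousOn fun p hp => (hm p hp).1) κ3_mem]
  exact sw_congr (fun p hp => D.hF _ (hm p hp).1 (hm p hp).2) κ3_mem

end Det

open Det in
theorem det : DET := fun X _ D => by
  obtain ⟨m1, e1⟩ := cell D θ1_cont fun p => θ1_mem
  obtain ⟨m2, e2⟩ := cell D θ2_cont fun p => θ2_mem
  have hm : D.c0 ∈ sub ℂ D.N 6 := by rw [c0_eq]; exact sub_mem m1 m2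
  refine ⟨hm, fun h => step2 ?_⟩
  have h1 := push_Bd (S' := {0}ᶜ) (D.contF.mono sdiff_subset)
    (fun x hx h0 => hx.2 (D.F_ne x hx.1 h0)) h
  rwa [← bd_push D.contF hm, c0_eq, map_sub, e1, e2,
    sw_congr (G := Fval ∘ θ1) (G' := Φ) (fun p hp => Fval_θ1 hp) κ3_mem,
    sw_zero1 (G := Fval ∘ θ2) (fun p _ => rfl) κ3_mem, sub_zero] at h1

end Pool.Agent.P.MP_f9c8fc_ag
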