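import Pool.Agent.P.MP_f9c8fc_ag.Mod

/-! Changes of basis and continuity of the central characters. -/

namespace Pool.Agent.P.MP_f9c8fc_ag

variable {R R' : Type} [CommRing R] [Algebra ℂ R] [CommRing R'] [Algebra ℂ R']
  {H B : Type} [Ring H] [Algebra ℂ H] [CommRing B] [Algebra ℂ B]

/-- The colour of a particle. -/
def Ix.col (u : Ix) (i : Fin 3) : ZMod 6 :=
  if u.a.1 = i then u.a.2 else if u.b.1 = i then u.b.2 else u.c.2

/-- The second particle is above the first one. -/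
def Ix.ab (u : Ix) : Prop :=
  (u.col 0).val < (u.col 1).val ∨ (u.col 0 = u.col 1 ∧ (u.a.1 = 1 ∨ u.c.1 = 0))

instance (u : Ix) : Decidable u.ab := by unfold Ix.ab; infer_instance

lemma Ix.cases {P : Ix → Prop} (u : Ix)
    (h1 : ∀ c d e, P ⟨(0, c), (1, d), (2, e), by simp, by simp, by simp⟩)
    (h2 : ∀ c d e, P ⟨(0, c), (2, d), (1, e), by simp, by simp, by simp⟩)
    (h3 : ∀ c d e, P ⟨(1, c), (0, d), (2, e), by simp, by simp, by simp⟩)
    (h4 : ∀ c d e, P ⟨(1, c), (2, d), (0, e), by simp, by simp, by simp⟩)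
    (h5 : ∀ c d e, P ⟨(2, c), (0, d), (1, e), by simp, by simp, by simp⟩)
    (h6 : ∀ c d e, P ⟨(2, c), (1, d), (0, e), by simp, by simp, by simp⟩) : P u := by
  rcases u with ⟨⟨p, c⟩, ⟨q, d⟩, ⟨r, e⟩, h, h', h''⟩
  fin_cases p <;> fin_cases q <;> fin_cases r <;> first
    | exact absurd rfl h | exact absurd rfl h' | exact absurd rfl h''
    | exact h1 c d e | exact h2 c d e | exact h3 c d e | exact h4 c d e | exact h5 c d e
    | exact h6 c d e

namespace Ctx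
variable (C : Ctx H B) {D D' : Dat R}

lemma lam_map {D : Dat R} {D' : Dat R'} (g : R →ₐ[ℂ] R') (π : Equiv.Perm (Fin 3))
    (hz : ∀ p, g (D.z (π p)) = D'.z p) (hX : ∀ p c, g (D.X (π p, c)) = D'.X (p, c))
    (hY : ∀ p c, g (D.Y (π p, c)) = D'.Y (p, c))
    (ha : ∀ p q, p ≠ q → g (D.al (π p) (π q)) = D'.al p q) (u : Ix)
    (h : Subalgebra.center ℂ H) : g (C.lam D (u.rel π) h) = C.lam D' u h := by
  have hc : ∀ l l' : Lt, l.1 ≠ l'.1 → g (D.cr (π l.1, l.2) (π l'.1, l'.2)) = D'.cr l l' :=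
    fun l l' e => by
      unfold Dat.cr
      split_ifs
      · exact ha _ _ e
      · rw [map_sub, hz, hz]
  refine C.gauge (γ := fun _ => 1) ⟨hz, fun u => ?_, fun u => ?_, fun u => ?_, fun u => ?_⟩ u
    isUnit_one h <;> rw [one_mul, mul_one]
  exacts [hc _ _ u.hab, hc _ _ u.hbc, hX _ _, hY _ _]

lemma lam_cont {P : Type} [TopologicalSpace P] (D : P → Dat ℂ)
    (hz : ∀ p, Continuous fun x => (D x).z p) (hX : ∀ l, Continuous fun x => (D x).X l)
    (hY : ∀ l, Continuous fun x => (D x).Y l)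
    (ha : ∀ p q, p ≠ q → Continuous fun x => (D x).al p q) (u : Ix)
    (h : Subalgebra.center ℂ H) : Continuous fun x => C.lam (D x) u h := by
  have hd : ∀ p q, p ≠ q → Continuous fun x => (D x).di p q := fun p q e => by
    have : ∀ x, (D x).di p q = ((D x).z p - (D x).z q)⁻¹ := fun x =>
      eq_inv_of_mul_eq_one_left ((D x).hd p q e)
    simp only [this]
    exact ((hz p).sub (hz q)).inv₀ fun x => right_ne_zero_of_mul_eq_one ((D x).hd p q e)
  let DD : Dat C(P, ℂ) :=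
    { z p := ⟨_, hz p⟩
      X l := ⟨_, hX l⟩
      Y l := ⟨_, hY l⟩
      al p q := if e : p = q then 0 else ⟨_, ha p q e⟩
      di p q := if e : p = q then 0 else ⟨_, hd p q e⟩
      hd p q e := by rw [dif_neg e]; ext x; exact (D x).hd p q e
      hXY l := by ext x; simpa using (D x).hXY l
      hal p q e := by rw [dif_neg e, dif_neg e.symm]; ext x; exact (D x).hal p q e }
  refine (C.lam DD u h).continuous.congr fun x => ?_
  exact C.lam_map (D := DD) (ContinuousMap.evalAlgHom ℂ ℂ x) 1 (fun _ => rfl) (fun _ _ => rfl)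
    (fun _ _ => rfl) (fun p q e => by simp [DD, e]) u h

lemma gauge1 (i : Fin 3) (φ : ZMod 6 → R) (hφ : ∀ c, IsUnit (φ c)) (hz : D.z = D'.z)
    (ha : D.al = D'.al) (hX : ∀ p c, p ≠ i → D.X (p, c) = D'.X (p, c))
    (hY : ∀ p c, p ≠ i → D.Y (p, c) = D'.Y (p, c))
    (hX' : ∀ c, φ c * D.X (i, c + 1) = D'.X (i, c + 1) * φ (c + 1))
    (hY' : ∀ c, φ c * D.Y (i, c) = D'.Y (i, c) * φ (c - 1)) (u : Ix) :
    C.lam D u = C.lam D' u := by
  ext h
  refine C.gauge (g := AlgHom.id ℂ R) (π := 1) (γ := fun u => φ (u.col i))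
    ⟨fun p => congrFun hz p, fun u => ?_, fun u => ?_, fun u => ?_, fun u => ?_⟩ u (hφ _) h <;>
  induction u using Ix.cases <;> fin_cases i <;>
  simp [Ix.col, Ix.rel, Ix.sw1, Ix.sw2, Ix.rot, Ix.tor, Dat.cr, hz, ha, up, dn, mul_comm] <;>
  first
    | simpa [mul_comm] using hX' _
    | simpa [mul_comm] using hY' _
    | exact Or.inl (hX _ _ (by decide))
    | rw [hX _ _ (by decide)]
    | rw [hY _ _ (by decide)]

lemma ab_rot (u : Ix) : (up u.a = (0, 0) → ¬ u.ab ∧ u.rot.ab) ∧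
    (up u.a = (1, 0) → u.ab ∧ ¬ u.rot.ab) ∧
    (up u.a ≠ (0, 0) → up u.a ≠ (1, 0) → (u.rot.ab ↔ u.ab)) := by
  induction u using Ix.cases <;> rename_i c d e <;> revert c d e <;> decide +kernel

lemma ab_tor (u : Ix) : (u.c = (0, 0) → u.ab ∧ ¬ u.tor.ab) ∧
    (u.c = (1, 0) → ¬ u.ab ∧ u.tor.ab) ∧
    (u.c ≠ (0, 0) → u.c ≠ (1, 0) → (u.tor.ab ↔ u.ab)) := by
  induction u using Ix.cases <;> rename_i c d e <;> revert c d e <;> decide +kernel

lemma gauge2 (θ : R) (hθ : IsUnit θ) (hz : D.z = D'.z)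
    (ha : ∀ p q, (p, q) ≠ (0, 1) → (p, q) ≠ (1, 0) → D.al p q = D'.al p q)
    (h01 : D.al 0 1 = θ * D'.al 0 1) (h10 : θ * D.al 1 0 = D'.al 1 0)
    (hX : ∀ l, l ≠ (0, 0) → l ≠ (1, 0) → D.X l = D'.X l)
    (hY : ∀ l, l ≠ (0, 0) → l ≠ (1, 0) → D.Y l = D'.Y l)
    (hX0 : D.X (0, 0) = θ * D'.X (0, 0)) (hX1 : θ * D.X (1, 0) = D'.X (1, 0))
    (hY0 : θ * D.Y (0, 0) = D'.Y (0, 0)) (hY1 : D.Y (1, 0) = θ * D'.Y (1, 0)) (u : Ix) :
    C.lam D u = C.lam D' u := by
  ext h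
  have a02 := ha 0 2 (by decide) (by decide)
  have a20 := ha 2 0 (by decide) (by decide)
  have a12 := ha 1 2 (by decide) (by decide)
  have a21 := ha 2 1 (by decide) (by decide)
  refine C.gauge (g := AlgHom.id ℂ R) (π := 1) (γ := fun u => if u.ab then θ else 1)
    ⟨fun p => congrFun hz p, fun u => ?_, fun u => ?_, fun u => ?_, fun u => ?_⟩ u
    (by split_ifs; exacts [hθ, isUnit_one]) h
  · induction u using Ix.cases <;> rename_i c d e <;> by_cases hc : c = d <;>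
    simp [Ix.ab, Ix.col, Ix.rel, Ix.sw1, Dat.cr, hz, hc, Ne.symm, a02, a20, a12, a21, h01, ← h10,
      mul_comm, eq_comm]
  · induction u using Ix.cases <;> rename_i c d e <;> by_cases hc : d = e <;>
    simp [Ix.ab, Ix.col, Ix.rel, Ix.sw2, Dat.cr, hz, hc, Ne.symm, a02, a20, a12, a21, h01, ← h10,
      mul_comm, eq_comm]
  · obtain ⟨k1, k2, k3⟩ := ab_rot u
    show _ * D.X (up u.a) = _
    by_cases e0 : up u.a = (0, 0)
    · simp [k1 e0, e0, hX0, mul_comm]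
    by_cases e1 : up u.a = (1, 0)
    · simp [k2 e1, e1, hX1]
    · simp [k3 e0 e1, hX _ e0 e1, mul_comm]
  · obtain ⟨k1, k2, k3⟩ := ab_tor u
    show _ * D.Y u.c = _
    by_cases e0 : u.c = (0, 0)
    · simp [k1 e0, e0, hY0]
    by_cases e1 : u.c = (1, 0)
    · simp [k2 e1, e1, hY1, mul_comm]
    · simp [k3 e0 e1, hY _ e0 e1, mul_comm]

end Ctx

end Pool.Agent.P.MP_f9c8fc_ag
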