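import Pool.Agent.P.MP_f9c8fc_ag.Defs
import Pool.Agent.P.MP_f9c8fc_ag.Chain

/-! Interfaces between the parts of the proof. -/

open Set Pool.Agent.Lib.Helper83

namespace Pool.Agent.P.MP_f9c8fc_ag

/-! ### The presentation of the Cherednik algebra of `G(6,1,3)` -/

/-- The primitive sixth root of unity. -/
noncomputable def ze : ℂ := Complex.exp (2 * Real.pi * Complex.I / 6)

lemma ze_prim : IsPrimitiveRoot ze 6 := by
  have := Complex.isPrimitiveRoot_exp 6 (by norm_num)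
  simpa [ze] using this

lemma ze_six : ze ^ 6 = 1 := ze_prim.pow_eq_one

lemma ze_sq : ze ^ 2 = ze - 1 := by
  have h2 : ze ^ 2 - 1 ≠ 0 := sub_ne_zero.2 (ze_prim.pow_ne_one_of_pos_of_lt (by norm_num) (by norm_num))
  have h3 : ze ^ 3 - 1 ≠ 0 := sub_ne_zero.2 (ze_prim.pow_ne_one_of_pos_of_lt (by norm_num) (by norm_num))
  have h : (ze ^ 2 - 1) * ((ze ^ 3 - 1) * (ze ^ 2 - (ze - 1))) = 0 := by
    linear_combination (ze - 1) * ze_six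
  exact sub_eq_zero.1 ((mul_eq_zero.1 ((mul_eq_zero.1 h).resolve_left h2)).resolve_left h3)

section
variable {A : Type} [Ring A] [Algebra ℂ A]

/-- `∑ k, x ^ k * y ^ (-k)` for `x ^ 6 = y ^ 6 = 1`. -/
def pi6 (x y : A) : A := 1 + x * y ^ 5 + x ^ 2 * y ^ 4 + x ^ 3 * y ^ 3 + x ^ 4 * y ^ 2 + x ^ 5 * y

/-- `∑ k, c (t ^ k) * t ^ k`. -/
noncomputable def Pp (t : A) : A := (6 * ze - 3) • (t ^ 2 - t ^ 4) + t ^ 3

end

/-- The parameter of the reflections of order two that permute coordinates. -/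
noncomputable def kap : ℂ := 1 / 3

/-- Generators and relations (`sg = x₁ s₁ s₂`, `ta = s₂ s₁ y₁`). -/
structure Sys (E : Type) [Ring E] [Algebra ℂ E] where
  (s1 s2 t1 t2 t3 sg ta : E)
  s1s1 : s1 * s1 = 1
  s2s2 : s2 * s2 = 1
  br : s1 * s2 * s1 = s2 * s1 * s2
  t1_6 : t1 ^ 6 = 1
  t2_6 : t2 ^ 6 = 1
  t3_6 : t3 ^ 6 = 1
  t12 : t1 * t2 = t2 * t1
  t13 : t1 * t3 = t3 * t1
  t23 : t2 * t3 = t3 * t2
  s1t1 : s1 * t1 = t2 * s1
  s1t3 : s1 * t3 = t3 * s1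
  s2t1 : s2 * t1 = t1 * s2
  s2t2 : s2 * t2 = t3 * s2
  sgs1 : sg * s1 = s2 * sg
  sgsg : sg * sg * s2 = s1 * sg * sg
  sgt1 : sg * t1 = t2 * sg
  sgt2 : sg * t2 = t3 * sg
  sgt3 : sg * t3 = ze • t1 * sg
  s1ta : s1 * ta = ta * s2
  tata : s2 * ta * ta = ta * ta * s1
  t1ta : t1 * ta = ta * t2
  t2ta : t2 * ta = ta * t3
  t3ta : t3 * ta = ta * ze • t1
  mix : ta * s1 * sg = sg * s2 * ta + kap • pi6 (ze • t1) t3
  zz : sg * ta + Pp (ze • t1) =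
    s1 * (s2 * (ta * sg + Pp t3) * s2 + kap • (s2 * pi6 t2 t3)) * s1 + kap • (s1 * pi6 t1 t2)

/-- `f` maps generators to generators. -/
structure Sys.Hom {E E' : Type} [Ring E] [Algebra ℂ E] [Ring E'] [Algebra ℂ E'] (S : Sys E)
    (S' : Sys E') (f : E →ₐ[ℂ] E') : Prop where
  s1 : f S.s1 = S'.s1
  s2 : f S.s2 = S'.s2
  t1 : f S.t1 = S'.t1
  t2 : f S.t2 = S'.t2
  t3 : f S.t3 = S'.t3
  sg : f S.sg = S'.sg
  ta : f S.ta = S'.ta

/-- `S` is a presentation of `E`. -/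
structure Sys.Univ {E : Type} [Ring E] [Algebra ℂ E] (S : Sys E) : Prop where
  gen : Algebra.adjoin ℂ {S.s1, S.s2, S.t1, S.t2, S.t3, S.sg, S.ta} = ⊤
  lift : ∀ (E' : Type) [Ring E'] [Algebra ℂ E'] (S' : Sys E'), ∃ f : E →ₐ[ℂ] E', S.Hom S' f

/-- Task CHER. -/
def CHER : Prop := ∃ D : Data (Fin 3 → ℂ), D.Valid ∧ ∃ S : Sys D.H, S.Univ

/-! ### The topological data -/

abbrev C3 := Fin 3 → ℂ

/-- Torus times configuration space. -/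
def Par : Set (C3 × C3) := {p | (∀ i, ‖p.1 i‖ = 1) ∧ Function.Injective p.2}

def masses : Set ℂ := {-10, -8, -1, 1, 8, 10}

/-- Three vertical strips. -/
def Reg : Set C3 := {z | (-2 < (z 0).re ∧ (z 0).re < 0) ∧ (0 < (z 1).re ∧ (z 1).re < 2) ∧
  (7 < (z 2).re ∧ (z 2).re < 19 / 2)}

/-- The value of the detecting map on the parametrised family. -/
noncomputable def Fval (p : C3 × C3) : ℂ × ℝ × ℂ :=
  (p.1 0 * (√‖p.2 0 + 1‖ * √‖p.2 1 - p.2 0 - 2‖ * (‖p.2 0 + 1‖ + ‖p.2 1 - p.2 0 - 2‖) : ℝ),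
    ‖p.2 0 + 1‖ ^ 2 - ‖p.2 1 - p.2 0 - 2‖ ^ 2, p.1 2 * (√‖p.2 2 - 8‖ : ℝ))

/-- The parametrised family of points and its symmetries. -/
structure Fam (X : Type) [TopologicalSpace X] where
  Ψ : C3 × C3 → X
  cont : ContinuousOn Ψ Par
  P1 : ∀ t t' z, (t, z) ∈ Par → (t', z) ∈ Par → ∀ i, z i ∈ masses → (∀ j, j ≠ i → t j = t' j) →
    Ψ (t, z) = Ψ (t', z)
  P2 : ∀ t t' z, (t, z) ∈ Par → (t', z) ∈ Par → z 1 - z 0 = 2 → t 2 = t' 2 →
    t 0 * t 1 = t' 0 * t' 1 → Ψ (t, z) = Ψ (t', z)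
  P3 : ∀ (π : Equiv.Perm (Fin 3)) t z, (t, z) ∈ Par → Ψ (t ∘ π, z ∘ π) = Ψ (t, z)

/-- The family together with the detecting map. -/
structure TopData (X : Type) [TopologicalSpace X] extends Fam X where
  (N K : Set X)
  openN : IsOpen N
  closedK : IsClosed K
  KN : K ⊆ N
  hK : ∀ p ∈ Par, Ψ p ∈ K → ∀ i, p.2 i ∈ ({-1, 1, 8} : Set ℂ)
  F : X → ℂ × ℝ × ℂ
  contF : ContinuousOn F N
  F_ne : ∀ x ∈ N, F x = 0 → x ∈ K
  hN : ∀ p ∈ Par, p.2 ∈ Reg → Ψ p ∈ N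
  hF : ∀ p ∈ Par, p.2 ∈ Reg → F (Ψ p) = Fval p

noncomputable def ex (a : ℝ) : ℂ := Complex.exp (2 * Real.pi * Complex.I * a)

/-- Sweeping along the circles of the first and of the third particle. -/
noncomputable def Fam.G {X : Type} [TopologicalSpace X] (D : Fam X) (q : (C3 × ℝ) × ℝ) : X :=
  D.Ψ (![ex q.1.2, 1, ex q.2], q.1.1)

/-- First triangle of the pair with centre `m`. -/
noncomputable def T1 (m : ℝ) (q : ℝ × ℝ) : ℂ × ℂ :=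
  (-1 - Complex.I + (q.1 + q.2 * (1 - q.1) : ℝ) * (m + Complex.I),
    1 - Complex.I + (q.1 : ℝ) * (m + Complex.I))

/-- Second triangle of the pair with centre `m`. -/
noncomputable def T2 (m : ℝ) (q : ℝ × ℝ) : ℂ × ℂ :=
  (1 - Complex.I + (q.1 + q.2 * (1 - q.1) : ℝ) * (m + Complex.I),
    -1 - Complex.I + (q.1 : ℝ) * (m + Complex.I))

/-- The two-chain of the pair with centre `m`. -/
noncomputable def DD (m : ℝ) : Ch ℂ (ℂ × ℂ) := push (T1 m) (pr κ1) - push (T2 m) (pr κ1)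

/-- The third particle runs from `m` to `m + e`. -/
noncomputable def XX (m e : ℝ) : Ch ℂ (ℂ × ℂ) →ₗ[ℂ] Ch ℂ C3 :=
  push (fun q : (ℂ × ℂ) × ℝ => (![q.1.1, q.1.2, (m + e * q.2 : ℝ)] : C3)) ∘ₗ pr

/-- The part of the five-cycle that meets `K`. -/
noncomputable def Fam.c0 {X : Type} [TopologicalSpace X] (D : Fam X) : Ch ℂ X :=
  sw D.G (XX 9 (-1) (DD 0))

/-- Task CYC. -/
def CYC : Prop := ∀ (X : Type) [TopologicalSpace X] (D : TopData X), bd D.c0 ∈ Bd ℂ D.Kᶜ 5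

/-- Task DET. -/
def DET : Prop := ∀ (X : Type) [TopologicalSpace X] (D : TopData X),
  D.c0 ∈ sub ℂ D.N 6 ∧ bd D.c0 ∉ Bd ℂ (D.N \ D.K) 5

/-! ### The algebraic data -/

noncomputable def xs (u : ℂ) : ℂ := (√‖u‖ : ℝ)

noncomputable def ys (u : ℂ) : ℂ := u / (√‖u‖ : ℝ)

section
variable {R : Type} [CommRing R]

def cub (e : Fin 3 → R) (T : R) : R := T ^ 3 - e 0 * T ^ 2 + e 1 * T - e 2

def cub' (e : Fin 3 → R) (T : R) : R := 3 * T ^ 2 - 2 * e 0 * T + e 1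

def disc (e : Fin 3 → R) : R := e 0 ^ 2 * e 1 ^ 2 - 4 * e 1 ^ 3 - 4 * e 0 ^ 3 * e 2 +
  18 * e 0 * e 1 * e 2 - 27 * e 2 ^ 2

def quad (c : Fin 3 → R) (T : R) : R := c 0 + c 1 * T + c 2 * T ^ 2

def mas (T : R) : R := (T + 10) * (T + 8) * (T + 1) * (T - 1) * (T - 8) * (T - 10)

def esym (z : Fin 3 → R) : Fin 3 → R :=
  ![z 0 + z 1 + z 2, z 0 * z 1 + z 0 * z 2 + z 1 * z 2, z 0 * z 1 * z 2]

end

/-- Product of `f (T - s)` over the masses `s`. -/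
noncomputable def mprod (f : ℂ → ℂ) (T : ℂ) : ℂ :=
  f (T + 10) * f (T + 8) * f (T + 1) * f (T - 1) * f (T - 8) * f (T - 10)

noncomputable def alp (z w : ℂ) : ℂ := (z - w) ^ 5 * ys (z - w - 2) * xs (w - z - 2)

/-- The relation between the central elements. -/
def REL {Z : Type} [CommRing Z] [Algebra ℂ Z] (e cp cm : Fin 3 → Z) : Prop :=
  ∀ (R : Type) [CommRing R] [Algebra ℂ R] (φ : Z →ₐ[ℂ] R) (T : R), IsUnit (disc (φ ∘ e)) →
    cub (φ ∘ e) T = 0 → 4 * quad (φ ∘ cp) T * quad (φ ∘ cm) T + disc (φ ∘ e) ^ 2 * mas T *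
      cub (φ ∘ e) (T - 2) * cub (φ ∘ e) (T + 2) * cub' (φ ∘ e) T ^ 12 = 0

/-- The family of points of a variety with the functions used for the detection. -/
structure AlgData (Z : Type) [CommRing Z] [Algebra ℂ Z] extends Fam (Pts Z) where
  (e cp cm : Fin 3 → Z)
  rel : REL e cp cm
  val_e : ∀ p ∈ Par, ∀ k, (show Z →ₐ[ℂ] ℂ from Ψ p) (e k) = esym p.2 k
  val_p0 : ∀ p ∈ Par, quad (fun k => (show Z →ₐ[ℂ] ℂ from Ψ p) (cp k)) (p.2 0) =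
    disc (esym p.2) * cub' (esym p.2) (p.2 0) *
      (p.1 0 * mprod xs (p.2 0) * alp (p.2 1) (p.2 0) * alp (p.2 2) (p.2 0))
  val_m0 : ∀ p ∈ Par, quad (fun k => (show Z →ₐ[ℂ] ℂ from Ψ p) (cm k)) (p.2 0) =
    disc (esym p.2) * cub' (esym p.2) (p.2 0) *
      ((p.1 0)⁻¹ * mprod ys (p.2 0) * alp (p.2 0) (p.2 1) * alp (p.2 0) (p.2 2))
  val_p2 : ∀ p ∈ Par, quad (fun k => (show Z →ₐ[ℂ] ℂ from Ψ p) (cp k)) (p.2 2) =
    disc (esym p.2) * cub' (esym p.2) (p.2 2) *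
      (p.1 2 * mprod xs (p.2 2) * alp (p.2 0) (p.2 2) * alp (p.2 1) (p.2 2))

/-- Task ROOT. -/
def ROOT : Prop := ∀ (Z : Type) [CommRing Z] [Algebra ℂ Z], AlgData Z → Nonempty (TopData (Pts Z))

end Pool.Agent.P.MP_f9c8fc_ag
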