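import Pool.Agent.P.MP_f9c8fc_ag.RootA

/-! The detecting map (task ROOT). -/

open Set Filter Topology

namespace Pool.Agent.P.MP_f9c8fc_ag

namespace RootAux

variable {Z : Type} [CommRing Z] [Algebra ℂ Z]

/-- The values of three functions at a point. -/
def ev (c : Fin 3 → Z) (φ : Pts Z) : C3 := fun k => (show Z →ₐ[ℂ] ℂ from φ) (c k)

lemma continuous_ev (c : Fin 3 → Z) : Continuous (ev c) :=
  continuous_pi fun k => (continuous_apply (c k)).comp
    (continuous_induced_dom (f := fun (φ : Z →ₐ[ℂ] ℂ) (a : Z) => φ a))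

variable (D : AlgData Z)

def NN : Set (Pts Z) := ev D.e ⁻¹' ((esym : C3 → C3) '' Reg)

noncomputable def rho (φ : Pts Z) : C3 := rt (ev D.e φ)

noncomputable def vv (φ : Pts Z) : ℂ := quad (ev D.cp φ) (rho D φ 0) / Up (rho D φ)

noncomputable def ww (φ : Pts Z) : ℂ := quad (ev D.cm φ) (rho D φ 0) / Um (rho D φ)

noncomputable def v3 (φ : Pts Z) : ℂ := quad (ev D.cp φ) (rho D φ 2) / U3 (rho D φ)

noncomputable def FF (φ : Pts Z) : ℂ × ℝ × ℂ :=
  ((rho D φ 0 + 1) * (starRingEnd ℂ) (ww D φ) +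
      vv D φ * (starRingEnd ℂ) (rho D φ 1 - rho D φ 0 - 2),
    ‖rho D φ 0 + 1‖ ^ 2 + ‖vv D φ‖ ^ 2 - ‖ww D φ‖ ^ 2 - ‖rho D φ 1 - rho D φ 0 - 2‖ ^ 2, v3 D φ)

lemma rho_mem {φ : Pts Z} (h : φ ∈ NN D) : rho D φ ∈ Reg := rt_mem h

lemma esym_rho {φ : Pts Z} (h : φ ∈ NN D) : esym (rho D φ) = ev D.e φ := esym_rt h

lemma continuousOn_rho : ContinuousOn (rho D) (NN D) :=
  continuousOn_rt.comp (continuous_ev D.e).continuousOn fun _ h => h

lemma continuousOn_rho_apply (i : Fin 3) : ContinuousOn (fun φ => rho D φ i) (NN D) :=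
  (continuous_apply i).comp_continuousOn (continuousOn_rho D)

lemma continuousOn_quad (c : Fin 3 → Z) (i : Fin 3) :
    ContinuousOn (fun φ => quad (ev c φ) (rho D φ i)) (NN D) := by
  have h : ∀ k, ContinuousOn (fun φ => ev c φ k) (NN D) := fun k =>
    ((continuous_apply k).comp (continuous_ev c)).continuousOn
  exact ((h 0).add ((h 1).mul (continuousOn_rho_apply D i))).add
    ((h 2).mul ((continuousOn_rho_apply D i).pow 2))

lemma continuousOn_vv : ContinuousOn (vv D) (NN D) :=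
  (continuousOn_quad D _ 0).div
    (continuousOn_Up.comp (continuousOn_rho D) fun _ h => rho_mem D h)
    fun _ h => Up_ne (rho_mem D h)

lemma continuousOn_ww : ContinuousOn (ww D) (NN D) :=
  (continuousOn_quad D _ 0).div
    (continuousOn_Um.comp (continuousOn_rho D) fun _ h => rho_mem D h)
    fun _ h => Um_ne (rho_mem D h)

lemma continuousOn_v3 : ContinuousOn (v3 D) (NN D) :=
  (continuousOn_quad D _ 2).div
    (continuousOn_U3.comp (continuousOn_rho D) fun _ h => rho_mem D h)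
    fun _ h => U3_ne (rho_mem D h)

lemma continuousOn_FF : ContinuousOn (FF D) (NN D) := by
  have ha : ContinuousOn (fun φ => rho D φ 0 + 1) (NN D) :=
    (continuousOn_rho_apply D 0).add continuousOn_const
  have hb : ContinuousOn (fun φ => rho D φ 1 - rho D φ 0 - 2) (NN D) :=
    ((continuousOn_rho_apply D 1).sub (continuousOn_rho_apply D 0)).sub continuousOn_const
  refine ContinuousOn.prodMk ?_ (ContinuousOn.prodMk ?_ (continuousOn_v3 D))
  · exact (ha.mul (Complex.continuous_conj.comp_continuousOn (continuousOn_ww D))).add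
      ((continuousOn_vv D).mul (Complex.continuous_conj.comp_continuousOn hb))
  · exact (((ha.norm.pow 2).add ((continuousOn_vv D).norm.pow 2)).sub
      ((continuousOn_ww D).norm.pow 2)).sub (hb.norm.pow 2)

lemma rel_at {φ : Pts Z} (h : φ ∈ NN D) (i : Fin 3) :
    4 * quad (ev D.cp φ) (rho D φ i) * quad (ev D.cm φ) (rho D φ i) +
      disc (esym (rho D φ)) ^ 2 * mas (rho D φ i) * cub (esym (rho D φ)) (rho D φ i - 2) *
        cub (esym (rho D φ)) (rho D φ i + 2) * cub' (esym (rho D φ)) (rho D φ i) ^ 12 = 0 := by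
  have h1 : IsUnit (disc (ev D.e φ)) := by
    rw [← esym_rho D h]
    exact (disc_ne (rho_mem D h)).isUnit
  have h2 : cub (ev D.e φ) (rho D φ i) = 0 := by
    rw [← esym_rho D h, cub_esym]
    fin_cases i <;> simp
  rw [esym_rho D h]
  exact D.rel ℂ φ (rho D φ i) h1 h2

lemma vv_mul_ww {φ : Pts Z} (h : φ ∈ NN D) :
    vv D φ * ww D φ = (rho D φ 0 + 1) * (rho D φ 1 - rho D φ 0 - 2) := by
  have h1 := rel_at D h 0
  have h2 := Up_mul_Um (rho D φ)
  have h3 := Up_ne (rho_mem D h)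
  have h4 := Um_ne (rho_mem D h)
  rw [vv, ww, div_mul_div_comm, div_eq_iff (mul_ne_zero h3 h4)]
  linear_combination (1 / 4 : ℂ) * h1 - (1 / 4 : ℂ) * h2

lemma zero_aux {a b v w : ℂ} (h0 : v * w = a * b)
    (h1 : a * (starRingEnd ℂ) w + v * (starRingEnd ℂ) b = 0)
    (h2 : ‖a‖ ^ 2 + ‖v‖ ^ 2 - ‖w‖ ^ 2 - ‖b‖ ^ 2 = 0) : a = 0 ∧ b = 0 := by
  have hw : w * (starRingEnd ℂ) w = ((‖w‖ ^ 2 : ℝ) : ℂ) := by
    rw [Complex.mul_conj, Complex.normSq_eq_norm_sq]
  have hb : b * (starRingEnd ℂ) b = ((‖b‖ ^ 2 : ℝ) : ℂ) := by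
    rw [Complex.mul_conj, Complex.normSq_eq_norm_sq]
  have e1 : a * ((‖w‖ ^ 2 + ‖b‖ ^ 2 : ℝ) : ℂ) = 0 := by
    rw [Complex.ofReal_add, ← hw, ← hb]
    linear_combination w * h1 - (starRingEnd ℂ) b * h0
  have e2 : v * ((‖w‖ ^ 2 + ‖b‖ ^ 2 : ℝ) : ℂ) = 0 := by
    rw [Complex.ofReal_add, ← hw, ← hb]
    linear_combination b * h1 + (starRingEnd ℂ) w * h0
  have e3 : ‖w‖ ^ 2 + ‖b‖ ^ 2 = 0 := by
    by_contra hne
    have hne' : ((‖w‖ ^ 2 + ‖b‖ ^ 2 : ℝ) : ℂ) ≠ 0 := Complex.ofReal_ne_zero.2 hne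
    rw [(mul_eq_zero.1 e1).resolve_right hne', (mul_eq_zero.1 e2).resolve_right hne',
      norm_zero] at h2
    exact hne (by linarith)
  have p1 := sq_nonneg ‖w‖
  have p2 := sq_nonneg ‖b‖
  have p3 := sq_nonneg ‖a‖
  have p4 := sq_nonneg ‖v‖
  constructor
  · exact norm_eq_zero.1 (pow_eq_zero_iff two_ne_zero |>.1 (by linarith))
  · exact norm_eq_zero.1 (pow_eq_zero_iff two_ne_zero |>.1 (by linarith))

/-- The special configuration. -/
def b0 : C3 := ![-1, 1, 8]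

lemma b0_mem : b0 ∈ Reg := by
  simp only [Reg, b0, mem_ofPred_eq, Matrix.cons_val_zero, Matrix.cons_val_one, Matrix.cons_val]
  norm_num

lemma ev_eq_of_FF {φ : Pts Z} (h : φ ∈ NN D) (hF : FF D φ = 0) : ev D.e φ = esym b0 := by
  have h1 := congrArg Prod.fst hF
  have h2 := congrArg (fun x => x.2.1) hF
  have h3 : v3 D φ = 0 := congrArg (fun x => x.2.2) hF
  obtain ⟨ha, hb⟩ := zero_aux (vv_mul_ww D h) h1 h2
  have hz := rho_mem D h
  have h4 := rel_at D h 2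
  rw [v3, div_eq_zero_iff, or_iff_left (U3_ne hz)] at h3
  obtain ⟨⟨n01, n02, n12, n10, n20, n21⟩, -, ⟨b1, b2, b3, b4, b5⟩, ⟨a1, a2, a3, a4, a5⟩⟩ := nz hz
  rw [h3, cub_esym, cub_esym, cub'_esym2, mas] at h4
  have h5 : (rho D φ 2 - 8) * (disc (esym (rho D φ)) ^ 2 *
      ((rho D φ 2 + 10) * (rho D φ 2 + 8) * (rho D φ 2 + 1) * (rho D φ 2 - 1) * (rho D φ 2 - 10)) *
      ((rho D φ 2 - rho D φ 0 - 2) * (rho D φ 2 - rho D φ 1 - 2)) *
      ((rho D φ 0 - rho D φ 2 - 2) * (rho D φ 1 - rho D φ 2 - 2)) *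
      ((rho D φ 2 - rho D φ 0) * (rho D φ 2 - rho D φ 1)) ^ 12) = 0 := by
    generalize ((rho D φ 2 - rho D φ 0) * (rho D φ 2 - rho D φ 1)) ^ 12 = A at h4 ⊢
    generalize disc (esym (rho D φ)) ^ 2 = B at h4 ⊢
    linear_combination (-1 / 4 : ℂ) * h4
  have h6 : rho D φ 2 - 8 = 0 := (mul_eq_zero.1 h5).resolve_right
    (mul_ne_zero (mul_ne_zero (mul_ne_zero (mul_ne_zero (pow_ne_zero _ (disc_ne hz))
      (mul_ne_zero (mul_ne_zero (mul_ne_zero (mul_ne_zero a1 a2) a3) a4) a5))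
      (mul_ne_zero b2 b5)) (mul_ne_zero b3 b4)) (pow_ne_zero _ (mul_ne_zero n20 n21)))
  rw [← esym_rho D h]
  congr 1
  funext i
  fin_cases i
  · change rho D φ 0 = -1
    linear_combination ha
  · change rho D φ 1 = 1
    linear_combination ha + hb
  · change rho D φ 2 = 8
    linear_combination h6

lemma ev_Psi {p : C3 × C3} (hp : p ∈ Par) : ev D.e (D.Ψ p) = esym p.2 :=
  funext fun k => D.val_e p hp k

lemma FF_Psi {p : C3 × C3} (hp : p ∈ Par) (hz : p.2 ∈ Reg) : FF D (D.Ψ p) = Fval p := by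
  have hr : rho D (D.Ψ p) = p.2 := by rw [rho, ev_Psi D hp, rt_esym hz]
  have hv : vv D (D.Ψ p) = p.1 0 * xs (p.2 0 + 1) * ys (p.2 1 - p.2 0 - 2) := by
    rw [vv, hr, div_eq_iff (Up_ne hz)]
    refine (D.val_p0 p hp).trans ?_
    simp only [Up, dc, mprod]
    rw [alp]
    ring
  have hw : ww D (D.Ψ p) = (p.1 0)⁻¹ * ys (p.2 0 + 1) * xs (p.2 1 - p.2 0 - 2) := by
    rw [ww, hr, div_eq_iff (Um_ne hz)]
    refine (D.val_m0 p hp).trans ?_
    simp only [Um, dc, mprod]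
    rw [alp]
    ring
  have h3 : v3 D (D.Ψ p) = p.1 2 * xs (p.2 2 - 8) := by
    rw [v3, hr, div_eq_iff (U3_ne hz)]
    refine (D.val_p2 p hp).trans ?_
    simp only [U3, dc, mprod]
    ring
  have ht : ‖p.1 0‖ = 1 := hp.1 0
  have hc : (starRingEnd ℂ) (p.1 0)⁻¹ = p.1 0 := by
    rw [Complex.inv_eq_conj ht, Complex.conj_conj]
  rw [FF, hr, hv, hw, h3, Fval]
  refine Prod.ext ?_ (Prod.ext ?_ rfl)
  · have e1 := mul_conj_ys (p.2 0 + 1)
    have e2 := ys_mul_conj (p.2 1 - p.2 0 - 2)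
    simp only [map_mul, hc, conj_xs, Complex.ofReal_mul, Complex.ofReal_add]
    change _ = p.1 0 * (xs (p.2 0 + 1) * xs (p.2 1 - p.2 0 - 2) * _)
    linear_combination p.1 0 * xs (p.2 1 - p.2 0 - 2) * e1 + p.1 0 * xs (p.2 0 + 1) * e2
  · simp only [norm_mul, norm_inv, ht, mul_pow, norm_xs_sq, norm_ys_sq]
    ring

end RootAux

open RootAux in
theorem root : ROOT := by
  intro Z _ _ D
  have hsub : ev D.e ⁻¹' {esym b0} ⊆ NN D := fun φ h => ⟨b0, b0_mem, (mem_singleton_iff.1 h).symm⟩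
  exact ⟨{
    toFam := D.toFam
    N := NN D
    K := ev D.e ⁻¹' {esym b0} ∩ FF D ⁻¹' {0}
    openN := isOpen_image.preimage (continuous_ev _)
    closedK := ((continuousOn_FF D).mono hsub).preimage_isClosed_of_isClosed
      (isClosed_singleton.preimage (continuous_ev _)) isClosed_singleton
    KN := inter_subset_left.trans hsub
    hK := fun p hp h i => by
      have h1 : esym b0 = esym p.2 := (mem_singleton_iff.1 h.1).symm.trans (ev_Psi D hp)
      exact root_cases h1 i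
    F := FF D
    contF := continuousOn_FF D
    F_ne := fun x hx h => ⟨ev_eq_of_FF D hx h, h⟩
    hN := fun p hp hz => ⟨p.2, hz, (ev_Psi D hp).symm⟩
    hF := fun p hp hz => FF_Psi D hp hz }⟩

end Pool.Agent.P.MP_f9c8fc_ag
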