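import Pool.Agent.P.MP_f9c8fc_ag.Sing
import Pool.Agent.P.MP_f9c8fc_ag.Root
import Pool.Agent.P.MP_f9c8fc_ag.Cher
import Pool.Agent.P.MP_f9c8fc_ag.Cyc
import Pool.Agent.P.MP_f9c8fc_ag.Det
import Pool.Agent.Lib.Helper83.Bridge

/-! The fifth cohomology group does not vanish. -/

open Set CategoryTheory Pool.Agent.Lib.Helper83

namespace Pool.Agent.P.MP_f9c8fc_ag

theorem TopData.cycle {X : Type} [TopologicalSpace X] (D : TopData X) :
    ∃ c ∈ sub ℂ (univ : Set X) 6, bd c = 0 ∧ c ∉ Bd ℂ univ 6 := by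
  have : Nonempty X := ⟨D.Ψ 0⟩
  obtain ⟨e, he, hb⟩ := cyc X D
  obtain ⟨h1, h2⟩ := det X D
  refine ⟨D.c0 - e, sub_mem (sub_mono (subset_univ _) h1) (sub_mono (subset_univ _) he),
    by rw [map_sub, hb, sub_self], ?_⟩
  rintro ⟨u, hu, hub⟩
  obtain ⟨y₁, hy₁, y₂, hy₂, w, -, hw⟩ := split D.openN D.closedK.isOpen_compl
    (fun x _ => by
      by_cases h : x ∈ D.K
      exacts [Or.inl (D.KN h), Or.inr h]) hu (by rwa [univ_inter])
    (by rw [univ_inter]; exact neg_mem he) (hub.trans (sub_eq_add_neg _ _))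
  rw [univ_inter] at hy₁ hy₂
  have h5 := congrArg bd hw
  rw [bd_bd, map_sub, map_sub, hub] at h5
  refine h2 ⟨D.c0 - bd y₁, sub_inter (sub_mem h1 (bd_mem hy₁)) ?_, by rw [map_sub, bd_bd, sub_zero]⟩
  have : D.c0 - bd y₁ = e + bd y₂ := by linear_combination (norm := abel) -h5
  rw [this]
  exact add_mem he (bd_mem hy₂)

theorem coh_ne {X : Type} [TopologicalSpace X] {n : ℕ} {c : Ch ℂ X}
    (hc : c ∈ sub ℂ (univ : Set X) (n + 2)) (h0 : bd c = 0) (h1 : c ∉ Bd ℂ univ (n + 2)) :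
    ¬ Limits.IsZero (singCoh (TopCat.of X) (n + 1)) := by
  intro hz
  have hd : ((KK ℂ X).d (n + 1) n).hom (ofCh (n + 1) c) = 0 := toCh_inj n (by
    rw [toCh_d, toCh_ofCh hc, h0, map_zero])
  have hx : ofCh (n + 1) c ∉ LinearMap.range ((KK ℂ X).d (n + 2) (n + 1)).hom := by
    rintro ⟨y, hy⟩
    exact h1 ⟨_, toCh_mem _ y, by rw [← toCh_d, hy, toCh_ofCh hc]⟩
  obtain ⟨f, hf, hf'⟩ := Submodule.exists_dual_map_eq_bot_of_notMem hx inferInstance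
  have ex : ((KK ℂ X).linearYonedaObj ℂ (ModuleCat.of ℂ ℂ)).ExactAt (n + 1) :=
    (HomologicalComplex.exactAt_iff_isZero_homology _ _).2 hz
  rw [HomologicalComplex.exactAt_iff' _ n (n + 1) (n + 2) (by simp) (by simp),
    ShortComplex.moduleCat_exact_iff] at ex
  obtain ⟨g, hg⟩ := ex (ModuleCat.ofHom f) (by
    show (KK ℂ X).d (n + 2) (n + 1) ≫ ModuleCat.ofHom f = 0
    refine ModuleCat.hom_ext (LinearMap.ext fun y => ?_)
    have : f (((KK ℂ X).d (n + 2) (n + 1)).hom y) ∈ (⊥ : Submodule ℂ ℂ) :=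
      hf' ▸ Submodule.mem_map_of_mem (LinearMap.mem_range_self _ y)
    exact this)
  have hg' : (KK ℂ X).d (n + 1) n ≫ g = ModuleCat.ofHom f := hg
  refine hf ?_
  have := congrArg (fun φ => φ.hom (ofCh (n + 1) c)) hg'
  simpa [hd] using this.symm

theorem main : ∃ D : Data (Fin 3 → ℂ), D.Valid ∧ D.Bad 5 := by
  obtain ⟨D, hD, S, hS⟩ := cher
  obtain ⟨B, _, _, T, L⟩ := S.exists_TS
  let C : Ctx D.H B := ⟨S, T, hS, L⟩
  obtain ⟨TD⟩ := root _ C.algData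
  obtain ⟨c, hc, h0, h1⟩ := TD.cycle
  exact ⟨D, hD, C.sing, coh_ne hc h0 h1⟩

end Pool.Agent.P.MP_f9c8fc_ag
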