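import Pool.Agent.P.MP_f9c8fc_ag.Cen

/-! Modules with a basis of weight vectors and their central characters. -/

namespace Pool.Agent.P.MP_f9c8fc_ag

/-- Letters: a particle and a colour. -/
abbrev Lt := Fin 3 × ZMod 6

/-- Words in three letters with distinct particles. -/
@[ext] structure Ix where
  (a b c : Lt)
  hab : a.1 ≠ b.1
  hac : a.1 ≠ c.1
  hbc : b.1 ≠ c.1

instance : Finite Ix := Finite.of_injective (fun u : Ix => (u.a, u.b, u.c)) fun u v h => by
  simp only [Prod.mk.injEq] at h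
  exact Ix.ext h.1 h.2.1 h.2.2

def up (l : Lt) : Lt := (l.1, l.2 + 1)
def dn (l : Lt) : Lt := (l.1, l.2 - 1)
@[simp] lemma up_dn (l : Lt) : up (dn l) = l := by simp [up, dn]
@[simp] lemma dn_up (l : Lt) : dn (up l) = l := by simp [up, dn]

def Ix.sw1 (u : Ix) : Ix := ⟨u.b, u.a, u.c, u.hab.symm, u.hbc, u.hac⟩
def Ix.sw2 (u : Ix) : Ix := ⟨u.a, u.c, u.b, u.hac, u.hab, u.hbc.symm⟩
def Ix.rot (u : Ix) : Ix := ⟨u.b, u.c, up u.a, u.hbc, u.hab.symm, u.hac.symm⟩
def Ix.tor (u : Ix) : Ix := ⟨dn u.c, u.a, u.b, u.hac.symm, u.hbc.symm, u.hab⟩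
def Ix.rel (π : Equiv.Perm (Fin 3)) (u : Ix) : Ix := ⟨(π u.a.1, u.a.2), (π u.b.1, u.b.2),
  (π u.c.1, u.c.2), π.injective.ne u.hab, π.injective.ne u.hac, π.injective.ne u.hbc⟩
def u0 : Ix := ⟨(0, 0), (1, 0), (2, 0), by decide, by decide, by decide⟩

noncomputable def chi (c : ZMod 6) : ℂ := ze ^ c.val

lemma chi_succ (c : ZMod 6) : chi (c + 1) = ze * chi c := by
  rw [chi, chi, ZMod.val_add, ← ze_pow_mod, pow_add, mul_comm]; congr 1; exact pow_one _

lemma chi_six (c : ZMod 6) : chi c ^ 6 = 1 := by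
  rw [chi, ← pow_mul, mul_comm, pow_mul, ze_six, one_pow]

lemma chi_inj : Function.Injective chi := fun a b h =>
  ZMod.val_injective 6 (ze_prim.pow_inj a.val_lt b.val_lt h)

lemma pp_chi (c d : ZMod 6) : pp (chi c) (chi d) = if c = d then 2 else 0 := by
  rw [pp, chi, chi, pi6_ze, Nat.mod_eq_of_lt c.val_lt, Nat.mod_eq_of_lt d.val_lt]
  simp only [(ZMod.val_injective 6).eq_iff]
  split_ifs <;> simp [kap]; norm_num

lemma Pp_chi (c : ZMod 6) : Pp (chi c) = ms c.val := by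
  rw [chi, Pp_ze, Nat.mod_eq_of_lt c.val_lt]

/-- The data of a module. -/
@[ext] structure Dat (R : Type) [CommRing R] [Algebra ℂ R] where
  z : Fin 3 → R
  (X Y : Lt → R)
  (al di : Fin 3 → Fin 3 → R)
  hd : ∀ p q, p ≠ q → di p q * (z p - z q) = 1
  hXY : ∀ l, X l * Y l = z l.1 - algebraMap ℂ R (ms l.2.val)
  hal : ∀ p q, p ≠ q → al p q * al q p = 4 - (z p - z q) ^ 2

variable {R R' : Type} [CommRing R] [Algebra ℂ R] [CommRing R'] [Algebra ℂ R']

abbrev En (R : Type) [CommRing R] := Module.End R (Ix → R)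

noncomputable def jj (R : Type) [CommRing R] [Algebra ℂ R] : (Ix → R) →ₐ[ℂ] En R :=
  (Algebra.lmul R (Ix → R)).restrictScalars ℂ

@[simp] lemma jj_apply (w f : Ix → R) (u : Ix) : jj R w f u = w u * f u := rfl

lemma jj_one (w : Ix → R) : jj R w 1 = w := mul_one w

/-- A weighted substitution operator. -/
noncomputable def wop (w : Ix → R) (m : Ix → Ix) : En R := jj R w * LinearMap.funLeft R R m

@[simp] lemma wop_apply (w f : Ix → R) (m : Ix → Ix) (u : Ix) : wop w m f u = w u * f (m u) := rfl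

lemma cj_wop (w : Ix → R) (m : Ix → Ix) {f f' : Ix → R} (h : ∀ u, f (m u) = f' u) :
    Cj (jj R) (wop w m) f f' := by
  refine LinearMap.ext fun g => funext fun u => ?_
  simp [h, mul_left_comm]

lemma qq_apply (x y z w : Ix → R) (u : Ix) : qq x y z w u = qq (x u) (y u) (z u) (w u) := rfl
lemma Pp_apply (x : Ix → R) (u : Ix) : Pp x u = Pp (x u) := rfl
lemma pp_apply (x y : Ix → R) (u : Ix) : pp x y u = pp (x u) (y u) := rfl

namespace Dat
variable (D : Dat R)

/-- The coefficient of a crossing. -/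
def cr (l l' : Lt) : R := if l.2 = l'.2 then D.al l.1 l'.1 else D.z l.1 - D.z l'.1

@[simp] lemma cr_up (l l' : Lt) : D.cr (up l) (up l') = D.cr l l' := by simp [cr, up]

lemma cr_dn (l l' : Lt) : D.cr (dn l) l' = D.cr l (up l') := by rw [← cr_up, up_dn]

lemma cr_cr {l l' : Lt} (h : l.1 ≠ l'.1) : D.cr l l' * D.cr l' l =
    qq (algebraMap ℂ R (chi l.2)) (algebraMap ℂ R (chi l'.2)) (D.z l.1) (D.z l'.1) := by
  rw [qq, ← pp, show pp (algebraMap ℂ R _) (algebraMap ℂ R _) = _ from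
    (map_pp (Algebra.ofId ℂ R) _ _).symm, pp_chi, cr, cr]
  by_cases e : l.2 = l'.2
  · rw [if_pos e, if_pos e.symm, if_pos e, D.hal _ _ h, map_ofNat]; ring
  · rw [if_neg e, if_neg (Ne.symm e), if_neg e, map_zero]; ring

lemma XY (l : Lt) : D.X l * D.Y l = D.z l.1 - Pp (algebraMap ℂ R (chi l.2)) := by
  rw [D.hXY, ← Pp_chi]
  exact congrArg _ (map_Pp (Algebra.ofId ℂ R) _)

lemma chi_up (l : Lt) : algebraMap ℂ R (chi (up l).2) = ze • algebraMap ℂ R (chi l.2) := by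
  rw [up, chi_succ, map_mul, Algebra.smul_def]

/-- The system of intertwiners of the module. -/
noncomputable def ts : TS (Ix → R) (En R) where
  j := jj R
  z1 u := D.z u.a.1
  z2 u := D.z u.b.1
  z3 u := D.z u.c.1
  t1 u := algebraMap ℂ R (chi u.a.2)
  t2 u := algebraMap ℂ R (chi u.b.2)
  t3 u := algebraMap ℂ R (chi u.c.2)
  a := wop (fun u => D.cr u.a u.b) Ix.sw1
  b := wop (fun u => D.cr u.b u.c) Ix.sw2
  sg := wop (fun u => D.X (up u.a)) Ix.rot
  ta := wop (fun u => D.Y u.c) Ix.tor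
  t1_6 := funext fun u => by simp [← map_pow, chi_six]
  t2_6 := funext fun u => by simp [← map_pow, chi_six]
  t3_6 := funext fun u => by simp [← map_pow, chi_six]
  az1 := cj_wop _ _ fun _ => rfl
  az2 := cj_wop _ _ fun _ => rfl
  az3 := cj_wop _ _ fun _ => rfl
  at1 := cj_wop _ _ fun _ => rfl
  at2 := cj_wop _ _ fun _ => rfl
  at3 := cj_wop _ _ fun _ => rfl
  bz1 := cj_wop _ _ fun _ => rfl
  bz2 := cj_wop _ _ fun _ => rfl
  bz3 := cj_wop _ _ fun _ => rfl
  bt1 := cj_wop _ _ fun _ => rfl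
  bt2 := cj_wop _ _ fun _ => rfl
  bt3 := cj_wop _ _ fun _ => rfl
  sz1 := cj_wop _ _ fun _ => rfl
  sz2 := cj_wop _ _ fun _ => rfl
  sz3 := cj_wop _ _ fun _ => rfl
  st1 := cj_wop _ _ fun _ => rfl
  st2 := cj_wop _ _ fun _ => rfl
  st3 := cj_wop _ _ fun u => chi_up u.a
  tz1 := cj_wop _ _ fun _ => rfl
  tz2 := cj_wop _ _ fun _ => rfl
  tz3 := cj_wop _ _ fun _ => rfl
  tt1 := cj_wop _ _ fun u => by simpa [Ix.tor] using (chi_up (R := R) (dn u.c)).symm
  tt2 := cj_wop _ _ fun _ => rfl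
  tt3 := cj_wop _ _ fun _ => rfl
  aa := LinearMap.ext fun g => funext fun u => by
    rw [jj_apply, qq_apply, ← D.cr_cr u.hab, mul_assoc]; rfl
  bb := LinearMap.ext fun g => funext fun u => by
    rw [jj_apply, qq_apply, ← D.cr_cr u.hbc, mul_assoc]; rfl
  br := LinearMap.ext fun g => funext fun u => by simp [Ix.sw1, Ix.sw2]; ring
  sa := LinearMap.ext fun g => funext fun u => by simp [Ix.sw1, Ix.sw2, Ix.rot]; ring
  ssb := LinearMap.ext fun g => funext fun u => by simp [Ix.sw1, Ix.sw2, Ix.rot]; ring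
  at' := LinearMap.ext fun g => funext fun u => by simp [Ix.sw1, Ix.sw2, Ix.tor]; ring
  btt := LinearMap.ext fun g => funext fun u => by simp [Ix.sw1, Ix.sw2, Ix.tor, cr_dn]; ring
  mix := LinearMap.ext fun g => funext fun u => by
    simp [Ix.sw1, Ix.sw2, Ix.tor, Ix.rot, cr_dn]; ring
  ts := LinearMap.ext fun g => funext fun u => by
    rw [jj_apply, Pi.sub_apply, Pp_apply, ← D.XY]
    simp [Ix.tor, Ix.rot]; ring
  st := LinearMap.ext fun g => funext fun u => by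
    have := D.XY (up u.a)
    rw [chi_up] at this
    rw [jj_apply, Pi.sub_apply, Pp_apply, Pi.smul_apply, show D.z u.a.1 = D.z (up u.a).1 from rfl,
      ← this]
    simp [Ix.tor, Ix.rot, mul_assoc]

end Dat

variable {H B : Type} [Ring H] [Algebra ℂ H] [CommRing B] [Algebra ℂ B]

/-- A presented algebra with its intertwiners. -/
structure Ctx (H B : Type) [Ring H] [Algebra ℂ H] [CommRing B] [Algebra ℂ B] where
  S : Sys H
  T : TS B H
  hS : S.Univ
  L : Link S T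

namespace Ctx
variable (C : Ctx H B) (D : Dat R) (D' : Dat R')

/-- `ρ` is the representation given by `D`. -/
structure Rep (ρ : H →ₐ[ℂ] En R) : Prop extends C.T.Hom D.ts ρ where
  s1 : ρ C.S.s1 = jj R (fun u => D.di u.a.1 u.b.1) * (D.ts.a + jj R (pp D.ts.t1 D.ts.t2))
  s2 : ρ C.S.s2 = jj R (fun u => D.di u.b.1 u.c.1) * (D.ts.b + jj R (pp D.ts.t2 D.ts.t3))
  t1 : ρ C.S.t1 = jj R D.ts.t1
  t2 : ρ C.S.t2 = jj R D.ts.t2
  t3 : ρ C.S.t3 = jj R D.ts.t3

lemma exists_rep : ∃ ρ, C.Rep D ρ := by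
  have h1 : (fun u : Ix => D.di u.a.1 u.b.1) * (D.ts.z1 - D.ts.z2) = 1 :=
    funext fun u => D.hd _ _ u.hab
  have h2 : (fun u : Ix => D.di u.b.1 u.c.1) * (D.ts.z2 - D.ts.z3) = 1 :=
    funext fun u => D.hd _ _ u.hbc
  obtain ⟨S', L'⟩ := D.ts.exists_sys h1 h2 (d3 := fun u : Ix => D.di u.c.1 u.a.1)
    (funext fun u => D.hd _ _ u.hac.symm)
  obtain ⟨ρ, hρ⟩ := C.hS.lift _ S'
  have key : ∀ {d δ p : Ix → R} {a s : En R}, d * δ = 1 → a = D.ts.j δ * s - D.ts.j p →
      s = jj R d * (a + jj R p) := fun {d δ p a s} h e => by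
    rw [e, show D.ts.j = jj R from rfl, sub_add_cancel, ← mul_assoc, ← map_mul, h, map_one, one_mul]
  exact ⟨ρ, TS.hom_of C.L L' hρ, hρ.s1.trans (key h1 L'.a), hρ.s2.trans (key h2 L'.b),
    hρ.t1.trans L'.t1.symm, hρ.t2.trans L'.t2.symm, hρ.t3.trans L'.t3.symm⟩

/-- The representation given by `D`. -/
noncomputable def rho : H →ₐ[ℂ] En R := (C.exists_rep D).choose

lemma rep : C.Rep D (C.rho D) := (C.exists_rep D).choose_spec

lemma comm (h : Subalgebra.center ℂ H) (x : H) :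
    C.rho D x * C.rho D h = C.rho D h * C.rho D x := by
  rw [← map_mul, ← map_mul, Subalgebra.mem_center_iff.1 h.2]

lemma diag_aux {A : En R} {w : Ix → R} (h : jj R w * A = A * jj R w) {u v : Ix} [DecidableEq Ix]
    (hu : IsUnit (w u - w v)) : A (Pi.single v 1) u = 0 := by
  have h1 : jj R w (Pi.single v 1) = w v • Pi.single v 1 := funext fun x => by
    by_cases e : x = v <;> simp [e]
  have h2 := congrFun (LinearMap.congr_fun h (Pi.single v 1)) u
  simp only [Module.End.mul_apply, h1, map_smul, jj_apply, Pi.smul_apply, smul_eq_mul] at h2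
  exact hu.mul_right_eq_zero.1 (by linear_combination h2)

lemma unit_of {l l' : Lt} (h : l ≠ l') : IsUnit (D.z l.1 - D.z l'.1) ∨
    IsUnit (algebraMap ℂ R (chi l.2) - algebraMap ℂ R (chi l'.2)) := by
  by_cases e : l.1 = l'.1
  · right
    rw [← map_sub]
    exact (sub_ne_zero.2 (chi_inj.ne fun e' => h (Prod.ext e e'))).isUnit.map _
  · exact Or.inl (IsUnit.of_mul_eq_one_right _ (D.hd _ _ e))

lemma diag (h : Subalgebra.center ℂ H) (f : Ix → R) (u : Ix) :
    C.rho D h f u = C.rho D h 1 u * f u := by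
  classical
  have := Fintype.ofFinite Ix
  have r := C.rep D
  have h0 : ∀ v, v ≠ u → C.rho D h (Pi.single v 1) u = 0 := fun v hv => by
    by_cases ea : u.a = v.a
    · by_cases eb : u.b = v.b
      · rcases unit_of D (fun ec => hv (Ix.ext ea eb ec).symm) with e | e
        exacts [diag_aux (r.z3 ▸ C.comm D h _) e, diag_aux (r.t3 ▸ C.comm D h _) e]
      · rcases unit_of D eb with e | e
        exacts [diag_aux (r.z2 ▸ C.comm D h _) e, diag_aux (r.t2 ▸ C.comm D h _) e]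
    · rcases unit_of D ea with e | e
      exacts [diag_aux (r.z1 ▸ C.comm D h _) e, diag_aux (r.t1 ▸ C.comm D h _) e]
  have key : ∀ f : Ix → R, C.rho D h f u = C.rho D h (Pi.single u 1) u * f u := fun f => by
    conv_lhs => rw [pi_eq_sum_univ' f, map_sum, Finset.sum_apply]
    rw [Finset.sum_eq_single u (fun v _ hv => by simp [h0 v hv]) (by simp)]
    simp [mul_comm]
  rw [key f, key 1]; simp

/-- The central character on the weight vector `u`. -/
noncomputable def lam (u : Ix) : Subalgebra.center ℂ H →ₐ[ℂ] R where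
  toFun h := C.rho D h 1 u
  map_one' := by simp
  map_mul' h h' := by simp [C.diag D h (C.rho D h' 1)]
  map_zero' := by simp
  map_add' h h' := by simp
  commutes' c := by simp [Algebra.algebraMap_eq_smul_one]

lemma diag' (h : Subalgebra.center ℂ H) (f : Ix → R) (u : Ix) :
    C.rho D h f u = C.lam D u h * f u := C.diag D h f u

lemma lam_sw1 (h : Subalgebra.center ℂ H) (u : Ix) :
    D.cr u.a u.b * C.lam D u.sw1 h = C.lam D u h * D.cr u.a u.b := by
  have := congrFun (LinearMap.congr_fun ((C.rep D).a ▸ C.comm D h C.T.a) 1) u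
  simpa [diag', Dat.ts] using this

lemma lam_sw2 (h : Subalgebra.center ℂ H) (u : Ix) :
    D.cr u.b u.c * C.lam D u.sw2 h = C.lam D u h * D.cr u.b u.c := by
  have := congrFun (LinearMap.congr_fun ((C.rep D).b ▸ C.comm D h C.T.b) 1) u
  simpa [diag', Dat.ts] using this

/-- Conditions for a twisted change of basis to intertwine two modules. -/
structure Gauge (D : Dat R) (D' : Dat R') (g : R →ₐ[ℂ] R') (π : Equiv.Perm (Fin 3))
    (γ : Ix → R') : Prop where
  z : ∀ p, g (D.z (π p)) = D'.z p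
  a : ∀ u : Ix, γ u * g (D.cr (u.rel π).a (u.rel π).b) = D'.cr u.a u.b * γ u.sw1
  b : ∀ u : Ix, γ u * g (D.cr (u.rel π).b (u.rel π).c) = D'.cr u.b u.c * γ u.sw2
  sg : ∀ u : Ix, γ u * g (D.X (up (u.rel π).a)) = D'.X (up u.a) * γ u.rot
  ta : ∀ u : Ix, γ u * g (D.Y (u.rel π).c) = D'.Y u.c * γ u.tor

variable {D D'} {g : R →ₐ[ℂ] R'} {π : Equiv.Perm (Fin 3)} {γ : Ix → R'}

/-- Intertwining. -/
def Itw (g : R →ₐ[ℂ] R') (π : Equiv.Perm (Fin 3)) (γ : Ix → R') (A : En R) (A' : En R') : Prop :=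
  ∀ f u, γ u * g (A f (u.rel π)) = A' (fun v => γ v * g (f (v.rel π))) u

lemma Itw.mul {A A₁ : En R} {A' A₁' : En R'} (h : Itw g π γ A A') (h₁ : Itw g π γ A₁ A₁') :
    Itw g π γ (A * A₁) (A' * A₁') := fun f u => by
  rw [Module.End.mul_apply, h, Module.End.mul_apply]
  exact congrFun (congrArg A' (funext (h₁ f))) u

lemma Itw.add {A A₁ : En R} {A' A₁' : En R'} (h : Itw g π γ A A') (h₁ : Itw g π γ A₁ A₁') :
    Itw g π γ (A + A₁) (A' + A₁') := fun f u => by
  simp only [LinearMap.add_apply, Pi.add_apply, map_add, mul_add, h f u, h₁ f u]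

lemma Itw.jj {w : Ix → R} {w' : Ix → R'} (h : ∀ u, g (w (u.rel π)) = w' u) :
    Itw g π γ (jj R w) (jj R' w') := fun f u => by simp [h, mul_left_comm]

lemma Itw.wop {w : Ix → R} {w' : Ix → R'} {m : Ix → Ix} (hm : ∀ u, m (u.rel π) = (m u).rel π)
    (h : ∀ u, γ u * g (w (u.rel π)) = w' u * γ (m u)) : Itw g π γ (wop w m) (wop w' m) :=
  fun f u => by simp only [wop_apply, map_mul, hm, ← mul_assoc, h]

lemma itw (G : Gauge D D' g π γ) (x : H) : Itw g π γ (C.rho D x) (C.rho D' x) := by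
  have r := C.rep D
  have r' := C.rep D'
  have hd : ∀ p q, p ≠ q → g (D.di (π p) (π q)) = D'.di p q := fun p q h => by
    have h1 := congrArg g (D.hd _ _ (π.injective.ne h))
    rw [map_mul, map_sub, G.z, G.z, map_one] at h1
    linear_combination D'.di p q * h1 - g (D.di (π p) (π q)) * D'.hd p q h
  have hp : ∀ c d, g (pp (algebraMap ℂ R c) (algebraMap ℂ R d)) =
      pp (algebraMap ℂ R' c) (algebraMap ℂ R' d) := fun c d => by simp [map_pp]
  have hx : x ∈ Algebra.adjoin ℂ _ := C.hS.gen ▸ Algebra.mem_top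
  induction hx using Algebra.adjoin_induction with
  | mem x hx =>
    simp only [Set.mem_insert_iff, Set.mem_singleton_iff] at hx
    rcases hx with rfl | rfl | rfl | rfl | rfl | rfl | rfl
    · rw [r.s1, r'.s1]
      refine Itw.mul (Itw.jj fun u => hd _ _ u.hab) (Itw.add (Itw.wop (fun _ => rfl) G.a)
        (Itw.jj fun u => ?_))
      rw [pp_apply, pp_apply]; exact hp (chi u.a.2) (chi u.b.2)
    · rw [r.s2, r'.s2]
      refine Itw.mul (Itw.jj fun u => hd _ _ u.hbc) (Itw.add (Itw.wop (fun _ => rfl) G.b)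
        (Itw.jj fun u => ?_))
      rw [pp_apply, pp_apply]; exact hp (chi u.b.2) (chi u.c.2)
    · rw [r.t1, r'.t1]; exact Itw.jj fun u => g.commutes _
    · rw [r.t2, r'.t2]; exact Itw.jj fun u => g.commutes _
    · rw [r.t3, r'.t3]; exact Itw.jj fun u => g.commutes _
    · rw [← C.L.sg, r.sg, r'.sg]; exact Itw.wop (fun _ => rfl) G.sg
    · rw [← C.L.ta, r.ta, r'.ta]; exact Itw.wop (fun _ => rfl) G.ta
  | algebraMap c =>
    rw [AlgHom.commutes, AlgHom.commutes, ← (jj R).commutes, ← (jj R').commutes]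
    exact Itw.jj fun u => g.commutes _
  | add x y _ _ hx hy => rw [map_add, map_add]; exact hx.add hy
  | mul x y _ _ hx hy => rw [map_mul, map_mul]; exact hx.mul hy

theorem gauge (G : Gauge D D' g π γ) (u : Ix) (hu : IsUnit (γ u)) (h : Subalgebra.center ℂ H) :
    g (C.lam D (u.rel π) h) = C.lam D' u h := by
  have := C.itw G h 1 u
  rw [diag', diag'] at this
  simp only [Pi.one_apply, mul_one, map_one] at this
  exact hu.mul_left_cancel (this.trans (mul_comm _ _))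

variable (D)

noncomputable def e (k : Fin 3) : Subalgebra.center ℂ H := ⟨_, TS.ee_center C.hS C.L k⟩
noncomputable def cp (k : Fin 3) : Subalgebra.center ℂ H :=
  ⟨C.T.cp k, TS.cen_center C.hS C.L (C.T.cen_Ap k)⟩
noncomputable def cm (k : Fin 3) : Subalgebra.center ℂ H :=
  ⟨C.T.cm k, TS.cen_center C.hS C.L (C.T.cen_Am k)⟩

lemma rel : REL C.e C.cp C.cm := TS.rel _ _ _ (fun _ => rfl) (fun _ => rfl) fun _ => rfl

lemma zz_u0 (i : Fin 3) : D.ts.zz i u0 = D.z i := by fin_cases i <;> rfl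

lemma esym_u0 : Pi.evalAlgHom ℂ (fun _ => R) u0 ∘ esym D.ts.zz = esym D.z := by
  rw [map_esym]; congr 1; exact funext (zz_u0 D)

lemma cub'_u0 (i : Fin 3) : cub' (esym D.ts.zz) (D.ts.zz i) u0 = cub' (esym D.z) (D.z i) := by
  rw [← esym_u0, ← zz_u0]
  exact map_cub' (Pi.evalAlgHom ℂ (fun _ => R) u0) _ _

lemma val_e (k : Fin 3) : C.lam D u0 (C.e k) = esym D.z k := by
  show C.rho D (C.T.ee k) 1 u0 = _
  rw [(C.rep D).ee, ← esym_u0]
  exact mul_one _

lemma val_quad {c : Fin 3 → Subalgebra.center ℂ H} (w : Ix → R) :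
    quad (fun k => C.lam D u0 (c k)) (w u0) =
      (C.rho D (c 0) + C.rho D (c 1) * jj R w + C.rho D (c 2) * jj R w ^ 2) 1 u0 := by
  simp [quad, diag', sq]

lemma val_p (i : Fin 3) : quad (fun k => C.lam D u0 (C.cp k)) (D.z i) =
    disc (esym D.z) * D.ts.X6 i (cub' (esym D.ts.zz) (D.ts.zz i)) u0 := by
  have h := (C.rep D).cp
  rw [← zz_u0, val_quad]
  simp only [cp, h]
  rw [← esym_u0, ← map_disc, show jj R = D.ts.j from rfl, TS.quad_cp', Module.End.mul_apply,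
    Module.End.mul_apply, show D.ts.j = jj R from rfl, jj_apply, jj_one, Pi.evalAlgHom_apply]

lemma val_m (i : Fin 3) : quad (fun k => C.lam D u0 (C.cm k)) (D.z i) =
    disc (esym D.z) * (cub' (esym D.z) (D.z i) * D.ts.Y6 i 1 u0) := by
  have h := (C.rep D).cm
  rw [← zz_u0, val_quad]
  simp only [cm, h]
  rw [show jj R = D.ts.j from rfl, TS.quad_cm', Module.End.mul_apply,
    Module.End.mul_apply, show D.ts.j = jj R from rfl, jj_apply, jj_apply, cub'_u0, zz_u0,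
    ← esym_u0, ← map_disc, Pi.evalAlgHom_apply]

/-- Product over the colours. -/
def cprod (X : Lt → R) (p : Fin 3) : R :=
  X (p, 0) * X (p, 1) * X (p, 2) * X (p, 3) * X (p, 4) * X (p, 5)

lemma x1_apply (f : Ix → R) (u : Ix) : D.ts.x1 f u = D.X (up u.a) * D.cr u.c (up u.a) *
    D.cr u.b (up u.a) * f ⟨up u.a, u.b, u.c, u.hab, u.hac, u.hbc⟩ := by
  simp [TS.x1, Dat.ts, Ix.rot, Ix.sw1, Ix.sw2, mul_assoc]

lemma x3_apply (f : Ix → R) (u : Ix) : D.ts.x3 f u = D.cr u.b u.c * D.cr u.a u.c * D.X (up u.c) *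
    f ⟨u.a, u.b, up u.c, u.hab, u.hac, u.hbc⟩ := by
  simp [TS.x3, Dat.ts, Ix.rot, Ix.sw1, Ix.sw2, mul_assoc]

lemma y1_apply (f : Ix → R) (u : Ix) : D.ts.y1 f u = D.cr u.a u.b * D.cr u.a u.c * D.Y u.a *
    f ⟨dn u.a, u.b, u.c, u.hab, u.hac, u.hbc⟩ := by
  simp [TS.y1, Dat.ts, Ix.tor, Ix.sw1, Ix.sw2, mul_assoc]

lemma val_p0 : quad (fun k => C.lam D u0 (C.cp k)) (D.z 0) =
    disc (esym D.z) * cub' (esym D.z) (D.z 0) * (cprod D.X 0 *
      ((D.z 1 - D.z 0) ^ 5 * D.al 1 0) * ((D.z 2 - D.z 0) ^ 5 * D.al 2 0)) := by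
  rw [val_p, ← cub'_u0]
  generalize cub' (esym D.ts.zz) (D.ts.zz 0) = f
  show _ * (D.ts.x1 ^ 6) f u0 = _
  simp only [pow_succ _ (_ : ℕ), pow_zero, one_mul, Module.End.mul_apply, x1_apply]
  simp +decide only [u0, up, Dat.cr, cprod, if_true, if_false]
  show _ * (D.X (0, 1) * _ * _ * (D.X (0, 2) * _ * _ * (D.X (0, 3) * _ * _ * (D.X (0, 4) * _ * _ *
    (D.X (0, 5) * _ * _ * (D.X (0, 0) * _ * _ * f u0)))))) = _ * f u0 * _
  ring

lemma val_p2 : quad (fun k => C.lam D u0 (C.cp k)) (D.z 2) =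
    disc (esym D.z) * cub' (esym D.z) (D.z 2) * (cprod D.X 2 *
      ((D.z 0 - D.z 2) ^ 5 * D.al 0 2) * ((D.z 1 - D.z 2) ^ 5 * D.al 1 2)) := by
  rw [val_p, ← cub'_u0]
  generalize cub' (esym D.ts.zz) (D.ts.zz 2) = f
  show _ * (D.ts.x3 ^ 6) f u0 = _
  simp only [pow_succ _ (_ : ℕ), pow_zero, one_mul, Module.End.mul_apply, x3_apply]
  simp +decide only [u0, up, Dat.cr, cprod, if_true, if_false]
  show _ * (_ * _ * D.X (2, 1) * (_ * _ * D.X (2, 2) * (_ * _ * D.X (2, 3) * (_ * _ * D.X (2, 4) *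
    (_ * _ * D.X (2, 5) * (_ * _ * D.X (2, 0) * f u0)))))) = _ * f u0 * _
  ring

lemma val_m0 : quad (fun k => C.lam D u0 (C.cm k)) (D.z 0) =
    disc (esym D.z) * cub' (esym D.z) (D.z 0) * (cprod D.Y 0 *
      ((D.z 0 - D.z 1) ^ 5 * D.al 0 1) * ((D.z 0 - D.z 2) ^ 5 * D.al 0 2)) := by
  rw [val_m]
  show _ * (_ * (D.ts.y1 ^ 6) 1 u0) = _
  simp only [pow_succ _ (_ : ℕ), pow_zero, one_mul, Module.End.mul_apply, y1_apply]
  simp +decide only [u0, dn, Dat.cr, cprod, if_true, if_false]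
  show _ * (_ * (_ * _ * D.Y (0, 0) * (_ * _ * D.Y (0, 5) * (_ * _ * D.Y (0, 4) *
    (_ * _ * D.Y (0, 3) * (_ * _ * D.Y (0, 2) * (_ * _ * D.Y (0, 1) * 1))))))) = _
  ring

end Ctx

end Pool.Agent.P.MP_f9c8fc_ag
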