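import Pool.Agent.P.MP_f9c8fc_ag.Iface

/-! Continuous roots of cubics with roots in three strips. -/

open Set Filter Topology

namespace Pool.Agent.P.MP_f9c8fc_ag

namespace RootAux

lemma cub_esym (z : C3) (T : ℂ) : cub (esym z) T = (T - z 0) * (T - z 1) * (T - z 2) := by
  simp only [cub, esym, Matrix.cons_val_zero, Matrix.cons_val_one, Matrix.cons_val]
  ring

lemma cub'_esym0 (z : C3) : cub' (esym z) (z 0) = (z 0 - z 1) * (z 0 - z 2) := by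
  simp only [cub', esym, Matrix.cons_val_zero, Matrix.cons_val_one]
  ring

lemma cub'_esym2 (z : C3) : cub' (esym z) (z 2) = (z 2 - z 0) * (z 2 - z 1) := by
  simp only [cub', esym, Matrix.cons_val_zero, Matrix.cons_val_one]
  ring

lemma disc_esym (z : C3) : disc (esym z) = ((z 0 - z 1) * (z 0 - z 2) * (z 1 - z 2)) ^ 2 := by
  simp only [disc, esym, Matrix.cons_val_zero, Matrix.cons_val_one, Matrix.cons_val]
  ring

lemma isOpen_Reg : IsOpen Reg := by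
  have h : ∀ i : Fin 3, Continuous fun z : C3 => (z i).re := fun i => by fun_prop
  exact ((isOpen_lt continuous_const (h 0)).inter (isOpen_lt (h 0) continuous_const)).inter
    (((isOpen_lt continuous_const (h 1)).inter (isOpen_lt (h 1) continuous_const)).inter
      ((isOpen_lt continuous_const (h 2)).inter (isOpen_lt (h 2) continuous_const)))

lemma root_cases {z z' : C3} (h : esym z = esym z') (i : Fin 3) :
    z' i = z 0 ∨ z' i = z 1 ∨ z' i = z 2 := by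
  have h1 : cub (esym z') (z' i) = 0 := by
    rw [cub_esym]
    fin_cases i <;> simp
  rw [← h, cub_esym, mul_eq_zero, mul_eq_zero, sub_eq_zero, sub_eq_zero, sub_eq_zero] at h1
  tauto

lemma injOn_esym : InjOn (esym : C3 → C3) Reg := by
  intro z hz z' hz' h
  obtain ⟨⟨a0, b0⟩, ⟨a1, b1⟩, ⟨a2, b2⟩⟩ := hz
  obtain ⟨⟨c0, d0⟩, ⟨c1, d1⟩, ⟨c2, d2⟩⟩ := hz'
  funext i
  fin_cases i
  · rcases root_cases h 0 with e | e | e
    · exact e.symm
    · rw [e] at d0; linarith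
    · rw [e] at d0; linarith
  · rcases root_cases h 1 with e | e | e
    · rw [e] at c1; linarith
    · exact e.symm
    · rw [e] at d1; linarith
  · rcases root_cases h 2 with e | e | e
    · rw [e] at c2; linarith
    · rw [e] at c2; linarith
    · exact e.symm

lemma nz {z : C3} (hz : z ∈ Reg) :
    (z 0 - z 1 ≠ 0 ∧ z 0 - z 2 ≠ 0 ∧ z 1 - z 2 ≠ 0 ∧ z 1 - z 0 ≠ 0 ∧ z 2 - z 0 ≠ 0 ∧
      z 2 - z 1 ≠ 0) ∧
    (z 0 + 10 ≠ 0 ∧ z 0 + 8 ≠ 0 ∧ z 0 - 1 ≠ 0 ∧ z 0 - 8 ≠ 0 ∧ z 0 - 10 ≠ 0) ∧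
    (z 0 - z 1 - 2 ≠ 0 ∧ z 2 - z 0 - 2 ≠ 0 ∧ z 0 - z 2 - 2 ≠ 0 ∧ z 1 - z 2 - 2 ≠ 0 ∧
      z 2 - z 1 - 2 ≠ 0) ∧
    (z 2 + 10 ≠ 0 ∧ z 2 + 8 ≠ 0 ∧ z 2 + 1 ≠ 0 ∧ z 2 - 1 ≠ 0 ∧ z 2 - 10 ≠ 0) := by
  obtain ⟨⟨a0, b0⟩, ⟨a1, b1⟩, ⟨a2, b2⟩⟩ := hz
  refine ⟨⟨?_, ?_, ?_, ?_, ?_, ?_⟩, ⟨?_, ?_, ?_, ?_, ?_⟩, ⟨?_, ?_, ?_, ?_, ?_⟩,
    ⟨?_, ?_, ?_, ?_, ?_⟩⟩ <;>
  · intro h
    have := congrArg Complex.re h
    simp at this
    linarith

lemma map_nhds_esym {z : C3} (hz : z ∈ Reg) : map (esym : C3 → C3) (𝓝 z) = 𝓝 (esym z) := by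
  let P : Fin 3 → (C3 →L[ℂ] ℂ) := fun i => ContinuousLinearMap.proj i
  have hP : ∀ i, HasStrictFDerivAt (fun x : C3 => x i) (P i) z := fun i =>
    (P i).hasStrictFDerivAt
  let L : Fin 3 → (C3 →L[ℂ] ℂ) := ![P 0 + P 1 + P 2,
    (z 0 • P 1 + z 1 • P 0) + (z 0 • P 2 + z 2 • P 0) + (z 1 • P 2 + z 2 • P 1),
    (z 0 * z 1) • P 2 + z 2 • (z 0 • P 1 + z 1 • P 0)]
  have hL : HasStrictFDerivAt (fun (x : C3) (i : Fin 3) => esym x i)
      (ContinuousLinearMap.pi L) z := by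
    rw [hasStrictFDerivAt_pi]
    intro i
    fin_cases i
    · exact ((hP 0).add (hP 1)).add (hP 2)
    · exact (((hP 0).mul (hP 1)).add ((hP 0).mul (hP 2))).add ((hP 1).mul (hP 2))
    · exact ((hP 0).mul (hP 1)).mul (hP 2)
  refine HasStrictFDerivAt.map_nhds_eq_of_surj hL ?_
  rw [LinearMap.range_eq_top, ← LinearMap.injective_iff_surjective, injective_iff_map_eq_zero]
  intro h hh
  have e0 : h 0 + h 1 + h 2 = 0 := congrFun hh 0
  have e1 : (z 0 * h 1 + z 1 * h 0) + (z 0 * h 2 + z 2 * h 0) + (z 1 * h 2 + z 2 * h 1) = 0 :=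
    congrFun hh 1
  have e2 : (z 0 * z 1) * h 2 + z 2 * (z 0 * h 1 + z 1 * h 0) = 0 := congrFun hh 2
  obtain ⟨⟨n01, n02, n12, n10, n20, n21⟩, -⟩ := nz hz
  have f0 : h 0 * ((z 0 - z 1) * (z 0 - z 2)) = 0 := by
    linear_combination z 0 ^ 2 * e0 - z 0 * e1 + e2
  have f1 : h 1 * ((z 1 - z 0) * (z 1 - z 2)) = 0 := by
    linear_combination z 1 ^ 2 * e0 - z 1 * e1 + e2
  have f2 : h 2 * ((z 2 - z 0) * (z 2 - z 1)) = 0 := by
    linear_combination z 2 ^ 2 * e0 - z 2 * e1 + e2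
  funext i
  fin_cases i
  · exact (mul_eq_zero.1 f0).resolve_right (mul_ne_zero n01 n02)
  · exact (mul_eq_zero.1 f1).resolve_right (mul_ne_zero n10 n12)
  · exact (mul_eq_zero.1 f2).resolve_right (mul_ne_zero n20 n21)

lemma isOpen_image : IsOpen ((esym : C3 → C3) '' Reg) := by
  rw [isOpen_iff_mem_nhds]
  rintro _ ⟨z, hz, rfl⟩
  rw [← map_nhds_esym hz]
  exact image_mem_map (isOpen_Reg.mem_nhds hz)

/-- The ordered roots. -/
noncomputable def rt : C3 → C3 := Function.invFunOn esym Reg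

lemma rt_esym {z : C3} (hz : z ∈ Reg) : rt (esym z) = z := injOn_esym.leftInvOn_invFunOn hz

lemma rt_mem {e : C3} (he : e ∈ (esym : C3 → C3) '' Reg) : rt e ∈ Reg := by
  obtain ⟨z, hz, rfl⟩ := he
  rwa [rt_esym hz]

lemma esym_rt {e : C3} (he : e ∈ (esym : C3 → C3) '' Reg) : esym (rt e) = e := by
  obtain ⟨z, hz, rfl⟩ := he
  rw [rt_esym hz]

lemma continuousOn_rt : ContinuousOn rt ((esym : C3 → C3) '' Reg) := by
  rintro _ ⟨z, hz, rfl⟩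
  refine ContinuousAt.continuousWithinAt ?_
  rw [ContinuousAt, ← map_nhds_esym hz, tendsto_map'_iff, rt_esym hz]
  refine tendsto_id.congr' ?_
  filter_upwards [isOpen_Reg.mem_nhds hz] with x hx
  exact (rt_esym hx).symm

/-! ### The square root factors -/

lemma xs_ne {u : ℂ} (hu : u ≠ 0) : xs u ≠ 0 := by
  simp only [xs, ne_eq, Complex.ofReal_eq_zero]
  exact (Real.sqrt_pos.2 (norm_pos_iff.2 hu)).ne'

lemma ys_ne {u : ℂ} (hu : u ≠ 0) : ys u ≠ 0 := div_ne_zero hu (xs_ne hu)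

lemma xs_mul_ys (u : ℂ) : xs u * ys u = u := by
  by_cases hu : u = 0
  · simp [ys, hu]
  · exact mul_div_cancel₀ u (xs_ne hu)

lemma xs_mul_xs (u : ℂ) : xs u * xs u = (‖u‖ : ℝ) := by
  rw [xs, ← Complex.ofReal_mul, Real.mul_self_sqrt (norm_nonneg u)]

lemma conj_xs (u : ℂ) : (starRingEnd ℂ) (xs u) = xs u := Complex.conj_ofReal _

lemma mul_conj_ys (u : ℂ) : u * (starRingEnd ℂ) (ys u) = (‖u‖ : ℝ) * xs u := by
  by_cases hu : u = 0
  · simp [hu]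
  · refine mul_right_cancel₀ (xs_ne hu) ?_
    rw [mul_assoc, mul_assoc, xs_mul_xs, ← conj_xs u, ← map_mul, mul_comm (ys u), xs_mul_ys,
      Complex.mul_conj, Complex.normSq_eq_norm_sq]
    push_cast
    ring

lemma ys_mul_conj (u : ℂ) : ys u * (starRingEnd ℂ) u = (‖u‖ : ℝ) * xs u := by
  have := congrArg (starRingEnd ℂ) (mul_conj_ys u)
  rw [map_mul, map_mul, Complex.conj_conj, conj_xs, Complex.conj_ofReal] at this
  rw [← this, mul_comm]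

lemma norm_xs_sq (u : ℂ) : ‖xs u‖ ^ 2 = ‖u‖ := by
  rw [sq, ← norm_mul, xs_mul_xs, Complex.norm_real, norm_norm]

lemma norm_ys_sq (u : ℂ) : ‖ys u‖ ^ 2 = ‖u‖ := by
  by_cases hu : u = 0
  · simp [ys, hu]
  · refine mul_left_cancel₀ (norm_ne_zero_iff.2 hu) ?_
    conv_lhs => rw [← norm_xs_sq u, ← mul_pow, ← norm_mul, xs_mul_ys]
    rw [sq]

lemma continuous_xs : Continuous xs := by
  unfold xs
  fun_prop

lemma continuousOn_ys {f : C3 → ℂ} (hf : Continuous f) (h : ∀ z ∈ Reg, f z ≠ 0) :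
    ContinuousOn (fun z => ys (f z)) Reg :=
  hf.continuousOn.div (continuous_xs.comp hf).continuousOn fun z hz => xs_ne (h z hz)

lemma continuousOn_xs {f : C3 → ℂ} (hf : Continuous f) :
    ContinuousOn (fun z => xs (f z)) Reg := (continuous_xs.comp hf).continuousOn

lemma continuousOn_alp (i j : Fin 3) (h : ∀ z ∈ Reg, z i - z j - 2 ≠ 0) :
    ContinuousOn (fun z : C3 => alp (z i) (z j)) Reg :=
  (((by fun_prop : Continuous fun z : C3 => (z i - z j) ^ 5).continuousOn).mul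
    (continuousOn_ys (by fun_prop) h)).mul (continuousOn_xs (by fun_prop))

lemma alp_ne {a b : ℂ} (h1 : a - b ≠ 0) (h2 : a - b - 2 ≠ 0) (h3 : b - a - 2 ≠ 0) :
    alp a b ≠ 0 := mul_ne_zero (mul_ne_zero (pow_ne_zero _ h1) (ys_ne h2)) (xs_ne h3)

/-- The common polynomial factor. -/
noncomputable def dc (i : Fin 3) (z : C3) : ℂ := disc (esym z) * cub' (esym z) (z i)

lemma continuous_dc (i : Fin 3) : Continuous (dc i) := by
  unfold dc disc cub' esym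
  simp only [Matrix.cons_val_zero, Matrix.cons_val_one, Matrix.cons_val]
  fun_prop

noncomputable def Up (z : C3) : ℂ :=
  dc 0 z * (xs (z 0 + 10) * xs (z 0 + 8) * xs (z 0 - 1) * xs (z 0 - 8) * xs (z 0 - 10)) *
    ((z 1 - z 0) ^ 5 * xs (z 0 - z 1 - 2)) * alp (z 2) (z 0)

noncomputable def Um (z : C3) : ℂ :=
  dc 0 z * (ys (z 0 + 10) * ys (z 0 + 8) * ys (z 0 - 1) * ys (z 0 - 8) * ys (z 0 - 10)) *
    ((z 0 - z 1) ^ 5 * ys (z 0 - z 1 - 2)) * alp (z 0) (z 2)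

noncomputable def U3 (z : C3) : ℂ :=
  dc 2 z * (xs (z 2 + 10) * xs (z 2 + 8) * xs (z 2 + 1) * xs (z 2 - 1) * xs (z 2 - 10)) *
    alp (z 0) (z 2) * alp (z 1) (z 2)

lemma disc_ne {z : C3} (hz : z ∈ Reg) : disc (esym z) ≠ 0 := by
  obtain ⟨⟨n01, n02, n12, -⟩, -⟩ := nz hz
  rw [disc_esym]
  exact pow_ne_zero _ (mul_ne_zero (mul_ne_zero n01 n02) n12)

lemma dc0_ne {z : C3} (hz : z ∈ Reg) : dc 0 z ≠ 0 := by
  obtain ⟨⟨n01, n02, -⟩, -⟩ := nz hz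
  rw [dc, cub'_esym0]
  exact mul_ne_zero (disc_ne hz) (mul_ne_zero n01 n02)

lemma dc2_ne {z : C3} (hz : z ∈ Reg) : dc 2 z ≠ 0 := by
  obtain ⟨⟨-, -, -, -, n20, n21⟩, -⟩ := nz hz
  rw [dc, cub'_esym2]
  exact mul_ne_zero (disc_ne hz) (mul_ne_zero n20 n21)

lemma Up_ne {z : C3} (hz : z ∈ Reg) : Up z ≠ 0 := by
  obtain ⟨⟨n01, n02, n12, n10, n20, n21⟩, ⟨a1, a2, a3, a4, a5⟩, ⟨b1, b2, b3, b4, b5⟩, -⟩ := nz hz
  exact mul_ne_zero (mul_ne_zero (mul_ne_zero (dc0_ne hz) (mul_ne_zero (mul_ne_zero (mul_ne_zero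
    (mul_ne_zero (xs_ne a1) (xs_ne a2)) (xs_ne a3)) (xs_ne a4)) (xs_ne a5)))
    (mul_ne_zero (pow_ne_zero _ n10) (xs_ne b1))) (alp_ne n20 b2 b3)

lemma Um_ne {z : C3} (hz : z ∈ Reg) : Um z ≠ 0 := by
  obtain ⟨⟨n01, n02, n12, n10, n20, n21⟩, ⟨a1, a2, a3, a4, a5⟩, ⟨b1, b2, b3, b4, b5⟩, -⟩ := nz hz
  exact mul_ne_zero (mul_ne_zero (mul_ne_zero (dc0_ne hz) (mul_ne_zero (mul_ne_zero (mul_ne_zero
    (mul_ne_zero (ys_ne a1) (ys_ne a2)) (ys_ne a3)) (ys_ne a4)) (ys_ne a5)))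
    (mul_ne_zero (pow_ne_zero _ n01) (ys_ne b1))) (alp_ne n02 b3 b2)

lemma U3_ne {z : C3} (hz : z ∈ Reg) : U3 z ≠ 0 := by
  obtain ⟨⟨n01, n02, n12, n10, n20, n21⟩, -, ⟨b1, b2, b3, b4, b5⟩, ⟨a1, a2, a3, a4, a5⟩⟩ := nz hz
  exact mul_ne_zero (mul_ne_zero (mul_ne_zero (dc2_ne hz) (mul_ne_zero (mul_ne_zero (mul_ne_zero
    (mul_ne_zero (xs_ne a1) (xs_ne a2)) (xs_ne a3)) (xs_ne a4)) (xs_ne a5)))
    (alp_ne n02 b3 b2)) (alp_ne n12 b4 b5)

lemma continuousOn_Up : ContinuousOn Up Reg :=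
  (((continuous_dc 0).continuousOn.mul (((((continuousOn_xs (by fun_prop)).mul
    (continuousOn_xs (by fun_prop))).mul (continuousOn_xs (by fun_prop))).mul
    (continuousOn_xs (by fun_prop))).mul (continuousOn_xs (by fun_prop)))).mul
    (((by fun_prop : Continuous fun z : C3 => (z 1 - z 0) ^ 5).continuousOn).mul
      (continuousOn_xs (by fun_prop)))).mul
    (continuousOn_alp 2 0 fun _ hz => (nz hz).2.2.1.2.1)

lemma continuousOn_Um : ContinuousOn Um Reg :=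
  (((continuous_dc 0).continuousOn.mul
    (((((continuousOn_ys (by fun_prop) fun _ hz => (nz hz).2.1.1).mul
    (continuousOn_ys (by fun_prop) fun _ hz => (nz hz).2.1.2.1)).mul
    (continuousOn_ys (by fun_prop) fun _ hz => (nz hz).2.1.2.2.1)).mul
    (continuousOn_ys (by fun_prop) fun _ hz => (nz hz).2.1.2.2.2.1)).mul
    (continuousOn_ys (by fun_prop) fun _ hz => (nz hz).2.1.2.2.2.2))).mul
    (((by fun_prop : Continuous fun z : C3 => (z 0 - z 1) ^ 5).continuousOn).mul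
      (continuousOn_ys (by fun_prop) fun _ hz => (nz hz).2.2.1.1))).mul
    (continuousOn_alp 0 2 fun _ hz => (nz hz).2.2.1.2.2.1)

lemma continuousOn_U3 : ContinuousOn U3 Reg :=
  (((continuous_dc 2).continuousOn.mul (((((continuousOn_xs (by fun_prop)).mul
    (continuousOn_xs (by fun_prop))).mul (continuousOn_xs (by fun_prop))).mul
    (continuousOn_xs (by fun_prop))).mul (continuousOn_xs (by fun_prop)))).mul
    (continuousOn_alp 0 2 fun _ hz => (nz hz).2.2.1.2.2.1)).mul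
    (continuousOn_alp 1 2 fun _ hz => (nz hz).2.2.1.2.2.2.1)

lemma Up_mul_Um (z : C3) :
    4 * (Up z * Um z * ((z 0 + 1) * (z 1 - z 0 - 2))) + disc (esym z) ^ 2 * mas (z 0) *
      cub (esym z) (z 0 - 2) * cub (esym z) (z 0 + 2) * cub' (esym z) (z 0) ^ 12 = 0 := by
  have h : Up z * Um z = dc 0 z ^ 2 * ((xs (z 0 + 10) * ys (z 0 + 10)) *
      (xs (z 0 + 8) * ys (z 0 + 8)) * (xs (z 0 - 1) * ys (z 0 - 1)) *
      (xs (z 0 - 8) * ys (z 0 - 8)) * (xs (z 0 - 10) * ys (z 0 - 10))) *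
      ((z 1 - z 0) ^ 5 * (z 0 - z 1) ^ 5 * (xs (z 0 - z 1 - 2) * ys (z 0 - z 1 - 2))) *
      ((z 2 - z 0) ^ 5 * (z 0 - z 2) ^ 5 * (xs (z 2 - z 0 - 2) * ys (z 2 - z 0 - 2)) *
        (xs (z 0 - z 2 - 2) * ys (z 0 - z 2 - 2))) := by
    simp only [Up, Um, alp]
    generalize (z 1 - z 0) ^ 5 = A
    generalize (z 0 - z 1) ^ 5 = B
    generalize (z 2 - z 0) ^ 5 = C
    generalize (z 0 - z 2) ^ 5 = D
    ring
  simp only [xs_mul_ys] at h
  rw [h, dc, cub_esym, cub_esym, cub'_esym0, mas]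
  generalize disc (esym z) = d
  obtain ⟨a, ha⟩ : ∃ a, z 1 = z 0 - a := ⟨z 0 - z 1, by ring⟩
  obtain ⟨b, hb⟩ : ∃ b, z 2 = z 0 - b := ⟨z 0 - z 2, by ring⟩
  rw [ha, hb]
  have e1 : z 0 - a - z 0 = -a := by ring
  have e2 : z 0 - b - z 0 = -b := by ring
  have e3 : z 0 - 2 - z 0 = -2 := by ring
  have e4 : z 0 + 2 - z 0 = 2 := by ring
  have e5 : z 0 - 2 - (z 0 - a) = a - 2 := by ring
  have e6 : z 0 - 2 - (z 0 - b) = b - 2 := by ring
  have e7 : z 0 + 2 - (z 0 - a) = a + 2 := by ring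
  have e8 : z 0 + 2 - (z 0 - b) = b + 2 := by ring
  simp only [sub_sub_cancel, e1, e2, e3, e4, e5, e6, e7, e8]
  generalize z 0 + 10 = m1
  generalize z 0 + 8 = m2
  generalize z 0 + 1 = m3
  generalize z 0 - 1 = m4
  generalize z 0 - 8 = m5
  generalize z 0 - 10 = m6
  ring

end RootAux

end Pool.Agent.P.MP_f9c8fc_ag
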