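import Pool.Agent.P.MP_f9c8fc_ag.Gau
import Pool.Agent.P.MP_f9c8fc_ag.RootA

/-! The family of points of the Calogero-Moser space. -/

open Set Filter Topology

namespace Pool.Agent.P.MP_f9c8fc_ag

open RootAux

lemma xs_zero : xs 0 = 0 := by simp [xs]

lemma ys_zero : ys 0 = 0 := by simp [ys]

lemma continuous_ys : Continuous ys := by
  rw [continuous_iff_continuousAt]
  intro u
  by_cases h : u = 0
  · subst h
    rw [ContinuousAt, ys_zero, tendsto_zero_iff_norm_tendsto_zero]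
    have : ∀ u : ℂ, ‖ys u‖ = √‖u‖ := fun u => by
      rw [ys, norm_div, Complex.norm_real, Real.norm_of_nonneg (Real.sqrt_nonneg _),
        Real.div_sqrt]
    simp only [this]
    have := (Real.continuous_sqrt.comp (continuous_norm (E := ℂ))).tendsto 0
    simpa [Function.comp_def] using this
  · exact continuousAt_id.div continuous_xs.continuousAt (xs_ne h)

lemma Par.ne {p : C3 × C3} (hp : p ∈ Par) (i : Fin 3) : p.1 i ≠ 0 := fun h => by
  have := hp.1 i
  rw [h, norm_zero] at this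
  exact zero_ne_one this

/-- The module attached to a parameter. -/
noncomputable def fam (p : Par) : Dat ℂ where
  z := p.1.2
  X l := (if l.2 = 0 then p.1.1 l.1 else 1) * xs (p.1.2 l.1 - ms l.2.val)
  Y l := (if l.2 = 0 then (p.1.1 l.1)⁻¹ else 1) * ys (p.1.2 l.1 - ms l.2.val)
  al a b := ys (p.1.2 a - p.1.2 b - 2) * xs (p.1.2 b - p.1.2 a - 2)
  di a b := (p.1.2 a - p.1.2 b)⁻¹
  hd _ _ h := inv_mul_cancel₀ (sub_ne_zero.2 (p.2.2.ne h))
  hXY l := by
    rw [mul_mul_mul_comm, xs_mul_ys]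
    split_ifs
    · rw [mul_inv_cancel₀ (Par.ne p.2 _), one_mul]; rfl
    · rw [one_mul, one_mul]; rfl
  hal a b _ := by
    linear_combination xs (p.1.2 b - p.1.2 a - 2) * ys (p.1.2 b - p.1.2 a - 2) *
      xs_mul_ys (p.1.2 a - p.1.2 b - 2) + (p.1.2 a - p.1.2 b - 2) * xs_mul_ys (p.1.2 b - p.1.2 a - 2)

/-- A function on the parameter space vanishing off two hyperplanes vanishes. -/
lemma dense_aux {f : Par → ℂ} (hf : Continuous f) {a b : Fin 3} (hab : a ≠ b)
    (h : ∀ p : Par, p.1.2 a - p.1.2 b - 2 ≠ 0 → p.1.2 b - p.1.2 a - 2 ≠ 0 → f p = 0) (p : Par) :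
    f p = 0 := by
  let γ : ℂ → C3 × C3 := fun ε => (p.1.1, p.1.2 + Pi.single a ε)
  have hγ : Continuous γ := continuous_const.prodMk
    (continuous_const.add (continuous_single (A := fun _ => ℂ) a))
  have hU : IsOpen {z : C3 | Function.Injective z} := by
    have : {z : C3 | Function.Injective z} = ⋂ i, ⋂ j, ⋂ _ : i ≠ j, {z : C3 | z i ≠ z j} := by
      ext z
      simp only [mem_ofPred_eq, mem_iInter]
      exact ⟨fun h i j e => h.ne e, fun h i j e => by_contra fun e' => h i j e' e⟩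
    rw [this]
    exact isOpen_iInter_of_finite fun i => isOpen_iInter_of_finite fun j =>
      isOpen_iInter_of_finite fun _ => isOpen_ne_fun (continuous_apply i) (continuous_apply j)
  let U : Set ℂ := γ ⁻¹' Par
  have hU' : IsOpen U := by
    have : U = (fun ε => (γ ε).2) ⁻¹' {z : C3 | Function.Injective z} := by
      ext ε; exact ⟨fun h => h.2, fun h => ⟨p.2.1, h⟩⟩
    rw [this]
    exact hU.preimage hγ.snd
  let g : U → ℂ := fun ε => f ⟨γ ε, ε.2⟩
  have hg : Continuous g := hf.comp ((hγ.comp continuous_subtype_val).subtype_mk _)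
  have hd : Dense ({-(p.1.2 a - p.1.2 b - 2), p.1.2 b - p.1.2 a - 2} : Set ℂ)ᶜ :=
    (toFinite _).countable.dense_compl ℂ
  have h0 : (0 : ℂ) ∈ U := by simp [U, γ, p.2]
  have := congrFun (hg.ext_on (hd.preimage hU'.isOpenMap_subtype_val) continuous_zero
    fun ε hε => h _ ?_ ?_) ⟨0, h0⟩
  · simpa [g, γ] using this
  all_goals
    simp only [mem_preimage, mem_compl_iff, mem_insert_iff, mem_singleton_iff, not_or] at hε
    simp only [γ, Pi.add_apply, Pi.single_eq_same, Pi.single_eq_of_ne hab.symm]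
  · exact fun e => hε.1 (by linear_combination e)
  · exact fun e => hε.2 (by linear_combination -e)

variable {H B : Type} [Ring H] [Algebra ℂ H] [CommRing B] [Algebra ℂ B]

namespace Ctx
variable (C : Ctx H B)

lemma fam_cont (u : Ix) (h : Subalgebra.center ℂ H) : Continuous fun p => C.lam (fam p) u h := by
  have hz : ∀ i, Continuous fun p : Par => p.1.2 i := fun i => by fun_prop
  have ht : ∀ i, Continuous fun p : Par => p.1.1 i := fun i => by fun_prop
  refine C.lam_cont fam hz (fun l => ?_) (fun l => ?_) (fun a b _ => ?_) u h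
  · refine Continuous.mul ?_ (continuous_xs.comp ((hz _).sub continuous_const))
    split_ifs
    exacts [ht _, continuous_const]
  · refine Continuous.mul ?_ (continuous_ys.comp ((hz _).sub continuous_const))
    split_ifs
    exacts [(ht _).inv₀ fun p => Par.ne p.2 _, continuous_const]
  · exact (continuous_ys.comp (((hz _).sub (hz _)).sub continuous_const)).mul
      (continuous_xs.comp (((hz _).sub (hz _)).sub continuous_const))

lemma cr_ne (p : Par) {l l' : Lt} (h : l.1 ≠ l'.1) (h1 : p.1.2 l.1 - p.1.2 l'.1 - 2 ≠ 0)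
    (h2 : p.1.2 l'.1 - p.1.2 l.1 - 2 ≠ 0) : (fam p).cr l l' ≠ 0 := by
  unfold Dat.cr
  split_ifs
  exacts [mul_ne_zero (ys_ne h1) (xs_ne h2), sub_ne_zero.2 (p.2.2.ne h)]

lemma fam_sw1 (p : Par) (u : Ix) : C.lam (fam p) u.sw1 = C.lam (fam p) u := by
  ext h
  refine sub_eq_zero.1 (dense_aux ((C.fam_cont u.sw1 h).sub (C.fam_cont u h)) u.hab
    (fun p h1 h2 => sub_eq_zero.2 (mul_left_cancel₀ (cr_ne p u.hab h1 h2) ?_)) p)
  rw [C.lam_sw1, mul_comm]

lemma fam_sw2 (p : Par) (u : Ix) : C.lam (fam p) u.sw2 = C.lam (fam p) u := by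
  ext h
  refine sub_eq_zero.1 (dense_aux ((C.fam_cont u.sw2 h).sub (C.fam_cont u h)) u.hbc
    (fun p h1 h2 => sub_eq_zero.2 (mul_left_cancel₀ (cr_ne p u.hbc h1 h2) ?_)) p)
  rw [C.lam_sw2, mul_comm]

instance : DecidableEq Ix := fun u v => decidable_of_iff (u.a = v.a ∧ u.b = v.b ∧ u.c = v.c)
  Ix.ext_iff.symm

lemma rel_u0 : ∀ π : Equiv.Perm (Fin 3), u0.rel π = u0 ∨ u0.rel π = u0.sw1 ∨ u0.rel π = u0.sw2 ∨
    u0.rel π = u0.sw1.sw2 ∨ u0.rel π = u0.sw2.sw1 ∨ u0.rel π = u0.sw1.sw2.sw1 := by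
  decide +kernel

lemma fam_rel (p : Par) (π : Equiv.Perm (Fin 3)) :
    C.lam (fam p) (u0.rel π) = C.lam (fam p) u0 := by
  rcases rel_u0 π with h | h | h | h | h | h <;> simp only [h, fam_sw1, fam_sw2]

lemma cut : ∀ c0 c : ZMod 6, c + 1 ≠ c0 →
    (c + 1 = 0 → c0.val ≤ c.val ∧ ¬ c0.val ≤ (c + 1).val) ∧
    (c + 1 ≠ 0 → (c0.val ≤ (c + 1).val ↔ c0.val ≤ c.val)) := by decide

lemma mass_ms {w : ℂ} (h : w ∈ masses) : ∃ c : ZMod 6, w = ms c.val := by
  simp only [masses, mem_insert_iff, mem_singleton_iff] at h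
  rcases h with h | h | h | h | h | h
  exacts [⟨1, h⟩, ⟨4, h⟩, ⟨3, h⟩, ⟨0, h⟩, ⟨5, h⟩, ⟨2, h⟩]

/-- Rescaling the torus coordinate of a particle sitting at a mass. -/
lemma gauge_mass {D D' : Dat ℂ} (i : Fin 3) (c0 : ZMod 6) {θ : ℂ} (hθ : θ ≠ 0) (hz : D.z = D'.z)
    (ha : D.al = D'.al) (hX : ∀ l, l ≠ (i, 0) → D.X l = D'.X l)
    (hY : ∀ l, l ≠ (i, 0) → D.Y l = D'.Y l) (X0 : D.X (i, c0) = 0) (Y0 : D.Y (i, c0) = 0)
    (X1 : θ * D.X (i, 0) = D'.X (i, 0)) (Y1 : D.Y (i, 0) = θ * D'.Y (i, 0)) (u : Ix) :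
    C.lam D u = C.lam D' u := by
  have X0' : D'.X (i, c0) = 0 := by
    by_cases e : c0 = 0
    · subst e; rw [← X1, X0, mul_zero]
    · rw [← hX _ (by simp [e]), X0]
  have Y0' : D'.Y (i, c0) = 0 := by
    by_cases e : c0 = 0
    · subst e; rw [Y0] at Y1; exact (mul_eq_zero.1 Y1.symm).resolve_left hθ
    · rw [← hY _ (by simp [e]), Y0]
  refine C.gauge1 i (fun c => if c0.val ≤ c.val then θ else 1)
    (fun c => by split_ifs; exacts [hθ.isUnit, isUnit_one]) hz ha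
    (fun p c e => hX _ (by simp [e])) (fun p c e => hY _ (by simp [e])) (fun c => ?_) (fun c => ?_) u
  · by_cases e : c + 1 = c0
    · simp [e, X0, X0']
    by_cases e' : c + 1 = 0
    · rw [if_pos ((cut _ _ e).1 e').1, if_neg ((cut _ _ e).1 e').2, e', X1, mul_one]
    · simp only [(cut _ _ e).2 e']
      rw [hX _ (by simp [e']), mul_comm]
  · obtain ⟨c, rfl⟩ : ∃ d, c = d + 1 := ⟨c - 1, by ring⟩
    rw [add_sub_cancel_right]
    by_cases e : c + 1 = c0
    · simp [e, Y0, Y0']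
    by_cases e' : c + 1 = 0
    · rw [if_pos ((cut _ _ e).1 e').1, if_neg ((cut _ _ e).1 e').2, e', Y1, one_mul, mul_comm]
    · simp only [(cut _ _ e).2 e']
      rw [hY _ (by simp [e']), mul_comm]

lemma cprod_X (p : Par) (i : Fin 3) : cprod (fam p).X i = p.1.1 i * mprod xs (p.1.2 i) := by
  show (p.1.1 i * xs (_ - 1)) * (1 * xs (_ - -10)) * (1 * xs (_ - 10)) * (1 * xs (_ - -1)) *
    (1 * xs (_ - -8)) * (1 * xs (_ - 8)) = _
  simp only [mprod, sub_neg_eq_add]; ring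

lemma cprod_Y (p : Par) (i : Fin 3) : cprod (fam p).Y i = (p.1.1 i)⁻¹ * mprod ys (p.1.2 i) := by
  show ((p.1.1 i)⁻¹ * ys (_ - 1)) * (1 * ys (_ - -10)) * (1 * ys (_ - 10)) * (1 * ys (_ - -1)) *
    (1 * ys (_ - -8)) * (1 * ys (_ - 8)) = _
  simp only [mprod, sub_neg_eq_add]; ring

lemma base_mem : ((fun _ => 1, fun i => (i : ℕ)) : C3 × C3) ∈ Par :=
  ⟨fun _ => norm_one, fun _ _ h => Fin.ext (Nat.cast_injective (R := ℂ) h)⟩

open Classical in
noncomputable def Psi (p : C3 × C3) : Pts (Subalgebra.center ℂ H) :=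
  C.lam (fam (if h : p ∈ Par then ⟨p, h⟩ else ⟨_, base_mem⟩)) u0

lemma Psi_eq {p : C3 × C3} (h : p ∈ Par) : C.Psi p = C.lam (fam ⟨p, h⟩) u0 := by
  rw [Psi, dif_pos h]

/-- The algebraic data. -/
noncomputable def algData : AlgData (Subalgebra.center ℂ H) where
  Ψ := C.Psi
  cont := by
    rw [continuousOn_iff_continuous_domRestrict]
    refine continuous_induced_rng.2 (continuous_pi fun h => (C.fam_cont u0 h).congr fun p => ?_)
    show _ = (show _ →ₐ[ℂ] ℂ from C.Psi p) h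
    rw [C.Psi_eq p.2]
  P1 t t' z h h' i hi e := by
    obtain ⟨c0, hc⟩ := mass_ms hi
    have h1 := Par.ne h i
    have h2 := Par.ne h' i
    rw [C.Psi_eq h, C.Psi_eq h']
    refine C.gauge_mass (D := fam ⟨_, h⟩) (D' := fam ⟨_, h'⟩) i c0 (div_ne_zero h2 h1) rfl rfl (fun l hl => ?_) (fun l hl => ?_)
      ?_ ?_ ?_ ?_ u0
    · by_cases e' : l.2 = 0
      · simp [fam, e', e l.1 fun e'' => hl (Prod.ext e'' e')]
      · simp [fam, e']
    · by_cases e' : l.2 = 0
      · simp [fam, e', e l.1 fun e'' => hl (Prod.ext e'' e')]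
      · simp [fam, e']
    · simp [fam, hc, xs_zero]
    · simp [fam, hc, ys_zero]
    · simp only [fam, if_true] at h1 ⊢; field_simp
    · simp only [fam, if_true] at h1 h2 ⊢; field_simp
  P2 t t' z h h' hz e2 e := by
    have h0 := Par.ne h 0
    have h0' := Par.ne h' 0
    have h1 := Par.ne h 1
    have h1' := Par.ne h' 1
    have k : ∀ l : Lt, l ≠ (0, 0) → l ≠ (1, 0) → l.2 = 0 → t l.1 = t' l.1 := by
      rintro ⟨a, c⟩ k1 k2 rfl
      fin_cases a
      exacts [(k1 rfl).elim, (k2 rfl).elim, e2]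
    rw [C.Psi_eq h, C.Psi_eq h']
    refine C.gauge2 (D := fam ⟨_, h⟩) (D' := fam ⟨_, h'⟩) (t' 1 / t 1) (div_ne_zero h1' h1).isUnit rfl (fun _ _ _ _ => rfl)
      ?_ ?_ (fun l k1 k2 => ?_) (fun l k1 k2 => ?_) ?_ ?_ ?_ ?_ u0
    · simp [fam, hz, xs_zero]
    · simp [fam, hz, ys_zero]
    · by_cases e' : l.2 = 0
      · simp [fam, e', k l k1 k2 e']
      · simp [fam, e']
    · by_cases e' : l.2 = 0
      · simp [fam, e', k l k1 k2 e']
      · simp [fam, e']
    all_goals simp only [fam, if_true] at h0 h0' h1 h1' ⊢; field_simp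
    · linear_combination xs (z 0 - ms (ZMod.val (0 : ZMod 6))) * e
    · linear_combination -ys (z 0 - ms (ZMod.val (0 : ZMod 6))) * e
  P3 π t z h := by
    have h' : (t ∘ π, z ∘ π) ∈ Par := ⟨fun i => h.1 _, h.2.comp π.injective⟩
    rw [C.Psi_eq h, C.Psi_eq h', ← C.fam_rel ⟨_, h⟩ π]
    refine AlgHom.ext fun x => ?_
    exact (C.lam_map (D := fam ⟨_, h⟩) (D' := fam ⟨_, h'⟩) (AlgHom.id ℂ ℂ) π (fun _ => rfl) (fun _ _ => rfl) (fun _ _ => rfl)
      (fun _ _ _ => rfl) u0 x).symm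
  e := C.e
  cp := C.cp
  cm := C.cm
  rel := C.rel
  val_e p hp k := by rw [C.Psi_eq hp]; exact C.val_e _ k
  val_p0 p hp := by
    rw [C.Psi_eq hp]
    refine (C.val_p0 (fam ⟨p, hp⟩)).trans ?_
    rw [cprod_X]; simp only [fam, alp, mul_assoc]
  val_m0 p hp := by
    rw [C.Psi_eq hp]
    refine (C.val_m0 (fam ⟨p, hp⟩)).trans ?_
    rw [cprod_Y]; simp only [fam, alp, mul_assoc]
  val_p2 p hp := by
    rw [C.Psi_eq hp]
    refine (C.val_p2 (fam ⟨p, hp⟩)).trans ?_
    rw [cprod_X]; simp only [fam, alp, mul_assoc]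

end Ctx

end Pool.Agent.P.MP_f9c8fc_ag
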