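import Pool.Agent.P.MP_f9c8fc_ag.Psi

/-! The Calogero-Moser space is singular. -/

open TrivSqZeroExt DualNumber

namespace Pool.Agent.P.MP_f9c8fc_ag

variable {R R' : Type} [CommRing R] [Algebra ℂ R] [CommRing R'] [Algebra ℂ R']

noncomputable def zs : Fin 3 → ℂ := ![-1, 1, 5]

lemma zs_ne : ∀ p q, p ≠ q → zs p - zs q ≠ 0 := by
  intro p q h
  fin_cases p <;> fin_cases q <;> simp [zs] at h ⊢ <;> norm_num

/-- Modules near the singular point. -/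
noncomputable def sd (x y φ ψ t t' : R) (h1 : x * y = 0) (h2 : φ * ψ = 0) (h3 : t * t' = 1) :
    Dat R where
  z p := algebraMap ℂ R (zs p)
  X l := if l = (0, 3) then x else if l = (1, 0) then 0 else if l = (0, 0) then t else 1
  Y l := if l = (0, 3) then y else if l = (1, 0) then 0 else
    (if l = (0, 0) then t' else 1) * algebraMap ℂ R (zs l.1 - ms l.2.val)
  al p q := if (p, q) = (1, 0) then φ else if (p, q) = (0, 1) then ψ else
    algebraMap ℂ R (2 - (zs p - zs q))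
  di p q := algebraMap ℂ R (zs p - zs q)⁻¹
  hd p q h := by rw [← map_sub, ← map_mul, inv_mul_cancel₀ (zs_ne p q h), map_one]
  hXY l := by
    rw [← map_sub]
    split_ifs with e1 e2 e3
    · rw [h1, e1]; exact (map_zero _).symm.trans (congrArg _ (sub_self (-1 : ℂ)).symm)
    · rw [mul_zero, e2]; exact (map_zero _).symm.trans (congrArg _ (sub_self (1 : ℂ)).symm)
    · rw [← mul_assoc, h3, one_mul]
    · rw [one_mul, one_mul]
  hal p q h := by
    rw [← map_sub, ← map_pow, ← map_ofNat (algebraMap ℂ R) 4, ← map_sub]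
    fin_cases p <;> fin_cases q <;> simp [zs, h2, mul_comm ψ, -map_sub, -map_add, -map_pow, ← map_mul]
      at h ⊢ <;> norm_num

variable {H B : Type} [Ring H] [Algebra ℂ H] [CommRing B] [Algebra ℂ B]

namespace Ctx
variable (C : Ctx H B)

lemma sd_map (g : R →ₐ[ℂ] R') {x y φ ψ : R} {x' y' φ' ψ' : R'} (h1 h2 h1' h2') (hx : g x = x')
    (hy : g y = y') (hφ : g φ = φ') (hψ : g ψ = ψ') (h : Subalgebra.center ℂ H) :
    g (C.lam (sd x y φ ψ 1 1 h1 h2 (one_mul 1)) u0 h) =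
      C.lam (sd x' y' φ' ψ' 1 1 h1' h2' (one_mul 1)) u0 h :=
  C.lam_map g 1 (fun _ => g.commutes _) (fun p c => by simp [sd, apply_ite g, hx])
    (fun p c => by simp [sd, apply_ite g, hy]) (fun p q _ => by simp [sd, apply_ite g, hφ, hψ]) u0 h

lemma sd_scale {φ ψ θ : ℂ} (hθ : θ ≠ 0) (h2 h2') :
    C.lam (sd 0 0 φ (θ * ψ) 1 1 (mul_zero 0) h2 (one_mul 1)) u0 =
      C.lam (sd 0 0 (θ * φ) ψ 1 1 (mul_zero 0) h2' (one_mul 1)) u0 := by
  refine (C.gauge2 (D := sd 0 0 φ (θ * ψ) 1 1 (mul_zero 0) h2 (one_mul 1)) (D' := sd 0 0 (θ * φ) ψ θ⁻¹ θ (mul_zero 0) h2' (inv_mul_cancel₀ hθ)) θ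
    hθ.isUnit rfl (fun p q e1 e2 => by simp only [sd, if_neg e1, if_neg e2]) (by simp [sd]) (by simp [sd])
    (fun l e1 e2 => by simp [sd, e1]) (fun l e1 e2 => by simp [sd, e1]) (by simp +decide [sd, hθ])
    (by simp [sd]) (by simp +decide [sd]) (by simp [sd]) u0).trans ?_
  exact C.gauge_mass (D := sd 0 0 (θ * φ) ψ θ⁻¹ θ (mul_zero 0) h2' (inv_mul_cancel₀ hθ))
    (D' := sd 0 0 (θ * φ) ψ 1 1 (mul_zero 0) h2' (one_mul 1)) 0 3 hθ rfl rfl (fun l e => by simp [sd, e]) (fun l e => by simp [sd, e])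
    (by simp [sd]) (by simp [sd]) (by simp +decide [sd, hθ]) (by simp +decide [sd]) u0

lemma sd_cont {φ ψ : ℂ → ℂ} (hφ : Continuous φ) (hψ : Continuous ψ) (h2 : ∀ θ, φ θ * ψ θ = 0)
    (h : Subalgebra.center ℂ H) :
    Continuous fun θ => C.lam (sd 0 0 (φ θ) (ψ θ) 1 1 (mul_zero 0) (h2 θ) (one_mul 1)) u0 h :=
  C.lam_cont (fun θ => sd 0 0 (φ θ) (ψ θ) 1 1 (mul_zero 0) (h2 θ) (one_mul 1))
    (fun _ => continuous_const) (fun _ => continuous_const) (fun _ => continuous_const)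
    (fun p q _ => by
      simp only [sd]
      split_ifs
      exacts [hφ, hψ, continuous_const]) u0 h

lemma sd_base (h : Subalgebra.center ℂ H) :
    C.lam (sd (0 : ℂ) 0 1 0 1 1 (mul_zero 0) (mul_zero 1) (one_mul 1)) u0 h =
      C.lam (sd (0 : ℂ) 0 0 1 1 1 (mul_zero 0) (zero_mul 1) (one_mul 1)) u0 h := by
  have key : ∀ {f : ℂ → ℂ}, Continuous f → (∀ θ, θ ≠ 0 → f θ = f 1) → f 0 = f 1 := fun hf h =>
    congrFun (hf.ext_on (dense_compl_singleton 0) continuous_const h) 0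
  have h1 := key (C.sd_cont (φ := fun θ => θ) (ψ := fun _ => 0) continuous_id continuous_const
    (fun θ => mul_zero _) h) fun θ hθ => by
      have := C.sd_scale (φ := 1) (ψ := 0) hθ (by simp) (by simp)
      simp only [mul_zero, mul_one] at this
      exact (DFunLike.congr_fun this h).symm
  have h2 := key (C.sd_cont (φ := fun _ => 0) (ψ := fun θ => θ) continuous_const continuous_id
    (fun θ => zero_mul _) h) fun θ hθ => by
      have := C.sd_scale (φ := 0) (ψ := 1) hθ (by simp) (by simp)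
      simp only [mul_zero, mul_one] at this
      exact DFunLike.congr_fun this h
  exact h1.symm.trans h2

lemma sd_p {x y φ ψ : R} (h1 h2) :
    quad (fun k => C.lam (sd x y φ ψ 1 1 h1 h2 (one_mul 1)) u0 (C.cp k)) (-1) =
      -27518828544 * (x * φ) := by
  have := C.val_p0 (sd x y φ ψ 1 1 h1 h2 (one_mul 1))
  rw [show (sd x y φ ψ 1 1 h1 h2 (one_mul 1)).z 0 = -1 by simp [sd, zs]] at this
  rw [this, disc_esym]
  simp +decide [sd, zs, cub', esym, cprod, map_ofNat]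
  ring

lemma sd_m {x y φ ψ : R} (h1 h2) :
    quad (fun k => C.lam (sd x y φ ψ 1 1 h1 h2 (one_mul 1)) u0 (C.cm k)) (-1) =
      -686539734515712 * (y * ψ) := by
  have := C.val_m0 (sd x y φ ψ 1 1 h1 h2 (one_mul 1))
  rw [show (sd x y φ ψ 1 1 h1 h2 (one_mul 1)).z 0 = -1 by simp [sd, zs]] at this
  rw [this, disc_esym]
  simp +decide [sd, zs, cub', esym, cprod, map_ofNat, show ms 0 = 1 from rfl,
    show ms (ZMod.val (1 : ZMod 6)) = -10 from rfl, show ms (ZMod.val (2 : ZMod 6)) = 10 from rfl,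
    show ms (ZMod.val (4 : ZMod 6)) = -8 from rfl, show ms (ZMod.val (5 : ZMod 6)) = 8 from rfl]
  ring

lemma sd_e {x y φ ψ : R} (h1 h2) (k : Fin 3) :
    C.lam (sd x y φ ψ 1 1 h1 h2 (one_mul 1)) u0 (C.e k) = ![5, -1, -5] k := by
  rw [val_e]
  fin_cases k <;> simp [sd, zs, esym, map_ofNat] <;> norm_num

end Ctx

/-- The second projection. -/
noncomputable def pr2 : DualNumber (DualNumber ℂ) →ₐ[ℂ] DualNumber ℂ where
  toFun x := inl x.fst.fst + inr x.snd.fst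
  map_one' := by ext <;> simp
  map_mul' x y := by ext <;> simp [mul_comm]
  map_zero' := by ext <;> simp
  map_add' x y := by ext <;> simp
  commutes' c := by ext <;> simp [algebraMap_eq_inl']

/-- The first projection. -/
noncomputable def pr1 : DualNumber (DualNumber ℂ) →ₐ[ℂ] DualNumber ℂ := fstHom ℂ _ _

lemma mul_zero_of {x y : DualNumber (DualNumber ℂ)} (h1 : pr1 x = 0) (h3 : pr1 y = 0) :
    x * y = 0 := by
  have k1 : x.fst = 0 := h1
  have k3 : y.fst = 0 := h3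
  ext <;> simp [k1, k3]

lemma exists_lift2 {Z A B K : Type} [CommRing Z] [Algebra ℂ Z] [Algebra.FormallySmooth ℂ Z]
    [CommRing A] [Algebra ℂ A] [CommRing B] [Algebra ℂ B] [CommRing K] [Algebra ℂ K]
    (p1 p2 : A →ₐ[ℂ] B) (q : B →ₐ[ℂ] K) (h1 : ∀ x, q (p1 x) = q (p2 x))
    (h2 : ∀ x y, q x = q y → ∃ a, p1 a = x ∧ p2 a = y)
    (hJ : ∀ x y, p1 x = 0 → p2 x = 0 → p1 y = 0 → p2 y = 0 → x * y = 0)
    (f₁ f₂ : Z →ₐ[ℂ] B) (h0 : ∀ x, q (f₁ x) = q (f₂ x)) :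
    ∃ φ : Z →ₐ[ℂ] A, (∀ x, p1 (φ x) = f₁ x) ∧ ∀ x, p2 (φ x) = f₂ x := by
  let F := AlgHom.equalizer (q.comp (AlgHom.fst ℂ B B)) (q.comp (AlgHom.snd ℂ B B))
  let g : A →ₐ[ℂ] F := (p1.prod p2).codRestrict F h1
  have hg : Function.Surjective g := by
    rintro ⟨⟨x, y⟩, h⟩
    obtain ⟨a, ha, ha'⟩ := h2 x y h
    exact ⟨a, Subtype.ext (Prod.ext ha ha')⟩
  have hn : IsNilpotent (RingHom.ker (g : A →+* F)) := ⟨2, by
    rw [Ideal.zero_eq_bot, eq_bot_iff, pow_two, Ideal.mul_le]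
    intro x hx y hy
    exact hJ x y (congrArg (·.1.1) hx) (congrArg (·.1.2) hx) (congrArg (·.1.1) hy)
      (congrArg (·.1.2) hy)⟩
  exact ⟨Algebra.FormallySmooth.liftOfSurjective ((f₁.prod f₂).codRestrict F h0) g hg hn,
    fun x => congrArg (·.1.1) (Algebra.FormallySmooth.liftOfSurjective_apply _ g hg hn x),
    fun x => congrArg (·.1.2) (Algebra.FormallySmooth.liftOfSurjective_apply _ g hg hn x)⟩

lemma rel_aux {R : Type} [CommRing R] {e : Fin 3 → R} {w u v : R} (w3 : 12 * w = e 0 + e 1 + e 2 + 1)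
    (n0 : w * (e 0 - 5) = 0) (n1 : w * (e 1 + 1) = 0) (n2 : w * w = 0)
    (n3 : w * cub e (w - 1 + 2) = 0) : cub e (w - 1) = 0 ∧ (4 * u * v + disc e ^ 2 * mas (w - 1) *
      cub e (w - 1 - 2) * cub e (w - 1 + 2) * cub' e (w - 1) ^ 12 = 0 → 4 * (u * v) = 0) := by
  constructor
  · unfold cub
    linear_combination w3 + 2 * n0 + n1 + (w - 3 - e 0) * n2
  · intro h
    have : mas (w - 1) * cub e (w - 1 + 2) = 0 := by
      unfold mas
      linear_combination (w - 1 + 10) * (w - 1 + 8) * (w - 1 - 1) * (w - 1 - 8) * (w - 1 - 10) * n3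
    generalize mas (w - 1) = m, cub e (w - 1 + 2) = c, cub e (w - 1 - 2) = c',
      cub' e (w - 1) ^ 12 = d, disc e ^ 2 = d' at h this
    linear_combination h - d' * c' * d * this

lemma map_quad {R R' F : Type} [CommRing R] [CommRing R'] [FunLike F R R'] [RingHomClass F R R']
    (f : F) (e : Fin 3 → R) (T : R) : f (quad e T) = quad (f ∘ e) (f T) := by
  simp [quad]

lemma lift_rel {Z A B : Type} [CommRing Z] [Algebra ℂ Z] [CommRing A] [Algebra ℂ A] [CommRing B]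
    [Algebra ℂ B] {e cp cm : Fin 3 → Z} (hr : REL e cp cm) (p1 p2 : A →ₐ[ℂ] B)
    (hJ : ∀ x y, p1 x = 0 → p2 x = 0 → p1 y = 0 → p2 y = 0 → x * y = 0)
    (hu : ∀ x, IsUnit (p1 x) → IsUnit x) (φ : Z →ₐ[ℂ] A)
    (e₁ : ∀ k, p1 (φ (e k)) = ![5, -1, -5] k) (e₂ : ∀ k, p2 (φ (e k)) = ![5, -1, -5] k) :
    ∃ u v : A, u * v = 0 ∧ p1 u = quad (p1 ∘ φ ∘ cp) (-1) ∧ p1 v = quad (p1 ∘ φ ∘ cm) (-1) ∧
      p2 v = quad (p2 ∘ φ ∘ cm) (-1) := by
  have d1 : p1 ∘ φ ∘ e = ![5, -1, -5] := funext e₁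
  have d2 : p2 ∘ φ ∘ e = ![5, -1, -5] := funext e₂
  have un : ∀ (B : Type) [CommRing B] [Algebra ℂ B] (n : ℕ) [n.AtLeastTwo],
      IsUnit (OfNat.ofNat n : B) := fun B _ _ n _ => by
    rw [← map_ofNat (algebraMap ℂ B)]
    exact (IsUnit.mk0 _ (OfNat.ofNat_ne_zero n)).map _
  obtain ⟨w, w3⟩ := (un A 12).exists_right_inv.imp fun r hr => show 12 * (r * (φ (e 0) + φ (e 1) +
    φ (e 2) + 1)) = φ (e 0) + φ (e 1) + φ (e 2) + 1 by rw [← mul_assoc, hr, one_mul]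
  have w1 : p1 (w * (φ (e 0) + φ (e 1) + φ (e 2) + 1)) = 0 := by simp [e₁]
  have w2 : p2 (w * (φ (e 0) + φ (e 1) + φ (e 2) + 1)) = 0 := by simp [e₂]
  generalize w * (φ (e 0) + φ (e 1) + φ (e 2) + 1) = w at w1 w2 w3
  have n0 := hJ w (φ (e 0) - 5) w1 w2 (by simp [e₁, map_ofNat]) (by simp [e₂, map_ofNat])
  have n1 := hJ w (φ (e 1) + 1) w1 w2 (by simp [e₁]) (by simp [e₂])
  have n3 := hJ w (cub (φ ∘ e) (w - 1 + 2)) w1 w2
    (by rw [map_cub, d1]; simp [w1, cub, map_ofNat]; norm_num)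
    (by rw [map_cub, d2]; simp [w2, cub, map_ofNat]; norm_num)
  obtain ⟨r1, r2⟩ := rel_aux (e := φ ∘ e) (u := quad (φ ∘ cp) (w - 1))
    (v := quad (φ ∘ cm) (w - 1)) w3 n0 n1 (hJ _ _ w1 w2 w1 w2) n3
  have hu' : IsUnit (disc (φ ∘ e)) := hu _ (by
    rw [map_disc, d1, show disc (![5, -1, -5] : Fin 3 → B) = 2304 by simp [disc]; norm_num]
    exact un B 2304)
  refine ⟨_, _, (un A 4).mul_right_eq_zero.1 (r2 (hr _ φ (w - 1) hu' r1)), ?_, ?_, ?_⟩ <;>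
  simp only [map_quad, map_sub, w1, w2, map_one, zero_sub]

theorem not_smooth {Z : Type} [CommRing Z] [Algebra ℂ Z] {e cp cm : Fin 3 → Z} (hr : REL e cp cm)
    (f₁ f₂ : Z →ₐ[ℂ] DualNumber ℂ) (h0 : ∀ x, (f₁ x).fst = (f₂ x).fst)
    (e₁ : ∀ k, f₁ (e k) = ![5, -1, -5] k) (e₂ : ∀ k, f₂ (e k) = ![5, -1, -5] k) {a b : ℂ}
    (ha : a ≠ 0) (hb : b ≠ 0) (p₁ : quad (f₁ ∘ cp) (-1) = inr a)
    (m₁ : quad (f₁ ∘ cm) (-1) = 0) (m₂ : quad (f₂ ∘ cm) (-1) = inr b) :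
    ¬ Algebra.FormallySmooth ℂ Z := by
  intro hs
  obtain ⟨φ, k1, k2⟩ := exists_lift2 (A := ℂ[ε][ε]) (B := ℂ[ε]) (K := ℂ) pr1 pr2 (fstHom ℂ ℂ ℂ)
    (fun x => by simp [pr1, pr2])
    (fun x y h => ⟨inl x + inr (inl y.snd), by simp [pr1], by
      have : x.fst = y.fst := h
      ext <;> simp [pr2, this]⟩) (fun _ _ h1 _ h3 _ => mul_zero_of h1 h3) f₁ f₂ h0
  have c1 : ∀ c : Fin 3 → Z, pr1 ∘ φ ∘ c = f₁ ∘ c := fun c => funext fun k => k1 _
  have c2 : ∀ c : Fin 3 → Z, pr2 ∘ φ ∘ c = f₂ ∘ c := fun c => funext fun k => k2 _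
  obtain ⟨u, v, h, u1, v1, v2⟩ := lift_rel (A := ℂ[ε][ε]) (B := ℂ[ε]) hr pr1 pr2
    (fun _ _ h1 _ h3 _ => mul_zero_of h1 h3)
    (fun x hx => isUnit_iff_isUnit_fst.2 hx) φ (fun k => (k1 _).trans (e₁ k))
    (fun k => (k2 _).trans (e₂ k))
  rw [c1, p₁] at u1
  rw [c1, m₁] at v1
  rw [c2, m₂] at v2
  have u1' : u.fst = inr a := u1
  have v1' : v.fst = 0 := v1
  have v2' : v.snd.fst = b := by simpa [pr2] using congrArg TrivSqZeroExt.snd v2
  have := congrArg (fun x => x.snd.snd) h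
  simp [u1', v1', v2', ha, hb] at this

theorem Ctx.sing (C : Ctx H B) : ¬ Algebra.FormallySmooth ℂ (Subalgebra.center ℂ H) := by
  have h1 := fun x => C.sd_map (fstHom ℂ ℂ ℂ) (x := ε) (y := 0) (φ := 1) (ψ := 0) (mul_zero _)
    (mul_zero _) (mul_zero 0) (mul_zero 1) fst_eps (map_zero _) (map_one _) (map_zero _) x
  have h2 := fun x => C.sd_map (fstHom ℂ ℂ ℂ) (x := 0) (y := ε) (φ := 0) (ψ := 1) (zero_mul _)
    (zero_mul _) (mul_zero 0) (zero_mul 1) (map_zero _) fst_eps (map_zero _) (map_one _) x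
  refine not_smooth C.rel (C.lam (sd ε 0 1 0 1 1 (mul_zero _) (mul_zero _) (one_mul 1)) u0)
    (C.lam (sd 0 ε 0 1 1 1 (zero_mul _) (zero_mul _) (one_mul 1)) u0)
    (fun x => (h1 x).trans ((C.sd_base x).trans (h2 x).symm))
    (C.sd_e _ _) (C.sd_e _ _) (a := -27518828544)
    (b := -686539734515712) (by norm_num) (by norm_num)
    ((C.sd_p _ _).trans ?_) ((C.sd_m _ _).trans (by simp)) ((C.sd_m _ _).trans ?_)
  · rw [← map_ofNat (algebraMap ℂ ℂ[ε])]; ext <;> simp [algebraMap_eq_inl]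
  · rw [← map_ofNat (algebraMap ℂ ℂ[ε])]; ext <;> simp [algebraMap_eq_inl]

end Pool.Agent.P.MP_f9c8fc_ag
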