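import Pool.Agent.P.MP_f9c8fc_ag.TS

/-! From the presentation to intertwiners and back. -/

namespace Pool.Agent.P.MP_f9c8fc_ag

variable {B E : Type} [CommRing B] [Algebra ℂ B] [Ring E] [Algebra ℂ E]

section aux
variable {j : B →ₐ[ℂ] E} {δ1 δ2 δ3 p1 p2 p3 δ p δ' p' d d' : B} {s1 s2 a b s s' w a' : E}

lemma braid_diff (ha : a = j δ1 * s1 - j p1) (hb : b = j δ2 * s2 - j p2) (h1 : s1 * s1 = 1)
    (h2 : s2 * s2 = 1) (a1 : Cj j a δ2 δ3) (a2 : Cj j a δ3 δ2) (a3 : Cj j a p2 p3)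
    (a4 : Cj j a p3 p2) (b1 : Cj j b δ1 δ3) (b2 : Cj j b δ3 δ1) (b3 : Cj j b p1 p3)
    (b4 : Cj j b p3 p1) (hδ : δ3 = δ1 + δ2) (e1 : p1 * p2 = p1 * p3) (e2 : p1 * p2 = p2 * p3) :
    a * b * a - b * a * b = j (δ1 * δ2 * δ3) * (s1 * s2 * s1 - s2 * s1 * s2) := by
  have hab : a * b = j δ3 * (a * s2) - j p3 * a := by
    conv_lhs => rw [hb, mul_sub, a1.left, a3]
  have hba : b * a = j δ3 * (b * s1) - j p3 * b := by
    conv_lhs => rw [ha, mul_sub, b1.left, b3]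
  have haba : a * b * a = j δ2 * (a * b * s1) - j p2 * (a * b) := by
    conv_lhs => rw [show a * b * a = a * b * (j δ1 * s1 - j p1) by rw [← ha], mul_sub,
      (a2.comp b1).left, a4.comp b3]
  have hbab : b * a * b = j δ1 * (b * a * s2) - j p1 * (b * a) := by
    conv_lhs => rw [show b * a * b = b * a * (j δ2 * s2 - j p2) by rw [← hb], mul_sub,
      (b2.comp a1).left, b4.comp a3]
  letI : Module B E := Module.compHom E (j : B →+* E)
  have sm : ∀ (f : B) (x : E), j f * x = f • x := fun _ _ => rfl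
  have sm1 : ∀ f : B, j f = f • (1 : E) := fun f => (mul_one _).symm
  rw [haba, hbab, hab, hba, ha, hb]
  simp only [sub_mul, mul_assoc, h1, h2, mul_one]
  simp only [sm]
  simp only [sm1]
  subst hδ
  match_scalars <;> grind

lemma sq_lk (ha : a = j δ * s - j p) (a1 : Cj j a δ (-δ)) (a2 : Cj j a p p) :
    a * a = j (p ^ 2) - j (δ ^ 2) * (s * s) := by
  conv_lhs => rw [show a * a = a * (j δ * s - j p) by rw [← ha], mul_sub, a1.left, a2, ha]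
  simp only [sq, map_mul, map_neg, mul_sub, sub_mul, mul_assoc, neg_mul, (Cj.self δ p).left]
  abel

lemma lk_semi (h : w * s = s' * w) (h1 : Cj j w δ δ') (h2 : Cj j w p p') :
    w * (j δ * s - j p) = (j δ' * s' - j p') * w := by
  rw [mul_sub, h1.left, h, h2, sub_mul, mul_assoc]

lemma lk_semi' (h : w * a = a' * w) (h1 : Cj j w d d') (h2 : Cj j w p p') :
    w * (j d * (a + j p)) = j d' * (a' + j p') * w := by
  rw [h1.left, mul_add, h, h2, mul_assoc, add_mul]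

lemma Cj.inv (h : Cj j w δ δ') (h1 : d * δ = 1) (h2 : d' * δ' = 1) : Cj j w d d' := by
  calc w * j d = j (d' * δ') * w * j d := by rw [h2, map_one, one_mul]
    _ = j d' * (w * j (d * δ)) := by
      rw [map_mul, mul_assoc (j d'), ← h, mul_comm d, map_mul]; simp only [mul_assoc]
    _ = _ := by rw [h1, map_one, mul_one]

lemma Cj.addl {f f' : B} (h : Cj j w f f') (h' : Cj j a f f') : Cj j (w + a) f f' := by
  unfold Cj at *; rw [add_mul, mul_add, h, h']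

lemma Cj.subl {f f' : B} (h : Cj j w f f') (h' : Cj j a f f') : Cj j (w - a) f f' := by
  unfold Cj at *; rw [sub_mul, mul_sub, h, h']

lemma Cj.ofB {f f' g : B} (h : g * f = g * f') : Cj j (j g) f f' := by
  rw [Cj, ← map_mul, ← map_mul, h, mul_comm]

lemma lk_z {x y : B} (h : s * j x = j y * s + j (p * d)) (e : (x - y) * p = δ * p * d) :
    Cj j (j δ * s - j p) x y := by
  rw [Cj, sub_mul, mul_assoc, h, mul_add, mul_sub, (Cj.self y δ).left, add_sub_assoc,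
    sub_eq_add_neg (j y * _), ← map_mul, ← map_mul, ← map_mul, ← map_sub, ← map_neg]
  congr 2
  linear_combination -e

end aux

/-- The sum over the reflections attached to a pair. -/
noncomputable def pp {A : Type} [Ring A] [Algebra ℂ A] (x y : A) : A := kap • pi6 x y

lemma pp_comm (x y : B) : pp x y = pp y x := by rw [pp, pp, pi6_comm]

lemma pp_smul (x y : B) : pp (ze • x) (ze • y) = pp x y := by rw [pp, pp, pi6_smul]

lemma pp_mul {x y : B} (hx : x ^ 6 = 1) (hy : y ^ 6 = 1) : pp x y * x = pp x y * y := by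
  simp only [pp, smul_mul_assoc, pi6_mul hx hy]

lemma pp_pp {x y : B} (hx : x ^ 6 = 1) (hy : y ^ 6 = 1) (w : B) :
    pp x y * pp x w = pp x y * pp y w := by
  simp only [pp, smul_mul_assoc, mul_smul_comm, pi6_pi6 hx hy]

lemma pp_Pp {x y : B} (hx : x ^ 6 = 1) (hy : y ^ 6 = 1) : pp x y * Pp x = pp x y * Pp y := by
  simp only [pp, smul_mul_assoc, pi6_Pp hx hy]

lemma ze_smul_six {x : B} (hx : x ^ 6 = 1) : (ze • x) ^ 6 = 1 := by simpa using smul_six hx 1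

lemma Cj.pp {j : B →ₐ[ℂ] E} {w : E} {f f' g g' : B} (h : Cj j w f f') (h' : Cj j w g g') :
    Cj j w (pp f g) (pp f' g') := (h.pi6 h').smul _

lemma map_pp {A A' : Type} [Ring A] [Algebra ℂ A] [Ring A'] [Algebra ℂ A'] (f : A →ₐ[ℂ] A')
    (x y : A) : f (pp x y) = pp (f x) (f y) := by rw [pp, pp, map_smul, map_pi6]

namespace Sys
variable (S : Sys E)

noncomputable def z1 : E := S.sg * S.ta + Pp (ze • S.t1)
noncomputable def z3 : E := S.ta * S.sg + Pp S.t3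
noncomputable def z2 : E := S.s2 * S.z3 * S.s2 + S.s2 * pp S.t2 S.t3

end Sys

/-- `T` is the system of intertwiners of `S`. -/
structure Link (S : Sys E) (T : TS B E) : Prop where
  z1 : T.j T.z1 = S.z1
  z2 : T.j T.z2 = S.z2
  z3 : T.j T.z3 = S.z3
  t1 : T.j T.t1 = S.t1
  t2 : T.j T.t2 = S.t2
  t3 : T.j T.t3 = S.t3
  a : T.a = T.j (T.z1 - T.z2) * S.s1 - T.j (pp T.t1 T.t2)
  b : T.b = T.j (T.z2 - T.z3) * S.s2 - T.j (pp T.t2 T.t3)
  sg : T.sg = S.sg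
  ta : T.ta = S.ta

namespace TS
variable (T : TS B E) {d1 d2 d3 : B}

lemma aδ : Cj T.j T.a (T.z1 - T.z2) (-(T.z1 - T.z2)) := by rw [neg_sub]; exact T.az1.sub T.az2
lemma bδ : Cj T.j T.b (T.z2 - T.z3) (-(T.z2 - T.z3)) := by rw [neg_sub]; exact T.bz2.sub T.bz3
lemma ap : Cj T.j T.a (pp T.t1 T.t2) (pp T.t1 T.t2) := by
  have := T.at1.pp T.at2; rwa [pp_comm T.t2] at this
lemma bp : Cj T.j T.b (pp T.t2 T.t3) (pp T.t2 T.t3) := by
  have := T.bt2.pp T.bt3; rwa [pp_comm T.t3] at this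
lemma ssp : Cj T.j (T.sg * T.sg) (pp T.t2 T.t3) (pp T.t1 T.t2) := by
  have := (T.st3.pp (T.st1.smul ze)).comp (T.st2.pp T.st3); rwa [pp_smul] at this
lemma tp : Cj T.j T.ta (pp T.t1 T.t2) (pp T.t3 (ze • T.t1)) := by
  have := T.tt1.pp (T.tt2.smul ze); rwa [pp_smul] at this
lemma ttp : Cj T.j (T.ta * T.ta) (pp T.t1 T.t2) (pp T.t2 T.t3) := (T.tt3.pp T.tt1).comp T.tp

lemma braid {s1 s2 : E} (ha : T.a = T.j (T.z1 - T.z2) * s1 - T.j (pp T.t1 T.t2))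
    (hb : T.b = T.j (T.z2 - T.z3) * s2 - T.j (pp T.t2 T.t3)) (h1 : s1 * s1 = 1) (h2 : s2 * s2 = 1) :
    T.j ((T.z1 - T.z2) * (T.z2 - T.z3) * (T.z1 - T.z3)) * (s1 * s2 * s1 - s2 * s1 * s2) = 0 := by
  rw [← braid_diff (p3 := pp T.t1 T.t3) ha hb h1 h2 (T.az2.sub T.az3) (T.az1.sub T.az3)
    (T.at2.pp T.at3) (T.at1.pp T.at3) (T.bz1.sub T.bz2) (T.bz1.sub T.bz3) (T.bt1.pp T.bt2)
    (T.bt1.pp T.bt3) (by ring) (pp_pp T.t1_6 T.t2_6 _).symm ?_, T.br, sub_self]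
  rw [mul_comm, pp_comm T.t1, pp_comm T.t1, pp_pp T.t2_6 T.t3_6]

lemma inv_lk {δ p d : B} {a : E} (h : d * δ = 1) :
    a = T.j δ * (T.j d * (a + T.j p)) - T.j p := by
  rw [← mul_assoc, ← map_mul, mul_comm δ, h, map_one, one_mul, add_sub_cancel_right]

lemma inv_sq {δ p d : B} {a s : E} (h : d * δ = 1) (ha : a = T.j δ * s - T.j p)
    (a1 : Cj T.j a δ (-δ)) (a2 : Cj T.j a p p) (haa : a * a = T.j (p ^ 2 - δ ^ 2)) :
    s * s = 1 := by
  rw [sq_lk ha a1 a2, map_sub, sub_right_inj] at haa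
  have := congrArg (T.j (d ^ 2) * ·) haa
  simpa only [← mul_assoc, ← map_mul, ← mul_pow, h, one_pow, map_one, one_mul] using this

lemma inv_z {p d x y c : B} {a : E} (h : Cj T.j a x y) (e : d * (x - y) = c) :
    T.j d * (a + T.j p) * T.j x = T.j y * (T.j d * (a + T.j p)) + T.j (p * c) := by
  rw [mul_assoc, add_mul, h, mul_add, mul_add, mul_add, (Cj.self y d).left, add_assoc, ← map_mul,
    ← map_mul, ← map_mul, ← map_mul, ← map_add]
  congr 2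
  linear_combination p * e

/-- The presentation attached to a system with invertible differences. -/
theorem exists_sys (h1 : d1 * (T.z1 - T.z2) = 1) (h2 : d2 * (T.z2 - T.z3) = 1)
    (h3 : d3 * (T.z3 - T.z1) = 1) : ∃ S : Sys E, Link S T := by
  obtain ⟨s1, hs1⟩ : ∃ s, s = T.j d1 * (T.a + T.j (pp T.t1 T.t2)) := ⟨_, rfl⟩
  obtain ⟨s2, hs2⟩ : ∃ s, s = T.j d2 * (T.b + T.j (pp T.t2 T.t3)) := ⟨_, rfl⟩
  have ha : T.a = T.j (T.z1 - T.z2) * s1 - T.j (pp T.t1 T.t2) := hs1 ▸ T.inv_lk h1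
  have hb : T.b = T.j (T.z2 - T.z3) * s2 - T.j (pp T.t2 T.t3) := hs2 ▸ T.inv_lk h2
  have q1 : s1 * s1 = 1 := T.inv_sq h1 ha T.aδ T.ap T.aa
  have q2 : s2 * s2 = 1 := T.inv_sq h2 hb T.bδ T.bp T.bb
  have e1 : s1 * T.j T.z2 = T.j T.z1 * s1 + T.j (pp T.t1 T.t2 * -1) :=
    hs1 ▸ T.inv_z T.az2 (by linear_combination -h1)
  have e2 : s2 * T.j T.z3 = T.j T.z2 * s2 + T.j (pp T.t2 T.t3 * -1) :=
    hs2 ▸ T.inv_z T.bz3 (by linear_combination -h2)
  have c1 : Cj T.j s1 (pp T.t1 T.t2) (pp T.t1 T.t2) :=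
    hs1 ▸ (Cj.self _ _).comp (T.ap.addl (Cj.self _ _))
  have c2 : Cj T.j s2 (pp T.t2 T.t3) (pp T.t2 T.t3) :=
    hs2 ▸ (Cj.self _ _).comp (T.bp.addl (Cj.self _ _))
  have f1 : T.sg * T.ta + Pp (ze • T.j T.t1) = T.j T.z1 := by
    rw [T.st, ← map_smul, ← map_Pp, ← map_add, sub_add_cancel]
  have f3 : T.ta * T.sg + Pp (T.j T.t3) = T.j T.z3 := by
    rw [T.ts, ← map_Pp, ← map_add, sub_add_cancel]
  have f2 : s2 * T.j T.z3 * s2 + s2 * pp (T.j T.t2) (T.j T.t3) = T.j T.z2 := by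
    rw [e2, ← map_pp, c2, add_mul, mul_assoc, q2]; simp
  have f2' : s2 * (T.ta * T.sg + Pp (T.j T.t3)) * s2 + s2 * pp (T.j T.t2) (T.j T.t3) = T.j T.z2 := by
    rw [f3, f2]
  have cm : ∀ x y : B, T.j x * T.j y = T.j y * T.j x := fun x y => Cj.self y x
  refine ⟨{
    s1 := s1
    s2 := s2
    t1 := T.j T.t1
    t2 := T.j T.t2
    t3 := T.j T.t3
    sg := T.sg
    ta := T.ta
    s1s1 := q1
    s2s2 := q2
    br := ?_
    t1_6 := by rw [← map_pow, T.t1_6, map_one]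
    t2_6 := by rw [← map_pow, T.t2_6, map_one]
    t3_6 := by rw [← map_pow, T.t3_6, map_one]
    t12 := cm _ _
    t13 := cm _ _
    t23 := cm _ _
    s1t1 := hs1 ▸ (Cj.self _ _).comp (T.at1.addl (Cj.ofB (pp_mul T.t1_6 T.t2_6)))
    s1t3 := hs1 ▸ (Cj.self _ _).comp (T.at3.addl (Cj.self _ _))
    s2t1 := hs2 ▸ (Cj.self _ _).comp (T.bt1.addl (Cj.self _ _))
    s2t2 := hs2 ▸ (Cj.self _ _).comp (T.bt2.addl (Cj.ofB (pp_mul T.t2_6 T.t3_6)))
    sgs1 := hs1 ▸ hs2 ▸ lk_semi' T.sa ((T.sz1.sub T.sz2).inv h1 h2) (T.st1.pp T.st2)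
    sgsg := ?_
    sgt1 := T.st1
    sgt2 := T.st2
    sgt3 := by rw [← map_smul]; exact T.st3
    s1ta := hs1 ▸ hs2 ▸ (lk_semi' T.at'.symm ((T.tz2.sub T.tz3).inv h2 h1) (T.tt2.pp T.tt3)).symm
    tata := ?_
    t1ta := T.tt2.symm
    t2ta := T.tt3.symm
    t3ta := by rw [← map_smul]; exact T.tt1.symm
    mix := ?_
    zz := ?_ }, f1.symm, f2'.symm, f3.symm, rfl, rfl, rfl, ha, hb, rfl, rfl⟩
  · have := congrArg (T.j (-(d1 * d2 * d3)) * ·) (T.braid ha hb q1 q2)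
    simp only [← mul_assoc, ← map_mul, mul_zero] at this
    rwa [show -(d1 * d2 * d3) * (T.z1 - T.z2) * (T.z2 - T.z3) * (T.z1 - T.z3) = 1 by
      linear_combination d2 * (T.z2 - T.z3) * d3 * (T.z3 - T.z1) * h1 + d3 * (T.z3 - T.z1) * h2 + h3,
      map_one, one_mul, sub_eq_zero] at this
  · rw [hs1, hs2, mul_assoc (_ * _) T.sg]
    exact lk_semi' (by rw [T.ssb, mul_assoc])
      (((T.sz3.sub T.sz1).comp (T.sz2.sub T.sz3)).inv h2 h1) T.ssp
  · rw [hs1, hs2, mul_assoc _ T.ta]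
    exact (lk_semi' (by rw [← T.btt, mul_assoc])
      (((T.tz3.sub T.tz1).comp (T.tz1.sub T.tz2)).inv h1 h2) T.ttp).symm
  · rw [hs1, hs2, ((T.tz1.sub T.tz2).inv h1 h3).left, ((T.sz2.sub T.sz3).inv h2 h3).left,
      mul_add, mul_add, mul_add, mul_add, T.tp, T.st2.pp T.st3]
    simp only [add_mul, mul_assoc, T.ts, T.st, ← map_mul]
    rw [← mul_assoc T.ta, T.mix, ← map_smul, ← pp, ← map_pp, mul_assoc, add_assoc, ← map_add]
    congr 2
    rw [pp_comm _ T.t3]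
    linear_combination pp T.t3 (ze • T.t1) * h3 - d3 * pp_Pp T.t3_6 (ze_smul_six T.t1_6)
  · rw [f1, f3, ← mul_smul_comm, ← mul_smul_comm, ← pp, ← pp, f2, e1, ← map_pp, c1, add_mul,
      mul_assoc, q1]
    simp

end TS

namespace Sys
variable (S : Sys E)

lemma sc_pp {w x x' y y' : E} (h : SemiconjBy w x x') (h' : SemiconjBy w y y') :
    w * pp x y = pp x' y' * w := by
  refine SemiconjBy.eq (SemiconjBy.smul_right ?_ _)
  unfold pi6
  apply_rules [SemiconjBy.add_right, SemiconjBy.mul_right, SemiconjBy.pow_right,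
    SemiconjBy.one_right]

lemma sc_Pp {w x x' : E} (h : SemiconjBy w x x') : w * Pp x = Pp x' * w := by
  refine SemiconjBy.eq ?_
  unfold Pp
  apply_rules [SemiconjBy.add_right, SemiconjBy.sub_right, SemiconjBy.pow_right,
    SemiconjBy.smul_right]

lemma pp_swap {x y : E} (h : x * y = y * x) : pp x y = pp y x ∧ pp (ze • x) (ze • y) = pp x y := by
  obtain ⟨B, _, _, j, -, hj⟩ := exists_comm {x, y} (by simp [h])
  obtain ⟨x, rfl⟩ := hj x (by simp)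
  obtain ⟨y, rfl⟩ := hj y (by simp)
  simp only [← map_smul, ← map_pp, pp_smul, pp_comm x, and_self]

lemma flip {s x y : E} (hs : s * s = 1) (h : s * x = y * s) : s * y = x * s := by
  calc s * y = s * y * (s * s) := by rw [hs, mul_one]
    _ = s * s * x * s := by rw [mul_assoc s s, h]; simp only [mul_assoc]
    _ = _ := by rw [hs, one_mul]

lemma s1t2 : S.s1 * S.t2 = S.t1 * S.s1 := flip S.s1s1 S.s1t1
lemma s2t3 : S.s2 * S.t3 = S.t2 * S.s2 := flip S.s2s2 S.s2t2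
lemma s1p : S.s1 * pp S.t1 S.t2 = pp S.t1 S.t2 * S.s1 := by
  rw [sc_pp S.s1t1 S.s1t2, (pp_swap S.t12).1]
lemma s2p : S.s2 * pp S.t2 S.t3 = pp S.t2 S.t3 * S.s2 := by
  rw [sc_pp S.s2t2 S.s2t3, (pp_swap S.t23).1]

lemma s1z1 : S.s1 * S.z1 = S.z2 * S.s1 + pp S.t1 S.t2 := by
  rw [z1, S.zz, ← mul_smul_comm, ← mul_smul_comm, ← pp, ← pp, ← z3, ← z2, mul_add]
  simp only [← mul_assoc, S.s1s1, one_mul]

lemma s2z2 : S.s2 * S.z2 = S.z3 * S.s2 + pp S.t2 S.t3 := by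
  rw [z2, mul_add]; simp only [← mul_assoc, S.s2s2, one_mul]

lemma flip' {s x y p : E} (hs : s * s = 1) (h : s * x = y * s + p) (hp : s * p = p * s) :
    y = s * x * s - p * s ∧ s * y = x * s - p := by
  have e : y = s * x * s - p * s := by rw [h, add_mul, mul_assoc, hs, mul_one, add_sub_cancel_right]
  refine ⟨e, ?_⟩
  rw [e, mul_sub, ← hp]; simp only [← mul_assoc, hs, one_mul]

lemma z2_eq : S.z2 = S.s1 * S.z1 * S.s1 - pp S.t1 S.t2 * S.s1 := (flip' S.s1s1 S.s1z1 S.s1p).1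
lemma s1z2 : S.s1 * S.z2 = S.z1 * S.s1 - pp S.t1 S.t2 := (flip' S.s1s1 S.s1z1 S.s1p).2
lemma s2z3 : S.s2 * S.z3 = S.z2 * S.s2 - pp S.t2 S.t3 := (flip' S.s2s2 S.s2z2 S.s2p).2

lemma s2z1 : S.s2 * S.z1 = S.z1 * S.s2 := by
  rw [z1, mul_add, add_mul, sc_Pp (SemiconjBy.smul_right S.s2t1 ze), ← mul_assoc, ← S.sgs1,
    mul_assoc, S.s1ta, mul_assoc]

lemma s1z3 : S.s1 * S.z3 = S.z3 * S.s1 := by
  rw [z3, mul_add, add_mul, sc_Pp S.s1t3, ← mul_assoc, S.s1ta, mul_assoc, ← S.sgs1, mul_assoc]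

lemma sz3 : S.sg * S.z3 = S.z1 * S.sg := by
  rw [z3, z1, mul_add, add_mul, sc_Pp S.sgt3, mul_assoc]

lemma tz1 : S.ta * S.z1 = S.z3 * S.ta := by
  rw [z3, z1, mul_add, add_mul, sc_Pp S.t3ta.symm, mul_assoc]

lemma z2_eq' : S.z2 = S.s1 * (S.sg * S.ta) * S.s1 + Pp (ze • S.t2) - pp S.t1 S.t2 * S.s1 := by
  rw [z2_eq, z1, mul_add, add_mul, sc_Pp (SemiconjBy.smul_right S.s1t1 ze), mul_assoc (Pp _),
    S.s1s1, mul_one]

lemma sz1 : S.sg * S.z1 = S.z2 * S.sg := by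
  have h : S.s1 * (S.sg * S.ta) * S.s1 * S.sg = S.s1 * S.sg * (S.ta * S.s1 * S.sg) := by
    simp only [mul_assoc]
  rw [z2_eq', sub_mul, add_mul, h, S.mix, ← pp, mul_add, mul_assoc S.s1 S.sg (pp _ _),
    sc_pp (SemiconjBy.smul_right S.sgt1 ze) S.sgt3, (pp_swap S.t12.symm).2, ← (pp_swap S.t12).1,
    z1, mul_add, sc_Pp (SemiconjBy.smul_right S.sgt1 ze)]
  simp only [← mul_assoc, ← S.sgsg, S.s1p]
  rw [mul_assoc _ S.s2 S.s2, S.s2s2, mul_one]; abel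

lemma sz2 : S.sg * S.z2 = S.z3 * S.sg := by
  rw [z2_eq, ← S.s1p, mul_sub]
  simp only [← mul_assoc, S.sgs1]
  rw [mul_assoc S.s2 S.sg, mul_assoc S.s2 S.sg, S.sz1, sc_pp S.sgt1 S.sgt2, ← mul_assoc,
    ← mul_assoc, S.s2z2, mul_assoc _ S.sg, S.sgs1, ← mul_assoc, add_mul, mul_assoc S.z3, S.s2s2,
    S.s2p, add_mul, mul_one, add_sub_cancel_right]

lemma tz2 : S.ta * S.z2 = S.z1 * S.ta := by
  have h : S.ta * (S.s1 * (S.sg * S.ta) * S.s1) = S.ta * S.s1 * S.sg * S.ta * S.s1 := by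
    simp only [mul_assoc]
  have h' : S.sg * S.s2 * S.ta * S.ta * S.s1 = S.sg * (S.s2 * S.ta * S.ta) * S.s1 := by
    simp only [mul_assoc]
  rw [z2_eq', mul_sub, mul_add, h, S.mix, ← pp, add_mul, add_mul, h', S.tata,
    ← sc_pp (SemiconjBy.smul_right S.t1ta.symm ze) S.t3ta.symm, (pp_swap S.t12.symm).2,
    ← (pp_swap S.t12).1, z1, add_mul, sc_Pp (SemiconjBy.smul_right S.t1ta.symm ze)]
  simp only [mul_assoc, S.s1s1, mul_one]
  abel

lemma tz3 : S.ta * S.z3 = S.z2 * S.ta := by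
  rw [z2_eq, sub_mul]
  simp only [mul_assoc, S.s1ta]
  rw [← mul_assoc S.z1, ← S.tz2, ← mul_assoc (pp _ _), ← sc_pp S.t1ta.symm S.t2ta.symm]
  simp only [← mul_assoc, S.s1ta]
  rw [mul_assoc S.ta S.s2, S.s2z2, mul_add, add_mul, mul_assoc, mul_assoc S.z3, S.s2s2, mul_one,
    add_sub_cancel_right]

/-- Elements permuted cyclically by `sg` and `ta` commute with their products. -/
lemma comm_st {x y : E} (h : S.sg * y = x * S.sg) (h' : S.ta * x = y * S.ta) :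
    Commute x (S.sg * S.ta) ∧ Commute y (S.ta * S.sg) :=
  ⟨by rw [Commute, SemiconjBy, ← mul_assoc, ← h, mul_assoc, ← h', mul_assoc],
    by rw [Commute, SemiconjBy, ← mul_assoc, ← h', mul_assoc, ← h, mul_assoc]⟩

lemma comm_Pp {x t : E} (h : Commute x t) : Commute x (Pp t) := sc_Pp h

lemma comm_pp {x t u : E} (h : Commute x t) (h' : Commute x u) : Commute x (pp t u) := sc_pp h h'

lemma unsmul {x y : E} (h : Commute (ze • x) y) : Commute x y := by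
  have := h.smul_left ze⁻¹
  rwa [smul_smul, inv_mul_cancel₀ ze_ne, one_smul] at this

lemma t1z1 : Commute S.t1 S.z1 := (unsmul (S.comm_st S.sgt3 S.t3ta.symm).1).add_right
  (comm_Pp ((Commute.refl _).smul_right _))
lemma t2z1 : Commute S.t2 S.z1 := (S.comm_st S.sgt1 S.t1ta.symm).1.add_right
  (comm_Pp (Commute.smul_right S.t12.symm _))
lemma t3z1 : Commute S.t3 S.z1 := (S.comm_st S.sgt2 S.t2ta.symm).1.add_right
  (comm_Pp (Commute.smul_right S.t13.symm _))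
lemma t1z3 : Commute S.t1 S.z3 := (S.comm_st S.sgt1 S.t1ta.symm).2.add_right (comm_Pp S.t13)
lemma t2z3 : Commute S.t2 S.z3 := (S.comm_st S.sgt2 S.t2ta.symm).2.add_right (comm_Pp S.t23)
lemma t3z3 : Commute S.t3 S.z3 :=
  (S.comm_st S.sgt3 S.t3ta.symm).2.add_right (comm_Pp (Commute.refl _))

lemma pp_abs {x y : E} (h : x * y = y * x) (hx : x ^ 6 = 1) (hy : y ^ 6 = 1) :
    y * pp x y = pp x y * x ∧ x * pp x y = pp x y * y := by
  obtain ⟨B, _, _, j, inj, hj⟩ := exists_comm {x, y} (by simp [h])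
  obtain ⟨x, rfl⟩ := hj x (by simp)
  obtain ⟨y, rfl⟩ := hj y (by simp)
  have := pp_mul (inj (by simpa using hx) : x ^ 6 = 1) (inj (by simpa using hy) : y ^ 6 = 1)
  simp only [← map_pp, ← map_mul, this, mul_comm _ (pp x y), and_self]

lemma tz2_aux {x y : E} (h : S.s2 * x = y * S.s2) (h1 : Commute y S.z3)
    (hp : y * pp S.t2 S.t3 = pp S.t2 S.t3 * x) : Commute x S.z2 := by
  have h' := flip S.s2s2 h
  rw [Commute, SemiconjBy, z2, mul_add, add_mul, mul_assoc _ _ x, mul_assoc _ _ x, h, ← hp]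
  simp only [← mul_assoc, ← h']
  rw [mul_assoc S.s2 y, h1.eq, ← mul_assoc]

lemma t1z2 : Commute S.t1 S.z2 := S.tz2_aux S.s2t1 S.t1z3 (comm_pp S.t12 S.t13)
lemma t2z2 : Commute S.t2 S.z2 := S.tz2_aux S.s2t2 S.t3z3 (pp_abs S.t23 S.t2_6 S.t3_6).1
lemma t3z2 : Commute S.t3 S.z2 := S.tz2_aux S.s2t3 S.t2z3 (pp_abs S.t23 S.t2_6 S.t3_6).2

lemma z2z1 : Commute S.z2 S.z1 := (S.comm_st S.sz1 S.tz2).1.add_right
  (comm_Pp (S.t1z2.symm.smul_right _))
lemma z3z1 : Commute S.z3 S.z1 := (S.comm_st S.sz2 S.tz3).1.add_right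
  (comm_Pp (S.t1z3.symm.smul_right _))
lemma z2z3 : Commute S.z2 S.z3 := (S.comm_st S.sz2 S.tz3).2.add_right (comm_Pp S.t3z2.symm)

/-- The intertwiners of a presentation. -/
theorem exists_TS : ∃ (B : Type) (_ : CommRing B) (_ : Algebra ℂ B) (T : TS B E), Link S T := by
  obtain ⟨B, _, _, j, inj, hj⟩ := exists_comm {S.z1, S.z2, S.z3, S.t1, S.t2, S.t3} (by
    simp [S.t12, S.t13, S.t23, S.t1z1.eq, S.t2z1.eq, S.t3z1.eq, S.t1z2.eq, S.t2z2.eq, S.t3z2.eq,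
      S.t1z3.eq, S.t2z3.eq, S.t3z3.eq, S.z2z1.eq, S.z3z1.eq, S.z2z3.eq])
  obtain ⟨z1, h1⟩ := hj S.z1 (by simp)
  obtain ⟨z2, h2⟩ := hj S.z2 (by simp)
  obtain ⟨z3, h3⟩ := hj S.z3 (by simp)
  obtain ⟨t1, k1⟩ := hj S.t1 (by simp)
  obtain ⟨t2, k2⟩ := hj S.t2 (by simp)
  obtain ⟨t3, k3⟩ := hj S.t3 (by simp)
  have u1 : t1 ^ 6 = 1 := inj (by rw [map_pow, k1, S.t1_6, map_one])
  have u2 : t2 ^ 6 = 1 := inj (by rw [map_pow, k2, S.t2_6, map_one])
  have u3 : t3 ^ 6 = 1 := inj (by rw [map_pow, k3, S.t3_6, map_one])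
  obtain ⟨a, ha⟩ : ∃ a, a = j (z1 - z2) * S.s1 - j (pp t1 t2) := ⟨_, rfl⟩
  obtain ⟨b, hb⟩ : ∃ b, b = j (z2 - z3) * S.s2 - j (pp t2 t3) := ⟨_, rfl⟩
  have cj : ∀ {w : E} {f f' : B} {x x' : E}, j f = x → j f' = x' → w * x = x' * w → Cj j w f f' :=
    fun h h' e => by rw [Cj, h, h', e]
  have kz : j (ze • t1) = ze • S.t1 := by rw [map_smul, k1]
  have sz1 := cj h1 h2 S.sz1
  have sz2 := cj h2 h3 S.sz2
  have sz3 := cj h3 h1 S.sz3
  have st1 := cj k1 k2 S.sgt1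
  have st2 := cj k2 k3 S.sgt2
  have st3 := cj k3 kz S.sgt3
  have tz1 := cj h1 h3 S.tz1
  have tz2 := cj h2 h1 S.tz2
  have tz3 := cj h3 h2 S.tz3
  have tt1 := cj kz k3 S.t3ta.symm
  have tt2 := cj k2 k1 S.t1ta.symm
  have tt3 := cj k3 k2 S.t2ta.symm
  have az1 : Cj j a z1 z2 := ha ▸ lk_z (d := 1)
    (by rw [mul_one, h1, h2, map_pp, k1, k2, S.s1z1]) (by ring)
  have az2 : Cj j a z2 z1 := ha ▸ lk_z (d := -1)
    (by rw [mul_neg_one, map_neg, h1, h2, map_pp, k1, k2, S.s1z2, sub_eq_add_neg]) (by ring)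
  have az3 : Cj j a z3 z3 := ha ▸ ((Cj.self _ _).comp (cj h3 h3 S.s1z3)).subl (Cj.self _ _)
  have at1 : Cj j a t1 t2 := ha ▸ ((Cj.self _ _).comp (cj k1 k2 S.s1t1)).subl
    (Cj.ofB (pp_mul u1 u2))
  have at2 : Cj j a t2 t1 := ha ▸ ((Cj.self _ _).comp (cj k2 k1 S.s1t2)).subl
    (Cj.ofB (pp_mul u1 u2).symm)
  have at3 : Cj j a t3 t3 := ha ▸ ((Cj.self _ _).comp (cj k3 k3 S.s1t3)).subl (Cj.self _ _)
  have bz1 : Cj j b z1 z1 := hb ▸ ((Cj.self _ _).comp (cj h1 h1 S.s2z1)).subl (Cj.self _ _)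
  have bz2 : Cj j b z2 z3 := hb ▸ lk_z (d := 1)
    (by rw [mul_one, h2, h3, map_pp, k2, k3, S.s2z2]) (by ring)
  have bz3 : Cj j b z3 z2 := hb ▸ lk_z (d := -1)
    (by rw [mul_neg_one, map_neg, h2, h3, map_pp, k2, k3, S.s2z3, sub_eq_add_neg]) (by ring)
  have bt1 : Cj j b t1 t1 := hb ▸ ((Cj.self _ _).comp (cj k1 k1 S.s2t1)).subl (Cj.self _ _)
  have bt2 : Cj j b t2 t3 := hb ▸ ((Cj.self _ _).comp (cj k2 k3 S.s2t2)).subl
    (Cj.ofB (pp_mul u2 u3))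
  have bt3 : Cj j b t3 t2 := hb ▸ ((Cj.self _ _).comp (cj k3 k2 S.s2t3)).subl
    (Cj.ofB (pp_mul u2 u3).symm)
  have ts : S.ta * S.sg = j (z3 - Pp t3) := by rw [map_sub, map_Pp, h3, k3, Sys.z3]; simp
  have st : S.sg * S.ta = j (z1 - Pp (ze • t1)) := by rw [map_sub, map_Pp, h1, kz, Sys.z1]; simp
  have tp : Cj j S.ta (pp t1 t2) (pp t3 (ze • t1)) := by
    have := tt1.pp (tt2.smul ze); rwa [pp_smul] at this
  refine ⟨B, _, _, {
    j := j
    z1 := z1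
    z2 := z2
    z3 := z3
    t1 := t1
    t2 := t2
    t3 := t3
    a := a
    b := b
    sg := S.sg
    ta := S.ta
    t1_6 := u1
    t2_6 := u2
    t3_6 := u3
    az1 := az1
    az2 := az2
    az3 := az3
    at1 := at1
    at2 := at2
    at3 := at3
    bz1 := bz1
    bz2 := bz2
    bz3 := bz3
    bt1 := bt1
    bt2 := bt2
    bt3 := bt3
    sz1 := sz1
    sz2 := sz2
    sz3 := sz3
    st1 := st1
    st2 := st2
    st3 := st3
    tz1 := tz1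
    tz2 := tz2
    tz3 := tz3
    tt1 := tt1
    tt2 := tt2
    tt3 := tt3
    aa := ?_
    bb := ?_
    br := ?_
    sa := ha ▸ hb ▸ lk_semi S.sgs1 (sz1.sub sz2) (st1.pp st2)
    ssb := ?_
    at' := ha ▸ hb ▸ (lk_semi S.s1ta.symm (tz2.sub tz3) (tt2.pp tt3)).symm
    btt := ?_
    mix := ?_
    ts := ts
    st := st }, h1, h2, h3, k1, k2, k3, ha, hb, rfl, rfl⟩
  · rw [sq_lk ha (by rw [neg_sub]; exact az1.sub az2) (by
      have := at1.pp at2; rwa [pp_comm t2] at this), S.s1s1, mul_one, ← map_sub]; rfl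
  · rw [sq_lk hb (by rw [neg_sub]; exact bz2.sub bz3) (by
      have := bt2.pp bt3; rwa [pp_comm t3] at this), S.s2s2, mul_one, ← map_sub]; rfl
  · rw [← sub_eq_zero, braid_diff (p3 := pp t1 t3) ha hb S.s1s1 S.s2s2 (az2.sub az3) (az1.sub az3)
      (at2.pp at3) (at1.pp at3) (bz1.sub bz2) (bz1.sub bz3) (bt1.pp bt2)
      (bt1.pp bt3) (by ring) (pp_pp u1 u2 _).symm ?_, S.br, sub_self, mul_zero]
    rw [mul_comm, pp_comm t1, pp_comm t1, pp_pp u2 u3]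
  · rw [ha, hb, mul_assoc (_ - _)]
    refine lk_semi (by rw [S.sgsg, mul_assoc]) ((sz3.sub sz1).comp (sz2.sub sz3)) ?_
    have := (st3.pp (st1.smul ze)).comp (st2.pp st3); rwa [pp_smul] at this
  · rw [ha, hb, mul_assoc (_ - _)]
    exact (lk_semi (by rw [← S.tata, mul_assoc]) ((tz3.sub tz1).comp (tz1.sub tz2))
      ((tt3.pp tt1).comp tp)).symm
  · rw [ha, hb, mul_sub, mul_sub, (tz1.sub tz2).left, (sz2.sub sz3).left, tp, st2.pp st3]
    simp only [sub_mul, mul_assoc, ts, st, ← map_mul]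
    rw [← mul_assoc S.ta, S.mix, ← pp, ← kz, ← k3, ← map_pp, mul_add, ← map_mul, mul_assoc,
      add_sub_assoc, ← map_sub, sub_eq_add_neg (j _ * _), ← map_neg, pp_comm _ t3]
    congr 2
    linear_combination pp_Pp u3 (ze_smul_six u1)

end Sys

end Pool.Agent.P.MP_f9c8fc_ag
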