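import Pool.Agent.P.MP_f9c8fc_ag.Comm

/-! Intertwiners and the elements commuting with them. -/

namespace Pool.Agent.P.MP_f9c8fc_ag

variable {B E : Type} [CommRing B] [Algebra ℂ B] [Ring E] [Algebra ℂ E]

/-- `w` moves `f` to `f'`. -/
def Cj (j : B →ₐ[ℂ] E) (w : E) (f f' : B) : Prop := w * j f = j f' * w

namespace Cj
variable {j : B →ₐ[ℂ] E} {w w' : E} {f f' f'' g g' : B}

lemma add (h : Cj j w f f') (h' : Cj j w g g') : Cj j w (f + g) (f' + g') := by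
  unfold Cj at *; rw [map_add, map_add, mul_add, add_mul, h, h']

lemma sub (h : Cj j w f f') (h' : Cj j w g g') : Cj j w (f - g) (f' - g') := by
  unfold Cj at *; rw [map_sub, map_sub, mul_sub, sub_mul, h, h']

lemma neg (h : Cj j w f f') : Cj j w (-f) (-f') := by
  unfold Cj at *; rw [map_neg, map_neg, mul_neg, neg_mul, h]

lemma mul (h : Cj j w f f') (h' : Cj j w g g') : Cj j w (f * g) (f' * g') := by
  unfold Cj at *; rw [map_mul, map_mul, ← mul_assoc, h, mul_assoc, h', mul_assoc]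

lemma one : Cj j w 1 1 := by simp [Cj]

lemma pow (h : Cj j w f f') (n : ℕ) : Cj j w (f ^ n) (f' ^ n) := by
  induction n with
  | zero => simpa using one
  | succ n ih => rw [pow_succ, pow_succ]; exact ih.mul h

lemma smul (h : Cj j w f f') (c : ℂ) : Cj j w (c • f) (c • f') := by
  unfold Cj at *; rw [map_smul, map_smul, mul_smul_comm, smul_mul_assoc, h]

lemma pi6 (h : Cj j w f f') (h' : Cj j w g g') : Cj j w (pi6 f g) (pi6 f' g') := by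
  unfold MP_f9c8fc_ag.pi6; apply_rules [add, mul, pow, one]

lemma Pp (h : Cj j w f f') : Cj j w (Pp f) (Pp f') := by
  unfold MP_f9c8fc_ag.Pp; apply_rules [add, sub, smul, pow]

lemma qq {a a' b b' : B} (h : Cj j w f f') (h' : Cj j w g g') (ha : Cj j w a a')
    (hb : Cj j w b b') : Cj j w (qq f g a b) (qq f' g' a' b') :=
  (((h.pi6 h').smul _).pow 2).sub ((ha.sub hb).pow 2)

lemma comp (h : Cj j w f' f'') (h' : Cj j w' f f') : Cj j (w * w') f f'' := by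
  unfold Cj at *; rw [mul_assoc, h', ← mul_assoc, h, mul_assoc]

lemma powl (h : Cj j w f f) (n : ℕ) : Cj j (w ^ n) f f := by
  induction n with
  | zero => simp [Cj]
  | succ n ih => rw [pow_succ]; exact ih.comp h

lemma powz (h : Cj j w f (ze • f)) (n : ℕ) : Cj j (w ^ n) f (ze ^ n • f) := by
  induction n with
  | zero => simp [Cj]
  | succ n ih => rw [pow_succ, pow_succ', mul_smul]; exact (ih.smul ze).comp h

lemma six (h : Cj j w f (ze • f)) : Cj j (w ^ 6) f f := by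
  simpa [ze_six] using h.powz 6

lemma five (h : Cj j w f (ze • f)) : Cj j (w ^ 5) (ze • f) f := by
  have := (h.powz 5).smul ze
  rwa [smul_smul, ← pow_succ', ze_six, one_smul] at this

lemma step (h : Cj j w f (ze • f)) (n : ℕ) : Cj j w (ze ^ n • f) (ze ^ (n + 1) • f) := by
  rw [pow_succ, mul_smul]; exact h.smul _

lemma self (f g : B) : Cj j (j g) f f := by rw [Cj, ← map_mul, ← map_mul, mul_comm]

lemma prod {ι : Type} (s : Finset ι) {F F' : ι → B} (h : ∀ i, Cj j w (F i) (F' i)) :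
    Cj j w (∏ i ∈ s, F i) (∏ i ∈ s, F' i) := by
  classical
  induction s using Finset.induction_on with
  | empty => simpa using one
  | insert a s ha ih => rw [Finset.prod_insert ha, Finset.prod_insert ha]; exact (h a).mul ih

lemma sc {X X' : E} (h1 : w * X = X' * w) (h : Cj j w f f') :
    w * (X * j f) = X' * j f' * w := by
  rw [← mul_assoc, h1, mul_assoc, h, mul_assoc]

lemma left (h : Cj j w f f') (x : E) : w * (j f * x) = j f' * (w * x) := by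
  rw [← mul_assoc, h, mul_assoc]

end Cj

lemma tele {j : B →ₐ[ℂ] E} {x y : E} {G : ℕ → B} (h : x * y = j (G 0))
    (hG : ∀ k, Cj j x (G k) (G (k + 1))) (n : ℕ) :
    x ^ n * y ^ n = j (∏ k ∈ Finset.range n, G k) := by
  induction n with
  | zero => simp
  | succ n ih =>
    rw [pow_succ', pow_succ, mul_assoc, ← mul_assoc (x ^ n), ih, (Cj.prod _ hG).left, h,
      Finset.prod_range_succ', map_mul]

lemma semi_pow {w a b : E} (h : w * a = b * w) (n : ℕ) : w * a ^ n = b ^ n * w :=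
  (SemiconjBy.pow_right h n).eq

/-- A system of intertwiners. -/
structure TS (B E : Type) [CommRing B] [Algebra ℂ B] [Ring E] [Algebra ℂ E] where
  j : B →ₐ[ℂ] E
  (z1 z2 z3 t1 t2 t3 : B)
  (a b sg ta : E)
  t1_6 : t1 ^ 6 = 1
  t2_6 : t2 ^ 6 = 1
  t3_6 : t3 ^ 6 = 1
  az1 : Cj j a z1 z2
  az2 : Cj j a z2 z1
  az3 : Cj j a z3 z3
  at1 : Cj j a t1 t2
  at2 : Cj j a t2 t1
  at3 : Cj j a t3 t3
  bz1 : Cj j b z1 z1
  bz2 : Cj j b z2 z3
  bz3 : Cj j b z3 z2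
  bt1 : Cj j b t1 t1
  bt2 : Cj j b t2 t3
  bt3 : Cj j b t3 t2
  sz1 : Cj j sg z1 z2
  sz2 : Cj j sg z2 z3
  sz3 : Cj j sg z3 z1
  st1 : Cj j sg t1 t2
  st2 : Cj j sg t2 t3
  st3 : Cj j sg t3 (ze • t1)
  tz1 : Cj j ta z1 z3
  tz2 : Cj j ta z2 z1
  tz3 : Cj j ta z3 z2
  tt1 : Cj j ta (ze • t1) t3
  tt2 : Cj j ta t2 t1
  tt3 : Cj j ta t3 t2
  aa : a * a = j (qq t1 t2 z1 z2)
  bb : b * b = j (qq t2 t3 z2 z3)
  br : a * b * a = b * a * b
  sa : sg * a = b * sg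
  ssb : sg * sg * b = a * sg * sg
  at' : a * ta = ta * b
  btt : b * ta * ta = ta * ta * a
  mix : ta * a * sg = sg * b * ta
  ts : ta * sg = j (z3 - Pp t3)
  st : sg * ta = j (z1 - Pp (ze • t1))

/-- The coefficients of `(T - x) * (T - y)`. -/
def gg (k : Fin 3) (x y : B) : B := ![x * y, -(x + y), 1] k

omit [Algebra ℂ B] in
lemma gg_comm (k : Fin 3) (x y : B) : gg k x y = gg k y x := by
  fin_cases k <;> simp [gg, mul_comm, add_comm]

lemma Cj.gg {j : B →ₐ[ℂ] E} {w : E} {f f' g g' : B} (h : Cj j w f f') (h' : Cj j w g g')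
    (k : Fin 3) : Cj j w (gg k f g) (gg k f' g') := by
  fin_cases k
  exacts [h.mul h', (h.add h').neg, Cj.one]

namespace TS
variable (T : TS B E)

open MulOpposite in
/-- The opposite system. -/
noncomputable def op : TS B Eᵐᵒᵖ where
  j := T.j.toOpposite fun x y => Cj.self y x
  z1 := T.z1
  z2 := T.z2
  z3 := T.z3
  t1 := T.t1
  t2 := T.t2
  t3 := T.t3
  a := .op T.a
  b := .op T.b
  sg := .op T.ta
  ta := .op T.sg
  t1_6 := T.t1_6
  t2_6 := T.t2_6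
  t3_6 := T.t3_6
  az1 := congrArg MulOpposite.op T.az2.symm
  az2 := congrArg MulOpposite.op T.az1.symm
  az3 := congrArg MulOpposite.op T.az3.symm
  at1 := congrArg MulOpposite.op T.at2.symm
  at2 := congrArg MulOpposite.op T.at1.symm
  at3 := congrArg MulOpposite.op T.at3.symm
  bz1 := congrArg MulOpposite.op T.bz1.symm
  bz2 := congrArg MulOpposite.op T.bz3.symm
  bz3 := congrArg MulOpposite.op T.bz2.symm
  bt1 := congrArg MulOpposite.op T.bt1.symm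
  bt2 := congrArg MulOpposite.op T.bt3.symm
  bt3 := congrArg MulOpposite.op T.bt2.symm
  sz1 := congrArg MulOpposite.op T.tz2.symm
  sz2 := congrArg MulOpposite.op T.tz3.symm
  sz3 := congrArg MulOpposite.op T.tz1.symm
  st1 := congrArg MulOpposite.op T.tt2.symm
  st2 := congrArg MulOpposite.op T.tt3.symm
  st3 := congrArg MulOpposite.op T.tt1.symm
  tz1 := congrArg MulOpposite.op T.sz3.symm
  tz2 := congrArg MulOpposite.op T.sz1.symm
  tz3 := congrArg MulOpposite.op T.sz2.symm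
  tt1 := congrArg MulOpposite.op T.st3.symm
  tt2 := congrArg MulOpposite.op T.st1.symm
  tt3 := congrArg MulOpposite.op T.st2.symm
  aa := congrArg MulOpposite.op T.aa
  bb := congrArg MulOpposite.op T.bb
  br := congrArg MulOpposite.op (by simpa only [mul_assoc, unop_mul, unop_op] using T.br)
  sa := congrArg MulOpposite.op T.at'
  ssb := congrArg MulOpposite.op (by simpa only [mul_assoc, unop_mul, unop_op] using T.btt)
  at' := congrArg MulOpposite.op T.sa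
  btt := congrArg MulOpposite.op (by simpa only [mul_assoc, unop_mul, unop_op] using T.ssb)
  mix := congrArg MulOpposite.op (by simpa only [mul_assoc, unop_mul, unop_op] using T.mix)
  ts := congrArg MulOpposite.op T.ts
  st := congrArg MulOpposite.op T.st

def x1 : E := T.sg * T.b * T.a
def x2 : E := T.a * T.sg * T.b
def x3 : E := T.b * T.a * T.sg
def y1 : E := T.a * (T.b * T.ta)
def y2 : E := T.b * (T.ta * T.a)
def y3 : E := T.ta * (T.a * T.b)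

lemma x1z1 : Cj T.j T.x1 T.z1 T.z1 := (T.sz3.comp T.bz2).comp T.az1
lemma x1z2 : Cj T.j T.x1 T.z2 T.z2 := (T.sz1.comp T.bz1).comp T.az2
lemma x1z3 : Cj T.j T.x1 T.z3 T.z3 := (T.sz2.comp T.bz3).comp T.az3
lemma x1t1 : Cj T.j T.x1 T.t1 (ze • T.t1) := (T.st3.comp T.bt2).comp T.at1
lemma x1t2 : Cj T.j T.x1 T.t2 T.t2 := (T.st1.comp T.bt1).comp T.at2
lemma x1t3 : Cj T.j T.x1 T.t3 T.t3 := (T.st2.comp T.bt3).comp T.at3
lemma x2z1 : Cj T.j T.x2 T.z1 T.z1 := (T.az2.comp T.sz1).comp T.bz1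
lemma x2z2 : Cj T.j T.x2 T.z2 T.z2 := (T.az1.comp T.sz3).comp T.bz2
lemma x2z3 : Cj T.j T.x2 T.z3 T.z3 := (T.az3.comp T.sz2).comp T.bz3
lemma x2t1 : Cj T.j T.x2 T.t1 T.t1 := (T.at2.comp T.st1).comp T.bt1
lemma x2t2 : Cj T.j T.x2 T.t2 (ze • T.t2) := ((T.at1.smul ze).comp T.st3).comp T.bt2
lemma x2t3 : Cj T.j T.x2 T.t3 T.t3 := (T.at3.comp T.st2).comp T.bt3
lemma x3z1 : Cj T.j T.x3 T.z1 T.z1 := (T.bz1.comp T.az2).comp T.sz1
lemma x3z2 : Cj T.j T.x3 T.z2 T.z2 := (T.bz3.comp T.az3).comp T.sz2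
lemma x3z3 : Cj T.j T.x3 T.z3 T.z3 := (T.bz2.comp T.az1).comp T.sz3
lemma x3t1 : Cj T.j T.x3 T.t1 T.t1 := (T.bt1.comp T.at2).comp T.st1
lemma x3t2 : Cj T.j T.x3 T.t2 T.t2 := (T.bt3.comp T.at3).comp T.st2
lemma x3t3 : Cj T.j T.x3 T.t3 (ze • T.t3) := ((T.bt2.smul ze).comp (T.at1.smul ze)).comp T.st3

lemma turn {a b : E} (h : a * a * ((b * a) ^ 5 * b) = (b * a) ^ 5 * b * (a * a)) :
    a * (a * b) ^ 6 = (b * a) ^ 6 * a := by
  calc a * (a * b) ^ 6 = a * ((a * b) ^ 5 * a) * b := by simp only [pow_succ _ 5, mul_assoc]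
    _ = a * a * ((b * a) ^ 5 * b) := by rw [mul_pow_mul]; simp only [mul_assoc]
    _ = _ := by rw [h]; simp only [pow_succ _ 5, mul_assoc]

lemma aX1 : T.a * T.x1 ^ 6 = T.x2 ^ 6 * T.a := semi_pow (by simp only [x1, x2, mul_assoc]) 6

lemma aX2 : T.a * T.x2 ^ 6 = T.x1 ^ 6 * T.a := by
  have := turn (a := T.a) (b := T.sg * T.b) (by
    rw [T.aa]
    refine (Eq.trans ?_ (congrArg (T.j · * _) (qq_comm _ _ _ _))).symm
    exact Cj.qq ((T.x1t2.powl 5).comp (T.st1.comp T.bt1)) (T.x1t1.five.comp (T.st3.comp T.bt2))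
      ((T.x1z2.powl 5).comp (T.sz1.comp T.bz1)) ((T.x1z1.powl 5).comp (T.sz3.comp T.bz2)))
  simpa only [x1, x2, mul_assoc] using this

lemma aX3 : T.a * T.x3 ^ 6 = T.x3 ^ 6 * T.a := semi_pow (by
  rw [x3, ← mul_assoc, ← mul_assoc, T.br, mul_assoc _ T.sg, T.sa, mul_assoc]) 6

lemma bX1 : T.b * T.x1 ^ 6 = T.x1 ^ 6 * T.b := semi_pow (by
  rw [x1, ← mul_assoc, ← mul_assoc, ← T.sa, mul_assoc T.sg, mul_assoc T.sg, T.br]
  simp only [mul_assoc]) 6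

lemma bX2 : T.b * T.x2 ^ 6 = T.x3 ^ 6 * T.b := semi_pow (by simp only [x3, x2, mul_assoc]) 6

lemma bX3 : T.b * T.x3 ^ 6 = T.x2 ^ 6 * T.b := by
  have := turn (a := T.b) (b := T.a * T.sg) (by
    rw [T.bb]
    refine (Eq.trans ?_ (congrArg (T.j · * _) (qq_comm _ _ _ _))).symm
    exact Cj.qq ((T.x2t3.powl 5).comp (T.at3.comp T.st2))
      (T.x2t2.five.comp ((T.at1.smul ze).comp T.st3))
      ((T.x2z3.powl 5).comp (T.az3.comp T.sz2)) ((T.x2z2.powl 5).comp (T.az1.comp T.sz3)))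
  simpa only [x3, x2, mul_assoc] using this

lemma sX1 : T.sg * T.x1 ^ 6 = T.x2 ^ 6 * T.sg := semi_pow (by
  rw [x1, x2, ← mul_assoc, ← mul_assoc, T.ssb, mul_assoc _ T.sg, T.sa, mul_assoc _ T.b]) 6

lemma sX2 : T.sg * T.x2 ^ 6 = T.x3 ^ 6 * T.sg := semi_pow (by
  rw [x2, x3, ← mul_assoc, ← mul_assoc, T.sa]
  simpa only [mul_assoc] using congrArg (T.b * ·) T.ssb) 6

lemma sX3 : T.sg * T.x3 ^ 6 = T.x1 ^ 6 * T.sg := semi_pow (by simp only [x3, x1, mul_assoc]) 6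

lemma tX1 : T.ta * T.x1 ^ 6 = T.x3 ^ 6 * T.ta := by
  have h : Cj T.j (T.x3 ^ 5 * (T.b * T.a)) _ _ :=
    ((T.x3z3.powl 5).comp (T.bz2.comp T.az1)).sub
      (T.x3t3.five.comp ((T.bt2.smul ze).comp (T.at1.smul ze))).Pp
  rw [Cj, ← T.ts, ← T.st] at h
  calc T.ta * T.x1 ^ 6 = T.ta * (T.sg * (T.b * T.a * T.sg) ^ 5) * (T.b * T.a) := by
        rw [← mul_pow_mul]; simp only [x1, pow_succ _ 5, mul_assoc]
    _ = T.ta * T.sg * (T.x3 ^ 5 * (T.b * T.a)) := by simp only [x3, mul_assoc]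
    _ = _ := by rw [← h]; simp only [x3, pow_succ _ 5, mul_assoc]

lemma tX2 : T.ta * T.x2 ^ 6 = T.x1 ^ 6 * T.ta := semi_pow (by
  rw [x2, x1, ← mul_assoc, ← mul_assoc, T.mix, mul_assoc _ T.ta, ← T.at', mul_assoc _ T.a]) 6

lemma tX3 : T.ta * T.x3 ^ 6 = T.x2 ^ 6 * T.ta := semi_pow (by
  rw [x2, x3, ← mul_assoc, ← mul_assoc, ← T.at']
  simpa only [mul_assoc] using congrArg (T.a * ·) T.mix) 6

/-- The symmetric combinations. -/
noncomputable def Ap (k : Fin 3) : E := T.x1 ^ 6 * T.j (gg k T.z2 T.z3) +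
  T.x2 ^ 6 * T.j (gg k T.z1 T.z3) + T.x3 ^ 6 * T.j (gg k T.z1 T.z2)

noncomputable def Am (k : Fin 3) : E := T.j (gg k T.z2 T.z3) * T.y1 ^ 6 +
  T.j (gg k T.z1 T.z3) * T.y2 ^ 6 + T.j (gg k T.z1 T.z2) * T.y3 ^ 6

/-- Commuting with the commutative part. -/
structure Fix (h : E) : Prop where
  z1 : Cj T.j h T.z1 T.z1
  z2 : Cj T.j h T.z2 T.z2
  z3 : Cj T.j h T.z3 T.z3
  t1 : Cj T.j h T.t1 T.t1
  t2 : Cj T.j h T.t2 T.t2
  t3 : Cj T.j h T.t3 T.t3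

/-- Commuting with the whole system. -/
structure Cen (h : E) : Prop extends T.Fix h where
  a : T.a * h = h * T.a
  b : T.b * h = h * T.b
  sg : T.sg * h = h * T.sg
  ta : T.ta * h = h * T.ta

lemma fix1 : T.Fix (T.x1 ^ 6) :=
  ⟨T.x1z1.powl 6, T.x1z2.powl 6, T.x1z3.powl 6, T.x1t1.six, T.x1t2.powl 6, T.x1t3.powl 6⟩

lemma fix2 : T.Fix (T.x2 ^ 6) :=
  ⟨T.x2z1.powl 6, T.x2z2.powl 6, T.x2z3.powl 6, T.x2t1.powl 6, T.x2t2.six, T.x2t3.powl 6⟩

lemma fix3 : T.Fix (T.x3 ^ 6) :=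
  ⟨T.x3z1.powl 6, T.x3z2.powl 6, T.x3z3.powl 6, T.x3t1.powl 6, T.x3t2.powl 6, T.x3t3.six⟩

lemma cj_Ap (k : Fin 3) {f : B} (h1 : Cj T.j (T.x1 ^ 6) f f) (h2 : Cj T.j (T.x2 ^ 6) f f)
    (h3 : Cj T.j (T.x3 ^ 6) f f) : Cj T.j (T.Ap k) f f := by
  rw [Cj, Ap, add_mul, add_mul, mul_add, mul_add, h1.comp (Cj.self _ _), h2.comp (Cj.self _ _),
    h3.comp (Cj.self _ _)]

lemma cen_Ap (k : Fin 3) : T.Cen (T.Ap k) where
  z1 := T.cj_Ap k T.fix1.z1 T.fix2.z1 T.fix3.z1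
  z2 := T.cj_Ap k T.fix1.z2 T.fix2.z2 T.fix3.z2
  z3 := T.cj_Ap k T.fix1.z3 T.fix2.z3 T.fix3.z3
  t1 := T.cj_Ap k T.fix1.t1 T.fix2.t1 T.fix3.t1
  t2 := T.cj_Ap k T.fix1.t2 T.fix2.t2 T.fix3.t2
  t3 := T.cj_Ap k T.fix1.t3 T.fix2.t3 T.fix3.t3
  a := by
    rw [Ap, mul_add, mul_add, (T.az2.gg T.az3 k).sc T.aX1, (T.az1.gg T.az3 k).sc T.aX2,
      (T.az1.gg T.az2 k).sc T.aX3, gg_comm k T.z2 T.z1, add_mul, add_mul]
    abel
  b := by
    rw [Ap, mul_add, mul_add, (T.bz2.gg T.bz3 k).sc T.bX1, (T.bz1.gg T.bz3 k).sc T.bX2,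
      (T.bz1.gg T.bz2 k).sc T.bX3, gg_comm k T.z3 T.z2, add_mul, add_mul]
    abel
  sg := by
    rw [Ap, mul_add, mul_add, (T.sz2.gg T.sz3 k).sc T.sX1, (T.sz1.gg T.sz3 k).sc T.sX2,
      (T.sz1.gg T.sz2 k).sc T.sX3, gg_comm k T.z3 T.z1, gg_comm k T.z2 T.z1, add_mul, add_mul]
    abel
  ta := by
    rw [Ap, mul_add, mul_add, (T.tz2.gg T.tz3 k).sc T.tX1, (T.tz1.gg T.tz3 k).sc T.tX2,
      (T.tz1.gg T.tz2 k).sc T.tX3, gg_comm k T.z3 T.z1, gg_comm k T.z3 T.z2, add_mul, add_mul]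
    abel

lemma Fix.unop {h : E} (H : T.op.Fix (.op h)) : T.Fix h :=
  ⟨(congrArg MulOpposite.unop H.z1).symm, (congrArg MulOpposite.unop H.z2).symm,
    (congrArg MulOpposite.unop H.z3).symm, (congrArg MulOpposite.unop H.t1).symm,
    (congrArg MulOpposite.unop H.t2).symm, (congrArg MulOpposite.unop H.t3).symm⟩

lemma cen_Am (k : Fin 3) : T.Cen (T.Am k) := by
  have H : T.op.Cen (.op (T.Am k)) := T.op.cen_Ap k
  exact ⟨H.toFix.unop, (congrArg MulOpposite.unop H.a).symm, (congrArg MulOpposite.unop H.b).symm,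
    (congrArg MulOpposite.unop H.ta).symm, (congrArg MulOpposite.unop H.sg).symm⟩

lemma fiy1 : T.Fix (T.y1 ^ 6) := Fix.unop T T.op.fix1
lemma fiy2 : T.Fix (T.y2 ^ 6) := Fix.unop T T.op.fix2
lemma fiy3 : T.Fix (T.y3 ^ 6) := Fix.unop T T.op.fix3

/-- The product of the squares of the intertwiners along a full turn. -/
def dd (z w : B) : B := ((z - w) ^ 2 - 4) * (z - w) ^ 10

lemma XY1 : T.x1 ^ 6 * T.y1 ^ 6 = T.j (dd T.z2 T.z1 * dd T.z3 T.z1 * mas T.z1) := by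
  rw [tele (G := fun k => qq T.t2 (ze ^ (k + 1) • T.t1) T.z2 T.z1 *
    qq T.t3 (ze ^ (k + 1) • T.t1) T.z3 T.z1 * (T.z1 - Pp (ze ^ (k + 1) • T.t1))) ?_
    fun k => ((T.x1t2.qq (T.x1t1.step _) T.x1z2 T.x1z1).mul
      (T.x1t3.qq (T.x1t1.step _) T.x1z3 T.x1z1)).mul (T.x1z1.sub (T.x1t1.step _).Pp)]
  · rw [Finset.prod_mul_distrib, Finset.prod_mul_distrib, prod_qq T.t1_6 T.t2_6,
      prod_qq T.t1_6 T.t3_6, prod_Pp T.t1_6]; rfl
  calc T.x1 * T.y1 = T.sg * (T.b * (T.a * T.a * (T.b * T.ta))) := by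
        simp only [x1, y1, mul_assoc]
    _ = _ := by
      rw [T.aa, (T.bt1.qq T.bt2 T.bz1 T.bz2).left, ← mul_assoc T.b, T.bb,
        (T.st1.qq T.st3 T.sz1 T.sz3).left, (T.st2.qq T.st3 T.sz2 T.sz3).left, T.st]
      simp only [map_mul, mul_assoc, zero_add, pow_one]

lemma XY2 : T.x2 ^ 6 * T.y2 ^ 6 = T.j (dd T.z1 T.z2 * dd T.z3 T.z2 * mas T.z2) := by
  rw [tele (G := fun k => qq T.t1 (ze ^ (k + 0) • T.t2) T.z1 T.z2 *
    qq T.t3 (ze ^ (k + 1) • T.t2) T.z3 T.z2 * (T.z2 - Pp (ze ^ (k + 1) • T.t2))) ?_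
    fun k => ((T.x2t1.qq (T.x2t2.step _) T.x2z1 T.x2z2).mul
      (T.x2t3.qq (T.x2t2.step _) T.x2z3 T.x2z2)).mul (T.x2z2.sub (T.x2t2.step _).Pp)]
  · rw [Finset.prod_mul_distrib, Finset.prod_mul_distrib, prod_qq T.t2_6 T.t1_6,
      prod_qq T.t2_6 T.t3_6, prod_Pp T.t2_6]; rfl
  calc T.x2 * T.y2 = T.a * (T.sg * (T.b * T.b * (T.ta * T.a))) := by
        simp only [x2, y2, mul_assoc]
    _ = _ := by
      rw [T.bb, (T.st2.qq T.st3 T.sz2 T.sz3).left, ← mul_assoc T.sg, T.st,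
        (T.at3.qq (T.at1.smul ze) T.az3 T.az1).left, (T.az1.sub (T.at1.smul ze).Pp).left, T.aa,
        ← map_mul, ← map_mul]
      simp only [zero_add, pow_one, pow_zero, one_smul]
      congr 1; ring

lemma XY3 : T.x3 ^ 6 * T.y3 ^ 6 = T.j (dd T.z1 T.z3 * dd T.z2 T.z3 * mas T.z3) := by
  rw [tele (G := fun k => qq T.t1 (ze ^ (k + 0) • T.t3) T.z1 T.z3 *
    qq T.t2 (ze ^ (k + 0) • T.t3) T.z2 T.z3 * (T.z3 - Pp (ze ^ (k + 1) • T.t3))) ?_
    fun k => ((T.x3t1.qq (T.x3t3.step _) T.x3z1 T.x3z3).mul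
      (T.x3t2.qq (T.x3t3.step _) T.x3z2 T.x3z3)).mul (T.x3z3.sub (T.x3t3.step _).Pp)]
  · rw [Finset.prod_mul_distrib, Finset.prod_mul_distrib, prod_qq T.t3_6 T.t1_6,
      prod_qq T.t3_6 T.t2_6, prod_Pp T.t3_6]; rfl
  calc T.x3 * T.y3 = T.b * (T.a * (T.sg * T.ta * (T.a * T.b))) := by
        simp only [x3, y3, mul_assoc]
    _ = _ := by
      rw [T.st, (T.az1.sub (T.at1.smul ze).Pp).left, ← mul_assoc T.a, T.aa,
        (T.bz2.sub (T.bt2.smul ze).Pp).left, (T.bt1.qq T.bt2 T.bz1 T.bz2).left, T.bb,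
        ← map_mul, ← map_mul]
      simp only [zero_add, pow_one, pow_zero, one_smul]
      congr 1; ring

lemma quad_Ap (w : B) : T.Ap 0 + T.Ap 1 * T.j w + T.Ap 2 * T.j w ^ 2 =
    T.x1 ^ 6 * T.j ((w - T.z2) * (w - T.z3)) + T.x2 ^ 6 * T.j ((w - T.z1) * (w - T.z3)) +
      T.x3 ^ 6 * T.j ((w - T.z1) * (w - T.z2)) := by
  have e : ∀ x y : B, (w - x) * (w - y) = gg 0 x y + gg 1 x y * w + gg 2 x y * w ^ 2 :=
    fun x y => by simp [gg]; ring
  simp only [e, Ap, map_add, map_mul, map_pow, mul_add, add_mul, mul_assoc]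
  abel

lemma quad_Am (w : B) : T.Am 0 + T.j w * T.Am 1 + T.j w ^ 2 * T.Am 2 =
    T.j ((w - T.z2) * (w - T.z3)) * T.y1 ^ 6 + T.j ((w - T.z1) * (w - T.z3)) * T.y2 ^ 6 +
      T.j ((w - T.z1) * (w - T.z2)) * T.y3 ^ 6 := by
  have e : ∀ x y : B, (w - x) * (w - y) = gg 0 x y + w * gg 1 x y + w ^ 2 * gg 2 x y :=
    fun x y => by simp [gg]; ring
  simp only [e, Am, map_add, map_mul, map_pow, mul_add, add_mul, mul_assoc]
  abel

end TS

end Pool.Agent.P.MP_f9c8fc_ag
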